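import Pool.Agent.Lib.MP_60922f_co.FIN.Calc55
import Pool.Agent.Lib.MP_60922f_co.FIN.PN24
import Pool.Agent.Lib.MP_60922f_co.FIN.M9main43

/-!
LC (structure of colourings without infinite sum-product sequences): definitions and calculus of
almost periodic functions in mean, double means.
-/

set_option autoImplicit false

open Filter Topology

namespace Pool.Agent.LC79
open Pool.Agent.FinA Pool.Agent.FinClique
open Pool.Agent.FinA.M9m (B2 mm)

variable {S : MeanSys} {F G : ℤ → ℝ}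

/-- `L¹(m)` modulus of continuity of a function -/
noncomputable def modu (S : MeanSys) (F : ℤ → ℝ) (t : ℤ) : ℝ := S.m (fun x => |F (x + t) - F x|)

/-- almost periodic in mean -/
def AP1 (S : MeanSys) (F : ℤ → ℝ) : Prop := Bdd F ∧ PN (modu S F)

/-- weakly mixing in mean -/
def WM (S : MeanSys) (ψ : ℤ → ℝ) : Prop :=
  Bdd ψ ∧ ∀ v : ℕ, 0 < v → ∀ F, Bdd F → S.m (fun a => |S.m (fun n => F n * ψ (n + v * a))|) = 0

/-- `φ` is the projection of `g` on the almost periodic functions -/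
def IsPr (S : MeanSys) (g φ : ℤ → ℝ) : Prop := U01 φ ∧ AP1 S φ ∧ WM S (fun n => g n - φ n)

/-- `1` where `f (z + t) ≠ f z`, else `0` -/
noncomputable def Df (f : ℕ → Bool) (t z : ℤ) : ℝ := if f (z + t).toNat = f z.toNat then 0 else 1

/-- the K-move: `f (v n + u w) = f (u n + v w)` for `n ∈ Y` and almost every `w ∈ Y'` -/
def Kmv (S : MeanSys) (f : ℕ → Bool) (Y Y' : Set ℤ) (u v : ℕ) : Prop :=
  ∀ n ∈ Y, S.m (ind {w | w ∈ Y' ∧ f (v * n + u * w).toNat ≠ f (u * n + v * w).toNat}) = 0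

lemma Df_U01 (f : ℕ → Bool) (t : ℤ) : U01 (Df f t) := fun z => by
  unfold Df; split_ifs <;> norm_num

lemma Df_bdd (f : ℕ → Bool) (t : ℤ) : Bdd (Df f t) := (Df_U01 f t).bdd

/-- cocycle inequality -/
lemma Df_add_le (f : ℕ → Bool) (s t z : ℤ) : Df f (s + t) z ≤ Df f s z + Df f t (z + s) := by
  unfold Df
  rw [show z + (s + t) = z + s + t by ring]
  by_cases h1 : f (z + s).toNat = f z.toNat
  · by_cases h2 : f (z + s + t).toNat = f (z + s).toNat
    · rw [if_pos h1, if_pos h2, if_pos (h2.trans h1)]; norm_num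
    · rw [if_neg h2]; split_ifs <;> norm_num
  · rw [if_neg h1]; split_ifs <;> norm_num

/-- difference inequality -/
lemma Df_sub_le (f : ℕ → Bool) (s t z : ℤ) : Df f s (z + t) ≤ Df f (s + t) z + Df f t z := by
  unfold Df
  rw [show z + (s + t) = z + t + s by ring]
  by_cases h1 : f (z + t).toNat = f z.toNat
  · rw [h1]; by_cases h2 : f (z + t + s).toNat = f z.toNat
    · rw [if_pos h2]; norm_num
    · rw [if_neg h2]; norm_num
  · rw [if_neg h1]; split_ifs <;> norm_num

/-- chain inequality -/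
lemma Df_mul_le (f : ℕ → Bool) (s : ℤ) (q : ℕ) (z : ℤ) :
    Df f (q * s) z ≤ ∑ l ∈ Finset.range q, Df f s (z + l * s) := by
  induction q with
  | zero => simp [Df]
  | succ q ih =>
    rw [Finset.sum_range_succ]
    have h := Df_add_le f (q * s) s z
    rw [show ((q + 1 : ℕ) : ℤ) * s = q * s + s by push_cast; ring]
    linarith

/-! ### the modulus -/

lemma modu_bdd_fun (hF : Bdd F) (t : ℤ) : Bdd (fun x => |F (x + t) - F x|) :=
  ((hF.shift t).sub hF).abs

lemma modu_nonneg (hF : Bdd F) (t : ℤ) : 0 ≤ modu S F t :=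
  S.pf.nonneg (modu_bdd_fun hF t) fun _ => abs_nonneg _

lemma modu_zero : modu S F 0 = 0 := by
  unfold modu
  simp only [add_zero, sub_self, abs_zero]
  exact S.pf.zero

lemma modu_neg (hF : Bdd F) (t : ℤ) : modu S F (-t) = modu S F t := by
  unfold modu
  rw [← S.m_shift t (modu_bdd_fun hF (-t))]
  refine S.pf.congr fun x => ?_
  rw [show x + t + -t = x by ring, abs_sub_comm]

lemma modu_add (hF : Bdd F) (s t : ℤ) : modu S F (s + t) ≤ modu S F s + modu S F t := by
  have h1 : modu S F t = S.m (fun x => |F (x + s + t) - F (x + s)|) := by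
    unfold modu
    exact (S.m_shift s (modu_bdd_fun hF t)).symm
  rw [h1]
  unfold modu
  rw [← S.pf.add (modu_bdd_fun hF s) (((hF.comp (fun x => x + s + t)).sub (hF.shift s)).abs)]
  refine S.pf.mono (modu_bdd_fun hF _) ((modu_bdd_fun hF s).add
    (((hF.comp (fun x => x + s + t)).sub (hF.shift s)).abs)) fun x => ?_
  rw [show x + (s + t) = x + s + t by ring]
  have := abs_add_le (F (x + s) - F x) (F (x + s + t) - F (x + s))
  rw [show F (x + s) - F x + (F (x + s + t) - F (x + s)) = F (x + s + t) - F x by ring] at this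
  exact this

/-- a function is almost periodic as soon as its modulus is below a totally bounded pseudonorm -/
lemma AP1.of_le {N : ℤ → ℝ} (hF : Bdd F) (hN : PN N) (h : ∀ t, modu S F t ≤ N t) : AP1 S F :=
  ⟨hF, PN.of_le hN (modu_nonneg hF) modu_zero (modu_neg hF) (modu_add hF) h⟩

lemma AP1.bdd (h : AP1 S F) : Bdd F := h.1

lemma AP1.pn (h : AP1 S F) : PN (modu S F) := h.2

/-- pointwise Lipschitz functions are almost periodic -/
lemma AP1.of_lip {N : ℤ → ℝ} (hF : Bdd F) (hN : PN N) (h : ∀ n t, |F (n + t) - F n| ≤ N t) :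
    AP1 S F :=
  AP1.of_le hF hN fun t => S.pf.le_of_le (modu_bdd_fun hF t) fun n => h n t

lemma AP1.const (c : ℝ) : AP1 S (fun _ => c) :=
  AP1.of_lip (Bdd.const c) PN.const_zero fun n t => by simp

lemma AP1.add (hF : AP1 S F) (hG : AP1 S G) : AP1 S (fun n => F n + G n) := by
  refine AP1.of_le (hF.bdd.add hG.bdd) (PN.sum2 hF.pn hG.pn) fun t => ?_
  unfold modu
  rw [← S.pf.add (modu_bdd_fun hF.bdd t) (modu_bdd_fun hG.bdd t)]
  refine S.pf.mono (modu_bdd_fun (hF.bdd.add hG.bdd) t)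
    ((modu_bdd_fun hF.bdd t).add (modu_bdd_fun hG.bdd t)) fun x => ?_
  have := abs_add_le (F (x + t) - F x) (G (x + t) - G x)
  rw [show F (x + t) - F x + (G (x + t) - G x) = F (x + t) + G (x + t) - (F x + G x) by ring] at this
  exact this

lemma AP1.neg (hF : AP1 S F) : AP1 S (fun n => -F n) := by
  refine AP1.of_le hF.bdd.neg hF.pn fun t => le_of_eq ?_
  unfold modu
  refine S.pf.congr fun x => ?_
  rw [← abs_neg]; congr 1; ring

lemma AP1.sub (hF : AP1 S F) (hG : AP1 S G) : AP1 S (fun n => F n - G n) := by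
  simpa [sub_eq_add_neg] using hF.add hG.neg

/-- product rule with explicit constants -/
lemma modu_mul_le {C D : ℝ} (hF : ∀ n, |F n| ≤ C) (hG : ∀ n, |G n| ≤ D) (t : ℤ) :
    modu S (fun n => F n * G n) t ≤ D * modu S F t + C * modu S G t := by
  have hFb : Bdd F := ⟨C, hF⟩
  have hGb : Bdd G := ⟨D, hG⟩
  unfold modu
  rw [← S.pf.smul D (modu_bdd_fun hFb t), ← S.pf.smul C (modu_bdd_fun hGb t),
    ← S.pf.add ((modu_bdd_fun hFb t).smul D) ((modu_bdd_fun hGb t).smul C)]
  refine S.pf.mono (modu_bdd_fun (hFb.mul hGb) t)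
    (((modu_bdd_fun hFb t).smul D).add ((modu_bdd_fun hGb t).smul C)) fun x => ?_
  have e : F (x + t) * G (x + t) - F x * G x =
      (F (x + t) - F x) * G (x + t) + F x * (G (x + t) - G x) := by ring
  rw [e]
  refine (abs_add_le _ _).trans ?_
  rw [abs_mul, abs_mul]
  have h1 : |F (x + t) - F x| * |G (x + t)| ≤ |F (x + t) - F x| * D :=
    mul_le_mul_of_nonneg_left (hG _) (abs_nonneg _)
  have h2 : |F x| * |G (x + t) - G x| ≤ C * |G (x + t) - G x| :=
    mul_le_mul_of_nonneg_right (hF _) (abs_nonneg _)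
  linarith

lemma AP1.mul (hF : AP1 S F) (hG : AP1 S G) : AP1 S (fun n => F n * G n) := by
  obtain ⟨C, hC0, hC⟩ := hF.bdd.nonneg_bound
  obtain ⟨D, hD0, hD⟩ := hG.bdd.nonneg_bound
  exact AP1.of_le (hF.bdd.mul hG.bdd) (PN.sum2 (PN.smul hF.pn hD0) (PN.smul hG.pn hC0))
    fun t => modu_mul_le hC hD t

lemma AP1.smul (c : ℝ) (hF : AP1 S F) : AP1 S (fun n => c * F n) := (AP1.const c).mul hF

lemma AP1.sq (hF : AP1 S F) : AP1 S (fun n => F n ^ 2) := by
  simpa [_root_.sq] using hF.mul hF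

lemma AP1.abs (hF : AP1 S F) : AP1 S (fun n => |F n|) := by
  refine AP1.of_le hF.bdd.abs hF.pn fun t => ?_
  exact S.pf.mono (modu_bdd_fun hF.bdd.abs t) (modu_bdd_fun hF.bdd t) fun x =>
    abs_abs_sub_abs_le_abs_sub _ _

lemma AP1.shift (hF : AP1 S F) (s : ℤ) : AP1 S (fun n => F (n + s)) := by
  refine AP1.of_le (hF.bdd.shift s) hF.pn fun t => le_of_eq ?_
  unfold modu
  rw [← S.m_shift s (modu_bdd_fun hF.bdd t)]
  refine S.pf.congr fun x => ?_
  simp only
  rw [show x + t + s = x + s + t by ring]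

/-- pull back along a dilation: the modulus of `w ↦ F (u w + s)` is at most `u` times the modulus -/
lemma modu_dil_le (hF : Bdd F) {u : ℕ} (hu : 0 < u) (s t : ℤ) :
    modu S (fun w => F (u * w + s)) t ≤ u * modu S F (u * t) := by
  have hb : Bdd (fun x => |F (x + s + u * t) - F (x + s)|) :=
    ((hF.comp (fun x => x + s + u * t)).sub (hF.shift s)).abs
  have h1 : modu S (fun w => F (u * w + s)) t =
      S.m (fun w => (fun x => |F (x + s + u * t) - F (x + s)|) (u * w)) := by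
    unfold modu
    refine S.pf.congr fun w => ?_
    simp only
    rw [show (u : ℤ) * (w + t) + s = u * w + s + u * t by ring]
  rw [h1, S.m_dil' hu hb]
  refine mul_le_mul_of_nonneg_left ?_ (Nat.cast_nonneg u)
  have h2 : modu S F (u * t) = S.m (fun x => |F (x + s + u * t) - F (x + s)|) := by
    unfold modu
    exact (S.m_shift s (modu_bdd_fun hF (u * t))).symm
  rw [h2]
  refine S.pf.mono ((ind_bdd _).mul hb) hb fun x => ?_
  have h3 := ind_le_one (cls 0 u) x
  have h4 : 0 ≤ |F (x + s + u * t) - F (x + s)| := abs_nonneg _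
  nlinarith

/-- a pseudonorm composed with a dilation -/
lemma PN.dil {N : ℤ → ℝ} (hN : PN N) (q : ℤ) : PN (fun t => N (q * t)) where
  nonneg := fun t => hN.nonneg _
  zero := by simpa using hN.zero
  neg := fun t => by rw [mul_neg]; exact hN.neg _
  add := fun s t => by rw [mul_add]; exact hN.add _ _
  tb := fun η hη => by
    classical
    obtain ⟨P, hP⟩ := hN.tb (η / 2) (by linarith)
    have hch : ∀ s : ℤ, ∃ r : ℤ, (∃ t, N (q * t - s) ≤ η / 2) → N (q * r - s) ≤ η / 2 := by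
      intro s
      by_cases h : ∃ t, N (q * t - s) ≤ η / 2
      · obtain ⟨t, ht⟩ := h
        exact ⟨t, fun _ => ht⟩
      · exact ⟨0, fun h' => absurd h' h⟩
    choose r hr using hch
    refine ⟨P.image r, fun t => ?_⟩
    obtain ⟨s, hs, hst⟩ := hP (q * t)
    refine ⟨r s, Finset.mem_image.mpr ⟨s, hs, rfl⟩, ?_⟩
    have h1 := hr s ⟨t, hst⟩
    have h2 := hN.add (q * t - s) (-(q * r s - s))
    rw [hN.neg] at h2
    have e : q * t - s + -(q * r s - s) = q * (t - r s) := by ring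
    rw [e] at h2
    linarith

lemma PN.mul_le {N : ℤ → ℝ} (hN : PN N) (k : ℕ) (t : ℤ) : N (k * t) ≤ k * N t := by
  induction k with
  | zero => simp [hN.zero]
  | succ k ih =>
    have h := hN.add (k * t) t
    rw [show ((k + 1 : ℕ) : ℤ) * t = k * t + t by push_cast; ring]
    push_cast
    linarith

lemma PN.mul_le_int {N : ℤ → ℝ} (hN : PN N) (k t : ℤ) : N (k * t) ≤ |(k : ℝ)| * N t := by
  obtain ⟨n, rfl | rfl⟩ := Int.eq_nat_or_neg k
  · simpa using PN.mul_le hN n t
  · rw [neg_mul, hN.neg]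
    simpa using PN.mul_le hN n t

lemma AP1.dil (hF : AP1 S F) {u : ℕ} (hu : 0 < u) (s : ℤ) : AP1 S (fun w => F (u * w + s)) :=
  AP1.of_le (hF.bdd.comp _) (PN.smul (PN.dil hF.pn u) (Nat.cast_nonneg u))
    fun t => modu_dil_le hF.bdd hu s t

/-! ### positivity of small balls -/

/-- small balls of a totally bounded pseudonorm have positive mean -/
lemma ball_pos (S : MeanSys) {N : ℤ → ℝ} (hN : PN N) {δ : ℝ} (hδ : 0 < δ) :
    0 < S.m (ind {t | N t ≤ δ}) := by
  obtain ⟨P, hP⟩ := hN.tb δ hδ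
  have h1 : (1 : ℝ) ≤ ∑ s ∈ P, S.m (ind {t | N (t - s) ≤ δ}) := by
    rw [← S.pf.sum P _ fun s _ => ind_bdd _, ← S.pf.one]
    refine S.pf.mono (Bdd.const 1) (Bdd.sum P _ fun s _ => ind_bdd _) fun t => ?_
    obtain ⟨s, hs, hst⟩ := hP t
    calc (1 : ℝ) = ind {t | N (t - s) ≤ δ} t := (ind_of_mem hst).symm
      _ ≤ _ := Finset.single_le_sum (f := fun s => ind {t | N (t - s) ≤ δ} t)
          (fun s _ => ind_nonneg _ _) hs
  have h2 : ∀ s, S.m (ind {t | N (t - s) ≤ δ}) = S.m (ind {t | N t ≤ δ}) := fun s =>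
    S.m_shift_sub s (ind_bdd {t | N t ≤ δ})
  by_contra hc
  have h3 : S.m (ind {t | N t ≤ δ}) = 0 := S.pf.ind_eq_zero_of_le (not_lt.1 hc)
  have h4 : ∑ s ∈ P, S.m (ind {t | N (t - s) ≤ δ}) = 0 :=
    Finset.sum_eq_zero fun s _ => (h2 s).trans h3
  linarith

/-- in a small ball there are points outside any null set -/
lemma exists_small (S : MeanSys) {N : ℤ → ℝ} (hN : PN N) {δ : ℝ} (hδ : 0 < δ) {B : Set ℤ}
    (hB : S.m (ind B) = 0) : ∃ a, N a ≤ δ ∧ a ∉ B := by
  by_contra hc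
  push Not at hc
  have h1 : {t | N t ≤ δ} ⊆ B := fun t ht => hc t ht
  have := S.pf.null_mono h1 hB
  have := ball_pos S hN hδ
  linarith

/-! ### double means -/

lemma B2.prod (hF : Bdd F) (hG : Bdd G) : B2 (fun n w => F n * G w) := by
  obtain ⟨C, hC0, hC⟩ := hF.nonneg_bound
  obtain ⟨D, hD0, hD⟩ := hG.nonneg_bound
  exact ⟨C * D, fun n w => by
    rw [abs_mul]; exact mul_le_mul (hC n) (hD w) (abs_nonneg _) hC0⟩

/-- shift invariance of the double mean -/
lemma mm_shift {Φ : ℤ → ℤ → ℝ} (h : B2 Φ) (a b : ℤ) :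
    mm S (fun n w => Φ (n + a) (w + b)) = mm S Φ := by
  unfold M9m.mm
  have h1 : ∀ n, S.m (fun w => Φ (n + a) (w + b)) = S.m (fun w => Φ (n + a) w) := fun n =>
    S.m_shift b (h.row (n + a))
  rw [S.pf.congr h1]
  exact S.m_shift a (h.outer S)

lemma mm_nonneg {Φ : ℤ → ℤ → ℝ} (h : B2 Φ) (h0 : ∀ n w, 0 ≤ Φ n w) : 0 ≤ mm S Φ :=
  S.pf.nonneg (h.outer S) fun n => S.pf.nonneg (h.row n) (h0 n)

lemma mm_le_one {Φ : ℤ → ℤ → ℝ} (h : B2 Φ) (h0 : ∀ n w, Φ n w ≤ 1) : mm S Φ ≤ 1 :=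
  S.pf.le_of_le (h.outer S) fun n => S.pf.le_of_le (h.row n) (h0 n)

end Pool.Agent.LC79
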