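import Pool.Agent.Lib.MP_60922f_co.LC.Fin3_79

/-!
LC: the elementary form of the structure theorem (S2) over log windows.
-/

set_option autoImplicit false

open Filter Topology

namespace Pool.Agent.LC79
open Pool.Agent.FinA Pool.Agent.FinClique

lemma wd_nonneg {A B : ℕ} (hA : 0 < A) (hAB : A ≤ B) (c : ℕ → Bool) (t : ℕ) : 0 ≤ wd c A B t := by
  unfold wd
  apply div_nonneg
  · exact Finset.sum_nonneg fun n _ => by positivity
  · apply Real.log_nonneg
    rw [le_div_iff₀ (by exact_mod_cast hA)]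
    rw [one_mul]; exact_mod_cast hAB

lemma wd_le_two {A B : ℕ} (hA : 0 < A) (h3 : (3 : ℝ) ≤ (B : ℝ) / A) (c : ℕ → Bool) (t : ℕ) :
    wd c A B t ≤ 2 := by
  have hA' : (1 : ℝ) ≤ A := by exact_mod_cast hA
  have hAB : A ≤ B := by
    rw [le_div_iff₀ (by linarith)] at h3
    have : (A : ℝ) ≤ B := by nlinarith
    exact_mod_cast this
  have hl : 1 ≤ Real.log ((B : ℝ) / A) := by
    have h1 : Real.exp 1 ≤ (B : ℝ) / A := by
      have := Real.exp_one_lt_d9
      linarith
    have := Real.log_le_log (Real.exp_pos 1) h1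
    rwa [Real.log_exp] at this
  unfold wd
  rw [div_le_iff₀ (by linarith)]
  have h1 : ∑ n ∈ (Finset.Ico A B).filter (fun n => Even n ∧ c (n + t) ≠ c n), (1 / (n : ℝ)) ≤
      ∑ n ∈ Finset.Ico A B, (1 / (n : ℝ)) :=
    Finset.sum_le_sum_of_subset_of_nonneg (Finset.filter_subset _ _) fun n _ _ => by positivity
  have h2 := harm_le_log hA hAB
  have h4 : 1 / (A : ℝ) ≤ 1 := by rw [div_le_one (by linarith)]; exact hA'
  have h5 : 0 ≤ 1 / (B : ℝ) := by positivity
  linarith

/-- elementary form of the structure theorem -/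
theorem stat2 (hLW : LW) (hV2 : ∀ S : MeanSys, V2 S) (c : ℕ → Bool) : HasSeq c ∨
    ∀ A B : ℕ → ℕ, Tendsto A atTop atTop → Tendsto (fun j => (B j : ℝ) / A j) atTop atTop →
      ∃ (φ : ℕ → ℕ) (d : ℕ → ℝ), StrictMono φ ∧
        (∀ t, Tendsto (fun j => wd c (A (φ j)) (B (φ j)) t) atTop (𝓝 (d t))) ∧
        ∀ ε > (0 : ℝ), ∃ M : ℕ, 0 < M ∧ ∀ k : ℕ, d (k * M) ≤ ε := by
  by_cases hc : HasSeq c
  · exact Or.inl hc
  refine Or.inr fun A B hA hB => ?_
  have hbad : InfBad c := by
    by_contra h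
    exact hc ((hasSeq_iff c).2 h)
  -- a subsequence along which all densities converge
  obtain ⟨j₀, hj₀⟩ : ∃ j₀, ∀ j ≥ j₀, 1 ≤ A j ∧ (3 : ℝ) ≤ (B j : ℝ) / A j := by
    have := (hA.eventually_ge_atTop 1).and (hB.eventually_ge_atTop 3)
    rw [eventually_atTop] at this
    exact this
  have hK : IsCompact (Set.pi Set.univ fun _ : ℕ => Set.Icc (0 : ℝ) 2) :=
    isCompact_univ_pi fun _ => isCompact_Icc
  obtain ⟨d, -, ψ, hψ, hd⟩ := hK.tendsto_subseq
    (x := fun j t => wd c (A (j + j₀)) (B (j + j₀)) t) (fun j => by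
      rw [Set.mem_univ_pi]
      intro t
      obtain ⟨h1, h2⟩ := hj₀ (j + j₀) (by omega)
      have hA0 : (0 : ℝ) < A (j + j₀) := by exact_mod_cast h1
      refine ⟨wd_nonneg h1 ?_ c t, wd_le_two h1 h2 c t⟩
      rw [le_div_iff₀ hA0] at h2
      have : (A (j + j₀) : ℝ) ≤ B (j + j₀) := by nlinarith
      exact_mod_cast this)
  rw [tendsto_pi_nhds] at hd
  have hφ : StrictMono (fun j => ψ j + j₀) := fun a b hab => by
    have := hψ hab
    simp only
    omega
  refine ⟨fun j => ψ j + j₀, d, hφ, fun t => hd t, ?_⟩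
  -- the mean
  obtain ⟨S, χ, hχ, hS⟩ := hLW (fun j => A (ψ j + j₀)) (fun j => B (ψ j + j₀))
    (hA.comp hφ.tendsto_atTop) (hB.comp hφ.tendsto_atTop)
  have key : ∀ t : ℕ, Ne S c t = d t := by
    intro t
    have hbdd : Bdd (fun z : ℤ => if Even z then Df c t z else 0) := by
      refine ⟨1, fun z => ?_⟩
      have := Df_U01 c t z
      simp only
      split_ifs
      · rw [abs_of_nonneg this.1]; exact this.2
      · simp
    unfold Ne
    apply S.m_eq hbdd
    have h1 : Tendsto (fun k => wd c (A (ψ (χ k) + j₀)) (B (ψ (χ k) + j₀)) t) atTop (𝓝 (d t)) :=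
      (hd t).comp hχ.tendsto_atTop
    -- ratio of the logarithm and the harmonic sum
    have hAt : Tendsto (fun k => A (ψ (χ k) + j₀)) atTop atTop :=
      (hA.comp hφ.tendsto_atTop).comp hχ.tendsto_atTop
    have hBt : Tendsto (fun k => (B (ψ (χ k) + j₀) : ℝ) / A (ψ (χ k) + j₀)) atTop atTop :=
      (hB.comp hφ.tendsto_atTop).comp hχ.tendsto_atTop
    have hlog : Tendsto (fun k => Real.log ((B (ψ (χ k) + j₀) : ℝ) / A (ψ (χ k) + j₀)))
        atTop atTop := Real.tendsto_log_atTop.comp hBt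
    have h2 : Tendsto (fun k => Real.log ((B (ψ (χ k) + j₀) : ℝ) / A (ψ (χ k) + j₀)) /
        ∑ n ∈ Finset.Ico (A (ψ (χ k) + j₀)) (B (ψ (χ k) + j₀)), (1 / (n : ℝ))) atTop (𝓝 1) := by
      have hlow : Tendsto (fun k => 1 - 1 / (Real.log ((B (ψ (χ k) + j₀) : ℝ) / A (ψ (χ k) + j₀))))
          atTop (𝓝 1) := by
        have := (tendsto_const_nhds (x := (1 : ℝ))).sub (tendsto_inv_atTop_zero.comp hlog)
        simpa using this
      refine tendsto_of_tendsto_of_tendsto_of_le_of_le' hlow tendsto_const_nhds ?_ ?_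
      · filter_upwards [hlog.eventually_ge_atTop 1, hAt.eventually_ge_atTop 1,
          hBt.eventually_ge_atTop 3] with k k1 k2 k3
        have hA0 : (0 : ℝ) < A (ψ (χ k) + j₀) := by exact_mod_cast k2
        have hAB : A (ψ (χ k) + j₀) ≤ B (ψ (χ k) + j₀) := by
          rw [le_div_iff₀ hA0] at k3
          have : (A (ψ (χ k) + j₀) : ℝ) ≤ B (ψ (χ k) + j₀) := by nlinarith
          exact_mod_cast this
        have u1 := harm_le_log k2 hAB
        have u2 := log_le_harm k2 hAB
        have u3 : 1 / (A (ψ (χ k) + j₀) : ℝ) ≤ 1 := by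
          rw [div_le_one hA0]; exact_mod_cast k2
        have u4 : 0 ≤ 1 / (B (ψ (χ k) + j₀) : ℝ) := by positivity
        set l := Real.log ((B (ψ (χ k) + j₀) : ℝ) / A (ψ (χ k) + j₀))
        set s := ∑ n ∈ Finset.Ico (A (ψ (χ k) + j₀)) (B (ψ (χ k) + j₀)), (1 / (n : ℝ))
        have hs : 0 < s := by linarith
        rw [le_div_iff₀ hs]
        have v1 : s ≤ l + 1 := by linarith
        have v2 : 0 < l := by linarith
        have v3 : 0 ≤ 1 - 1 / l := by
          rw [sub_nonneg, div_le_one v2]; exact k1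
        calc (1 - 1 / l) * s ≤ (1 - 1 / l) * (l + 1) := mul_le_mul_of_nonneg_left v1 v3
          _ = l - 1 / l := by field_simp; ring
          _ ≤ l := by
            have : 0 ≤ 1 / l := by positivity
            linarith
      · filter_upwards [hlog.eventually_ge_atTop 1, hAt.eventually_ge_atTop 1,
          hBt.eventually_ge_atTop 3] with k k1 k2 k3
        have hA0 : (0 : ℝ) < A (ψ (χ k) + j₀) := by exact_mod_cast k2
        have hAB : A (ψ (χ k) + j₀) ≤ B (ψ (χ k) + j₀) := by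
          rw [le_div_iff₀ hA0] at k3
          have : (A (ψ (χ k) + j₀) : ℝ) ≤ B (ψ (χ k) + j₀) := by nlinarith
          exact_mod_cast this
        have u2 := log_le_harm k2 hAB
        exact div_le_one_of_le₀ u2 (by linarith)
    have h3 := h1.mul h2
    rw [mul_one] at h3
    refine (h3.mono_left S.free).congr' ?_
    filter_upwards [S.U_ev (hlog.eventually_ge_atTop 1)] with k k1
    rw [hS k]
    unfold wd
    have hl0 : Real.log ((B (ψ (χ k) + j₀) : ℝ) / A (ψ (χ k) + j₀)) ≠ 0 := by linarith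
    rw [div_mul_div_cancel₀ hl0]
    congr 1
    rw [Finset.sum_filter]
    refine Finset.sum_congr rfl fun n _ => ?_
    have e1 : ((n : ℤ) + (t : ℤ)).toNat = n + t := by
      rw [← Nat.cast_add, Int.toNat_natCast]
    have e2 : Even (n : ℤ) ↔ Even n := Int.even_coe_nat n
    unfold Df
    rw [e1, Int.toNat_natCast]
    by_cases h4 : Even n
    · by_cases h5 : c (n + t) = c n
      · simp [h4, h5]
      · simp [h4, h5]
    · simp [h4]
  intro ε hε
  obtain ⟨M, hM, -, hk⟩ := hV2 S c hbad ε hε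
  refine ⟨M, hM, fun k => ?_⟩
  rw [← key (k * M)]
  have := hk k
  rwa [show (M : ℤ) * (k : ℤ) = ((k * M : ℕ) : ℤ) by push_cast; ring] at this

end Pool.Agent.LC79
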