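import Pool.Agent.Lib.MP_60922f_co.LC.StmtsS3_79

/-!
LC: the elementary forms of S3 and of the structure theorem over log windows.
-/

set_option autoImplicit false

open Filter Topology

namespace Pool.Agent.LC79
open Pool.Agent.FinA Pool.Agent.FinClique

/-- logarithm of the quotient against the harmonic sum, lower bound -/
lemma log_le_harm {A B : ℕ} (hA : 0 < A) (hAB : A ≤ B) :
    Real.log ((B : ℝ) / A) ≤ ∑ n ∈ Finset.Ico A B, (1 / (n : ℝ)) := by
  induction B, hAB using Nat.le_induction with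
  | base =>
    have : (A : ℝ) ≠ 0 := by exact_mod_cast hA.ne'
    simp [div_self this]
  | succ B hAB ih =>
    rw [Finset.sum_Ico_succ_top hAB]
    have hB : (0 : ℝ) < B := by exact_mod_cast hA.trans_le hAB
    have hA' : (0 : ℝ) < A := by exact_mod_cast hA
    have e : ((B + 1 : ℕ) : ℝ) / A = (B : ℝ) / A * (1 + 1 / B) := by
      push_cast; field_simp
    rw [e, Real.log_mul (by positivity) (by positivity)]
    have h1 : Real.log (1 + 1 / (B : ℝ)) ≤ 1 / B := by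
      have := Real.log_le_sub_one_of_pos (show (0 : ℝ) < 1 + 1 / B by positivity)
      linarith
    linarith

/-- upper bound -/
lemma harm_le_log {A B : ℕ} (hA : 0 < A) (hAB : A ≤ B) :
    ∑ n ∈ Finset.Ico A B, (1 / (n : ℝ)) ≤ Real.log ((B : ℝ) / A) + 1 / A - 1 / B := by
  induction B, hAB using Nat.le_induction with
  | base =>
    have : (A : ℝ) ≠ 0 := by exact_mod_cast hA.ne'
    simp [div_self this]
  | succ B hAB ih =>
    rw [Finset.sum_Ico_succ_top hAB]
    have hB : (0 : ℝ) < B := by exact_mod_cast hA.trans_le hAB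
    have hA' : (0 : ℝ) < A := by exact_mod_cast hA
    have e : ((B + 1 : ℕ) : ℝ) / A = (B : ℝ) / A * ((B + 1) / B) := by
      push_cast; field_simp
    rw [e, Real.log_mul (by positivity) (by positivity)]
    have h1 : 1 / ((B : ℝ) + 1) ≤ Real.log (((B : ℝ) + 1) / B) := by
      have h2 := Real.log_le_sub_one_of_pos (show (0 : ℝ) < B / (B + 1) by positivity)
      have h3 : Real.log (((B : ℝ) + 1) / B) = -Real.log (B / (B + 1)) := by
        rw [← Real.log_inv, inv_div]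
      rw [h3]
      have h4 : (B : ℝ) / (B + 1) - 1 = -(1 / (B + 1)) := by field_simp; ring
      linarith
    push_cast
    linarith

lemma Fr_U01 (f : ℕ → Bool) : U01 (Fr f) := fun z => by unfold Fr; split_ifs <;> norm_num

/-- no drift along log windows, on the multiples of `R` -/
def NoDriftW (c : ℕ → Bool) (R : ℕ) (A B : ℕ → ℕ) : Prop :=
  ∀ q a : ℕ, 0 < q → R ∣ q → R ∣ a → ∃ d : ℝ, ∀ ε > (0 : ℝ), ∃ K₀ : ℕ, ∀ K : ℕ, K₀ ≤ K →
    ∀ᶠ j in atTop, ∑ n ∈ Finset.Ico (A j) (B j), (1 / (n : ℝ)) *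
      |(∑ k ∈ Finset.range K, (if c (q * (n + k) + a) then (1 : ℝ) else 0)) / K - d| ≤
      ε * Real.log (B j / A j)

lemma avg_bdd (f : ℕ → Bool) (q : ℕ) (a : ℤ) (K : ℕ) (d : ℝ) :
    Bdd (fun n : ℤ => |(∑ k ∈ Finset.range K, Fr f (q * (n + k) + a)) / K - d|) := by
  apply Bdd.abs
  apply Bdd.sub _ (Bdd.const d)
  apply Bdd.div_const
  exact Bdd.sum _ (fun (k : ℕ) (n : ℤ) => Fr f (q * (n + k) + a))
    fun k _ => (Fr_U01 f).bdd.comp (fun n : ℤ => q * (n + k) + a)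

theorem noDrift_of (c : ℕ → Bool) (R : ℕ) (A B : ℕ → ℕ) (hA : Tendsto A atTop atTop)
    (hB : Tendsto (fun j => (B j : ℝ) / A j) atTop atTop) (h : NoDriftW c R A B)
    (S : MeanSys) (φ : ℕ → ℕ) (hφ : StrictMono φ) (hS : ∀ (k : ℕ) (F : ℤ → ℝ),
      S.nu k F = (∑ n ∈ Finset.Ico (A (φ k)) (B (φ k)), (1 / (n : ℝ)) * F n) /
        ∑ n ∈ Finset.Ico (A (φ k)) (B (φ k)), (1 / (n : ℝ))) : NoDrift S c R := by
  intro q a hq hRq hRa
  -- a natural representative of the class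
  obtain ⟨a', m, ha'⟩ : ∃ (a' : ℕ) (m : ℤ), a = a' - q * m := by
    refine ⟨(a + q * |a|).toNat, |a|, ?_⟩
    have hq' : (1 : ℤ) ≤ q := by exact_mod_cast hq
    have h1 : 0 ≤ a + q * |a| := by
      have := neg_abs_le a
      have := abs_nonneg a
      nlinarith
    rw [Int.toNat_of_nonneg h1]; ring
  have hRa' : R ∣ a' := by
    have h1 : (R : ℤ) ∣ a' := by
      have : (a' : ℤ) = a + q * m := by rw [ha']; ring
      rw [this]
      exact dvd_add hRa (Dvd.dvd.mul_right (Int.natCast_dvd_natCast.2 hRq) m)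
    exact_mod_cast h1
  obtain ⟨d, hd⟩ := h q a' hq hRq hRa'
  refine ⟨d, fun ε hε => ?_⟩
  obtain ⟨K₀, hK₀⟩ := hd ε hε
  refine ⟨K₀, fun K hK => ?_⟩
  have e1 : S.m (fun n => |(∑ k ∈ Finset.range K, Fr c (q * (n + k) + a)) / K - d|) =
      S.m (fun n => |(∑ k ∈ Finset.range K, Fr c (q * (n + k) + a')) / K - d|) := by
    rw [← S.m_shift_sub m (avg_bdd c q a' K d)]
    refine S.pf.congr fun n => ?_
    have e : ∀ k : ℕ, (q : ℤ) * (n + k) + a = q * (n - m + k) + a' := fun k => by rw [ha']; ring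
    simp only [e]
  rw [e1]
  refine le_of_tendsto (S.tendsto_nu (avg_bdd c q a' K d)) ?_
  have hev : ∀ᶠ k in atTop, _ := hφ.tendsto_atTop.eventually (hK₀ K hK)
  have hev2 : ∀ᶠ k in atTop, 1 ≤ A (φ k) :=
    (hA.comp hφ.tendsto_atTop).eventually_ge_atTop 1
  have hev3 : ∀ᶠ k in atTop, (2 : ℝ) ≤ (B (φ k) : ℝ) / A (φ k) :=
    (hB.comp hφ.tendsto_atTop).eventually_ge_atTop 2
  filter_upwards [S.U_ev hev, S.U_ev hev2, S.U_ev hev3] with k h1 h2 h3
  have hA0 : (0 : ℝ) < A (φ k) := by exact_mod_cast h2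
  have hAB : A (φ k) ≤ B (φ k) := by
    rw [le_div_iff₀ hA0] at h3
    have : (A (φ k) : ℝ) ≤ B (φ k) := by nlinarith
    exact_mod_cast this
  have hlog : 0 < Real.log ((B (φ k) : ℝ) / A (φ k)) := Real.log_pos (by linarith)
  have hsum := log_le_harm h2 hAB
  rw [hS k]
  rw [div_le_iff₀ (hlog.trans_le hsum)]
  refine le_trans (le_of_eq ?_) (h1.trans (mul_le_mul_of_nonneg_left hsum hε.le))
  refine Finset.sum_congr rfl fun n _ => ?_
  have e : ∀ k : ℕ, Fr c ((q : ℤ) * ((n : ℤ) + k) + a') = if c (q * (n + k) + a') then (1 : ℝ) else 0 := by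
    intro k
    unfold Fr
    have : ((q : ℤ) * ((n : ℤ) + k) + a').toNat = q * (n + k) + a' := by
      have : ((q : ℤ) * ((n : ℤ) + k) + a') = ((q * (n + k) + a' : ℕ) : ℤ) := by push_cast; ring
      rw [this, Int.toNat_natCast]
    rw [this]
  simp only [e]

/-- the conclusion of Q1 -/
def HasSeq (c : ℕ → Bool) : Prop := ∃ x : ℕ → ℕ, StrictMono x ∧ (∀ i, 1 ≤ x i) ∧
  ∃ b : Bool, ∀ i j, i ≠ j → c (x i + x j) = b ∧ c (x i * x j) = b

lemma hasSeq_iff (c : ℕ → Bool) : HasSeq c ↔ ¬ InfBad c := by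
  unfold InfBad
  rw [not_not]
  constructor
  · rintro ⟨x, hx, h1, b, hb⟩
    exact ⟨x, hx, h1, b, fun i j hij => hb i j hij.ne⟩
  · rintro ⟨x, hx, h1, b, hb⟩
    refine ⟨x, hx, h1, b, fun i j hij => ?_⟩
    rcases lt_or_gt_of_ne hij with h | h
    · exact hb i j h
    · have := hb j i h
      rwa [add_comm, mul_comm] at this

/-- elementary form of S3 -/
theorem stat3 (hLW : LW) (hS3 : ∀ S : MeanSys, S3 S) (c : ℕ → Bool) (R : ℕ) (hR : 0 < R)
    (A B : ℕ → ℕ) (hA : Tendsto A atTop atTop)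
    (hB : Tendsto (fun j => (B j : ℝ) / A j) atTop atTop) (h : NoDriftW c R A B) : HasSeq c := by
  rw [hasSeq_iff]
  obtain ⟨S, φ, hφ, hS⟩ := hLW A B hA hB
  refine hS3 S c (2 * R) (by omega) (dvd_mul_right 2 R) ?_
  refine noDrift_of c (2 * R) A B hA hB (fun q a hq h1 h2 => ?_) S φ hφ hS
  exact h q a hq ((dvd_mul_left R 2).trans h1) ((dvd_mul_left R 2).trans h2)

/-- log density of the even `n` in the window `[A, B)` with `c (n + t) ≠ c n` -/
noncomputable def wd (c : ℕ → Bool) (A B t : ℕ) : ℝ :=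
  (∑ n ∈ (Finset.Ico A B).filter (fun n => Even n ∧ c (n + t) ≠ c n), (1 / (n : ℝ))) /
    Real.log (B / A)

end Pool.Agent.LC79
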