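import Pool.Agent.Lib.MP_60922f_co.LC.StmtsS3_79
import Mathlib.Combinatorics.Hindman

/-!
LC, module ID: the idempotent argument.
-/

set_option autoImplicit false

open Filter Topology

namespace Pool.Agent.LC79
open Pool.Agent.FinA Pool.Agent.FinClique

namespace ID38

attribute [local instance] Ultrafilter.mul Ultrafilter.semigroup

variable {S : MeanSys} {R : ℕ}

/-- every class contains a class almost all of whose elements lie in `D` -/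
def Big (S : MeanSys) (R : ℕ) (D : Set ℕ) : Prop := ∀ (Q : ℕ) (a : ℤ), 0 < Q → R ∣ Q →
  (R : ℤ) ∣ a → ∃ (Q₁ : ℕ) (a₁ : ℤ), 0 < Q₁ ∧ Q ∣ Q₁ ∧ (Q : ℤ) ∣ a₁ - a ∧
    S.m (ind {z | z ∈ cls a₁ Q₁ ∧ z.toNat ∉ D}) = 0

lemma mem_cls {a z : ℤ} {Q : ℕ} : z ∈ cls a Q ↔ (Q : ℤ) ∣ z - a := Iff.rfl

lemma Big.mono {D E : Set ℕ} (h : Big S R D) (hDE : D ⊆ E) : Big S R E := by
  intro Q a hQ hRQ ha
  obtain ⟨Q₁, a₁, h1, h2, h3, h4⟩ := h Q a hQ hRQ ha
  refine ⟨Q₁, a₁, h1, h2, h3, S.pf.null_mono ?_ h4⟩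
  rintro z ⟨hz, hz'⟩
  exact ⟨hz, fun hc => hz' (hDE hc)⟩

lemma Big.inter {D E : Set ℕ} (h : Big S R D) (h' : Big S R E) : Big S R (D ∩ E) := by
  intro Q a hQ hRQ ha
  obtain ⟨Q₁, a₁, h1, h2, h3, h4⟩ := h Q a hQ hRQ ha
  have hRa : (R : ℤ) ∣ a₁ := by
    have := (Int.natCast_dvd_natCast.2 hRQ).trans h3
    simpa using this.add ha
  obtain ⟨Q₂, a₂, k1, k2, k3, k4⟩ := h' Q₁ a₁ h1 (hRQ.trans h2) hRa
  refine ⟨Q₂, a₂, k1, h2.trans k2, ?_, ?_⟩
  · have := ((Int.natCast_dvd_natCast.2 h2).trans k3).add h3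
    simpa using this
  · refine S.pf.null_mono ?_ (S.pf.null_union h4 k4)
    rintro z ⟨hz, hzD⟩
    have hz' : z ∈ cls a₁ Q₁ := by
      rw [mem_cls] at hz ⊢
      have := ((Int.natCast_dvd_natCast.2 k2).trans hz).add k3
      simpa using this
    by_cases hD : z.toNat ∈ D
    · exact Or.inr ⟨hz, fun hE => hzD ⟨hD, hE⟩⟩
    · exact Or.inl ⟨hz', hD⟩

lemma Big.of_null {D : Set ℕ} (h : S.m (ind {z | z.toNat ∉ D}) = 0) : Big S R D := by
  intro Q a hQ hRQ ha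
  refine ⟨Q, a, hQ, dvd_rfl, by simp, S.pf.null_mono (fun z hz => hz.2) h⟩

lemma Big.ge (n : ℕ) : Big S R {x | n ≤ x} := by
  apply Big.of_null
  apply S.m_ind_bddAbove
  refine ⟨n, fun z hz => ?_⟩
  simp only [Set.mem_ofPred_eq, not_le] at hz
  omega

/-- nullity passes to the dilated set -/
lemma null_dil {B : Set ℤ} (hB : S.m (ind B) = 0) {x : ℕ} (hx : 0 < x) :
    S.m (ind {y : ℤ | (x : ℤ) * y ∈ B}) = 0 := by
  have h1 : S.m (ind {y : ℤ | (x : ℤ) * y ∈ B}) = S.m (fun y => ind B (x * y)) := rfl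
  rw [h1, S.m_dil' hx (ind_bdd B)]
  have h2 : S.m (fun n => ind (cls 0 x) n * ind B n) = 0 := by
    refine S.pf.eq_zero_of_null ((ind_bdd _).mul (ind_bdd _)) hB fun n hn => ?_
    rw [ind_of_notMem hn, mul_zero]
  rw [h2, mul_zero]

lemma Big.dil {D : Set ℕ} (h : Big S R D) {x : ℕ} (hx : 0 < x) :
    Big S R {y | x * y ∈ D} := by
  intro Q a hQ hRQ ha
  obtain ⟨Q₁, a₁, h1, h2, h3, h4⟩ := h (x * Q) (x * a) (Nat.mul_pos hx hQ)
    (hRQ.mul_left x) (ha.mul_left _)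
  obtain ⟨Q₂, rfl⟩ : x ∣ Q₁ := (Dvd.intro _ rfl).trans h2
  have hxa : (x : ℤ) ∣ a₁ := by
    have := ((Dvd.intro (Q : ℤ) rfl : (x : ℤ) ∣ x * Q).trans (by simpa using h3)).add
      (Dvd.intro a rfl : (x : ℤ) ∣ x * a)
    simpa using this
  obtain ⟨a₂, rfl⟩ := hxa
  have hx0 : (x : ℤ) ≠ 0 := by exact_mod_cast hx.ne'
  refine ⟨Q₂, a₂, ?_, ?_, ?_, ?_⟩
  · exact Nat.pos_of_ne_zero (by rintro rfl; simp at h1)
  · exact Nat.dvd_of_mul_dvd_mul_left hx h2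
  · rw [← mul_sub] at h3
    push_cast at h3
    exact (mul_dvd_mul_iff_left hx0).1 h3
  · refine S.pf.null_mono ?_ (null_dil h4 hx)
    rintro y ⟨hy, hyD⟩
    refine ⟨?_, ?_⟩
    · rw [mem_cls] at hy ⊢
      push_cast
      rw [← mul_sub]
      exact mul_dvd_mul_left _ hy
    · intro hc
      apply hyD
      have : ((x : ℤ) * y).toNat = x * y.toNat := by
        rcases le_or_gt 0 y with hy0 | hy0
        · obtain ⟨k, rfl⟩ := Int.eq_ofNat_of_zero_le hy0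
          rw [← Nat.cast_mul, Int.toNat_natCast, Int.toNat_natCast]
        · have h5 : (x : ℤ) * y ≤ 0 := mul_nonpos_of_nonneg_of_nonpos (by positivity) hy0.le
          rw [Int.toNat_of_nonpos h5, Int.toNat_of_nonpos hy0.le, mul_zero]
      rwa [Set.mem_ofPred_eq, ← this]

/-- the filter generated by the big sets and the multiples of the positive integers -/
def G (S : MeanSys) (R : ℕ) : Filter ℕ where
  sets := {E | ∃ D, Big S R D ∧ ∃ r : ℕ, 0 < r ∧ ∀ x ∈ D, r ∣ x → x ∈ E}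
  univ_sets := ⟨Set.univ, (Big.ge 0).mono (fun _ _ => trivial), 1, one_pos, fun _ _ _ => trivial⟩
  sets_of_superset := by
    rintro E F ⟨D, hD, r, hr, h⟩ hEF
    exact ⟨D, hD, r, hr, fun x hx hrx => hEF (h x hx hrx)⟩
  inter_sets := by
    rintro E F ⟨D, hD, r, hr, h⟩ ⟨D', hD', r', hr', h'⟩
    exact ⟨D ∩ D', hD.inter hD', r * r', Nat.mul_pos hr hr', fun x hx hrx =>
      ⟨h x hx.1 ((Dvd.intro _ rfl).trans hrx), h' x hx.2 ((Dvd.intro_left _ rfl).trans hrx)⟩⟩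

lemma mem_G {E : Set ℕ} : E ∈ G S R ↔ ∃ D, Big S R D ∧ ∃ r : ℕ, 0 < r ∧
    ∀ x ∈ D, r ∣ x → x ∈ E := Iff.rfl

lemma Big.mem_G {D : Set ℕ} (h : Big S R D) : D ∈ G S R :=
  ⟨D, h, 1, one_pos, fun _ hx _ => hx⟩

lemma dvd_mem_G {r : ℕ} (hr : 0 < r) : {x | r ∣ x} ∈ G S R :=
  ⟨{x | 0 ≤ x}, Big.ge 0, r, hr, fun _ _ h => h⟩

lemma class_pos (a : ℤ) {Q : ℕ} (hQ : 0 < Q) {B : Set ℤ} (hB : S.m (ind B) = 0) :
    ∃ z ∈ cls a Q, z ∉ B ∧ 0 < z := by
  by_contra hc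
  push Not at hc
  have h1 : cls a Q ⊆ B ∪ {z | z ≤ 0} := fun z hz => by
    by_cases hzB : z ∈ B
    · exact Or.inl hzB
    · exact Or.inr (hc z hz hzB)
  have h2 := S.pf.null_mono h1 (S.pf.null_union hB S.m_ind_nonpos)
  rw [S.m_cls a hQ] at h2
  have : (0 : ℝ) < 1 / Q := by positivity
  linarith

lemma G_neBot (hR : 0 < R) : (G S R).NeBot := by
  rw [← forall_mem_nonempty_iff_neBot]
  rintro E ⟨D, hD, r, hr, h⟩
  obtain ⟨Q₁, a₁, h1, h2, h3, h4⟩ := hD (R * r) 0 (Nat.mul_pos hR hr) (Dvd.intro _ rfl)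
    (dvd_zero _)
  obtain ⟨z, hz, hz', hz0⟩ := class_pos a₁ h1 h4
  refine ⟨z.toNat, h _ ?_ ?_⟩
  · by_contra hc
    exact hz' ⟨hz, hc⟩
  · have h5 : ((r : ℕ) : ℤ) ∣ z := by
      rw [mem_cls] at hz
      have h6 : ((R * r : ℕ) : ℤ) ∣ z := by
        have := ((Int.natCast_dvd_natCast.2 h2).trans hz).add h3
        simpa using this
      exact (Int.natCast_dvd_natCast.2 (Dvd.intro_left _ rfl)).trans h6
    rw [← Int.natCast_dvd_natCast, Int.toNat_of_nonneg hz0.le]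
    exact h5

lemma mem_G_mul {E : Set ℕ} (hE : E ∈ G S R) {x : ℕ} (hx : 0 < x) : {y | x * y ∈ E} ∈ G S R := by
  obtain ⟨D, hD, r, hr, h⟩ := hE
  exact ⟨_, hD.dil hx, r, hr, fun y hy hry => h _ hy (hry.mul_left x)⟩

/-- an idempotent ultrafilter finer than `G` -/
lemma exists_idem (hR : 0 < R) : ∃ q : Ultrafilter ℕ, (q : Filter ℕ) ≤ G S R ∧ q * q = q := by
  have h1 : ({q : Ultrafilter ℕ | (q : Filter ℕ) ≤ G S R}).Nonempty := by
    have := G_neBot (S := S) hR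
    exact ⟨Ultrafilter.of (G S R), Ultrafilter.of_le _⟩
  have h2 : IsClosed {q : Ultrafilter ℕ | (q : Filter ℕ) ≤ G S R} := by
    have h3 : {q : Ultrafilter ℕ | (q : Filter ℕ) ≤ G S R} =
        ⋂ E ∈ G S R, {q : Ultrafilter ℕ | E ∈ q} := by
      ext q
      simp only [Set.mem_ofPred_eq, Set.mem_iInter]
      rfl
    rw [h3]
    exact isClosed_biInter fun E _ => ultrafilter_isClosed_basic E
  obtain ⟨q, hq, hqq⟩ := exists_idempotent_in_compact_subsemigroup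
    (Ultrafilter.continuous_mul_left (M := ℕ)) _ h1 h2.isCompact (by
      intro p hp q hq E hE
      show ∀ᶠ x in (↑(p * q) : Filter ℕ), x ∈ E
      rw [Ultrafilter.eventually_mul]
      filter_upwards [hp (Big.ge 1).mem_G] with x hx
      exact hq (mem_G_mul hE hx))
  exact ⟨q, hq, hqq⟩

/-- `f` has the value `b` almost everywhere on a class of `z` -/
def Loc (S : MeanSys) (f : ℕ → Bool) (z : ℤ) (b : Bool) : Prop :=
  ∃ Q : ℕ, 0 < Q ∧ S.m (ind {w | w ∈ cls z Q ∧ f w.toNat ≠ b}) = 0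

lemma big_loc {f : ℕ → Bool} (h : LocC S f R) :
    Big S R {z | ∃ b, Loc S f z b ∧ f z = b} := by
  intro Q a hQ hRQ ha
  obtain ⟨Q₁, a₁, b, h1, h2, h3, h4⟩ := h Q a hQ hRQ ha
  refine ⟨Q₁, a₁, h1, h2, h3, S.pf.null_mono ?_ (S.pf.null_union h4 S.m_ind_nonpos)⟩
  rintro z ⟨hz, hz'⟩
  rcases le_or_gt z 0 with h0 | h0
  · exact Or.inr h0
  · refine Or.inl ⟨hz, fun hb => hz' ⟨b, ⟨Q₁, h1, ?_⟩, hb⟩⟩
    rw [Int.toNat_of_nonneg h0.le]
    refine S.pf.null_mono ?_ h4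
    rintro w ⟨hw, hw'⟩
    refine ⟨?_, hw'⟩
    rw [mem_cls] at hz hw ⊢
    simpa using hw.add hz

lemma loc_add {f : ℕ → Bool} {z : ℕ} {b : Bool} (h : Loc S f z b) :
    {x | f (z + x) = b} ∈ G S R := by
  obtain ⟨Q, hQ, h⟩ := h
  refine ⟨{x | (z : ℤ) + x ∉ {w | w ∈ cls z Q ∧ f w.toNat ≠ b}}, Big.of_null ?_, Q, hQ, ?_⟩
  · have h1 := S.m_shift_left z (ind_bdd {w | w ∈ cls z Q ∧ f w.toNat ≠ b})
    rw [h] at h1
    have h2 : S.m (ind {x : ℤ | (z : ℤ) + x ∈ {w | w ∈ cls z Q ∧ f w.toNat ≠ b}}) = 0 := h1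
    refine S.pf.null_mono ?_ (S.pf.null_union h2 S.m_ind_nonpos)
    intro x hx
    rcases le_or_gt x 0 with h0 | h0
    · exact Or.inr h0
    · refine Or.inl ?_
      simp only [Set.mem_ofPred_eq, not_not] at hx ⊢
      rwa [Int.toNat_of_nonneg h0.le] at hx
  · intro x hx hQx
    simp only [Set.mem_ofPred_eq] at hx ⊢
    by_contra hc
    apply hx
    refine ⟨?_, ?_⟩
    · rw [mem_cls]
      simpa using Int.natCast_dvd_natCast.2 hQx
    · rw [← Nat.cast_add, Int.toNat_natCast]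
      exact hc

end ID38

open ID38 in
attribute [local instance] Ultrafilter.mul Ultrafilter.semigroup in
theorem id_ (S : MeanSys) : ID S := by
  intro f R hR hL hbad
  apply hbad
  obtain ⟨q, hq, hqq⟩ := exists_idem (S := S) hR
  obtain ⟨c, hc⟩ : ∃ c, ∀ᶠ z : ℕ in (q : Filter ℕ), Loc S f z c ∧ f z = c := by
    have h1 : ∀ᶠ z : ℕ in (q : Filter ℕ), ∃ b, Loc S f z b ∧ f z = b := hq (big_loc hL).mem_G
    have h2 : ∀ᶠ z : ℕ in (q : Filter ℕ), (Loc S f z true ∧ f z = true) ∨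
        (Loc S f z false ∧ f z = false) := by
      filter_upwards [h1] with z ⟨b, hb⟩
      cases b
      · exact Or.inr hb
      · exact Or.inl hb
    rcases Ultrafilter.eventually_or.1 h2 with h | h
    · exact ⟨_, h⟩
    · exact ⟨_, h⟩
  have h1 : ∀ᶠ x in (q : Filter ℕ), ∀ᶠ y in (q : Filter ℕ), f (x + y) = c := by
    filter_upwards [hc] with x hx
    exact hq (loc_add hx.1)
  have h2 : ∀ᶠ x in (q : Filter ℕ), ∀ᶠ y in (q : Filter ℕ), f (x * y) = c := by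
    have h3 : ∀ᶠ x in (↑(q * q) : Filter ℕ), f x = c := by
      rw [hqq]
      exact hc.mono fun x hx => hx.2
    exact (Ultrafilter.eventually_mul q q _).1 h3
  have hge : ∀ n : ℕ, ∀ᶠ x in (q : Filter ℕ), n ≤ x := fun n => hq (Big.ge n).mem_G
  obtain ⟨a, ha, ha'⟩ := exists_seq_of_forall_finset_exists
    (fun x : ℕ => 1 ≤ x ∧ ∀ᶠ y in (q : Filter ℕ), f (x + y) = c ∧ f (x * y) = c)
    (fun x y : ℕ => x < y ∧ f (x + y) = c ∧ f (x * y) = c) (by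
      intro s hs
      have h4 : ∀ᶠ y in (q : Filter ℕ), ∀ x ∈ s, x < y ∧ f (x + y) = c ∧ f (x * y) = c := by
        rw [Finset.eventually_all]
        intro x hx
        filter_upwards [hge (x + 1), (hs x hx).2] with y hy hy'
        exact ⟨hy, hy'⟩
      obtain ⟨y, hy⟩ := (h4.and ((hge 1).and (h1.and h2))).exists
      exact ⟨y, ⟨hy.2.1, hy.2.2.1.and hy.2.2.2⟩, hy.1⟩)
  refine ⟨a, strictMono_nat_of_lt_succ fun n => (ha' n (n + 1) n.lt_succ_self).1,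
    fun i => (ha i).1, c, fun i j hij => (ha' i j hij).2⟩

end Pool.Agent.LC79
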