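import Pool.Agent.Lib.MP_60922f_co.LC.Stmts79
import Pool.Agent.Lib.MP_60922f_co.FIN.M4_42

/-!
LC, module LA: the projection of a function with values in `[0,1]` on the almost periodic
functions has an honest representative with values in `[0,1]`.
-/

set_option autoImplicit false

open Filter Topology

namespace Pool.Agent.LC79
open Pool.Agent.FinA Pool.Agent.FinClique
open Pool.Agent.FinA.M4x Pool.Agent.FinA.MeanSys

namespace LA42

variable {S : MeanSys}

/-- truncation to `[0,1]` -/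
noncomputable def tau (y : ℝ) : ℝ := max 0 (min 1 y)

lemma tau_nonneg (y : ℝ) : 0 ≤ tau y := le_max_left _ _

lemma tau_le_one (y : ℝ) : tau y ≤ 1 := max_le zero_le_one (min_le_left _ _)

lemma tau_U01 (F : ℤ → ℝ) : U01 (fun n => tau (F n)) := fun _ => ⟨tau_nonneg _, tau_le_one _⟩

lemma tau_id {y : ℝ} (h0 : 0 ≤ y) (h1 : y ≤ 1) : tau y = y := by
  unfold tau
  rw [min_eq_right h1, max_eq_right h0]

lemma tau_lip (x y : ℝ) : |tau x - tau y| ≤ |x - y| := by
  unfold tau
  refine (abs_max_sub_max_le_max _ _ _ _).trans ?_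
  rw [sub_self, abs_zero]
  refine max_le (abs_nonneg _) ?_
  refine (abs_min_sub_min_le_max _ _ _ _).trans ?_
  rw [sub_self, abs_zero]
  exact max_le (abs_nonneg _) le_rfl

lemma norm_iota_le {F G : ℤ → ℝ} (hF : Bdd F) (hG : Bdd G) (h : ∀ n, |F n| ≤ |G n|) :
    ‖S.iota F‖ ≤ ‖S.iota G‖ := by
  have h1 : ‖S.iota F‖ ^ 2 ≤ ‖S.iota G‖ ^ 2 := by
    rw [norm_iota_sq hF, norm_iota_sq hG]
    exact S.pf.mono hF.sq hG.sq fun n => sq_le_sq.2 (h n)
  exact (sq_le_sq₀ (norm_nonneg _) (norm_nonneg _)).1 h1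

/-- the orbit of an almost periodic vector gives a totally bounded pseudonorm -/
lemma pn_orbit {p : S.H} (hp : AP S.T p) : PN (fun t => ‖S.T t p - p‖) where
  nonneg := fun t => norm_nonneg _
  zero := by rw [T_zero, sub_self, norm_zero]
  neg := fun t => by
    have h1 := norm_T_sub_T (S := S) 0 t p
    rw [T_zero, zero_sub] at h1
    rw [← h1, norm_sub_rev]
  add := fun s t => by
    have h1 : S.T (s + t) p - p = S.T s (S.T t p - p) + (S.T s p - p) := by
      rw [T_add, map_sub]; abel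
    rw [h1]
    refine (norm_add_le _ _).trans ?_
    rw [norm_T, add_comm]
  tb := fun η hη => by
    obtain ⟨α, hα, c, hc⟩ := hp η hη
    classical
    have := Fintype.ofFinite α
    let P : Finset ℤ := Finset.univ.image fun a : α =>
      if h : ∃ t, c t = a then Classical.choose h else 0
    refine ⟨P, fun t => ?_⟩
    have hex : ∃ t', c t' = c t := ⟨t, rfl⟩
    refine ⟨Classical.choose hex, ?_, ?_⟩
    · refine Finset.mem_image.2 ⟨c t, Finset.mem_univ _, ?_⟩
      rw [dif_pos hex]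
    · have h1 := hc t (Classical.choose hex) (Classical.choose_spec hex).symm
      rw [norm_T_sub_T] at h1
      exact h1

/-- the modulus is bounded by the norm of the displacement -/
lemma modu_le_norm {G : ℤ → ℝ} (hG : Bdd G) (t : ℤ) :
    modu S G t ≤ ‖S.T t (S.iota G) - S.iota G‖ := by
  rw [T_iota t hG, ← iota_sub (hG.shift t) hG, norm_iota ((hG.shift t).sub hG)]
  exact S.pf.abs_le_sqrt ((hG.shift t).sub hG)

/-- honest representative of the projection -/
lemma rep (h2 : M2a S) {g : ℤ → ℝ} (hg : U01 g) {p : S.H} (hp : AP S.T p)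
    (hpo : ∀ q, AP S.T q → inner ℝ q (S.iota g - p) = 0) :
    ∃ G : ℤ → ℝ, U01 G ∧ S.iota G = p := by
  have hgb : Bdd g := hg.bdd
  have hpos : ∀ r : ℕ, (0 : ℝ) < 1 / (r + 1) := fun r => by positivity
  choose φ hφ hφp using fun r : ℕ => iota_dense (S := S) p (hpos r)
  have hFb : ∀ r, Bdd (fun n => tau (φ r n)) := fun r => (tau_U01 (φ r)).bdd
  obtain ⟨G, hG, hGl⟩ := h2 (fun r n => tau (φ r n)) (fun r => tau_U01 (φ r)) (by
    intro ε hε
    obtain ⟨R, hR⟩ := exists_nat_gt (4 / ε)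
    refine ⟨R, fun r s hr hs => ?_⟩
    have e1 : S.m (fun n => (tau (φ r n) - tau (φ s n)) ^ 2) ≤
        S.m (fun n => (φ r n - φ s n) ^ 2) :=
      S.pf.mono ((hFb r).sub (hFb s)).sq ((hφ r).sub (hφ s)).sq fun n =>
        sq_le_sq.2 (tau_lip _ _)
    have e2 : S.m (fun n => (φ r n - φ s n) ^ 2) = ‖S.iota (φ r) - S.iota (φ s)‖ ^ 2 := by
      rw [← iota_sub (hφ r) (hφ s), norm_iota_sq ((hφ r).sub (hφ s))]
    have e3 : ‖S.iota (φ r) - S.iota (φ s)‖ ≤ 2 / (R + 1) := by
      have a1 : S.iota (φ r) - S.iota (φ s) = (p - S.iota (φ s)) - (p - S.iota (φ r)) := by abel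
      rw [a1]
      refine (norm_sub_le _ _).trans ?_
      have a2 : (1 : ℝ) / (r + 1) ≤ 1 / (R + 1) :=
        one_div_le_one_div_of_le (by positivity) (by
          have : (R : ℝ) ≤ r := by exact_mod_cast hr
          linarith)
      have a3 : (1 : ℝ) / (s + 1) ≤ 1 / (R + 1) :=
        one_div_le_one_div_of_le (by positivity) (by
          have : (R : ℝ) ≤ s := by exact_mod_cast hs
          linarith)
      have a4 : (2 : ℝ) / (R + 1) = 1 / (R + 1) + 1 / (R + 1) := by ring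
      rw [a4]
      exact add_le_add ((hφp s).trans a3) ((hφp r).trans a2)
    have hR0 : (0 : ℝ) < R + 1 := by positivity
    have e4 : (2 / ((R : ℝ) + 1)) ^ 2 ≤ ε := by
      rw [div_pow, div_le_iff₀ (by positivity)]
      rw [div_lt_iff₀ hε] at hR
      have hR1 : (1 : ℝ) ≤ R + 1 := by
        have : (0 : ℝ) ≤ R := Nat.cast_nonneg R
        linarith
      nlinarith
    calc S.m (fun n => (tau (φ r n) - tau (φ s n)) ^ 2)
        ≤ ‖S.iota (φ r) - S.iota (φ s)‖ ^ 2 := e1.trans_eq e2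
      _ ≤ (2 / ((R : ℝ) + 1)) ^ 2 := pow_le_pow_left₀ (norm_nonneg _) e3 2
      _ ≤ ε := e4)
  have hGb : Bdd G := hG.bdd
  refine ⟨G, hG, ?_⟩
  -- closeness
  have close : ∀ δ > (0 : ℝ), ∃ r, ‖p - S.iota (φ r)‖ ≤ δ ∧
      ‖S.iota (fun n => tau (φ r n)) - S.iota G‖ ≤ δ := by
    intro δ hδ
    obtain ⟨R, hR⟩ := hGl (δ ^ 2) (by positivity)
    obtain ⟨R', hR'⟩ := exists_nat_gt (1 / δ)
    refine ⟨max R R', ?_, ?_⟩
    · refine (hφp _).trans ?_
      rw [div_le_iff₀ (by positivity)]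
      rw [div_lt_iff₀ hδ] at hR'
      have : (R' : ℝ) ≤ ((max R R' : ℕ) : ℝ) := by exact_mod_cast le_max_right R R'
      nlinarith
    · have h1 := hR (max R R') (le_max_left _ _)
      rw [← norm_iota_sq (S := S) ((hFb _).sub hGb), iota_sub (hFb _) hGb] at h1
      exact (sq_le_sq₀ (norm_nonneg _) hδ.le).1 h1
  -- distance to `g`
  have ha : ‖S.iota g - S.iota G‖ ≤ ‖S.iota g - p‖ := by
    refine le_of_forall_pos_le_add fun ε hε => ?_
    obtain ⟨r, h1, h3⟩ := close (ε / 2) (by positivity)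
    have h4 : ‖S.iota g - S.iota (fun n => tau (φ r n))‖ ≤ ‖S.iota g - S.iota (φ r)‖ := by
      rw [← iota_sub hgb (hFb r), ← iota_sub hgb (hφ r)]
      refine norm_iota_le (hgb.sub (hFb r)) (hgb.sub (hφ r)) fun n => ?_
      have := tau_lip (g n) (φ r n)
      rwa [tau_id (hg n).1 (hg n).2] at this
    have h5 : ‖S.iota g - S.iota G‖ ≤ ‖S.iota g - S.iota (fun n => tau (φ r n))‖ +
        ‖S.iota (fun n => tau (φ r n)) - S.iota G‖ := norm_sub_le_norm_sub_add_norm_sub _ _ _
    have h6 : ‖S.iota g - S.iota (φ r)‖ ≤ ‖S.iota g - p‖ + ‖p - S.iota (φ r)‖ :=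
      norm_sub_le_norm_sub_add_norm_sub _ _ _
    linarith
  -- displacement
  have hd : ∀ t, ‖S.T t (S.iota G) - S.iota G‖ ≤ ‖S.T t p - p‖ := by
    intro t
    refine le_of_forall_pos_le_add fun ε hε => ?_
    obtain ⟨r, h1, h3⟩ := close (ε / 4) (by positivity)
    set x := S.iota (fun n => tau (φ r n)) with hx
    have h4 : ‖S.T t x - x‖ ≤ ‖S.T t (S.iota (φ r)) - S.iota (φ r)‖ := by
      rw [hx, T_iota t (hFb r), T_iota t (hφ r), ← iota_sub ((hFb r).shift t) (hFb r),
        ← iota_sub ((hφ r).shift t) (hφ r)]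
      exact norm_iota_le (((hFb r).shift t).sub (hFb r)) (((hφ r).shift t).sub (hφ r))
        fun n => tau_lip _ _
    have h5 : S.T t (S.iota G) - S.iota G = (S.T t x - x) - S.T t (x - S.iota G) +
        (x - S.iota G) := by rw [map_sub]; abel
    have h6 : S.T t (S.iota (φ r)) - S.iota (φ r) = (S.T t p - p) - S.T t (p - S.iota (φ r)) +
        (p - S.iota (φ r)) := by rw [map_sub]; abel
    have h7 : ‖S.T t (S.iota G) - S.iota G‖ ≤ ‖S.T t x - x‖ + ‖x - S.iota G‖ + ‖x - S.iota G‖ := by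
      rw [h5]
      refine (norm_add_le _ _).trans (add_le_add ((norm_sub_le _ _).trans ?_) le_rfl)
      rw [norm_T]
    have h8 : ‖S.T t (S.iota (φ r)) - S.iota (φ r)‖ ≤ ‖S.T t p - p‖ + ‖p - S.iota (φ r)‖ +
        ‖p - S.iota (φ r)‖ := by
      rw [h6]
      refine (norm_add_le _ _).trans (add_le_add ((norm_sub_le _ _).trans ?_) le_rfl)
      rw [norm_T]
    linarith
  have hGAP : AP S.T (S.iota G) := by
    intro ε hε
    obtain ⟨α, hα, c, hc⟩ := hp ε hε
    refine ⟨α, hα, c, fun t t' h => ?_⟩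
    have h1 := hc t t' h
    rw [norm_T_sub_T] at h1 ⊢
    exact (hd _).trans h1
  have hdiff : AP S.T (p - S.iota G) := (APsub S.T).sub_mem (x := p) (y := S.iota G) hp hGAP
  have h0 := hpo _ hdiff
  have h0' : (inner ℝ (S.iota g - p) (p - S.iota G) : ℝ) = 0 := by rw [real_inner_comm]; exact h0
  have h1 : ‖S.iota g - S.iota G‖ ^ 2 = ‖S.iota g - p‖ ^ 2 + ‖p - S.iota G‖ ^ 2 := by
    have e : S.iota g - S.iota G = (S.iota g - p) + (p - S.iota G) := by abel
    rw [e, ← real_inner_self_eq_norm_sq, inner_add_left, inner_add_right, inner_add_right, h0,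
      h0', real_inner_self_eq_norm_sq, real_inner_self_eq_norm_sq]
    ring
  have h3 : ‖p - S.iota G‖ ^ 2 ≤ 0 := by
    have := pow_le_pow_left₀ (norm_nonneg _) ha 2
    linarith
  have h4 : ‖p - S.iota G‖ = 0 := by
    have := sq_nonneg ‖p - S.iota G‖
    exact pow_eq_zero_iff (two_ne_zero) |>.1 (le_antisymm h3 this)
  exact (sub_eq_zero.1 (norm_eq_zero.1 h4)).symm

/-- finite averages of correlations -/
lemma fin_le (k : ℕ) (x h : S.H) (v : ℕ) :
    (S.nu k (fun a => |inner ℝ x (S.T (v * a) h)|)) ^ 2 ≤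
      ‖x‖ ^ 2 * dd S k (fun t => |(inner ℝ (S.T (v * t) h) h : ℝ)|) := by
  classical
  let s : ℤ → ℝ := fun a => if 0 ≤ (inner ℝ x (S.T (v * a) h) : ℝ) then 1 else -1
  have hs1 : ∀ a, |s a| ≤ 1 := fun a => by
    simp only [s]; split_ifs <;> simp
  have hs2 : ∀ a, s a * inner ℝ x (S.T (v * a) h) = |(inner ℝ x (S.T (v * a) h) : ℝ)| := fun a => by
    simp only [s]
    split_ifs with h0
    · rw [abs_of_nonneg h0, one_mul]
    · rw [abs_of_neg (not_le.1 h0), neg_one_mul]
  set y : S.H := ∑ a ∈ S.blk k, (S.wt k a * s a) • S.T (v * a) h with hy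
  have h1 : S.nu k (fun a => |inner ℝ x (S.T (v * a) h)|) = inner ℝ x y := by
    rw [hy, inner_sum]
    unfold MeanSys.nu
    refine Finset.sum_congr rfl fun a _ => ?_
    rw [real_inner_smul_right, mul_assoc, hs2]
  have h2 : ‖y‖ ^ 2 ≤ dd S k (fun t => |(inner ℝ (S.T (v * t) h) h : ℝ)|) := by
    rw [← real_inner_self_eq_norm_sq]
    nth_rw 1 [hy]
    rw [sum_inner]
    unfold dd MeanSys.nu
    refine Finset.sum_le_sum fun a _ => ?_
    rw [real_inner_smul_left, hy, inner_sum, mul_assoc]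
    refine mul_le_mul_of_nonneg_left ?_ (S.wt_nonneg k a)
    rw [Finset.mul_sum]
    refine Finset.sum_le_sum fun b _ => ?_
    have e : (inner ℝ (S.T (v * a) h) (S.T (v * b) h) : ℝ) =
        inner ℝ (S.T (v * (b - a)) h) h := by
      rw [real_inner_comm, T_adj', ← T_add]
      congr 2
      ring_nf
    rw [real_inner_smul_right, e]
    have b1 := hs1 a
    have b2 := hs1 b
    set z : ℝ := inner ℝ (S.T (v * (b - a)) h) h
    calc s a * (S.wt k b * s b * z) ≤ |s a * (S.wt k b * s b * z)| := le_abs_self _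
      _ = S.wt k b * (|s a| * |s b| * |z|) := by
          rw [abs_mul, abs_mul, abs_mul, abs_of_nonneg (S.wt_nonneg k b)]; ring
      _ ≤ S.wt k b * |z| := by
          refine mul_le_mul_of_nonneg_left ?_ (S.wt_nonneg k b)
          have := mul_le_mul b1 b2 (abs_nonneg _) zero_le_one
          have h3 := mul_le_mul_of_nonneg_right this (abs_nonneg z)
          linarith
  rw [h1]
  have h3 := abs_real_inner_le_norm x y
  calc (inner ℝ x y : ℝ) ^ 2 = |(inner ℝ x y : ℝ)| ^ 2 := (sq_abs _).symm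
    _ ≤ (‖x‖ * ‖y‖) ^ 2 := pow_le_pow_left₀ (abs_nonneg _) h3 2
    _ = ‖x‖ ^ 2 * ‖y‖ ^ 2 := by ring
    _ ≤ _ := mul_le_mul_of_nonneg_left h2 (by positivity)

/-- a function whose class is orthogonal to the almost periodic vectors is weakly mixing -/
lemma wm_of_orth {ψ : ℤ → ℝ} (hψ : Bdd ψ) (ho : ∀ q, AP S.T q → inner ℝ q (S.iota ψ) = 0) :
    WM S ψ := by
  refine ⟨hψ, fun v hv F hF => ?_⟩
  set h : S.H := S.iota ψ with hh
  obtain ⟨q, hq, hqh⟩ := core (T := S.T) (fun x => T_zero x) (fun s t x => T_add s t x)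
    (MM_IM S) h hv
  rw [ho q hq] at hqh
  have hb0 : Bdd (fun t => (inner ℝ (S.T (v * t) h) h : ℝ)) :=
    ⟨_, bdd_inner (T := S.T) (fun t => v * t) h h⟩
  -- the mean of the absolute value vanishes
  have hM0 : MM S (fun t => |(inner ℝ (S.T (v * t) h) h : ℝ)|) = 0 := by
    refine le_antisymm (le_of_forall_pos_le_add fun δ hδ => ?_)
      ((MM_IM S).const_le hb0.abs fun n => abs_nonneg _)
    have e1 : MM S (fun t => |(inner ℝ (S.T (v * t) h) h : ℝ)|) ≤
        MM S (fun t => δ + δ⁻¹ * (inner ℝ (S.T (v * t) h) h : ℝ) ^ 2) := by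
      refine (MM_IM S).mono _ _ hb0.abs ((Bdd.const δ).add (hb0.sq.smul _)) fun t => ?_
      set z : ℝ := inner ℝ (S.T (v * t) h) h
      have h6 : 0 ≤ (δ - |z|) ^ 2 * δ⁻¹ := by positivity
      have h7 : (δ - |z|) ^ 2 * δ⁻¹ = δ - 2 * |z| + δ⁻¹ * z ^ 2 := by
        rw [← sq_abs z]; field_simp; ring
      have h8 := abs_nonneg z
      linarith
    rw [(MM_IM S).add _ _ (Bdd.const δ) (hb0.sq.smul _), (MM_IM S).const,
      (MM_IM S).smul _ _ hb0.sq, ← hqh, mul_zero, add_zero] at e1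
    rw [zero_add]; exact e1
  -- the correlations
  have hcor : ∀ a : ℤ, S.m (fun n => F n * ψ (n + v * a)) = inner ℝ (S.iota F) (S.T (v * a) h) := by
    intro a
    rw [hh, T_iota _ hψ, inner_iota hF (hψ.shift _)]
  have hcb : Bdd (fun a : ℤ => |S.m (fun n => F n * ψ (n + v * a))|) := by
    refine ⟨‖S.iota F‖ * ‖h‖, fun a => ?_⟩
    rw [abs_abs, hcor]
    have := abs_real_inner_le_norm (S.iota F) (S.T (v * a) h)
    rwa [norm_T] at this
  have hlim1 := (S.tendsto_nu hcb).pow 2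
  have hlim2 := (MM_lim S hb0.abs).const_mul (‖S.iota F‖ ^ 2)
  rw [hM0, mul_zero] at hlim2
  have hle := le_of_tendsto_of_tendsto' hlim1 hlim2 fun k => by
    have := fin_le k (S.iota F) h v
    simp only [← hcor] at this
    exact this
  have h0 := sq_nonneg (S.m (fun a : ℤ => |S.m (fun n => F n * ψ (n + v * a))|))
  exact pow_eq_zero_iff (two_ne_zero) |>.1 (le_antisymm hle h0)

end LA42

open LA42 in
/-- LA holds for every mean system with honest limits -/
theorem la (S : MeanSys) (h2 : M2a S) : LA S := by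
  intro g hg
  have hgb : Bdd g := hg.bdd
  have : CompleteSpace (APsub S.T) := (APsub_closed S.T).completeSpace_coe
  obtain ⟨p, hp, hpo⟩ :=
    Submodule.HasOrthogonalProjection.exists_orthogonal (K := APsub S.T) (S.iota g)
  have hpAP : AP S.T p := hp
  have hort : ∀ q, AP S.T q → inner ℝ q (S.iota g - p) = 0 := fun q hq =>
    (Submodule.mem_orthogonal _ _).1 hpo q hq
  obtain ⟨G, hG, hGp⟩ := rep h2 hg hpAP hort
  have hGb : Bdd G := hG.bdd
  refine ⟨G, hG, AP1.of_le hGb (pn_orbit hpAP) fun t => ?_, wm_of_orth (hgb.sub hGb) fun q hq => ?_⟩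
  · have := modu_le_norm (S := S) hGb t
    rwa [hGp] at this
  · rw [iota_sub hgb hGb, hGp]
    exact hort q hq

end Pool.Agent.LC79
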