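import Pool.Agent.Lib.MP_60922f_co.LC.Stmts79

/-!
LC, module LB: orthogonality of weakly mixing and almost periodic functions, bilinear Wiener
properties.
-/

set_option autoImplicit false

open Filter Topology

namespace Pool.Agent.LC79
open Pool.Agent.FinA Pool.Agent.FinClique

theorem lb2 (S : MeanSys) : LB2 S := by
  intro ψ hψ F hF u v hu hv s
  have hψb : Bdd ψ := hψ.1
  set F1 : ℤ → ℝ := fun x => ind (cls 0 u) x * F (x / u) with hF1
  have hF1b : Bdd F1 := (ind_bdd _).mul (hF.comp fun x => x / u)
  have hu' : (u : ℤ) ≠ 0 := by exact_mod_cast hu.ne'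
  have key : ∀ n : ℤ, S.m (fun w => F w * ψ (v * n + u * w + s)) =
      u * S.m (fun x => F1 (x - s) * ψ (x + v * n)) := by
    intro n
    set G : ℤ → ℝ := fun x => F (x / u) * ψ (x + v * n + s) with hG
    have hGb : Bdd G := (hF.comp fun x => x / u).mul (hψb.comp fun x => x + v * n + s)
    have h1 : S.m (fun w => F w * ψ (v * n + u * w + s)) = S.m (fun w => G (u * w)) := by
      refine S.pf.congr fun w => ?_
      simp only [hG]
      rw [Int.mul_ediv_cancel_left _ hu', show (u : ℤ) * w + v * n + s = v * n + u * w + s by ring]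
    rw [h1, S.m_dil' hu hGb]
    congr 1
    have hHb : Bdd (fun x => F1 (x - s) * ψ (x + v * n)) :=
      (hF1b.comp fun x => x - s).mul (hψb.comp fun x => x + v * n)
    rw [← S.m_shift s hHb]
    refine S.pf.congr fun x => ?_
    simp only [hG, hF1]
    rw [show x + s - s = x by ring, show x + s + v * n = x + v * n + s by ring]
    ring
  have hF2b : Bdd (fun x => F1 (x - s)) := hF1b.comp fun x => x - s
  have h2 := hψ.2 v hv (fun x => F1 (x - s)) hF2b
  have hb : Bdd (fun a : ℤ => |S.m (fun n => F1 (n - s) * ψ (n + v * a))|) := by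
    obtain ⟨C, hC0, hC⟩ := hF2b.nonneg_bound
    obtain ⟨D, hD0, hD⟩ := hψb.nonneg_bound
    refine ⟨C * D, fun a => ?_⟩
    rw [abs_abs]
    exact S.pf.abs_le fun n => by
      rw [abs_mul]; exact mul_le_mul (hC n) (hD _) (abs_nonneg _) hC0
  have h3 : S.m (fun n => |S.m (fun w => F w * ψ (v * n + u * w + s))|) =
      S.m (fun n => (u : ℝ) * |S.m (fun x => F1 (x - s) * ψ (x + v * n))|) := by
    refine S.pf.congr fun n => ?_
    rw [key n, abs_mul, abs_of_nonneg (Nat.cast_nonneg u)]
  rw [h3, S.pf.smul (u : ℝ) hb, h2, mul_zero]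

theorem lb1 (S : MeanSys) : LB1 S := by
  intro ψ h hψ hh u hu s
  have hψb : Bdd ψ := hψ.1
  have hhb : Bdd h := hh.bdd
  obtain ⟨D, hD0, hD⟩ := hψb.nonneg_bound
  set I : ℝ := S.m (fun w => ψ (u * w + s) * h w) with hI
  have hIb : Bdd (fun w => ψ (u * w + s) * h w) := (hψb.comp fun w => u * w + s).mul hhb
  set J : ℤ → ℝ := fun s' => |S.m (fun w => h w * ψ (u * s' + u * w + s))| with hJ
  have hJb : Bdd J := by
    obtain ⟨C, hC0, hC⟩ := hhb.nonneg_bound
    refine ⟨C * D, fun a => ?_⟩
    rw [hJ]
    simp only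
    rw [abs_abs]
    exact S.pf.abs_le fun n => by
      rw [abs_mul]; exact mul_le_mul (hC n) (hD _) (abs_nonneg _) hC0
  have hJ0 : S.m J = 0 := lb2 S ψ hψ h hhb u u hu hu s
  have hpt : ∀ s' : ℤ, |I| ≤ J s' + D * modu S h s' := by
    intro s'
    have h1 : I = S.m (fun w => ψ (u * (w + s') + s) * h (w + s')) := (S.m_shift s' hIb).symm
    have hb1 : Bdd (fun w => h w * ψ (u * s' + u * w + s)) :=
      hhb.mul (hψb.comp fun w => u * s' + u * w + s)
    have hb2 : Bdd (fun w => ψ (u * (w + s') + s) * (h (w + s') - h w)) :=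
      (hψb.comp fun w => u * (w + s') + s).mul ((hhb.shift s').sub hhb)
    have h2 : I = S.m (fun w => h w * ψ (u * s' + u * w + s)) +
        S.m (fun w => ψ (u * (w + s') + s) * (h (w + s') - h w)) := by
      rw [h1, ← S.pf.add hb1 hb2]
      refine S.pf.congr fun w => ?_
      rw [show (u : ℤ) * s' + u * w + s = u * (w + s') + s by ring]
      ring
    have h3 : |S.m (fun w => ψ (u * (w + s') + s) * (h (w + s') - h w))| ≤ D * modu S h s' := by
      refine (S.pf.abs_le_abs hb2).trans ?_
      unfold modu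
      rw [← S.pf.smul D (modu_bdd_fun hhb s')]
      refine S.pf.mono hb2.abs ((modu_bdd_fun hhb s').smul D) fun w => ?_
      rw [abs_mul]
      exact mul_le_mul_of_nonneg_right (hD _) (abs_nonneg _)
    rw [h2]
    refine (abs_add_le _ _).trans ?_
    exact add_le_add le_rfl h3
  have hfin : ∀ d : ℝ, 0 < d → |I| ≤ D * d := by
    intro d hd
    have hc := ball_pos S hh.pn hd
    set A : Set ℤ := {t | modu S h t ≤ d} with hA
    have h1 : S.m (ind A) * |I| ≤ S.m (ind A) * (D * d) := by
      have e1 : S.m (ind A) * |I| = S.m (fun s' => |I| * ind A s') := by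
        rw [S.pf.smul |I| (ind_bdd A), mul_comm]
      have e2 : S.m (ind A) * (D * d) = S.m (fun s' => (D * d) * ind A s') + S.m J := by
        rw [S.pf.smul (D * d) (ind_bdd A), hJ0, add_zero, mul_comm]
      rw [e1, e2, ← S.pf.add ((ind_bdd A).smul _) hJb]
      refine S.pf.mono ((ind_bdd A).smul _) (((ind_bdd A).smul _).add hJb) fun s' => ?_
      have hJn : 0 ≤ J s' := abs_nonneg _
      by_cases hs : s' ∈ A
      · rw [ind_of_mem hs, mul_one, mul_one]
        have h2 := hpt s'
        have h3 : D * modu S h s' ≤ D * d := mul_le_mul_of_nonneg_left hs hD0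
        linarith
      · rw [ind_of_notMem hs, mul_zero, mul_zero, zero_add]
        exact hJn
    exact le_of_mul_le_mul_left h1 hc
  have h0 : |I| ≤ 0 := by
    refine le_of_forall_pos_le_add fun ε hε => ?_
    rw [zero_add]
    have h1 := hfin (ε / (D + 1)) (by positivity)
    refine h1.trans ?_
    rw [mul_div_assoc', div_le_iff₀ (by positivity)]
    nlinarith
  exact abs_nonpos_iff.mp h0

theorem lb3 (S : MeanSys) : LB3 S := by
  intro ψ θ hψ hθ F hF u v a b hu hv ha hb
  have hψb : Bdd ψ := hψ.1
  have hθb : Bdd θ := hθ.bdd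
  obtain ⟨C, hC0, hC⟩ := hF.nonneg_bound
  obtain ⟨D, hD0, hD⟩ := hψb.nonneg_bound
  obtain ⟨E, hE0, hE⟩ := hθb.nonneg_bound
  set T : ℤ → ℝ := fun n => |S.m (fun w => F w * θ (a * n + b * w) * ψ (v * n + u * w))| with hT
  have hTb : Bdd T := by
    refine ⟨C * E * D, fun n => ?_⟩
    rw [hT]
    simp only
    rw [abs_abs]
    exact S.pf.abs_le fun w => by
      rw [abs_mul, abs_mul]
      exact mul_le_mul (mul_le_mul (hC _) (hE _) (abs_nonneg _) hC0) (hD _) (abs_nonneg _)
        (by positivity)
  have hT0 : 0 ≤ S.m T := S.pf.nonneg hTb fun n => abs_nonneg _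
  -- the pieces of the net
  set R : ℤ → ℤ → ℝ := fun s n => |S.m (fun w => (F w * θ (s + b * w)) * ψ (v * n + u * w + 0))|
    with hR
  have hRb : ∀ s, Bdd (R s) := by
    intro s
    refine ⟨C * E * D, fun n => ?_⟩
    rw [hR]
    simp only
    rw [abs_abs]
    exact S.pf.abs_le fun w => by
      rw [abs_mul, abs_mul]
      exact mul_le_mul (mul_le_mul (hC _) (hE _) (abs_nonneg _) hC0) (hD _) (abs_nonneg _)
        (by positivity)
  have hR0 : ∀ s, S.m (R s) = 0 := fun s =>
    lb2 S ψ hψ (fun w => F w * θ (s + b * w)) (hF.mul (hθb.comp fun w => s + b * w)) u v hu hv 0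
  have hfin : ∀ η : ℝ, 0 < η → S.m T ≤ C * D * b * η := by
    intro η hη
    obtain ⟨P, hP⟩ := hθ.pn.tb η hη
    have hpt : ∀ n, T n ≤ C * D * b * η + ∑ s ∈ P, R s n := by
      intro n
      obtain ⟨s, hs, hst⟩ := hP (a * n)
      have hb1 : Bdd (fun w => (F w * θ (s + b * w)) * ψ (v * n + u * w + 0)) :=
        (hF.mul (hθb.comp fun w => s + b * w)).mul (hψb.comp fun w => v * n + u * w + 0)
      have hb2 : Bdd (fun w => F w * (θ (a * n + b * w) - θ (s + b * w)) * ψ (v * n + u * w)) :=
        (hF.mul ((hθb.comp fun w => a * n + b * w).sub (hθb.comp fun w => s + b * w))).mul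
          (hψb.comp fun w => v * n + u * w)
      have h1 : S.m (fun w => F w * θ (a * n + b * w) * ψ (v * n + u * w)) =
          S.m (fun w => (F w * θ (s + b * w)) * ψ (v * n + u * w + 0)) +
          S.m (fun w => F w * (θ (a * n + b * w) - θ (s + b * w)) * ψ (v * n + u * w)) := by
        rw [← S.pf.add hb1 hb2]
        refine S.pf.congr fun w => ?_
        rw [add_zero]
        ring
      set Q : ℤ → ℝ := fun x => |θ (x + a * n) - θ (x + s)| with hQ
      have hQb : Bdd Q := ((hθb.shift (a * n)).sub (hθb.shift s)).abs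
      have h2 : S.m (fun w => Q (b * w)) ≤ b * η := by
        rw [S.m_dil' hb hQb]
        refine mul_le_mul_of_nonneg_left ?_ (Nat.cast_nonneg b)
        refine le_trans (S.pf.mono ((ind_bdd _).mul hQb) hQb fun x => ?_) ?_
        · have h3 := ind_le_one (cls 0 b) x
          have h4 : 0 ≤ Q x := abs_nonneg _
          nlinarith
        · refine le_trans (le_of_eq ?_) hst
          unfold modu
          rw [← S.m_shift s (modu_bdd_fun hθb (a * n - s))]
          refine S.pf.congr fun x => ?_
          simp only [hQ]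
          rw [show x + s + (a * n - s) = x + a * n by ring]
      have h3 : |S.m (fun w => F w * (θ (a * n + b * w) - θ (s + b * w)) * ψ (v * n + u * w))| ≤
          C * D * b * η := by
        refine (S.pf.abs_le_abs hb2).trans ?_
        have h4 : S.m (fun w => |F w * (θ (a * n + b * w) - θ (s + b * w)) * ψ (v * n + u * w)|) ≤
            S.m (fun w => (C * D) * Q (b * w)) := by
          refine S.pf.mono hb2.abs ((hQb.comp fun w => b * w).smul _) fun w => ?_
          rw [abs_mul, abs_mul]
          have e : |θ (a * n + b * w) - θ (s + b * w)| = Q (b * w) := by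
            simp only [hQ]
            rw [show (b : ℤ) * w + a * n = a * n + b * w by ring,
              show (b : ℤ) * w + s = s + b * w by ring]
          rw [e]
          have hQ0 : 0 ≤ Q (b * w) := abs_nonneg _
          calc |F w| * Q (b * w) * |ψ (v * n + u * w)| ≤ C * Q (b * w) * D :=
                mul_le_mul (mul_le_mul_of_nonneg_right (hC _) hQ0) (hD _) (abs_nonneg _)
                  (by positivity)
            _ = _ := by ring
        refine h4.trans ?_
        rw [S.pf.smul (C * D) (hQb.comp fun w => b * w)]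
        calc C * D * S.m (fun w => Q (b * w)) ≤ C * D * (b * η) :=
              mul_le_mul_of_nonneg_left h2 (by positivity)
          _ = _ := by ring
      have h5 : R s n ≤ ∑ s ∈ P, R s n :=
        Finset.single_le_sum (f := fun s => R s n) (fun s _ => abs_nonneg _) hs
      rw [hT]
      simp only
      rw [h1]
      refine (abs_add_le _ _).trans ?_
      have h6 : |S.m (fun w => (F w * θ (s + b * w)) * ψ (v * n + u * w + 0))| = R s n := rfl
      rw [h6]
      linarith
    have hsb : Bdd (fun n => ∑ s ∈ P, R s n) := Bdd.sum P R fun s _ => hRb s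
    have h1 : S.m T ≤ S.m (fun n => C * D * b * η + ∑ s ∈ P, R s n) :=
      S.pf.mono hTb ((Bdd.const _).add hsb) hpt
    rw [S.pf.add (Bdd.const _) hsb, S.pf.const, S.pf.sum P R fun s _ => hRb s,
      Finset.sum_eq_zero fun s _ => hR0 s, add_zero] at h1
    exact h1
  refine le_antisymm ?_ hT0
  refine le_of_forall_pos_le_add fun ε hε => ?_
  rw [zero_add]
  have hb0 : (0 : ℝ) ≤ b := Nat.cast_nonneg b
  have h1 := hfin (ε / (C * D * b + 1)) (by positivity)
  refine h1.trans ?_
  rw [mul_div_assoc', div_le_iff₀ (by positivity)]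
  nlinarith [mul_nonneg (mul_nonneg hC0 hD0) hb0]

end Pool.Agent.LC79
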