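import Pool.Agent.Lib.MP_60922f_co.LC.Stmts79

/-!
LC, modules LC1 (K-move for tie cells) and LD (K-move for the projections of the two-point functions).
-/

set_option autoImplicit false

open Filter Topology

namespace Pool.Agent.LC79
open Pool.Agent.FinA Pool.Agent.FinClique
open Pool.Agent.FinA.M9m (B2 mm)

namespace LD99

variable {S : MeanSys}

/-- pull backs of null sets under dilations are null -/
lemma null_dil {E : Set ℤ} (hE : S.m (ind E) = 0) {u : ℕ} (hu : 0 < u) :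
    S.m (ind {w | (u : ℤ) * w ∈ E}) = 0 := by
  have h1 : S.m (ind {w | (u : ℤ) * w ∈ E}) = S.m (fun w => ind E (u * w)) := rfl
  refine S.pf.ind_eq_zero_of_le ?_
  rw [h1, S.m_dil' hu (ind_bdd E)]
  have h2 : S.m (fun n => ind (cls 0 u) n * ind E n) ≤ 0 := by
    rw [← hE]
    exact S.pf.mono ((ind_bdd _).mul (ind_bdd _)) (ind_bdd _) fun n =>
      mul_le_of_le_one_left (ind_nonneg _ _) (ind_le_one _ _)
  have h3 : (0 : ℝ) ≤ (u : ℝ) := Nat.cast_nonneg u
  nlinarith

lemma bool_aux {a b c : Bool} (h1 : a ≠ c) (h2 : b ≠ c) : a = b := by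
  cases a <;> cases b <;> cases c <;> simp_all

end LD99

open LD99 in
theorem lc1 (S : MeanSys) : LC1 S := by
  intro f A B u v hu hv hA hB n hn
  obtain ⟨hnA, hnB⟩ := hn
  have e1 := null_dil (hA.2 _ hnA) hu
  have e2 := null_dil (hB.2 _ hnB) hv
  refine S.pf.null_mono ?_ (S.pf.null_union e1 e2)
  rintro w ⟨⟨hwA, hwB⟩, hne⟩
  by_cases h1 : f ((v : ℤ) * n + u * w).toNat = f ((v : ℤ) * n * (u * w)).toNat
  · exact Or.inl ⟨hwA, h1⟩
  · by_cases h2 : f ((u : ℤ) * n + v * w).toNat = f ((u : ℤ) * n * (v * w)).toNat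
    · exact Or.inr ⟨hwB, h2⟩
    · exfalso
      apply hne
      refine bool_aux (c := f ((v : ℤ) * n * (u * w)).toNat) h1 ?_
      rw [show (u : ℤ) * n * (v * w) = v * n * (u * w) by ring] at h2
      exact h2

open LD99 in
theorem ld (S : MeanSys) (h1 : LB1 S) (h3 : LB3 S) : LD S := by
  classical
  intro f Y Y' u v hu huv hK t θ₁ θ₂ g hθ₁ hθ₂ hg
  have hv : 0 < v := hu.trans huv
  set W : ℤ → ℝ := ind {n | n ∈ Y ∧ n + t ∈ Y} with hW
  have hW0 : ∀ n, 0 ≤ W n := fun n => ind_nonneg _ n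
  have hW1 : ∀ n, W n ≤ 1 := fun n => ind_le_one _ n
  have hWb : Bdd W := ind_bdd _
  have b1 := hθ₁.1.bdd
  have b2 := hθ₂.1.bdd
  have bg := hg.1.bdd
  set ψ₁ : ℤ → ℝ := fun n => Df f (v * t) n - θ₁ n with hψ₁
  set ψ₂ : ℤ → ℝ := fun n => Df f (u * t) n - θ₂ n with hψ₂
  have w1 : WM S ψ₁ := hθ₁.2.2
  have w2 : WM S ψ₂ := hθ₂.2.2
  set E : ℤ → ℤ → ℝ := fun n w => θ₁ (v * n + u * w) - θ₂ (u * n + v * w) with hE
  have hE1 : ∀ n w, |E n w| ≤ 1 := fun n w => by
    have a1 := hθ₁.1 (v * n + u * w)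
    have a2 := hθ₂.1 (u * n + v * w)
    exact abs_le.2 ⟨by simp only [hE]; linarith [a1.1, a2.2], by simp only [hE]; linarith [a1.2, a2.1]⟩
  have bE : ∀ n, Bdd (E n) := fun n => ⟨1, hE1 n⟩
  -- the four small terms
  have hIb : Bdd (ind Y') := ind_bdd Y'
  have x11 := h3 ψ₁ θ₁ w1 hθ₁.2.1 (ind Y') hIb u v v u hu hv hv hu
  have x12 := h3 ψ₁ θ₂ w1 hθ₂.2.1 (ind Y') hIb u v u v hu hv hu hv
  have x21 := h3 ψ₂ θ₁ w2 hθ₁.2.1 (ind Y') hIb v u v u hv hu hv hu
  have x22 := h3 ψ₂ θ₂ w2 hθ₂.2.1 (ind Y') hIb v u u v hv hu hu hv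
  set T11 : ℤ → ℝ := fun n => S.m (fun w => ind Y' w * θ₁ (v * n + u * w) * ψ₁ (v * n + u * w))
    with hT11
  set T12 : ℤ → ℝ := fun n => S.m (fun w => ind Y' w * θ₂ (u * n + v * w) * ψ₁ (v * n + u * w))
    with hT12
  set T21 : ℤ → ℝ := fun n => S.m (fun w => ind Y' w * θ₁ (v * n + u * w) * ψ₂ (u * n + v * w))
    with hT21
  set T22 : ℤ → ℝ := fun n => S.m (fun w => ind Y' w * θ₂ (u * n + v * w) * ψ₂ (u * n + v * w))
    with hT22
  have r11 : ∀ n : ℤ, Bdd (fun w => ind Y' w * θ₁ (v * n + u * w) * ψ₁ (v * n + u * w)) := fun n =>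
    (hIb.mul (b1.comp fun w => v * n + u * w)).mul (w1.1.comp fun w => v * n + u * w)
  have r12 : ∀ n : ℤ, Bdd (fun w => ind Y' w * θ₂ (u * n + v * w) * ψ₁ (v * n + u * w)) := fun n =>
    (hIb.mul (b2.comp fun w => u * n + v * w)).mul (w1.1.comp fun w => v * n + u * w)
  have r21 : ∀ n : ℤ, Bdd (fun w => ind Y' w * θ₁ (v * n + u * w) * ψ₂ (u * n + v * w)) := fun n =>
    (hIb.mul (b1.comp fun w => v * n + u * w)).mul (w2.1.comp fun w => u * n + v * w)
  have r22 : ∀ n : ℤ, Bdd (fun w => ind Y' w * θ₂ (u * n + v * w) * ψ₂ (u * n + v * w)) := fun n =>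
    (hIb.mul (b2.comp fun w => u * n + v * w)).mul (w2.1.comp fun w => u * n + v * w)
  have hOb : ∀ (ψ θ : ℤ → ℝ), Bdd ψ → Bdd θ → ∀ (c d : ℤ → ℤ → ℤ),
      Bdd (fun n => S.m (fun w => ind Y' w * θ (c n w) * ψ (d n w))) := by
    intro ψ θ hψ hθ c d
    obtain ⟨C, hC0, hC⟩ := hψ.nonneg_bound
    obtain ⟨D, hD0, hD⟩ := hθ.nonneg_bound
    refine ⟨D * C, fun n => S.pf.abs_le fun w => ?_⟩
    rw [abs_mul, abs_mul]
    have a1 : |ind Y' w| ≤ 1 := (ind_U01 Y').abs_le_one w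
    have a2 : |ind Y' w| * |θ (c n w)| ≤ D := by
      calc |ind Y' w| * |θ (c n w)| ≤ 1 * |θ (c n w)| :=
            mul_le_mul_of_nonneg_right a1 (abs_nonneg _)
        _ ≤ D := by rw [one_mul]; exact hD _
    exact mul_le_mul a2 (hC _) (abs_nonneg _) hD0
  have bT11 : Bdd T11 := hOb ψ₁ θ₁ w1.1 b1 (fun n w => v * n + u * w) (fun n w => v * n + u * w)
  have bT12 : Bdd T12 := hOb ψ₁ θ₂ w1.1 b2 (fun n w => u * n + v * w) (fun n w => v * n + u * w)
  have bT21 : Bdd T21 := hOb ψ₂ θ₁ w2.1 b1 (fun n w => v * n + u * w) (fun n w => u * n + v * w)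
  have bT22 : Bdd T22 := hOb ψ₂ θ₂ w2.1 b2 (fun n w => u * n + v * w) (fun n w => u * n + v * w)
  -- the key identity
  set Q : ℤ → ℝ := fun n => S.m (fun w => ind Y' w * E n w ^ 2) with hQ
  have rQ : ∀ n, Bdd (fun w => ind Y' w * E n w ^ 2) := fun n => hIb.mul (bE n).sq
  have hQ0 : ∀ n, 0 ≤ Q n := fun n => S.pf.nonneg (rQ n) fun w =>
    mul_nonneg (ind_nonneg _ _) (sq_nonneg _)
  have hQ1 : ∀ n, Q n ≤ 1 := fun n => S.pf.le_of_le (rQ n) fun w => by
    have a1 := ind_le_one Y' w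
    have a2 := ind_nonneg Y' w
    have a3 : E n w ^ 2 ≤ 1 := by
      have := hE1 n w
      rw [← sq_abs]
      exact pow_le_one₀ (abs_nonneg _) this
    exact mul_le_one₀ a1 (sq_nonneg _) a3
  have bQ : Bdd Q := ⟨1, fun n => by rw [abs_of_nonneg (hQ0 n)]; exact hQ1 n⟩
  have key : ∀ n, W n * Q n ≤ |T11 n| + |T12 n| + |T21 n| + |T22 n| := by
    intro n
    by_cases hn : n ∈ {n | n ∈ Y ∧ n + t ∈ Y}
    · have hWn : W n = 1 := ind_of_mem hn
      rw [hWn, one_mul]
      have z : S.m (fun w => ind Y' w * E n w *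
          (Df f (v * t) (v * n + u * w) - Df f (u * t) (u * n + v * w))) = 0 := by
        refine S.pf.eq_zero_of_null ?_ (S.pf.null_union (hK n hn.1) (hK (n + t) hn.2)) ?_
        · exact (hIb.mul (bE n)).mul (((Df_bdd f _).comp fun w => v * n + u * w).sub
            ((Df_bdd f _).comp fun w => u * n + v * w))
        · intro w hw
          by_cases hwY : w ∈ Y'
          · have c1 : f ((v : ℤ) * n + u * w).toNat = f ((u : ℤ) * n + v * w).toNat := by
              by_contra hc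
              exact hw (Or.inl ⟨hwY, hc⟩)
            have c2 : f ((v : ℤ) * (n + t) + u * w).toNat = f ((u : ℤ) * (n + t) + v * w).toNat := by
              by_contra hc
              exact hw (Or.inr ⟨hwY, hc⟩)
            have c3 : Df f (v * t) (v * n + u * w) = Df f (u * t) (u * n + v * w) := by
              unfold Df
              rw [show (v : ℤ) * n + u * w + v * t = v * (n + t) + u * w by ring,
                show (u : ℤ) * n + v * w + u * t = u * (n + t) + v * w by ring, c1, c2]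
            rw [c3, sub_self, mul_zero]
          · rw [ind_of_notMem hwY]; ring
      have e : (fun w => ind Y' w * E n w *
          (Df f (v * t) (v * n + u * w) - Df f (u * t) (u * n + v * w))) =
          fun w => ind Y' w * E n w ^ 2 +
            ((ind Y' w * θ₁ (v * n + u * w) * ψ₁ (v * n + u * w) -
              ind Y' w * θ₂ (u * n + v * w) * ψ₁ (v * n + u * w)) -
            (ind Y' w * θ₁ (v * n + u * w) * ψ₂ (u * n + v * w) -
              ind Y' w * θ₂ (u * n + v * w) * ψ₂ (u * n + v * w))) := by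
        funext w
        simp only [hE, hψ₁, hψ₂]
        ring
      rw [e, S.pf.add (rQ n) (((r11 n).sub (r12 n)).sub ((r21 n).sub (r22 n))),
        S.pf.sub ((r11 n).sub (r12 n)) ((r21 n).sub (r22 n)),
        S.pf.sub (r11 n) (r12 n), S.pf.sub (r21 n) (r22 n)] at z
      have z' : Q n + ((T11 n - T12 n) - (T21 n - T22 n)) = 0 := z
      have a1 := neg_abs_le (T11 n)
      have a2 := le_abs_self (T12 n)
      have a3 := le_abs_self (T21 n)
      have a4 := neg_abs_le (T22 n)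
      linarith
    · have hWn : W n = 0 := ind_of_notMem hn
      rw [hWn, zero_mul]
      positivity
  have hWQ : S.m (fun n => W n * Q n) = 0 := by
    refine le_antisymm ?_ (S.pf.nonneg (hWb.mul bQ) fun n => mul_nonneg (hW0 n) (hQ0 n))
    refine (S.pf.mono (hWb.mul bQ) (((bT11.abs.add bT12.abs).add bT21.abs).add bT22.abs) key).trans ?_
    rw [S.pf.add ((bT11.abs.add bT12.abs).add bT21.abs) bT22.abs,
      S.pf.add (bT11.abs.add bT12.abs) bT21.abs, S.pf.add bT11.abs bT12.abs]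
    have y11 : S.m (fun n => |T11 n|) = 0 := x11
    have y12 : S.m (fun n => |T12 n|) = 0 := x12
    have y21 : S.m (fun n => |T21 n|) = 0 := x21
    have y22 : S.m (fun n => |T22 n|) = 0 := x22
    rw [y11, y12, y21, y22]
    norm_num
  -- from `Y'` to `g`
  have rG : ∀ n, Bdd (fun w => g w * E n w ^ 2) := fun n => bg.mul (bE n).sq
  have hQg : ∀ n, Q n = S.m (fun w => g w * E n w ^ 2) := by
    intro n
    have hA : AP1 S (fun w => E n w ^ 2) := by
      have a1 : AP1 S (fun w => θ₁ (u * w + v * n)) := hθ₁.2.1.dil hu (v * n)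
      have a2 : AP1 S (fun w => θ₂ (v * w + u * n)) := hθ₂.2.1.dil hv (u * n)
      have a3 := (a1.sub a2).sq
      have e : (fun w => E n w ^ 2) = fun w => (θ₁ (u * w + v * n) - θ₂ (v * w + u * n)) ^ 2 := by
        funext w
        simp only [hE]
        rw [add_comm ((v : ℤ) * n), add_comm ((u : ℤ) * n)]
      rw [e]; exact a3
    have z := h1 _ _ hg.2.2 hA 1 one_pos 0
    have e : (fun w => ind Y' w * E n w ^ 2) = fun w => g w * E n w ^ 2 +
        (ind Y' (((1 : ℕ) : ℤ) * w + 0) - g (((1 : ℕ) : ℤ) * w + 0)) * E n w ^ 2 := by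
      funext w
      rw [show ((1 : ℕ) : ℤ) * w + 0 = w by push_cast; ring]
      ring
    have bb : Bdd (fun w => (ind Y' (((1 : ℕ) : ℤ) * w + 0) - g (((1 : ℕ) : ℤ) * w + 0)) *
        E n w ^ 2) := ((hIb.comp _).sub (bg.comp _)).mul (bE n).sq
    simp only [hQ]
    rw [e, S.pf.add (rG n) bb, z, add_zero]
  -- from squares to absolute values
  have rA : ∀ n, Bdd (fun w => g w * |E n w|) := fun n => bg.mul (bE n).abs
  set R : ℤ → ℝ := fun n => S.m (fun w => g w * |E n w|) with hR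
  have hR0 : ∀ n, 0 ≤ R n := fun n => S.pf.nonneg (rA n) fun w =>
    mul_nonneg (hg.1 w).1 (abs_nonneg _)
  have hR1 : ∀ n, R n ≤ 1 := fun n => S.pf.le_of_le (rA n) fun w =>
    mul_le_one₀ (hg.1 w).2 (abs_nonneg _) (hE1 n w)
  have bR : Bdd R := ⟨1, fun n => by rw [abs_of_nonneg (hR0 n)]; exact hR1 n⟩
  have fin : ∀ ε > (0 : ℝ), S.m (fun n => W n * R n) ≤ 0 + ε := by
    intro ε hε
    have hp : ∀ n, W n * R n ≤ ε + ε⁻¹ * (W n * Q n) := by
      intro n
      have a1 : R n ≤ ε + ε⁻¹ * Q n := by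
        rw [hQg n]
        have a2 : ε + ε⁻¹ * S.m (fun w => g w * E n w ^ 2) =
            S.m (fun w => ε + ε⁻¹ * (g w * E n w ^ 2)) := by
          rw [S.pf.add (Bdd.const ε) ((rG n).smul _), S.pf.const, S.pf.smul _ (rG n)]
        rw [a2]
        refine S.pf.mono (rA n) ((Bdd.const ε).add ((rG n).smul _)) fun w => ?_
        have c0 := (hg.1 w).1
        have c1 := (hg.1 w).2
        have c2 := abs_nonneg (E n w)
        have c3 : |E n w| ≤ ε + ε⁻¹ * E n w ^ 2 := by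
          rw [← sq_abs (E n w), ← sub_nonneg]
          have e : ε + ε⁻¹ * |E n w| ^ 2 - |E n w| = ε⁻¹ * (ε ^ 2 + |E n w| ^ 2 - ε * |E n w|) := by
            field_simp
          rw [e]
          refine mul_nonneg (inv_nonneg.2 hε.le) ?_
          nlinarith [sq_nonneg (ε - |E n w|), mul_nonneg hε.le c2]
        calc g w * |E n w| ≤ g w * (ε + ε⁻¹ * E n w ^ 2) := mul_le_mul_of_nonneg_left c3 c0
          _ = g w * ε + ε⁻¹ * (g w * E n w ^ 2) := by ring
          _ ≤ ε + ε⁻¹ * (g w * E n w ^ 2) := by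
              have : g w * ε ≤ ε := mul_le_of_le_one_left hε.le c1
              linarith
      have a3 := hW0 n
      have a4 := hW1 n
      calc W n * R n ≤ W n * (ε + ε⁻¹ * Q n) := mul_le_mul_of_nonneg_left a1 a3
        _ = W n * ε + ε⁻¹ * (W n * Q n) := by ring
        _ ≤ ε + ε⁻¹ * (W n * Q n) := by
            have : W n * ε ≤ ε := mul_le_of_le_one_left hε.le a4
            linarith
    refine (S.pf.mono (hWb.mul bR) ((Bdd.const ε).add ((hWb.mul bQ).smul _)) hp).trans ?_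
    rw [S.pf.add (Bdd.const ε) ((hWb.mul bQ).smul _), S.pf.const, S.pf.smul _ (hWb.mul bQ), hWQ]
    simp
  exact le_antisymm (le_of_forall_pos_le_add fin)
    (S.pf.nonneg (hWb.mul bR) fun n => mul_nonneg (hW0 n) (hR0 n))

end Pool.Agent.LC79
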