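import Pool.Agent.Lib.MP_60922f_co.LC.Stmts79

/-!
LC, module LE: the first pigeonhole.
-/

set_option autoImplicit false

open Filter Topology

namespace Pool.Agent.LC79
open Pool.Agent.FinA Pool.Agent.FinClique
open Pool.Agent.FinA.M9m (B2 mm)

namespace LE70

variable {S : MeanSys} {g θ₁ θ₂ : ℤ → ℝ}

/-- the error at `n` -/
noncomputable def er (S : MeanSys) (g θ₁ θ₂ : ℤ → ℝ) (u v : ℕ) (n : ℤ) : ℝ :=
  S.m (fun w => g w * |θ₁ (v * n + u * w) - θ₂ (u * n + v * w)|)

lemma abs_sub_le_one {x y : ℝ} (hx : 0 ≤ x ∧ x ≤ 1) (hy : 0 ≤ y ∧ y ≤ 1) : |x - y| ≤ 1 := by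
  rw [abs_le]; constructor <;> linarith [hx.1, hx.2, hy.1, hy.2]

lemma U01_diff {a b : ℤ → ℝ} (ha : U01 a) (hb : U01 b) (e e' : ℤ → ℤ) :
    U01 (fun w => |a (e w) - b (e' w)|) := fun _ =>
  ⟨abs_nonneg _, abs_sub_le_one (ha _) (hb _)⟩

lemma er_nonneg (hg : U01 g) (h1 : U01 θ₁) (h2 : U01 θ₂) (u v : ℕ) (n : ℤ) :
    0 ≤ er S g θ₁ θ₂ u v n := by
  have h : U01 (fun w => g w * |θ₁ (v * n + u * w) - θ₂ (u * n + v * w)|) :=
    hg.mul (U01_diff h1 h2 _ _)
  exact S.pf.nonneg h.bdd fun w => (h w).1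

lemma er_le_one (hg : U01 g) (h1 : U01 θ₁) (h2 : U01 θ₂) (u v : ℕ) (n : ℤ) :
    er S g θ₁ θ₂ u v n ≤ 1 := by
  have h : U01 (fun w => g w * |θ₁ (v * n + u * w) - θ₂ (u * n + v * w)|) :=
    hg.mul (U01_diff h1 h2 _ _)
  exact S.pf.le_of_le h.bdd fun w => (h w).2

lemma sq_U01 (hg : U01 g) : U01 (fun w => g w ^ 2) := fun w =>
  ⟨sq_nonneg _, pow_le_one₀ (hg w).1 (hg w).2⟩

/-- one step -/
lemma step (hg : U01 g) (h1 : U01 θ₁) (h2 : U01 θ₂) (u v : ℕ) (n τ : ℤ) (j : ℕ) {η : ℝ}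
    (e0 : er S g θ₁ θ₂ u v n ≤ η) (e1 : er S g θ₁ θ₂ u v (n + j * (v * u * τ)) ≤ η) :
    S.m (fun w => g w ^ 2 * |θ₁ (v * n + u * w) -
      θ₁ (v * n + u * w + j * (((v : ℤ) ^ 2 - (u : ℤ) ^ 2) * (u * τ)))|) ≤
      2 * η + modu S g (-(j * u ^ 2) * τ) := by
  set s : ℤ := -(j * u ^ 2) * τ with hs
  set D : ℤ := j * (((v : ℤ) ^ 2 - (u : ℤ) ^ 2) * (u * τ)) with hD
  have b0 : U01 (fun w => g w * |θ₁ (v * n + u * w) - θ₂ (u * n + v * w)|) :=
    hg.mul (U01_diff h1 h2 _ _)
  have b1 : U01 (fun w => g (w + s) * |θ₁ (v * n + u * w + D) - θ₂ (u * n + v * w)|) :=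
    (hg.comp (fun w => w + s)).mul (U01_diff h1 h2 (fun w => v * n + u * w + D) _)
  have e1' : S.m (fun w => g (w + s) * |θ₁ (v * n + u * w + D) - θ₂ (u * n + v * w)|) ≤ η := by
    refine le_trans (le_of_eq ?_) e1
    unfold er
    rw [← S.m_shift s ((hg.mul (U01_diff h1 h2 (fun w => v * (n + j * (v * u * τ)) + u * w)
      (fun w => u * (n + j * (v * u * τ)) + v * w))).bdd)]
    refine S.pf.congr fun w => ?_
    rw [show (v : ℤ) * (n + j * (v * u * τ)) + u * (w + s) = v * n + u * w + D by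
        rw [hs, hD]; ring,
      show (u : ℤ) * (n + j * (v * u * τ)) + v * (w + s) = u * n + v * w by rw [hs]; ring]
  have b2 : Bdd (fun x => |g (x + s) - g x|) := modu_bdd_fun hg.bdd s
  calc _ ≤ S.m (fun w => (g w * |θ₁ (v * n + u * w) - θ₂ (u * n + v * w)| +
        g (w + s) * |θ₁ (v * n + u * w + D) - θ₂ (u * n + v * w)|) + |g (w + s) - g w|) := by
        refine S.pf.mono ((sq_U01 hg).mul (U01_diff h1 h1 (fun w => v * n + u * w)
          (fun w => v * n + u * w + D))).bdd ((b0.bdd.add b1.bdd).add b2) fun w => ?_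
        have hx := hg w
        have hy := hg (w + s)
        have ha := abs_sub_le_one (h1 (v * n + u * w)) (h2 (u * n + v * w))
        have hb := abs_sub_le_one (h1 (v * n + u * w + D)) (h2 (u * n + v * w))
        have ha0 := abs_nonneg (θ₁ (v * n + u * w) - θ₂ (u * n + v * w))
        have hb0 := abs_nonneg (θ₁ (v * n + u * w + D) - θ₂ (u * n + v * w))
        have ht : |θ₁ (v * n + u * w) - θ₁ (v * n + u * w + D)| ≤
            |θ₁ (v * n + u * w) - θ₂ (u * n + v * w)| +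
            |θ₁ (v * n + u * w + D) - θ₂ (u * n + v * w)| := by
          have := abs_sub_le (θ₁ (v * n + u * w)) (θ₂ (u * n + v * w)) (θ₁ (v * n + u * w + D))
          rwa [abs_sub_comm (θ₂ (u * n + v * w))] at this
        have hc := abs_nonneg (g (w + s) - g w)
        have hc1 := neg_abs_le (g (w + s) - g w)
        have q1 : g w ^ 2 ≤ g w := by nlinarith [hx.1, hx.2]
        have q2 : g w ≤ g (w + s) + |g (w + s) - g w| := by linarith
        calc g w ^ 2 * |θ₁ (v * n + u * w) - θ₁ (v * n + u * w + D)|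
            ≤ g w ^ 2 * (|θ₁ (v * n + u * w) - θ₂ (u * n + v * w)| +
              |θ₁ (v * n + u * w + D) - θ₂ (u * n + v * w)|) :=
              mul_le_mul_of_nonneg_left ht (sq_nonneg _)
          _ ≤ g w * (|θ₁ (v * n + u * w) - θ₂ (u * n + v * w)| +
              |θ₁ (v * n + u * w + D) - θ₂ (u * n + v * w)|) :=
              mul_le_mul_of_nonneg_right q1 (add_nonneg ha0 hb0)
          _ ≤ g w * |θ₁ (v * n + u * w) - θ₂ (u * n + v * w)| +
              (g (w + s) + |g (w + s) - g w|) *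
              |θ₁ (v * n + u * w + D) - θ₂ (u * n + v * w)| := by
              rw [mul_add]
              have := mul_le_mul_of_nonneg_right q2 hb0
              linarith
          _ ≤ _ := by nlinarith
    _ ≤ _ := by
        rw [S.pf.add (b0.bdd.add b1.bdd) b2, S.pf.add b0.bdd b1.bdd]
        have : S.m (fun w => |g (w + s) - g w|) = modu S g s := rfl
        rw [this]
        unfold er at e0
        linarith

/-- the chain -/
lemma chain (hg : U01 g) (h1 : U01 θ₁) (u : ℕ) (c D₀ : ℤ) {η : ℝ}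
    (e : S.m (fun w => g w ^ 2 * |θ₁ (c + u * w) - θ₁ (c + u * w + u * D₀)|) ≤ η) (q : ℕ) :
    S.m (fun w => g w ^ 2 * |θ₁ (c + u * w) - θ₁ (c + u * w + q * (u * D₀))|) ≤
      ∑ l ∈ Finset.range q, (η + 2 * modu S g (l * D₀)) := by
  induction q with
  | zero =>
    simp only [Nat.cast_zero, zero_mul, add_zero, sub_self, abs_zero, mul_zero,
      Finset.range_zero, Finset.sum_empty]
    exact le_of_eq S.pf.zero
  | succ q ih =>
    rw [Finset.sum_range_succ]
    set r : ℤ := q * D₀ with hr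
    have bb : ∀ x y : ℤ, U01 (fun w => g w ^ 2 * |θ₁ (c + u * w + x) - θ₁ (c + u * w + y)|) :=
      fun x y => (sq_U01 hg).mul (U01_diff h1 h1 (fun w => c + u * w + x) (fun w => c + u * w + y))
    have b0 : U01 (fun w => g w ^ 2 * |θ₁ (c + u * w) - θ₁ (c + u * w + q * (u * D₀))|) :=
      (sq_U01 hg).mul (U01_diff h1 h1 (fun w => c + u * w) (fun w => c + u * w + q * (u * D₀)))
    have b3 : U01 (fun w => g w ^ 2 * |θ₁ (c + u * w) - θ₁ (c + u * w + u * D₀)|) :=
      (sq_U01 hg).mul (U01_diff h1 h1 (fun w => c + u * w) (fun w => c + u * w + u * D₀))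
    have b2 : Bdd (fun x => |g (x + r) - g x|) := modu_bdd_fun hg.bdd r
    have k1 : S.m (fun w => g w ^ 2 * |θ₁ (c + u * w + q * (u * D₀)) -
        θ₁ (c + u * w + ((q + 1 : ℕ) : ℤ) * (u * D₀))|) ≤ η + 2 * modu S g r := by
      calc _ ≤ S.m (fun w => g (w + r) ^ 2 * |θ₁ (c + u * (w + r)) -
            θ₁ (c + u * (w + r) + u * D₀)| + 2 * |g (w + r) - g w|) := by
            refine S.pf.mono (bb _ _).bdd ((b3.comp (fun w => w + r)).bdd.add (b2.smul 2))
              fun w => ?_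
            rw [show c + (u : ℤ) * (w + r) = c + u * w + q * (u * D₀) by rw [hr]; ring,
              show c + (u : ℤ) * w + q * (u * D₀) + u * D₀ =
                c + u * w + ((q + 1 : ℕ) : ℤ) * (u * D₀) by push_cast; ring]
            have hx := hg w
            have hy := hg (w + r)
            have hp := abs_sub_le_one (h1 (c + u * w + q * (u * D₀)))
              (h1 (c + u * w + ((q + 1 : ℕ) : ℤ) * (u * D₀)))
            have hp0 := abs_nonneg (θ₁ (c + u * w + q * (u * D₀)) -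
              θ₁ (c + u * w + ((q + 1 : ℕ) : ℤ) * (u * D₀)))
            have hc := abs_nonneg (g (w + r) - g w)
            have hc1 := neg_abs_le (g (w + r) - g w)
            have q1 : g w ^ 2 ≤ g (w + r) ^ 2 + 2 * |g (w + r) - g w| := by
              nlinarith [hx.1, hx.2, hy.1, hy.2]
            nlinarith [mul_le_mul_of_nonneg_right q1 hp0]
        _ ≤ _ := by
            rw [S.pf.add (b3.comp (fun w => w + r)).bdd (b2.smul 2), S.pf.smul 2 b2,
              S.m_shift r b3.bdd]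
            have : S.m (fun w => |g (w + r) - g w|) = modu S g r := rfl
            rw [this]
            linarith
    calc _ ≤ S.m (fun w => g w ^ 2 * |θ₁ (c + u * w) - θ₁ (c + u * w + q * (u * D₀))| +
          g w ^ 2 * |θ₁ (c + u * w + q * (u * D₀)) -
            θ₁ (c + u * w + ((q + 1 : ℕ) : ℤ) * (u * D₀))|) := by
          refine S.pf.mono ((sq_U01 hg).mul (U01_diff h1 h1 (fun w => c + u * w)
            (fun w => c + u * w + ((q + 1 : ℕ) : ℤ) * (u * D₀)))).bdd
            (b0.bdd.add (bb _ _).bdd) fun w => ?_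
          rw [← mul_add]
          exact mul_le_mul_of_nonneg_left (abs_sub_le _ _ _) (sq_nonneg _)
      _ ≤ _ := by
          rw [S.pf.add b0.bdd (bb _ _).bdd]
          linarith

/-- recurrence: the points of a set which do not return in `R` steps -/
lemma nonreturn (S : MeanSys) (Z : Set ℤ) (R : ℕ) (s : ℤ) :
    S.m (ind {n | n ∈ Z ∧ ∀ j : ℕ, 1 ≤ j → j ≤ R → n + j * s ∉ Z}) ≤ 1 / (R + 1) := by
  set NR : Set ℤ := {n | n ∈ Z ∧ ∀ j : ℕ, 1 ≤ j → j ≤ R → n + j * s ∉ Z} with hNR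
  have h1 : ∑ i ∈ Finset.range (R + 1), S.m (fun n => ind NR (n + i * s)) ≤ 1 := by
    rw [← S.pf.sum (Finset.range (R + 1)) (fun i n => ind NR (n + i * s))
      fun i _ => (ind_bdd NR).shift _]
    refine S.pf.le_of_le (Bdd.sum _ (fun (i : ℕ) n => ind NR (n + i * s))
      fun i _ => (ind_bdd NR).shift _) fun n => ?_
    by_cases hex : ∃ i ∈ Finset.range (R + 1), n + i * s ∈ NR
    · obtain ⟨i, hi, hin⟩ := hex
      rw [Finset.sum_eq_single_of_mem i hi, ind_of_mem hin]
      intro j hj hji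
      refine ind_of_notMem fun hjn => ?_
      have hi' := Finset.mem_range.1 hi
      have hj' := Finset.mem_range.1 hj
      rcases lt_or_gt_of_ne hji with h | h
      · refine hjn.2 (i - j) (by omega) (by omega) ?_
        have : n + (j : ℤ) * s + ((i - j : ℕ) : ℤ) * s = n + i * s := by
          rw [Nat.cast_sub h.le]; ring
        rw [this]; exact hin.1
      · refine hin.2 (j - i) (by omega) (by omega) ?_
        have : n + (i : ℤ) * s + ((j - i : ℕ) : ℤ) * s = n + j * s := by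
          rw [Nat.cast_sub h.le]; ring
        rw [this]; exact hjn.1
    · push Not at hex
      rw [Finset.sum_eq_zero fun i hi => ind_of_notMem (hex i hi)]
      norm_num
  have h2 : ∀ i ∈ Finset.range (R + 1), S.m (fun n => ind NR (n + (i : ℤ) * s)) = S.m (ind NR) :=
    fun i _ => S.m_shift _ (ind_bdd NR)
  rw [Finset.sum_congr rfl h2, Finset.sum_const, Finset.card_range, nsmul_eq_mul] at h1
  push_cast at h1
  rw [le_div_iff₀ (by positivity)]
  linarith

end LE70

open LE70 in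
/-- LE: the first pigeonhole -/
theorem le (S : MeanSys) : LE S := by
  intro g hg hgA u v hu huv R hR η hη
  have hf : (0 : ℝ) < (R.factorial : ℝ) := by exact_mod_cast R.factorial_pos
  have hκ : (0 : ℝ) < (v : ℝ) ^ 2 - (u : ℝ) ^ 2 := by
    have h1 : (u : ℝ) < v := by exact_mod_cast huv
    have h2 : (0 : ℝ) < u := by exact_mod_cast hu
    nlinarith
  set κ : ℝ := (v : ℝ) ^ 2 - (u : ℝ) ^ 2 with hκd
  set M : ℝ := R * (u : ℝ) ^ 2 + 2 * R.factorial * κ + 1 with hM
  have hM0 : 0 < M := by positivity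
  refine ⟨η / (2 * R.factorial * M), by positivity, ?_⟩
  intro Y θ₁ θ₂ h1 h2 hE τ hτ
  set η₁ : ℝ := η / (4 * R.factorial) with hη₁
  have hη₁0 : 0 < η₁ := by positivity
  have e01 : ∀ n, 0 ≤ er S g θ₁ θ₂ u v n := er_nonneg hg h1 h2 u v
  have e11 : ∀ n, er S g θ₁ θ₂ u v n ≤ 1 := er_le_one hg h1 h2 u v
  have eU : U01 (er S g θ₁ θ₂ u v) := fun n => ⟨e01 n, e11 n⟩
  set Z : Set ℤ := {n | n ∈ Y ∧ er S g θ₁ θ₂ u v n ≤ η₁} with hZ
  -- almost all of `Y` is in `Z`
  have hYZ : S.m (ind (Y \ Z)) = 0 := by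
    refine S.pf.ind_eq_zero_of_le ?_
    have k1 : S.m (fun n => η₁ * ind (Y \ Z) n) ≤
        S.m (fun n => ind Y n * er S g θ₁ θ₂ u v n) := by
      refine S.pf.mono ((ind_bdd _).smul _) ((ind_U01 Y).mul eU).bdd fun n => ?_
      by_cases hn : n ∈ Y \ Z
      · rw [ind_of_mem hn, ind_of_mem hn.1, mul_one, one_mul]
        by_contra hc
        exact hn.2 ⟨hn.1, (not_le.1 hc).le⟩
      · rw [ind_of_notMem hn, mul_zero]
        exact mul_nonneg (ind_nonneg _ _) (e01 n)
    rw [S.pf.smul _ (ind_bdd _)] at k1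
    have k2 : S.m (fun n => ind Y n * er S g θ₁ θ₂ u v n) = 0 := hE
    rw [k2] at k1
    by_contra hc
    have := mul_pos hη₁0 (not_le.1 hc)
    linarith
  set NR : Set ℤ := {n | n ∈ Z ∧ ∀ j : ℕ, 1 ≤ j → j ≤ R → n + j * (v * u * τ) ∉ Z} with hNR
  have hNRm : S.m (ind NR) ≤ 1 / (R + 1) := nonreturn S Z R (v * u * τ)
  have hτ0 : 0 ≤ modu S g τ := modu_nonneg hg.bdd τ
  -- the good points
  have key : ∀ n, n ∈ Z → n ∉ NR → S.m (fun w => g w ^ 2 * |θ₁ (v * n + u * w) -
      θ₁ (v * n + u * w + ((v : ℤ) ^ 2 - (u : ℤ) ^ 2) * (R.factorial * (u * τ)))|) ≤ η := by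
    intro n hn hnN
    obtain ⟨j, hj1, hjR, hjZ⟩ : ∃ j : ℕ, 1 ≤ j ∧ j ≤ R ∧ n + j * (v * u * τ) ∈ Z := by
      by_contra hc
      push Not at hc
      exact hnN ⟨hn, hc⟩
    obtain ⟨q, hq⟩ : j ∣ R.factorial := Nat.dvd_factorial (by omega) hjR
    have hs := step hg h1 h2 u v n τ j hn.2 hjZ.2
    have hs' : S.m (fun w => g w ^ 2 * |θ₁ (v * n + u * w) -
        θ₁ (v * n + u * w + u * (j * (((v : ℤ) ^ 2 - (u : ℤ) ^ 2) * τ)))|) ≤
        2 * η₁ + modu S g (-(j * u ^ 2) * τ) := by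
      refine le_trans (le_of_eq (S.pf.congr fun w => ?_)) hs
      rw [show (u : ℤ) * (j * (((v : ℤ) ^ 2 - (u : ℤ) ^ 2) * τ)) =
        j * (((v : ℤ) ^ 2 - (u : ℤ) ^ 2) * (u * τ)) by ring]
    have hc := chain hg h1 u (v * n) (j * (((v : ℤ) ^ 2 - (u : ℤ) ^ 2) * τ)) hs' q
    have hc' : S.m (fun w => g w ^ 2 * |θ₁ (v * n + u * w) -
        θ₁ (v * n + u * w + ((v : ℤ) ^ 2 - (u : ℤ) ^ 2) * (R.factorial * (u * τ)))|) ≤
        ∑ l ∈ Finset.range q, (2 * η₁ + modu S g (-(j * u ^ 2) * τ) +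
          2 * modu S g (l * (j * (((v : ℤ) ^ 2 - (u : ℤ) ^ 2) * τ)))) := by
      refine le_trans (le_of_eq (S.pf.congr fun w => ?_)) hc
      rw [show ((v : ℤ) ^ 2 - (u : ℤ) ^ 2) * (R.factorial * (u * τ)) =
        q * (u * (j * (((v : ℤ) ^ 2 - (u : ℤ) ^ 2) * τ))) by rw [hq]; push_cast; ring]
    refine hc'.trans ?_
    have hjR' : (j : ℝ) ≤ R := by exact_mod_cast hjR
    have hj0 : (1 : ℝ) ≤ j := by exact_mod_cast hj1
    have hfq : (R.factorial : ℝ) = j * q := by rw [hq]; push_cast; ring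
    have m1 : modu S g (-(j * u ^ 2) * τ) ≤ R * (u : ℝ) ^ 2 * modu S g τ := by
      refine (PN.mul_le_int hgA.pn (-(j * u ^ 2)) τ).trans ?_
      push_cast
      rw [abs_neg, abs_of_nonneg (by positivity)]
      refine mul_le_mul_of_nonneg_right ?_ hτ0
      exact mul_le_mul_of_nonneg_right hjR' (by positivity)
    have m2 : ∀ l ∈ Finset.range q, modu S g (l * (j * (((v : ℤ) ^ 2 - (u : ℤ) ^ 2) * τ))) ≤
        R.factorial * κ * modu S g τ := by
      intro l hl
      have hl' : (l : ℝ) ≤ q := by exact_mod_cast (Finset.mem_range.1 hl).le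
      rw [show (l : ℤ) * (j * (((v : ℤ) ^ 2 - (u : ℤ) ^ 2) * τ)) =
        (l * j * ((v : ℤ) ^ 2 - (u : ℤ) ^ 2)) * τ by ring]
      refine (PN.mul_le_int hgA.pn _ τ).trans ?_
      push_cast
      rw [abs_of_nonneg (by rw [← hκd]; positivity), ← hκd]
      refine mul_le_mul_of_nonneg_right ?_ hτ0
      refine mul_le_mul_of_nonneg_right ?_ hκ.le
      rw [hfq]
      nlinarith
    have hqf : (q : ℝ) ≤ R.factorial := by
      rw [hfq]
      nlinarith [Nat.cast_nonneg (α := ℝ) q]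
    calc _ ≤ ∑ l ∈ Finset.range q, (2 * η₁ + M * modu S g τ) := by
          refine Finset.sum_le_sum fun l hl => ?_
          have := m2 l hl
          rw [hM]
          nlinarith
      _ = q * (2 * η₁ + M * modu S g τ) := by
          rw [Finset.sum_const, Finset.card_range, nsmul_eq_mul]
      _ ≤ R.factorial * (2 * η₁ + M * modu S g τ) :=
          mul_le_mul_of_nonneg_right hqf (by positivity)
      _ ≤ R.factorial * (2 * η₁ + M * (η / (2 * R.factorial * M))) := by
          refine mul_le_mul_of_nonneg_left ?_ hf.le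
          have := mul_le_mul_of_nonneg_left hτ hM0.le
          linarith
      _ = η := by
          rw [hη₁]
          field_simp
          ring
  -- conclusion
  have bU : ∀ n : ℤ, U01 (fun w => g w ^ 2 * |θ₁ (v * n + u * w) -
      θ₁ (v * n + u * w + ((v : ℤ) ^ 2 - (u : ℤ) ^ 2) * (R.factorial * (u * τ)))|) := fun n =>
    (sq_U01 hg).mul (U01_diff h1 h1 (fun w => v * n + u * w)
      (fun w => v * n + u * w + ((v : ℤ) ^ 2 - (u : ℤ) ^ 2) * (R.factorial * (u * τ))))
  have mU : U01 (fun n => S.m (fun w => g w ^ 2 * |θ₁ (v * n + u * w) -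
      θ₁ (v * n + u * w + ((v : ℤ) ^ 2 - (u : ℤ) ^ 2) * (R.factorial * (u * τ)))|)) := fun n =>
    ⟨S.pf.nonneg (bU n).bdd fun w => (bU n w).1, S.pf.le_of_le (bU n).bdd fun w => (bU n w).2⟩
  calc _ ≤ S.m (fun n => (ind (Y \ Z) n + ind NR n) + η) := by
        refine S.pf.mono ((ind_U01 Y).mul mU).bdd
          (((ind_bdd _).add (ind_bdd _)).add (Bdd.const η)) fun n => ?_
        have i1 := ind_nonneg (Y \ Z) n
        have i2 := ind_nonneg NR n
        by_cases hY : n ∈ Y
        · rw [ind_of_mem hY, one_mul]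
          by_cases hnZ : n ∈ Z
          · by_cases hnN : n ∈ NR
            · rw [ind_of_mem hnN]
              have := (mU n).2
              simp only at this
              linarith
            · have := key n hnZ hnN
              linarith
          · rw [ind_of_mem (show n ∈ Y \ Z from ⟨hY, hnZ⟩)]
            have := (mU n).2
            simp only at this
            linarith
        · rw [ind_of_notMem hY, zero_mul]
          linarith
    _ ≤ _ := by
        rw [S.pf.add ((ind_bdd _).add (ind_bdd _)) (Bdd.const η), S.pf.add (ind_bdd _) (ind_bdd _),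
          S.pf.const, hYZ]
        linarith

end Pool.Agent.LC79
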