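import Pool.Agent.Lib.MP_60922f_co.LC.Stmts79

/-!
LC, module LF: typical times.
-/

set_option autoImplicit false

open Filter Topology

namespace Pool.Agent.LC79
open Pool.Agent.FinA Pool.Agent.FinClique
open Pool.Agent.FinA.M9m (B2 mm)

namespace LF77

variable {S : MeanSys}

lemma modu_le_one {g : ℤ → ℝ} (hg : U01 g) (t : ℤ) : modu S g t ≤ 1 :=
  S.pf.le_of_le (modu_bdd_fun hg.bdd t) fun x => by
    have h1 := hg (x + t)
    have h2 := hg x
    exact abs_le.2 ⟨by linarith [h1.1, h2.2], by linarith [h1.2, h2.1]⟩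

/-- the pseudonorm of the inner averages -/
noncomputable def N2 (S : MeanSys) (g : ℤ → ℝ) (u v : ℕ) (s : ℤ) : ℝ :=
  if (u : ℤ) ∣ s then 2 * modu S g (v * (s / u)) else 2

lemma N2_nonneg {g : ℤ → ℝ} (hg : U01 g) (u v : ℕ) (s : ℤ) : 0 ≤ N2 S g u v s := by
  unfold N2
  split_ifs
  · exact mul_nonneg zero_le_two (modu_nonneg hg.bdd _)
  · norm_num

lemma N2_le_two {g : ℤ → ℝ} (hg : U01 g) (u v : ℕ) (s : ℤ) : N2 S g u v s ≤ 2 := by
  unfold N2
  split_ifs
  · linarith [modu_le_one (S := S) hg (v * (s / u))]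
  · exact le_rfl

lemma N2_pn {g : ℤ → ℝ} (hg : U01 g) (hgA : AP1 S g) {u : ℕ} (hu : 0 < u) (v : ℕ) :
    PN (N2 S g u v) where
  nonneg := fun t => N2_nonneg hg u v t
  zero := by
    unfold N2
    rw [if_pos (dvd_zero _)]
    simp [modu_zero]
  neg := fun t => by
    unfold N2
    by_cases h : (u : ℤ) ∣ t
    · rw [if_pos h, if_pos (dvd_neg.2 h), Int.neg_ediv_of_dvd h, mul_neg, modu_neg hg.bdd]
    · rw [if_neg h, if_neg (fun h' => h (dvd_neg.1 h'))]
  add := fun s t => by
    by_cases hs : (u : ℤ) ∣ s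
    · by_cases ht : (u : ℤ) ∣ t
      · unfold N2
        rw [if_pos hs, if_pos ht, if_pos (dvd_add hs ht), Int.add_ediv_of_dvd_left hs, mul_add]
        have := modu_add (S := S) hg.bdd (v * (s / u)) (v * (t / u))
        linarith
      · have h1 : N2 S g u v t = 2 := by unfold N2; exact if_neg ht
        have h2 := N2_le_two (S := S) hg u v (s + t)
        have h3 := N2_nonneg (S := S) hg u v s
        linarith
    · have h1 : N2 S g u v s = 2 := by unfold N2; exact if_neg hs
      have h2 := N2_le_two (S := S) hg u v (s + t)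
      have h3 := N2_nonneg (S := S) hg u v t
      linarith
  tb := fun η hη => by
    classical
    have hu' : (0 : ℤ) < u := by exact_mod_cast hu
    obtain ⟨P, hP⟩ := (PN.dil hgA.pn v).tb (η / 2) (by linarith)
    refine ⟨(Finset.range u ×ˢ P).image (fun x => (x.1 : ℤ) + u * x.2), fun t => ?_⟩
    obtain ⟨s, hs, hst⟩ := hP (t / u)
    have hr0 := Int.emod_nonneg t hu'.ne'
    have hr1 := Int.emod_lt_of_pos t hu'
    refine ⟨t % u + u * s, ?_, ?_⟩
    · refine Finset.mem_image.2 ⟨((t % u).toNat, s), Finset.mem_product.2 ⟨?_, hs⟩, ?_⟩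
      · rw [Finset.mem_range]; omega
      · simp only
        rw [Int.toNat_of_nonneg hr0]
    · have e : t - (t % u + u * s) = u * (t / u - s) := by
        have := Int.emod_add_mul_ediv t u
        linarith
      rw [e]
      unfold N2
      rw [if_pos (dvd_mul_right _ _), Int.mul_ediv_cancel_left _ hu'.ne']
      linarith

/-- inner averages are Lipschitz for `N2` -/
lemma avg_lip {g G h : ℤ → ℝ} (hg : U01 g) (hG : Bdd G) (hG01 : U01 G) {c : ℝ} (hc1 : c ≤ 2)
    (hGg : ∀ x y, |G x - G y| ≤ c * |g x - g y|) (hh : U01 h) {u : ℕ} (v : ℕ)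
    (n s : ℤ) :
    |S.m (fun w => G w * h (v * (n + s) + u * w)) - S.m (fun w => G w * h (v * n + u * w))| ≤
      N2 S g u v s := by
  have hb : ∀ n : ℤ, Bdd (fun w => G w * h (v * n + u * w)) := fun n =>
    hG.mul (hh.bdd.comp fun w => v * n + u * w)
  have h01 : ∀ n : ℤ, 0 ≤ S.m (fun w => G w * h (v * n + u * w)) ∧
      S.m (fun w => G w * h (v * n + u * w)) ≤ 1 := fun n =>
    ⟨S.pf.nonneg (hb n) fun w => mul_nonneg (hG01 w).1 (hh _).1,
      S.pf.le_of_le (hb n) fun w => mul_le_one₀ (hG01 w).2 (hh _).1 (hh _).2⟩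
  unfold N2
  split_ifs with hd
  · obtain ⟨s', rfl⟩ := hd
    rcases Nat.eq_zero_or_pos u with hu | hu
    · subst hu
      simp [modu_zero]
    have hu' : (u : ℤ) ≠ 0 := by exact_mod_cast hu.ne'
    rw [Int.mul_ediv_cancel_left _ hu']
    have e1 : S.m (fun w => G w * h (v * (n + u * s') + u * w)) =
        S.m (fun w => G (w - v * s') * h (v * n + u * w)) := by
      rw [← S.m_shift_sub (v * s') (hb (n + u * s'))]
      refine S.pf.congr fun w => ?_
      rw [show (v : ℤ) * (n + u * s') + u * (w - v * s') = v * n + u * w by ring]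
    rw [e1]
    have hb' : Bdd (fun w => G (w - v * s') * h (v * n + u * w)) :=
      (hG.comp fun w => w - v * s').mul (hh.bdd.comp fun w => v * n + u * w)
    refine (S.pf.abs_sub_le hb' (hb n)).trans ?_
    have e2 : modu S g (v * s') = S.m (fun w => |g w - g (w - v * s')|) := by
      unfold modu
      rw [← S.m_shift_sub (v * s') (modu_bdd_fun hg.bdd (v * s'))]
      refine S.pf.congr fun w => ?_
      rw [show w - (v : ℤ) * s' + v * s' = w by ring]
    have hbg : Bdd (fun w => |g w - g (w - v * s')|) :=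
      (hg.bdd.sub (hg.bdd.comp fun w => w - v * s')).abs
    rw [e2, ← S.pf.smul 2 hbg]
    refine S.pf.mono (hb'.sub (hb n)).abs (hbg.smul 2) fun w => ?_
    rw [← sub_mul, abs_mul, abs_of_nonneg (hh (v * n + u * w)).1]
    have k1 := hGg (w - v * s') w
    rw [abs_sub_comm (g (w - v * s')) (g w)] at k1
    have k2 := (hh (v * n + u * w)).2
    have k3 := (hh (v * n + u * w)).1
    have k4 := abs_nonneg (g w - g (w - v * s'))
    have k5 := abs_nonneg (G (w - v * s') - G w)
    nlinarith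
  · have k1 := h01 (n + s)
    have k2 := h01 n
    exact abs_le.2 ⟨by linarith [k1.1, k2.2], by linarith [k1.2, k2.1]⟩

lemma ind_and (Y : Set ℤ) (t n : ℤ) :
    ind {n | n ∈ Y ∧ n + t ∈ Y} n = ind Y n * ind Y (n + t) := by
  by_cases h1 : n ∈ Y
  · by_cases h2 : n + t ∈ Y
    · rw [ind_of_mem h1, ind_of_mem h2, ind_of_mem (show n ∈ {n | n ∈ Y ∧ n + t ∈ Y} from ⟨h1, h2⟩)]
      norm_num
    · rw [ind_of_notMem h2, mul_zero]
      exact ind_of_notMem fun h => h2 h.2
  · rw [ind_of_notMem h1, zero_mul]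
    exact ind_of_notMem fun h => h1 h.1

end LF77

open LF77 in
theorem lf (S : MeanSys) (h1 : LB1 S) : LF S := by
  classical
  intro Y Y' φ g hφ hg u v hu huv η hη
  have hv : 0 < v := hu.trans huv
  have hφ01 := hφ.1
  have hφA := hφ.2.1
  have hψ := hφ.2.2
  have hg01 := hg.1
  have hgA := hg.2.1
  have hψ' := hg.2.2
  have hN2 := N2_pn (S := S) hg01 hgA hu v
  set η1 : ℝ := η / 3 with hη1
  have hη10 : 0 < η1 := by positivity
  obtain ⟨P, hP⟩ := hN2.tb η1 hη10
  choose ρ hρP hρ using hP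
  set ψ : ℤ → ℝ := fun n => ind Y n - φ n with hψdef
  have hψb : Bdd ψ := hψ.1
  have hψ1 : ∀ n, |ψ n| ≤ 1 := fun n => by
    have a1 := ind_nonneg Y n
    have a2 := ind_le_one Y n
    have a3 := hφ01 n
    exact abs_le.2 ⟨by simp only [hψdef]; linarith [a3.2], by simp only [hψdef]; linarith [a3.1]⟩
  refine ⟨η1, hη10, fun v₀ hv₀ => ?_⟩
  -- the exceptional set
  have hbF : ∀ r : ℤ, Bdd (fun n => ind {n | ρ n = r} n * ψ n) := fun r => (ind_bdd _).mul hψb
  have hwm : ∀ r : ℤ, S.m (fun a => |S.m (fun n => ind {n | ρ n = r} n * ψ n *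
      ψ (n + v₀ * a))|) = 0 := fun r => hψ.2 v₀ hv₀ _ (hbF r)
  have hc0 : (0 : ℝ) < η1 / (P.card + 1) := by positivity
  have hbO : ∀ r : ℤ, Bdd (fun a => S.m (fun n => ind {n | ρ n = r} n * ψ n *
      ψ (n + v₀ * a))) := fun r => ⟨1, fun a => S.pf.abs_le fun n => by
    rw [abs_mul, abs_mul]
    have a1 := ind_nonneg {n | ρ n = r} n
    have a2 := ind_le_one {n | ρ n = r} n
    rw [abs_of_nonneg a1]
    exact mul_le_one₀ (mul_le_one₀ a2 (abs_nonneg _) (hψ1 n)) (abs_nonneg _) (hψ1 _)⟩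
  refine ⟨⋃ r ∈ P, {a | η1 / (P.card + 1) ≤
    |S.m (fun n => ind {n | ρ n = r} n * ψ n * ψ (n + v₀ * a))|}, ?_, ?_⟩
  · refine S.pf.ind_eq_zero_of_le ((S.pf.ind_iUnion_le _ _).trans (le_of_eq ?_))
    refine Finset.sum_eq_zero fun r _ => S.pf.ind_eq_zero_of_le ?_
    have := S.pf.markov (hbO r).abs (fun a => abs_nonneg _) hc0
    rw [hwm r, zero_div] at this
    exact this
  intro a haB hat h hh hhA lam hlam
  set t : ℤ := v₀ * a with ht
  have hBr : ∀ r ∈ P, |S.m (fun n => ind {n | ρ n = r} n * ψ n * ψ (n + t))| ≤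
      η1 / (P.card + 1) := by
    intro r hr
    by_contra hc
    push Not at hc
    apply haB
    simp only [Set.mem_iUnion]
    exact ⟨r, hr, hc.le⟩
  -- inner averages
  set H : ℤ → ℝ := fun n => S.m (fun w => g w ^ 2 * h (v * n + u * w)) with hH
  set K : ℤ → ℝ := fun n => S.m (fun w => g w * h (v * n + u * w)) with hK
  have hg2 : U01 (fun w => g w ^ 2) := fun w =>
    ⟨sq_nonneg _, pow_le_one₀ (hg01 w).1 (hg01 w).2⟩
  have bH : ∀ n : ℤ, Bdd (fun w => g w ^ 2 * h (v * n + u * w)) := fun n =>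
    hg2.bdd.mul (hh.bdd.comp fun w => v * n + u * w)
  have bK : ∀ n : ℤ, Bdd (fun w => g w * h (v * n + u * w)) := fun n =>
    hg01.bdd.mul (hh.bdd.comp fun w => v * n + u * w)
  have hH01 : U01 H := fun n =>
    ⟨S.pf.nonneg (bH n) fun w => mul_nonneg (hg2 w).1 (hh _).1,
      S.pf.le_of_le (bH n) fun w => mul_le_one₀ (hg2 w).2 (hh _).1 (hh _).2⟩
  have hK01 : U01 K := fun n =>
    ⟨S.pf.nonneg (bK n) fun w => mul_nonneg (hg01 w).1 (hh _).1,
      S.pf.le_of_le (bK n) fun w => mul_le_one₀ (hg01 w).2 (hh _).1 (hh _).2⟩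
  have hHlip : ∀ n s, |H (n + s) - H n| ≤ N2 S g u v s := fun n s =>
    avg_lip (G := fun w => g w ^ 2) (c := 2) hg01 hg2.bdd hg2 le_rfl (fun x y => by
      have e : g x ^ 2 - g y ^ 2 = (g x + g y) * (g x - g y) := by ring
      rw [e, abs_mul]
      have : |g x + g y| ≤ 2 := by
        have a1 := hg01 x
        have a2 := hg01 y
        exact abs_le.2 ⟨by linarith [a1.1, a2.1], by linarith [a1.2, a2.2]⟩
      exact mul_le_mul_of_nonneg_right this (abs_nonneg _)) hh v n s
  have hKlip : ∀ n s, |K (n + s) - K n| ≤ N2 S g u v s := fun n s =>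
    avg_lip (G := g) (c := 1) hg01 hg01.bdd hg01 (by norm_num) (fun x y => by rw [one_mul]) hh v n s
  have hHA : AP1 S H := AP1.of_lip hH01.bdd hN2 hHlip
  have hKA : AP1 S K := AP1.of_lip hK01.bdd hN2 hKlip
  -- first part: from `1_Y`, `1_Y'` to `φ`, `g`
  have s1 : S.m (fun n => ind Y n * S.m (fun w => ind Y' w * h (v * n + u * w))) =
      S.m (fun n => φ n * K n) := by
    have t1 : ∀ n : ℤ, S.m (fun w => ind Y' w * h (v * n + u * w)) = K n := by
      intro n
      have hA : AP1 S (fun w => h (u * w + v * n)) := hhA.dil hu (v * n)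
      have z := h1 _ _ hψ' hA 1 one_pos 0
      have e : (fun w => ind Y' w * h (v * n + u * w)) = fun w => g w * h (v * n + u * w) +
          (ind Y' (((1 : ℕ) : ℤ) * w + 0) - g (((1 : ℕ) : ℤ) * w + 0)) * h (u * w + v * n) := by
        funext w
        rw [show ((1 : ℕ) : ℤ) * w + 0 = w by push_cast; ring,
          show (u : ℤ) * w + v * n = v * n + u * w by ring]
        ring
      have b1 : Bdd (fun w => (ind Y' (((1 : ℕ) : ℤ) * w + 0) - g (((1 : ℕ) : ℤ) * w + 0)) *
          h (u * w + v * n)) :=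
        (((ind_bdd Y').comp _).sub (hg01.bdd.comp _)).mul (hh.bdd.comp _)
      rw [e, S.pf.add (bK n) b1, z, add_zero]
    rw [S.pf.congr (G := fun n => ind Y n * K n) fun n => by rw [t1 n]]
    have z := h1 _ _ hψ hKA 1 one_pos 0
    have e : (fun n => ind Y n * K n) = fun n => φ n * K n +
        ψ (((1 : ℕ) : ℤ) * n + 0) * K n := by
      funext n
      rw [show ((1 : ℕ) : ℤ) * n + 0 = n by push_cast; ring]
      simp only [hψdef]
      ring
    rw [e, S.pf.add (hφ01.bdd.mul hK01.bdd) ((hψb.comp _).mul hK01.bdd), z, add_zero]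
  have s2 : S.m (fun n => φ n * K n) ≤ lam + lam⁻¹ * S.m (fun n => φ n ^ 2 * H n) := by
    have hp : ∀ n, φ n * K n ≤ lam + lam⁻¹ * (φ n ^ 2 * H n) := by
      intro n
      have e1 : φ n * K n = S.m (fun w => φ n * (g w * h (v * n + u * w))) :=
        (S.pf.smul (φ n) (bK n)).symm
      have e2 : lam + lam⁻¹ * (φ n ^ 2 * H n) =
          S.m (fun w => lam + lam⁻¹ * φ n ^ 2 * (g w ^ 2 * h (v * n + u * w))) := by
        rw [S.pf.add (Bdd.const lam) ((bH n).smul _), S.pf.const, S.pf.smul _ (bH n)]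
        ring
      rw [e1, e2]
      refine S.pf.mono ((bK n).smul _) ((Bdd.const lam).add ((bH n).smul _)) fun w => ?_
      set x : ℝ := φ n * g w with hx
      have hx0 : 0 ≤ x := mul_nonneg (hφ01 n).1 (hg01 w).1
      have hx1 : x ≤ 1 := mul_le_one₀ (hφ01 n).2 (hg01 w).1 (hg01 w).2
      have hy0 := (hh (v * n + u * w)).1
      have hy1 := (hh (v * n + u * w)).2
      set y : ℝ := h (v * n + u * w) with hy
      have goal1 : x * y ≤ lam + lam⁻¹ * (x ^ 2 * y) := by
        rw [← sub_nonneg]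
        have e : lam + lam⁻¹ * (x ^ 2 * y) - x * y = lam⁻¹ * (lam ^ 2 + x ^ 2 * y - lam * x * y) := by
          field_simp
        rw [e]
        refine mul_nonneg (inv_nonneg.2 hlam.le) ?_
        rcases le_total x lam with hxl | hxl
        · have : lam * x * y ≤ lam ^ 2 := by
            have : x * y ≤ lam := by nlinarith
            nlinarith
          nlinarith [mul_nonneg (sq_nonneg x) hy0]
        · have : lam * x * y ≤ x ^ 2 * y := by
            have : lam * x ≤ x ^ 2 := by nlinarith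
            exact mul_le_mul_of_nonneg_right this hy0
          nlinarith [sq_nonneg lam]
      calc φ n * (g w * y) = x * y := by rw [hx]; ring
        _ ≤ lam + lam⁻¹ * (x ^ 2 * y) := goal1
        _ = lam + lam⁻¹ * φ n ^ 2 * (g w ^ 2 * y) := by rw [hx]; ring
    have bR : Bdd (fun n => φ n ^ 2 * H n) := hφ01.bdd.sq.mul hH01.bdd
    refine (S.pf.mono (hφ01.bdd.mul hK01.bdd) ((Bdd.const lam).add (bR.smul lam⁻¹)) hp).trans ?_
    rw [S.pf.add (Bdd.const lam) (bR.smul _), S.pf.const, S.pf.smul _ bR]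
  -- second part
  have s3 : S.m (fun n => φ n ^ 2 * H n) ≤
      S.m (fun n => ind {n | n ∈ Y ∧ n + t ∈ Y} n * H n) + η := by
    have z1 := h1 ψ (fun n => φ n * H n) hψ (hφA.mul hHA) 1 one_pos t
    have z2 := h1 ψ (fun n => φ (n + t) * H n) hψ ((hφA.shift t).mul hHA) 1 one_pos 0
    have z1' : S.m (fun n => φ n * ψ (n + t) * H n) = 0 := by
      rw [← z1]
      refine S.pf.congr fun n => ?_
      rw [show ((1 : ℕ) : ℤ) * n + t = n + t by push_cast; ring]
      ring
    have z2' : S.m (fun n => ψ n * φ (n + t) * H n) = 0 := by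
      rw [← z2]
      refine S.pf.congr fun n => ?_
      rw [show ((1 : ℕ) : ℤ) * n + 0 = n by push_cast; ring]
      ring
    have bψt : Bdd (fun n => ψ (n + t)) := hψb.shift t
    have bφt : Bdd (fun n => φ (n + t)) := hφ01.bdd.shift t
    have z3 : |S.m (fun n => ψ n * ψ (n + t) * H n)| ≤ 2 * η1 := by
      have bA : Bdd (fun n => ψ n * ψ (n + t) * (H n - H (ρ n))) :=
        (hψb.mul bψt).mul (hH01.bdd.sub (hH01.bdd.comp ρ))
      have bC : ∀ r ∈ P, Bdd (fun n => H r * (ind {n | ρ n = r} n * ψ n * ψ (n + t))) :=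
        fun r _ => (((ind_bdd _).mul hψb).mul bψt).smul _
      have e : (fun n => ψ n * ψ (n + t) * H n) = fun n =>
          ψ n * ψ (n + t) * (H n - H (ρ n)) +
            ∑ r ∈ P, H r * (ind {n | ρ n = r} n * ψ n * ψ (n + t)) := by
        funext n
        have : ∑ r ∈ P, H r * (ind {n | ρ n = r} n * ψ n * ψ (n + t)) =
            H (ρ n) * (ψ n * ψ (n + t)) := by
          rw [Finset.sum_eq_single_of_mem (ρ n) (hρP n)]
          · rw [ind_of_mem (show n ∈ {n' | ρ n' = ρ n} from rfl), one_mul]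
          · intro r _ hr
            rw [ind_of_notMem (fun hm => hr (by exact Eq.symm hm))]
            ring
        rw [this]; ring
      rw [e, S.pf.add bA (Bdd.sum P _ bC), S.pf.sum P _ bC]
      refine (abs_add_le _ _).trans ?_
      have p1 : |S.m (fun n => ψ n * ψ (n + t) * (H n - H (ρ n)))| ≤ η1 := by
        refine S.pf.abs_le fun n => ?_
        rw [abs_mul, abs_mul]
        have q1 := hHlip (ρ n) (n - ρ n)
        rw [show ρ n + (n - ρ n) = n by ring] at q1
        have q2 := q1.trans (hρ n)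
        have q3 : |ψ n| * |ψ (n + t)| ≤ 1 := mul_le_one₀ (hψ1 n) (abs_nonneg _) (hψ1 _)
        calc |ψ n| * |ψ (n + t)| * |H n - H (ρ n)| ≤ 1 * η1 :=
              mul_le_mul q3 q2 (abs_nonneg _) zero_le_one
          _ = η1 := one_mul _
      have p2 : |∑ r ∈ P, S.m (fun n => H r * (ind {n | ρ n = r} n * ψ n * ψ (n + t)))| ≤ η1 := by
        calc _ ≤ ∑ r ∈ P, |S.m (fun n => H r * (ind {n | ρ n = r} n * ψ n * ψ (n + t)))| :=
              Finset.abs_sum_le_sum_abs _ _
          _ ≤ ∑ r ∈ P, η1 / (P.card + 1) := by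
              refine Finset.sum_le_sum fun r hr => ?_
              rw [S.pf.smul (H r) (((ind_bdd _).mul hψb).mul bψt), abs_mul,
                abs_of_nonneg (hH01 r).1]
              have q1 := hBr r hr
              have q2 := (hH01 r).2
              have q3 := abs_nonneg (S.m (fun n => ind {n | ρ n = r} n * ψ n * ψ (n + t)))
              calc _ ≤ 1 * |S.m (fun n => ind {n | ρ n = r} n * ψ n * ψ (n + t))| :=
                    mul_le_mul_of_nonneg_right q2 q3
                _ ≤ _ := by rw [one_mul]; exact q1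
          _ = P.card * (η1 / (P.card + 1)) := by
              rw [Finset.sum_const, nsmul_eq_mul]
          _ ≤ η1 := by
              rw [← mul_div_assoc, div_le_iff₀ (by positivity)]
              nlinarith
      linarith
    have bφφ : Bdd (fun n => φ n * φ (n + t) * H n) := (hφ01.bdd.mul bφt).mul hH01.bdd
    have b1 : Bdd (fun n => φ n * ψ (n + t) * H n) := (hφ01.bdd.mul bψt).mul hH01.bdd
    have b2 : Bdd (fun n => ψ n * φ (n + t) * H n) := (hψb.mul bφt).mul hH01.bdd
    have b3 : Bdd (fun n => ψ n * ψ (n + t) * H n) := (hψb.mul bψt).mul hH01.bdd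
    have e4 : S.m (fun n => ind {n | n ∈ Y ∧ n + t ∈ Y} n * H n) =
        S.m (fun n => φ n * φ (n + t) * H n) + S.m (fun n => ψ n * ψ (n + t) * H n) := by
      have e : (fun n => ind {n | n ∈ Y ∧ n + t ∈ Y} n * H n) = fun n =>
          ((φ n * φ (n + t) * H n + φ n * ψ (n + t) * H n) + ψ n * φ (n + t) * H n) +
            ψ n * ψ (n + t) * H n := by
        funext n
        rw [ind_and]
        simp only [hψdef]
        ring
      rw [e, S.pf.add ((bφφ.add b1).add b2) b3, S.pf.add (bφφ.add b1) b2, S.pf.add bφφ b1,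
        z1', z2', add_zero, add_zero]
    have s4 : S.m (fun n => φ n ^ 2 * H n) ≤ S.m (fun n => φ n * φ (n + t) * H n) + η1 := by
      have bm : Bdd (fun n => |φ (n + t) - φ n|) := modu_bdd_fun hφ01.bdd t
      have hm : S.m (fun n => |φ (n + t) - φ n|) ≤ η1 := hat
      have := S.pf.mono (hφ01.bdd.sq.mul hH01.bdd) (bφφ.add bm) (fun n => by
        have a1 := (hφ01 n).1
        have a2 := (hφ01 n).2
        have a3 := (hH01 n).1
        have a4 := (hH01 n).2
        have a5 := neg_abs_le (φ (n + t) - φ n)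
        have a6 := abs_nonneg (φ (n + t) - φ n)
        have a7 : 0 ≤ φ n * H n := mul_nonneg a1 a3
        have a8 : φ n * H n ≤ 1 := mul_le_one₀ a2 a3 a4
        have a9 : φ n ^ 2 * H n - φ n * φ (n + t) * H n = φ n * H n * (-(φ (n + t) - φ n)) := by
          ring
        have a10 : φ n * H n * (-(φ (n + t) - φ n)) ≤ 1 * |φ (n + t) - φ n| := by
          calc φ n * H n * (-(φ (n + t) - φ n)) ≤ φ n * H n * |φ (n + t) - φ n| :=
                mul_le_mul_of_nonneg_left (by linarith) a7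
            _ ≤ 1 * |φ (n + t) - φ n| := mul_le_mul_of_nonneg_right a8 a6
        linarith)
      rw [S.pf.add bφφ bm] at this
      linarith
    rw [e4]
    have := (abs_le.1 z3).1
    have hsum : η1 + 2 * η1 = η := by rw [hη1]; ring
    linarith
  rw [s1]
  refine s2.trans ?_
  have := mul_le_mul_of_nonneg_left s3 (inv_nonneg.2 hlam.le)
  linarith

end Pool.Agent.LC79
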