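import Pool.Agent.Lib.MP_60922f_co.LC.Stmts79

/-!
LC, module LG (glue of LA, LD, LE, LF): flatness of the projections of the two-point functions,
seen from `Y` and `Y'`, for typical small times.
-/

set_option autoImplicit false

open Filter Topology

namespace Pool.Agent.LC79
open Pool.Agent.FinA Pool.Agent.FinClique

theorem lg (S : MeanSys) (ha : LA S) (hd : LD S) (he : LE S) (hf : LF S) : LG S := by
  intro f Y Y' u v hu huv hK η hη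
  obtain ⟨φ, hφ⟩ := ha (ind Y) (ind_U01 Y)
  obtain ⟨g, hg⟩ := ha (ind Y') (ind_U01 Y')
  have hη2 : 0 < η ^ 2 / 12 := by positivity
  obtain ⟨R₀, hR₀⟩ := exists_nat_gt (12 / η ^ 2)
  set R : ℕ := R₀ + 1 with hR
  have hRb : (1 : ℝ) / (R + 1) ≤ η ^ 2 / 12 := by
    rw [div_lt_iff₀ (by positivity)] at hR₀
    rw [div_le_div_iff₀ (by positivity) (by norm_num), hR]
    push_cast
    nlinarith [sq_nonneg η]
  obtain ⟨δ₁, hδ₁, hE⟩ := he g hg.1 hg.2.1 u v hu huv R (Nat.succ_pos _) (η ^ 2 / 12) hη2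
  obtain ⟨δ₂, hδ₂, hF⟩ := hf Y Y' φ g hφ hg u v hu huv (η ^ 2 / 12) hη2
  refine ⟨R.factorial, fun t => modu S φ t + modu S g t, min δ₁ δ₂, Nat.factorial_pos R,
    PN.sum2 hφ.2.1.pn hg.2.1.pn, lt_min hδ₁ hδ₂, fun v₀ hv₀ => ?_⟩
  obtain ⟨B, hB, hBF⟩ := hF v₀ hv₀
  refine ⟨B, hB, fun a haB hNa θ hθ τ hNτ => ?_⟩
  have hφa : modu S φ (v₀ * a) ≤ δ₂ := by
    have h1 := modu_nonneg (S := S) hg.1.bdd (v₀ * a)
    have h2 := hNa.trans (min_le_right δ₁ δ₂)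
    linarith
  have hgτ : modu S g τ ≤ δ₁ := by
    have h1 := modu_nonneg (S := S) hφ.1.bdd τ
    have h2 := hNτ.trans (min_le_left δ₁ δ₂)
    linarith
  obtain ⟨θ₂, hθ₂⟩ := ha (Df f (u * (v₀ * a))) (Df_U01 f _)
  have h0 := hd f Y Y' u v hu huv hK (v₀ * a) θ θ₂ g hθ hθ₂ hg
  have h1 := hE {n | n ∈ Y ∧ n + v₀ * a ∈ Y} θ θ₂ hθ.1 hθ₂.1 h0 τ hgτ
  set e : ℤ := ((v : ℤ) ^ 2 - (u : ℤ) ^ 2) * (R.factorial * (u * τ)) with hedef
  have hh1 : U01 (fun z => |θ z - θ (z + e)|) := fun z => by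
    have a1 := hθ.1 z
    have a2 := hθ.1 (z + e)
    exact ⟨abs_nonneg _, abs_le.2 ⟨by linarith, by linarith⟩⟩
  have hh2 : AP1 S (fun z => |θ z - θ (z + e)|) := (hθ.2.1.sub (hθ.2.1.shift e)).abs
  have h2 := hBF a haB hφa _ hh1 hh2 (η / 2) (by positivity)
  have h3 : (η / 2)⁻¹ * (S.m (fun n => ind {n | n ∈ Y ∧ n + v₀ * a ∈ Y} n *
      S.m (fun w => g w ^ 2 * |θ (v * n + u * w) - θ (v * n + u * w + e)|)) + η ^ 2 / 12) ≤
      (η / 2)⁻¹ * (η ^ 2 / 4) := by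
    refine mul_le_mul_of_nonneg_left ?_ (by positivity)
    linarith
  have h4 : (η / 2)⁻¹ * (η ^ 2 / 4) = η / 2 := by field_simp; ring
  calc _ ≤ _ := h2
    _ ≤ η / 2 + (η / 2)⁻¹ * (η ^ 2 / 4) := by linarith
    _ = η := by rw [h4]; ring

end Pool.Agent.LC79
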