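import Pool.Agent.Lib.MP_60922f_co.LC.Stmts79

/-!
LC, module LH: rigid times (second pigeonhole, in both variables).
-/

set_option autoImplicit false

open Filter Topology

namespace Pool.Agent.LC79
open Pool.Agent.FinA Pool.Agent.FinClique
open Pool.Agent.FinA.M9m (B2 mm)

namespace LH77

variable {S : MeanSys}

/-- a product weight kills weakly mixing functions -/
lemma mm_wm (h2 : LB2 S) {ψ : ℤ → ℝ} (hψ : WM S ψ) {F G : ℤ → ℝ} (hF : Bdd F) (hG : Bdd G)
    {u v : ℕ} (hu : 0 < u) (hv : 0 < v) (s : ℤ) :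
    mm S (fun n w => F n * G w * ψ (v * n + u * w + s)) = 0 := by
  obtain ⟨C, hC0, hC⟩ := hF.nonneg_bound
  have h0 := h2 ψ hψ G hG u v hu hv s
  have hb2 : B2 (fun n w => G w * ψ (v * n + u * w + s)) := by
    obtain ⟨D, hD0, hD⟩ := hG.nonneg_bound
    obtain ⟨E, hE⟩ := hψ.1
    exact ⟨D * E, fun n w => by
      rw [abs_mul]; exact mul_le_mul (hD w) (hE _) (abs_nonneg _) hD0⟩
  have hbo := hb2.outer S
  have e1 : mm S (fun n w => F n * G w * ψ (v * n + u * w + s)) =
      S.m (fun n => F n * S.m (fun w => G w * ψ (v * n + u * w + s))) := by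
    unfold M9m.mm
    refine S.pf.congr fun n => ?_
    rw [← S.pf.smul (F n) (hb2.row n)]
    exact S.pf.congr fun w => by ring
  rw [e1]
  have h3 : |S.m (fun n => F n * S.m (fun w => G w * ψ (v * n + u * w + s)))| ≤ 0 := by
    calc |S.m (fun n => F n * S.m (fun w => G w * ψ (v * n + u * w + s)))|
        ≤ S.m (fun n => |F n * S.m (fun w => G w * ψ (v * n + u * w + s))|) :=
          S.pf.abs_le_abs (hF.mul hbo)
      _ ≤ S.m (fun n => C * |S.m (fun w => G w * ψ (v * n + u * w + s))|) := by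
          refine S.pf.mono (hF.mul hbo).abs (hbo.abs.smul C) fun n => ?_
          rw [abs_mul]
          exact mul_le_mul_of_nonneg_right (hC n) (abs_nonneg _)
      _ = 0 := by rw [S.pf.smul C hbo.abs, h0, mul_zero]
  exact abs_nonpos_iff.1 h3

/-- product weights do not see the difference between a function and its projection -/
lemma mm_pr (h2 : LB2 S) {d θ : ℤ → ℝ} (hd : Bdd d) (hθ : IsPr S d θ) {F G : ℤ → ℝ} (hF : Bdd F)
    (hG : Bdd G) {u v : ℕ} (hu : 0 < u) (hv : 0 < v) (s : ℤ) :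
    mm S (fun n w => F n * G w * d (v * n + u * w + s)) =
      mm S (fun n w => F n * G w * θ (v * n + u * w + s)) := by
  have h0 := mm_wm h2 hθ.2.2 hF hG hu hv s
  have e : (fun n w : ℤ => F n * G w * d (v * n + u * w + s)) =
      fun n w => F n * G w * θ (v * n + u * w + s) +
        F n * G w * (d (v * n + u * w + s) - θ (v * n + u * w + s)) := by
    funext n w; ring
  have hP : B2 (fun n w : ℤ => F n * G w) := B2.prod hF hG
  have b1 : B2 (fun n w : ℤ => F n * G w * θ (v * n + u * w + s)) :=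
    hP.mul (M9m.B2.of hθ.1.bdd fun n w => v * n + u * w + s)
  have b2 : B2 (fun n w : ℤ => F n * G w *
      (d (v * n + u * w + s) - θ (v * n + u * w + s))) :=
    hP.mul ((M9m.B2.of hd fun n w => v * n + u * w + s).sub
      (M9m.B2.of hθ.1.bdd fun n w => v * n + u * w + s))
  rw [e, M9m.mm_add b1 b2]
  have h0' : mm S (fun n w => F n * G w *
      (d (v * n + u * w + s) - θ (v * n + u * w + s))) = 0 := h0
  rw [h0', add_zero]

/-- exactness: two K-moves with the same right hand side -/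
lemma exact0 {f : ℕ → Bool} {Y Y' : Set ℤ} {u v : ℕ} (hK : Kmv S f Y Y' u v) {p q e : ℤ}
    (h1 : (u : ℤ) * p = v * q) (h2 : e = v * p - u * q) :
    mm S (fun n w => (ind Y n * ind Y (n + p)) * (ind Y' w * ind Y' (w - q)) *
      Df f e (v * n + u * w)) = 0 := by
  have hin : ∀ n, S.m (fun w => (ind Y n * ind Y (n + p)) * (ind Y' w * ind Y' (w - q)) *
      Df f e (v * n + u * w)) = 0 := by
    intro n
    by_cases hn : n ∈ Y
    swap
    · rw [S.pf.congr (G := fun _ => 0), S.pf.zero]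
      intro w; rw [ind_of_notMem hn]; ring
    by_cases hn' : n + p ∈ Y
    swap
    · rw [S.pf.congr (G := fun _ => 0), S.pf.zero]
      intro w; rw [ind_of_notMem hn']; ring
    set E1 : Set ℤ := {w | w ∈ Y' ∧ f (v * n + u * w).toNat ≠ f (u * n + v * w).toNat} with hE1
    set E2 : Set ℤ := {w | w ∈ Y' ∧
      f (v * (n + p) + u * w).toNat ≠ f (u * (n + p) + v * w).toNat} with hE2
    have z1 : S.m (ind E1) = 0 := hK n hn
    have z2 : S.m (ind E2) = 0 := hK (n + p) hn'
    have z3 : S.m (ind {w | w - q ∈ E2}) = 0 := by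
      rw [← z2, ← S.m_shift_sub q (ind_bdd E2)]
      rfl
    have hz := S.pf.null_union z1 z3
    refine S.pf.eq_zero_of_null ?_ hz ?_
    · exact ((B2.prod ((ind_bdd Y).mul ((ind_bdd Y).shift p))
        ((ind_bdd Y').mul ((ind_bdd Y').comp fun w => w - q))).mul
        (M9m.B2.of (Df_bdd f e) fun n w => v * n + u * w)).row n
    · intro w hw
      by_cases hw1 : w ∈ Y'
      swap
      · rw [ind_of_notMem hw1]; ring
      by_cases hw2 : w - q ∈ Y'
      swap
      · rw [ind_of_notMem hw2]; ring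
      have hn1 : w ∉ E1 := fun h => hw (Or.inl h)
      have hn2 : w - q ∉ E2 := fun h => hw (Or.inr h)
      have k1 : f (v * n + u * w).toNat = f (u * n + v * w).toNat := by
        by_contra hc; exact hn1 ⟨hw1, hc⟩
      have k2 : f (v * (n + p) + u * (w - q)).toNat = f (u * (n + p) + v * (w - q)).toNat := by
        by_contra hc; exact hn2 ⟨hw2, hc⟩
      rw [show (v : ℤ) * (n + p) + u * (w - q) = v * n + u * w + e by rw [h2]; ring,
        show (u : ℤ) * (n + p) + v * (w - q) = u * n + v * w by linear_combination h1] at k2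
      have : Df f e (v * n + u * w) = 0 := by
        unfold Df; rw [if_pos (k2.trans k1.symm)]
      rw [this, mul_zero]
  unfold M9m.mm
  rw [S.pf.congr hin, S.pf.zero]

/-- one term of the chain -/
lemma term_le (h2 : LB2 S) {f : ℕ → Bool} {Y Y' : Set ℤ} {u v : ℕ} (hu : 0 < u) (hv : 0 < v)
    (hK : Kmv S f Y Y' u v) {p q e s : ℤ} (h1 : (u : ℤ) * p = v * q) (he : e = v * p - u * q)
    {θ : ℤ → ℝ} (hθ : IsPr S (Df f e) θ) {η : ℝ}
    (hη : S.m (fun n => ind Y n * S.m (fun w => ind Y' w *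
      |θ (v * n + u * w) - θ (v * n + u * w + s)|)) ≤ η) :
    mm S (fun n w => (ind Y n * ind Y (n + p)) * (ind Y' w * ind Y' (w - q)) *
      Df f e (v * n + u * w + s)) ≤ η := by
  have bF : Bdd (fun n => ind Y n * ind Y (n + p)) := (ind_bdd Y).mul ((ind_bdd Y).shift p)
  have bG : Bdd (fun w => ind Y' w * ind Y' (w - q)) :=
    (ind_bdd Y').mul ((ind_bdd Y').comp fun w => w - q)
  have bθ : ∀ s : ℤ, B2 (fun n w : ℤ => θ (v * n + u * w + s)) := fun s =>
    M9m.B2.of hθ.1.bdd fun n w => v * n + u * w + s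
  have bθ0 : B2 (fun n w : ℤ => θ (v * n + u * w)) := M9m.B2.of hθ.1.bdd fun n w => v * n + u * w
  have e1 := mm_pr h2 (Df_bdd f e) hθ bF bG hu hv s
  have e2 := mm_pr h2 (Df_bdd f e) hθ bF bG hu hv 0
  have e3 := exact0 hK h1 he
  simp only [add_zero] at e2
  rw [e3] at e2
  rw [e1]
  have hle : mm S (fun n w => (ind Y n * ind Y (n + p)) * (ind Y' w * ind Y' (w - q)) *
      θ (v * n + u * w + s)) ≤
      mm S (fun n w => (ind Y n * ind Y (n + p)) * (ind Y' w * ind Y' (w - q)) *
        θ (v * n + u * w) + ind Y n * (ind Y' w *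
          |θ (v * n + u * w) - θ (v * n + u * w + s)|)) := by
    have bb : B2 (fun n w : ℤ => ind Y n * (ind Y' w *
          |θ (v * n + u * w) - θ (v * n + u * w + s)|)) := by
      have := (B2.prod (ind_bdd Y) (ind_bdd Y')).mul ((bθ0.sub (bθ s)).abs)
      refine (this : B2 _).imp fun C hC n w => ?_
      beta_reduce
      rw [← mul_assoc]
      exact hC n w
    refine M9m.mm_mono ((B2.prod bF bG).mul (bθ s)) (((B2.prod bF bG).mul bθ0).add bb)
      fun n w => ?_
    have a1 := ind_nonneg Y n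
    have a2 := ind_le_one Y n
    have a3 := ind_nonneg Y (n + p)
    have a4 := ind_le_one Y (n + p)
    have a5 := ind_nonneg Y' w
    have a7 := ind_nonneg Y' (w - q)
    have a8 := ind_le_one Y' (w - q)
    have c1 : ind Y n * ind Y (n + p) * (ind Y' w * ind Y' (w - q)) ≤ ind Y n * ind Y' w := by
      have : ind Y n * ind Y (n + p) ≤ ind Y n := by nlinarith
      have h' : ind Y' w * ind Y' (w - q) ≤ ind Y' w := by nlinarith
      exact mul_le_mul this h' (mul_nonneg a5 a7) a1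
    have c0 : 0 ≤ ind Y n * ind Y (n + p) * (ind Y' w * ind Y' (w - q)) := by positivity
    have c2 : θ (v * n + u * w + s) ≤ θ (v * n + u * w) +
        |θ (v * n + u * w) - θ (v * n + u * w + s)| := by
      have := neg_abs_le (θ (v * n + u * w) - θ (v * n + u * w + s))
      linarith
    have c3 := mul_le_mul_of_nonneg_left c2 c0
    have c4 := mul_le_mul_of_nonneg_right c1
      (abs_nonneg (θ (v * n + u * w) - θ (v * n + u * w + s)))
    linarith
  have bb : B2 (fun n w : ℤ => ind Y n * (ind Y' w *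
          |θ (v * n + u * w) - θ (v * n + u * w + s)|)) := by
    have := (B2.prod (ind_bdd Y) (ind_bdd Y')).mul ((bθ0.sub (bθ s)).abs)
    refine (this : B2 _).imp fun C hC n w => ?_
    beta_reduce
    rw [← mul_assoc]
    exact hC n w
  rw [M9m.mm_add ((B2.prod bF bG).mul bθ0) bb, ← e2, zero_add] at hle
  refine hle.trans (le_trans (le_of_eq ?_) hη)
  unfold M9m.mm
  refine S.pf.congr fun n => ?_
  refine S.pf.smul (ind Y n) ?_
  exact (ind_bdd Y').mul ((bθ0.sub (bθ s)).abs.row n)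

open Classical in
/-- pairs without a return -/
noncomputable def bad (Y Y' : Set ℤ) (p q : ℤ) (R : ℕ) (n w : ℤ) : ℝ :=
  if n ∈ Y ∧ w ∈ Y' ∧ ∀ i < R, ¬ (n + p * (i + 1) ∈ Y ∧ w - q * (i + 1) ∈ Y') then 1 else 0

lemma bad_nonneg (Y Y' : Set ℤ) (p q : ℤ) (R : ℕ) (n w : ℤ) : 0 ≤ bad Y Y' p q R n w := by
  unfold bad; split_ifs <;> norm_num

lemma bad_le_one (Y Y' : Set ℤ) (p q : ℤ) (R : ℕ) (n w : ℤ) : bad Y Y' p q R n w ≤ 1 := by
  unfold bad; split_ifs <;> norm_num

lemma bad_b2 (Y Y' : Set ℤ) (p q : ℤ) (R : ℕ) : B2 (bad Y Y' p q R) :=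
  ⟨1, fun n w => abs_le.2 ⟨by linarith [bad_nonneg Y Y' p q R n w], bad_le_one Y Y' p q R n w⟩⟩

lemma bad_cond {Y Y' : Set ℤ} {p q : ℤ} {R : ℕ} {n w : ℤ} (h : bad Y Y' p q R n w ≠ 0) :
    n ∈ Y ∧ w ∈ Y' ∧ ∀ i < R, ¬ (n + p * ((i : ℕ) + 1) ∈ Y ∧ w - q * (i + 1) ∈ Y') := by
  by_contra hc
  apply h
  unfold bad
  exact if_neg hc

lemma bad_disj (Y Y' : Set ℤ) (p q : ℤ) (R : ℕ) (n w : ℤ) {i k : ℕ} (hik : i < k) (hk : k ≤ R)
    (hi : bad Y Y' p q R (n + i * p) (w + i * (-q)) ≠ 0) :
    bad Y Y' p q R (n + k * p) (w + k * (-q)) = 0 := by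
  by_contra hc
  have h1 := bad_cond hi
  have h2 := bad_cond hc
  obtain ⟨d, rfl⟩ := Nat.exists_eq_add_of_lt hik
  refine h1.2.2 d (by omega) ⟨?_, ?_⟩
  · have := h2.1
    rw [show n + ((i + d + 1 : ℕ) : ℤ) * p = n + i * p + p * (d + 1) by push_cast; ring] at this
    exact this
  · have := h2.2.1
    rw [show w + ((i + d + 1 : ℕ) : ℤ) * (-q) = w + i * (-q) - q * (d + 1) by
      push_cast; ring] at this
    exact this

lemma sum_bad_le (Y Y' : Set ℤ) (p q : ℤ) (R : ℕ) (n w : ℤ) :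
    ∑ i ∈ Finset.range (R + 1), bad Y Y' p q R (n + i * p) (w + i * (-q)) ≤ 1 := by
  by_cases h : ∃ i ∈ Finset.range (R + 1), bad Y Y' p q R (n + i * p) (w + i * (-q)) ≠ 0
  · obtain ⟨i, hi, hne⟩ := h
    rw [Finset.sum_eq_single_of_mem i hi]
    · exact bad_le_one _ _ _ _ _ _ _
    · intro k hk hki
      rw [Finset.mem_range] at hk hi
      rcases lt_or_gt_of_ne hki with h' | h'
      · by_contra hc
        exact hne (bad_disj Y Y' p q R n w h' (by omega) hc)
      · exact bad_disj Y Y' p q R n w h' (by omega) hne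
  · push Not at h
    rw [Finset.sum_eq_zero h]
    norm_num

lemma mm_bad_le (Y Y' : Set ℤ) (p q : ℤ) (R : ℕ) : mm S (bad Y Y' p q R) ≤ 1 / (R + 1) := by
  have hb := bad_b2 Y Y' p q R
  have hbi : ∀ i ∈ Finset.range (R + 1),
      B2 (fun n w => bad Y Y' p q R (n + i * p) (w + i * (-q))) := fun i _ =>
    hb.imp fun C hC n w => hC _ _
  have h1 : mm S (fun n w => ∑ i ∈ Finset.range (R + 1),
      bad Y Y' p q R (n + i * p) (w + i * (-q))) ≤ 1 :=
    mm_le_one (M9m.B2.sum _ hbi) fun n w => sum_bad_le Y Y' p q R n w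
  rw [M9m.mm_sum _ hbi, Finset.sum_congr rfl
    (fun (i : ℕ) _ => mm_shift (S := S) hb ((i : ℤ) * p) ((i : ℤ) * (-q))),
    Finset.sum_const, Finset.card_range, nsmul_eq_mul] at h1
  rw [le_div_iff₀ (by positivity)]
  push_cast at h1
  linarith

lemma point (f : ℕ → Bool) (Y Y' : Set ℤ) (p q e : ℤ) (R : ℕ) (n w z : ℤ) :
    ind Y n * ind Y' w * Df f (e * R.factorial) z ≤ bad Y Y' p q R n w +
      ∑ i ∈ Finset.range R, ∑ l ∈ Finset.range (R.factorial / (i + 1)),
        (ind Y n * ind Y (n + p * (i + 1))) * (ind Y' w * ind Y' (w - q * (i + 1))) *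
          Df f (e * (i + 1)) (z + l * (e * (i + 1))) := by
  have hD : ∀ t z : ℤ, 0 ≤ Df f t z := fun t z => (Df_U01 f t z).1
  have hD1 : ∀ t z : ℤ, Df f t z ≤ 1 := fun t z => (Df_U01 f t z).2
  have hterm : ∀ i ∈ Finset.range R, 0 ≤ ∑ l ∈ Finset.range (R.factorial / (i + 1)),
        (ind Y n * ind Y (n + p * (i + 1))) * (ind Y' w * ind Y' (w - q * (i + 1))) *
          Df f (e * (i + 1)) (z + l * (e * (i + 1))) := fun i _ =>
    Finset.sum_nonneg fun l _ => mul_nonneg (mul_nonneg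
      (mul_nonneg (ind_nonneg _ _) (ind_nonneg _ _))
      (mul_nonneg (ind_nonneg _ _) (ind_nonneg _ _))) (hD _ _)
  by_cases hn : n ∈ Y
  swap
  · rw [ind_of_notMem hn, zero_mul, zero_mul]
    have := Finset.sum_nonneg hterm
    have h2 := bad_nonneg Y Y' p q R n w
    rw [ind_of_notMem hn] at this
    linarith
  by_cases hw : w ∈ Y'
  swap
  · rw [ind_of_notMem hw, mul_zero, zero_mul]
    have := Finset.sum_nonneg hterm
    have h2 := bad_nonneg Y Y' p q R n w
    rw [ind_of_notMem hw] at this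
    linarith
  by_cases hb : ∀ i < R, ¬ (n + p * ((i : ℕ) + 1) ∈ Y ∧ w - q * (i + 1) ∈ Y')
  · have h1 : bad Y Y' p q R n w = 1 := by
      unfold bad; exact if_pos ⟨hn, hw, hb⟩
    have := Finset.sum_nonneg hterm
    rw [h1]
    rw [ind_of_mem hn, ind_of_mem hw] at this ⊢
    have := hD1 (e * R.factorial) z
    linarith
  · push Not at hb
    obtain ⟨i, hi, hi1, hi2⟩ := hb
    have h2 := bad_nonneg Y Y' p q R n w
    have hmem : i ∈ Finset.range R := Finset.mem_range.2 hi
    have h3 := Finset.single_le_sum hterm hmem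
    have h4 : Df f (e * R.factorial) z ≤ ∑ l ∈ Finset.range (R.factorial / (i + 1)),
        (ind Y n * ind Y (n + p * (i + 1))) * (ind Y' w * ind Y' (w - q * (i + 1))) *
          Df f (e * (i + 1)) (z + l * (e * (i + 1))) := by
      rw [ind_of_mem hn, ind_of_mem hw, ind_of_mem hi1, ind_of_mem hi2]
      simp only [one_mul]
      have hdiv : (i + 1) ∣ R.factorial := Nat.dvd_factorial (by omega) (by omega)
      obtain ⟨k, hk⟩ : ∃ k, k = R.factorial / (i + 1) := ⟨_, rfl⟩
      have hk1 : k * (i + 1) = R.factorial := by rw [hk]; exact Nat.div_mul_cancel hdiv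
      have hk2 : (k : ℤ) * ((i : ℤ) + 1) = (R.factorial : ℤ) := by exact_mod_cast hk1
      rw [← hk]
      have hq : (k : ℤ) * (e * (i + 1)) = e * R.factorial := by linear_combination e * hk2
      rw [← hq]
      exact Df_mul_le f (e * (i + 1)) k z
    rw [ind_of_mem hn, ind_of_mem hw, one_mul, one_mul]
    rw [ind_of_mem hn, ind_of_mem hw] at h3 h4
    linarith

end LH77

open LH77 in
theorem lh (S : MeanSys) (ha : LA S) (h2 : LB2 S) (hg : LG S) : LH S := by
  intro f Y Y' u v hu huv hK ε hε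
  have hv : 0 < v := hu.trans huv
  obtain ⟨R, hR⟩ := exists_nat_gt (2 / ε)
  have hRpos : (0 : ℝ) < R := lt_trans (by positivity) hR
  have hR0 : 0 < R := by exact_mod_cast hRpos
  have hR1 : 1 / ((R : ℝ) + 1) ≤ ε / 2 := by
    rw [div_le_iff₀ (by positivity)]
    rw [div_lt_iff₀ hε] at hR
    nlinarith
  have hfac : (0 : ℝ) < R.factorial := by exact_mod_cast R.factorial_pos
  set η : ℝ := ε / (2 * (R * R.factorial)) with hη
  have hη0 : 0 < η := by positivity
  obtain ⟨L, N, δ, hL, hN, hδ, hLG⟩ := hg f Y Y' u v hu huv hK η hη0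
  choose B hB0 hB using hLG
  obtain ⟨κ, hκ⟩ : ∃ κ : ℕ, v ^ 2 = u ^ 2 + κ := Nat.exists_eq_add_of_le (by gcongr)
  have hκ0 : 0 < κ := by
    have : u ^ 2 < v ^ 2 := by gcongr
    omega
  have hκZ : (κ : ℤ) = (v : ℤ) ^ 2 - (u : ℤ) ^ 2 := by
    have : ((v : ℤ)) ^ 2 = (u : ℤ) ^ 2 + κ := by exact_mod_cast hκ
    linarith
  have hv0 : ∀ i : ℕ, 0 < κ * u * L * (i + 1) := fun i => by positivity
  set M : ℕ := κ * u * L * R + v * R.factorial + 1 with hM
  have hM0 : (0 : ℝ) < M := by
    have : 0 < M := by rw [hM]; omega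
    exact_mod_cast this
  refine ⟨κ * v * u * L * R.factorial, N, δ / M, ⋃ i ∈ Finset.range R, B _ (hv0 i),
    by have := R.factorial_pos; positivity, hN, by positivity, ?_, ?_⟩
  · refine S.pf.ind_eq_zero_of_le ((S.pf.ind_iUnion_le _ _).trans (le_of_eq ?_))
    exact Finset.sum_eq_zero fun i _ => hB0 _ _
  intro b hb hNb
  have hNb0 := hN.nonneg b
  have hMN : M * N b ≤ δ := by
    rw [le_div_iff₀ hM0] at hNb
    linarith
  have hsmall : ∀ k : ℕ, k ≤ M → N (k * b) ≤ δ := by
    intro k hk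
    have h1 := PN.mul_le hN k b
    have h2 : (k : ℝ) ≤ M := by exact_mod_cast hk
    nlinarith
  -- the parameters
  set p : ℤ := (v : ℤ) ^ 2 * (u * L * b) with hp
  set q : ℤ := (u : ℤ) * v * (u * L * b) with hq
  set e : ℤ := (κ : ℤ) * v * u * L * b with he
  have hterm : ∀ i ∈ Finset.range R, ∀ l ∈ Finset.range (R.factorial / (i + 1)),
      mm S (fun n w => (ind Y n * ind Y (n + p * (i + 1))) *
        (ind Y' w * ind Y' (w - q * (i + 1))) *
          Df f (e * (i + 1)) (v * n + u * w + l * (e * (i + 1)))) ≤ η := by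
    intro i hi l hl
    rw [Finset.mem_range] at hi hl
    have hbi : b ∉ B _ (hv0 i) := fun h => hb (by
      simp only [Set.mem_iUnion]
      exact ⟨i, Finset.mem_range.2 hi, h⟩)
    have hj : i + 1 ≤ R := hi
    have hk1 : κ * u * L * (i + 1) ≤ M := by
      rw [hM]
      have : κ * u * L * (i + 1) ≤ κ * u * L * R := Nat.mul_le_mul_left _ hj
      omega
    have hjl : (i + 1) * l ≤ R.factorial := by
      have : (i + 1) * l ≤ (i + 1) * (R.factorial / (i + 1)) := Nat.mul_le_mul_left _ hl.le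
      exact this.trans (Nat.mul_div_le _ _)
    have hk2 : v * ((i + 1) * l) ≤ M := by
      rw [hM]
      have : v * ((i + 1) * l) ≤ v * R.factorial := Nat.mul_le_mul_left _ hjl
      omega
    obtain ⟨θ, hθ⟩ := ha (Df f (v * ((κ * u * L * (i + 1) : ℕ) * b))) (Df_U01 f _)
    have hflat := hB _ (hv0 i) b hbi (hsmall _ hk1) θ hθ ((v * ((i + 1) * l) : ℕ) * b)
      (hsmall _ hk2)
    have ee : (v : ℤ) * ((κ * u * L * (i + 1) : ℕ) * b) = e * (i + 1) := by
      rw [he]; push_cast; ring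
    rw [ee] at hθ
    refine term_le h2 hu hv hK (p := p * (i + 1)) (q := q * (i + 1)) ?_ ?_ hθ ?_
    · rw [hp, hq]; ring
    · rw [he, hp, hq, hκZ]; ring
    · refine le_trans (le_of_eq ?_) hflat
      have es : (l : ℤ) * (e * (i + 1)) =
          ((v : ℤ) ^ 2 - (u : ℤ) ^ 2) * (L * (u * ((v * ((i + 1) * l) : ℕ) * b))) := by
        rw [← hκZ, he]; push_cast; ring
      rw [es]
  -- summation
  have bD : ∀ t s : ℤ, B2 (fun n w : ℤ => Df f t (v * n + u * w + s)) := fun t s =>
    M9m.B2.of (Df_bdd f t) fun n w => v * n + u * w + s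
  have bW : ∀ i : ℕ, B2 (fun n w : ℤ => (ind Y n * ind Y (n + p * (i + 1))) *
        (ind Y' w * ind Y' (w - q * (i + 1)))) := fun i =>
    B2.prod ((ind_bdd Y).mul ((ind_bdd Y).shift _))
      ((ind_bdd Y').mul ((ind_bdd Y').comp fun w => w - q * (i + 1)))
  have bT : ∀ i l : ℕ, B2 (fun n w : ℤ => (ind Y n * ind Y (n + p * (i + 1))) *
        (ind Y' w * ind Y' (w - q * (i + 1))) *
          Df f (e * (i + 1)) (v * n + u * w + l * (e * (i + 1)))) := fun i l =>
    (bW i).mul (bD _ _)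
  have bS : ∀ i ∈ Finset.range R, B2 (fun n w : ℤ =>
      ∑ l ∈ Finset.range (R.factorial / (i + 1)), (ind Y n * ind Y (n + p * (i + 1))) *
        (ind Y' w * ind Y' (w - q * (i + 1))) *
          Df f (e * (i + 1)) (v * n + u * w + l * (e * (i + 1)))) := fun i _ =>
    M9m.B2.sum _ fun l _ => bT i l
  have hQb : (((κ * v * u * L * R.factorial : ℕ) : ℤ)) * b = e * R.factorial := by
    rw [he]; push_cast; ring
  have b0 : B2 (fun n w : ℤ => ind Y n * ind Y' w * Df f (e * R.factorial) (v * n + u * w)) :=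
    (B2.prod (ind_bdd Y) (ind_bdd Y')).mul
      (M9m.B2.of (Df_bdd f _) fun n w => v * n + u * w)
  have hmain : mm S (fun n w => ind Y n * ind Y' w *
      Df f (e * R.factorial) (v * n + u * w)) ≤ 1 / (R + 1) + R * (R.factorial * η) := by
    refine (M9m.mm_mono b0 ((bad_b2 Y Y' p q R).add (M9m.B2.sum _ bS)) fun n w =>
      point f Y Y' p q e R n w (v * n + u * w)).trans ?_
    rw [M9m.mm_add (bad_b2 Y Y' p q R) (M9m.B2.sum _ bS)]
    refine add_le_add (mm_bad_le Y Y' p q R) ?_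
    rw [M9m.mm_sum _ bS]
    calc _ ≤ ∑ i ∈ Finset.range R, (R.factorial * η) := by
          refine Finset.sum_le_sum fun i hi => ?_
          rw [M9m.mm_sum _ fun l _ => bT i l]
          calc _ ≤ ∑ l ∈ Finset.range (R.factorial / (i + 1)), η :=
                Finset.sum_le_sum fun l hl => hterm i hi l hl
            _ = ((R.factorial / (i + 1) : ℕ) : ℝ) * η := by
                rw [Finset.sum_const, Finset.card_range, nsmul_eq_mul]
            _ ≤ R.factorial * η := by
                refine mul_le_mul_of_nonneg_right ?_ hη0.le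
                exact_mod_cast Nat.div_le_self _ _
      _ = R * (R.factorial * η) := by
          rw [Finset.sum_const, Finset.card_range, nsmul_eq_mul]
  have hfin : (R : ℝ) * (R.factorial * η) = ε / 2 := by
    rw [hη]; field_simp
  have e0 : S.m (fun n => ind Y n * S.m (fun w => ind Y' w *
      Df f ((κ * v * u * L * R.factorial : ℕ) * b) (v * n + u * w))) =
      mm S (fun n w => ind Y n * ind Y' w * Df f (e * R.factorial) (v * n + u * w)) := by
    unfold M9m.mm
    refine S.pf.congr fun n => ?_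
    rw [hQb, ← S.pf.smul (ind Y n) ((ind_bdd Y').mul
      ((Df_bdd f (e * R.factorial)).comp fun w => v * n + u * w))]
    exact S.pf.congr fun w => by ring
  rw [e0]
  linarith

end Pool.Agent.LC79
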