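import Pool.Agent.Lib.MP_60922f_co.LC.Stmts79
import Pool.Agent.Lib.MP_60922f_co.FIN.M10_24

/-!
LC, module LI: the cells see almost every even number (from M10).
-/

set_option autoImplicit false

open Filter Topology

namespace Pool.Agent.LC79
open Pool.Agent.FinA Pool.Agent.FinClique

theorem li (S : MeanSys) (h10 : M10 S) : LI S := by
  classical
  intro J A hA ε hε hsum
  obtain ⟨P, c, b, N, hP, hc, -, hb, hbε, -, hbad⟩ := h10 J A hA ε hε hsum
  refine ⟨P, 1 / c, hP, by positivity, fun d hd => ?_⟩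
  set X : Fin J → Fin J → ℕ × ℕ → ℝ := fun i j p =>
    S.m (fun n => ind (Yset (A i) (A j) p.1 p.2) n *
        S.m (fun w => ind (Yset (A i) (A j) p.2 p.1) w * d (p.2 * n + p.1 * w))) with hX
  have hdb : Bdd d := hd.bdd
  have hE : ∀ i j (p : ℕ × ℕ) k, U01 (ER S (A i) (A j) p.1 p.2 k) := fun i j p k =>
    ER_U01 S _ _ _ _ k
  -- limits of the correlations
  have hlim : ∀ i j, ∀ p ∈ P, Tendsto (fun k => S.m (fun z => ER S (A i) (A j) p.1 p.2 k z * d z))
      (S.U : Filter ℕ) (𝓝 (X i j p / p.1)) := by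
    intro i j p hp
    have hinb := inner_bdd S p.1 p.2 (Yset (A i) (A j) p.1 p.2) (Yset (A i) (A j) p.2 p.1) hd
    have hu : (p.1 : ℝ) ≠ 0 := by exact_mod_cast (hP p hp).1.ne'
    have e1 : X i j p / p.1 = S.m (fun n => (ind (Yset (A i) (A j) p.1 p.2) n *
        S.m (fun w => ind (Yset (A i) (A j) p.2 p.1) w * d (p.2 * n + p.1 * w))) / p.1) := by
      have h1 := S.pf.mul_const hinb (p.1 : ℝ)
      rw [eq_comm, eq_div_iff hu, ← h1, hX]
      refine S.pf.congr fun n => ?_
      field_simp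
    rw [e1]
    refine (S.tendsto_nu hinb).congr fun k => ?_
    exact (m_ER_mul S (hP p hp).1 (A i) (A j) hd k).symm
  have hlim2 : Tendsto (fun k => 3 * ε + 1 / c * ∑ i, ∑ j, ∑ p ∈ P,
      S.m (fun z => ER S (A i) (A j) p.1 p.2 k z * d z)) (S.U : Filter ℕ)
      (𝓝 (3 * ε + 1 / c * ∑ i, ∑ j, ∑ p ∈ P, X i j p / p.1)) :=
    tendsto_const_nhds.add ((tendsto_finsetSum _ fun i _ => tendsto_finsetSum _ fun j _ =>
      tendsto_finsetSum _ fun p hp => hlim i j p hp).const_mul _)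
  -- the estimate for finite `k`
  have hev : ∀ᶠ k in (S.U : Filter ℕ), S.m (fun z => if Even z then d z else 0) ≤
      3 * ε + 1 / c * ∑ i, ∑ j, ∑ p ∈ P, S.m (fun z => ER S (A i) (A j) p.1 p.2 k z * d z) := by
    filter_upwards [hbad ε hε] with k hk
    set B : Set ℤ := {z | Even z ∧ b z < 1 / 2 ∧ ∀ i j, ∀ p ∈ P, ER S (A i) (A j) p.1 p.2 k z < c}
      with hB
    have hEd : ∀ i j (p : ℕ × ℕ), Bdd (fun z => ER S (A i) (A j) p.1 p.2 k z * d z) :=
      fun i j p => (hE i j p k).bdd.mul hdb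
    have hS : Bdd (fun z => ∑ i, ∑ j, ∑ p ∈ P, ER S (A i) (A j) p.1 p.2 k z * d z) :=
      Bdd.sum _ _ fun i _ => Bdd.sum _ _ fun j _ => Bdd.sum _ _ fun p _ => hEd i j p
    have e2 : S.m (fun z => ∑ i, ∑ j, ∑ p ∈ P, ER S (A i) (A j) p.1 p.2 k z * d z) =
        ∑ i, ∑ j, ∑ p ∈ P, S.m (fun z => ER S (A i) (A j) p.1 p.2 k z * d z) := by
      rw [S.pf.sum _ _ fun i _ => Bdd.sum _ _ fun j _ => Bdd.sum _ _ fun p _ => hEd i j p]
      refine Finset.sum_congr rfl fun i _ => ?_
      rw [S.pf.sum _ _ fun j _ => Bdd.sum _ _ fun p _ => hEd i j p]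
      refine Finset.sum_congr rfl fun j _ => ?_
      rw [S.pf.sum _ _ fun p _ => hEd i j p]
    have e3 : S.m (fun z => (2 * b z + ind B z) + 1 / c *
        ∑ i, ∑ j, ∑ p ∈ P, ER S (A i) (A j) p.1 p.2 k z * d z) =
        (2 * S.m b + S.m (ind B)) + 1 / c *
        ∑ i, ∑ j, ∑ p ∈ P, S.m (fun z => ER S (A i) (A j) p.1 p.2 k z * d z) := by
      rw [S.pf.add ((hb.bdd.smul 2).add (ind_bdd B)) (hS.smul _),
        S.pf.add (hb.bdd.smul 2) (ind_bdd B), S.pf.smul 2 hb.bdd, S.pf.smul _ hS, e2]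
    have e4 : S.m (fun z => if Even z then d z else 0) ≤
        S.m (fun z => (2 * b z + ind B z) + 1 / c *
        ∑ i, ∑ j, ∑ p ∈ P, ER S (A i) (A j) p.1 p.2 k z * d z) := by
      refine S.pf.mono (hdb.ite _) (((hb.bdd.smul 2).add (ind_bdd B)).add (hS.smul _)) fun z => ?_
      have n1 : 0 ≤ 2 * b z := mul_nonneg (by norm_num) (hb z).1
      have n2 : 0 ≤ ind B z := ind_nonneg B z
      have n3 : ∀ i j (p : ℕ × ℕ), 0 ≤ ER S (A i) (A j) p.1 p.2 k z * d z := fun i j p =>
        mul_nonneg (hE i j p k z).1 (hd z).1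
      have n4 : 0 ≤ ∑ i, ∑ j, ∑ p ∈ P, ER S (A i) (A j) p.1 p.2 k z * d z :=
        Finset.sum_nonneg fun i _ => Finset.sum_nonneg fun j _ =>
          Finset.sum_nonneg fun p _ => n3 i j p
      have n5 : 0 ≤ 1 / c * ∑ i, ∑ j, ∑ p ∈ P, ER S (A i) (A j) p.1 p.2 k z * d z :=
        mul_nonneg (by positivity) n4
      by_cases hz : Even z
      · rw [if_pos hz]
        have hdz := (hd z).2
        by_cases hbz : b z < 1 / 2
        · by_cases hzB : z ∈ B
          · rw [ind_of_mem hzB]; linarith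
          · have : ∃ i j, ∃ p ∈ P, c ≤ ER S (A i) (A j) p.1 p.2 k z := by
              by_contra hcon
              push Not at hcon
              exact hzB ⟨hz, hbz, hcon⟩
            obtain ⟨i, j, p, hp, hcp⟩ := this
            have m1 : ER S (A i) (A j) p.1 p.2 k z * d z ≤
                ∑ p ∈ P, ER S (A i) (A j) p.1 p.2 k z * d z :=
              Finset.single_le_sum (f := fun p : ℕ × ℕ => ER S (A i) (A j) p.1 p.2 k z * d z)
                (fun p _ => n3 i j p) hp
            have m2 : ∑ p ∈ P, ER S (A i) (A j) p.1 p.2 k z * d z ≤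
                ∑ j, ∑ p ∈ P, ER S (A i) (A j) p.1 p.2 k z * d z :=
              Finset.single_le_sum (f := fun j => ∑ p ∈ P, ER S (A i) (A j) p.1 p.2 k z * d z)
                (fun j _ => Finset.sum_nonneg fun p _ => n3 i j p) (Finset.mem_univ j)
            have m3 : ∑ j, ∑ p ∈ P, ER S (A i) (A j) p.1 p.2 k z * d z ≤
                ∑ i, ∑ j, ∑ p ∈ P, ER S (A i) (A j) p.1 p.2 k z * d z :=
              Finset.single_le_sum
                (f := fun i => ∑ j, ∑ p ∈ P, ER S (A i) (A j) p.1 p.2 k z * d z)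
                (fun i _ => Finset.sum_nonneg fun j _ => Finset.sum_nonneg fun p _ => n3 i j p)
                (Finset.mem_univ i)
            have m4 : c * d z ≤ ER S (A i) (A j) p.1 p.2 k z * d z :=
              mul_le_mul_of_nonneg_right hcp (hd z).1
            have m5 : d z ≤ 1 / c * ∑ i, ∑ j, ∑ p ∈ P, ER S (A i) (A j) p.1 p.2 k z * d z := by
              rw [one_div, ← div_eq_inv_mul, le_div_iff₀ hc]
              linarith
            linarith
        · push Not at hbz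
          linarith
      · rw [if_neg hz]
        linarith
    rw [e3] at e4
    linarith
  have hfin := ge_of_tendsto hlim2 hev
  refine hfin.trans ?_
  have hXn : ∀ i j p, 0 ≤ X i j p := fun i j p => by
    refine S.pf.nonneg ?_ fun n => mul_nonneg (ind_nonneg _ _) ?_
    · refine (ind_bdd _).mul ⟨1, fun n => ?_⟩
      refine S.pf.abs_le fun w => ?_
      rw [abs_mul]
      have h1 : |ind (Yset (A i) (A j) p.2 p.1) w| ≤ 1 := (ind_U01 _).abs_le_one w
      have h2 : |d (p.2 * n + p.1 * w)| ≤ 1 := hd.abs_le_one _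
      calc _ ≤ (1 : ℝ) * 1 := mul_le_mul h1 h2 (abs_nonneg _) zero_le_one
        _ = 1 := one_mul 1
    · exact S.pf.nonneg ((ind_bdd _).mul (hdb.comp _)) fun w =>
        mul_nonneg (ind_nonneg _ _) (hd _).1
  have hle : ∑ i, ∑ j, ∑ p ∈ P, X i j p / p.1 ≤ ∑ i, ∑ j, ∑ p ∈ P, X i j p := by
    refine Finset.sum_le_sum fun i _ => Finset.sum_le_sum fun j _ =>
      Finset.sum_le_sum fun p hp => ?_
    refine div_le_self (hXn i j p) ?_
    exact_mod_cast (hP p hp).1
  have := mul_le_mul_of_nonneg_left hle (show (0 : ℝ) ≤ 1 / c by positivity)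
  linarith

end Pool.Agent.LC79
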