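import Pool.Agent.Lib.MP_60922f_co.LC.Stmts79

/-!
LC, module LJ: assembly of V1.
-/

set_option autoImplicit false

open Filter Topology

namespace Pool.Agent.LC79
open Pool.Agent.FinA Pool.Agent.FinClique
open Pool.Agent.FinA.M9m (B2 mm)

namespace LJ77

variable {S : MeanSys}

/-- pull back of a null set along a dilation is null -/
lemma null_dil {B : Set ℤ} (hB : S.m (ind B) = 0) {q : ℕ} (hq : 0 < q) :
    S.m (ind {a | (q : ℤ) * a ∈ B}) = 0 := by
  refine S.pf.ind_eq_zero_of_le ?_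
  have h1 : S.m (ind {a | (q : ℤ) * a ∈ B}) = S.m (fun a => ind B (q * a)) := rfl
  rw [h1, S.m_dil' hq (ind_bdd B)]
  have h2 : S.m (fun n => ind (cls 0 q) n * ind B n) ≤ S.m (ind B) := by
    refine S.pf.mono ((ind_bdd _).mul (ind_bdd _)) (ind_bdd _) fun n => ?_
    have a1 := ind_nonneg B n
    have a2 := ind_le_one (cls 0 q) n
    nlinarith
  rw [hB] at h2
  have h3 : (0 : ℝ) ≤ q := Nat.cast_nonneg q
  nlinarith

/-- differences of good times are good -/
lemma diff_le {f : ℕ → Bool} {x y ε : ℝ} {a b Q : ℤ} (hQ : Even Q)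
    (hx : S.m (fun z => if Even z then Df f (Q * a) z else 0) ≤ x)
    (hy : S.m (fun z => if Even z then Df f (Q * (a - b)) z else 0) ≤ y) (hε : x + y ≤ ε) :
    S.m (fun z => if Even z then Df f (Q * b) z else 0) ≤ ε := by
  have hb : ∀ t : ℤ, Bdd (fun z => if Even z then Df f t z else 0) := fun t =>
    (Df_bdd f t).ite (fun z => Even z)
  have hE : Even (Q * (a - b)) := hQ.mul_right _
  have h1 : S.m (fun z => if Even z then Df f (Q * b) z else 0) =
      S.m (fun z => if Even z then Df f (Q * b) (z + Q * (a - b)) else 0) := by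
    rw [← S.m_shift (Q * (a - b)) (hb (Q * b))]
    refine S.pf.congr fun z => ?_
    by_cases hz : Even z
    · rw [if_pos hz, if_pos (hz.add hE)]
    · rw [if_neg hz, if_neg (fun h => hz ((Int.even_add.1 h).2 hE))]
  rw [h1]
  have h2 : S.m (fun z => if Even z then Df f (Q * b) (z + Q * (a - b)) else 0) ≤
      S.m (fun z => (if Even z then Df f (Q * a) z else 0) +
        (if Even z then Df f (Q * (a - b)) z else 0)) := by
    refine S.pf.mono (((Df_bdd f _).shift _).ite (fun z => Even z)) ((hb _).add (hb _))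
      fun z => ?_
    by_cases hz : Even z
    · rw [if_pos hz, if_pos hz, if_pos hz]
      have := Df_sub_le f (Q * b) (Q * (a - b)) z
      rw [show Q * b + Q * (a - b) = Q * a by ring] at this
      exact this
    · rw [if_neg hz, if_neg hz, if_neg hz]; norm_num
  rw [S.pf.add (hb _) (hb _)] at h2
  linarith

end LJ77

open LJ77 in
theorem lj (S : MeanSys) : LJ S := by
  classical
  intro h3 hc1 hh hi f hf ε hε
  set ε' : ℝ := ε / 8 with hε'
  have hε'0 : 0 < ε' := by positivity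
  obtain ⟨J, A, hdisj, htie, hmass⟩ := h3 f hf (ε' / 8) (by positivity)
  obtain ⟨P, C, hP, hC, hLI⟩ := hi J A hdisj ε' hε'0 hmass
  -- the index set
  set I : Finset (Fin J × Fin J × (ℕ × ℕ)) := Finset.univ ×ˢ Finset.univ ×ˢ P with hI
  have hrig : ∀ x : Fin J × Fin J × (ℕ × ℕ), x ∈ I → Rig S f
      (Yset (A x.1) (A x.2.1) x.2.2.1 x.2.2.2) (Yset (A x.1) (A x.2.1) x.2.2.2 x.2.2.1)
      x.2.2.1 x.2.2.2 := by
    intro x hx
    have hxP : x.2.2 ∈ P := by
      rw [hI] at hx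
      exact (Finset.mem_product.1 (Finset.mem_product.1 hx).2).2
    obtain ⟨hu, huv⟩ := hP _ hxP
    exact hh f _ _ _ _ hu huv (hc1 f _ _ _ _ hu (hu.trans huv) (htie _) (htie _))
  set ε₁ : ℝ := ε' / (C * (I.card + 1)) with hε₁
  have hε₁0 : 0 < ε₁ := by positivity
  have hrig' : ∀ x : Fin J × Fin J × (ℕ × ℕ), ∃ (Q : ℕ) (N : ℤ → ℝ) (δ : ℝ) (B : Set ℤ),
      0 < Q ∧ PN N ∧ 0 < δ ∧ S.m (ind B) = 0 ∧ (x ∈ I → ∀ a ∉ B, N a ≤ δ →
        S.m (fun n => ind (Yset (A x.1) (A x.2.1) x.2.2.1 x.2.2.2) n *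
          S.m (fun w => ind (Yset (A x.1) (A x.2.1) x.2.2.2 x.2.2.1) w *
            Df f (Q * a) (x.2.2.2 * n + x.2.2.1 * w))) ≤ ε₁) := by
    intro x
    by_cases hx : x ∈ I
    · obtain ⟨Q, N, δ, B, h1, h2, h3, h4, h5⟩ := hrig x hx ε₁ hε₁0
      exact ⟨Q, N, δ, B, h1, h2, h3, h4, fun _ => h5⟩
    · exact ⟨1, fun _ => 0, 1, ∅, one_pos, PN.const_zero, one_pos, S.pf.ind_empty',
        fun h => absurd h hx⟩
  choose Qx Nx δx Bx hQx hNx hδx hBx hgood using hrig'
  set M : ℕ := ∏ x ∈ I, Qx x with hM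
  have hM0 : 0 < M := Finset.prod_pos fun x _ => hQx x
  have hqx : ∀ x ∈ I, ∃ q : ℕ, 0 < q ∧ 2 * M = Qx x * q := by
    intro x hx
    obtain ⟨q, hq⟩ : Qx x ∣ 2 * M := Dvd.dvd.mul_left (Finset.dvd_prod_of_mem _ hx) 2
    refine ⟨q, ?_, hq⟩
    rcases Nat.eq_zero_or_pos q with h | h
    · rw [h, mul_zero] at hq; omega
    · exact h
  have hqx' : ∀ x : Fin J × Fin J × (ℕ × ℕ), ∃ q : ℕ, 0 < q ∧ (x ∈ I → 2 * M = Qx x * q) := by
    intro x
    by_cases hx : x ∈ I
    · obtain ⟨q, h1, h2⟩ := hqx x hx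
      exact ⟨q, h1, fun _ => h2⟩
    · exact ⟨1, one_pos, fun h => absurd h hx⟩
  choose q hq0 hq using hqx'
  set N : ℤ → ℝ := fun t => ∑ x ∈ I, (δx x)⁻¹ * Nx x (q x * t) with hN
  have hNpn : PN N := PN.sum I fun x _ =>
    PN.smul (PN.dil (hNx x) (q x)) (inv_nonneg.2 (hδx x).le)
  set B : Set ℤ := ⋃ x ∈ I, {a | (q x : ℤ) * a ∈ Bx x} with hB
  have hB0 : S.m (ind B) = 0 := by
    refine S.pf.ind_eq_zero_of_le ((S.pf.ind_iUnion_le _ _).trans (le_of_eq ?_))
    exact Finset.sum_eq_zero fun x _ => null_dil (hBx x) (hq0 x)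
  have hkey : ∀ a ∉ B, N a ≤ 1 →
      S.m (fun z => if Even z then Df f ((2 * M : ℕ) * a) z else 0) ≤ 4 * ε' := by
    intro a haB hNa
    refine (hLI (Df f ((2 * M : ℕ) * a)) (Df_U01 f _)).trans ?_
    have hterm : ∀ x ∈ I, S.m (fun n => ind (Yset (A x.1) (A x.2.1) x.2.2.1 x.2.2.2) n *
          S.m (fun w => ind (Yset (A x.1) (A x.2.1) x.2.2.2 x.2.2.1) w *
            Df f ((2 * M : ℕ) * a) (x.2.2.2 * n + x.2.2.1 * w))) ≤ ε₁ := by
      intro x hx
      have hxa : (q x : ℤ) * a ∉ Bx x := fun h => haB (by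
        rw [hB]
        simp only [Set.mem_iUnion]
        exact ⟨x, hx, h⟩)
      have hxN : Nx x (q x * a) ≤ δx x := by
        have h1 : (δx x)⁻¹ * Nx x (q x * a) ≤ N a :=
          Finset.single_le_sum (f := fun x => (δx x)⁻¹ * Nx x (q x * a))
            (fun y _ => mul_nonneg (inv_nonneg.2 (hδx y).le) ((hNx y).nonneg _)) hx
        have h2 : (δx x)⁻¹ * Nx x (q x * a) ≤ 1 := h1.trans hNa
        rwa [inv_mul_le_iff₀ (hδx x), mul_one] at h2
      have := hgood x hx _ hxa hxN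
      have e : ((Qx x : ℤ)) * (q x * a) = ((2 * M : ℕ) : ℤ) * a := by
        rw [hq x hx]; push_cast; ring
      rw [e] at this
      exact this
    have hsum : ∑ i, ∑ j, ∑ p ∈ P, S.m (fun n => ind (Yset (A i) (A j) p.1 p.2) n *
        S.m (fun w => ind (Yset (A i) (A j) p.2 p.1) w *
          Df f ((2 * M : ℕ) * a) (p.2 * n + p.1 * w))) ≤ I.card * ε₁ := by
      have e : ∑ i, ∑ j, ∑ p ∈ P, S.m (fun n => ind (Yset (A i) (A j) p.1 p.2) n *
          S.m (fun w => ind (Yset (A i) (A j) p.2 p.1) w *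
          Df f ((2 * M : ℕ) * a) (p.2 * n + p.1 * w))) =
          ∑ x ∈ I, S.m (fun n => ind (Yset (A x.1) (A x.2.1) x.2.2.1 x.2.2.2) n *
          S.m (fun w => ind (Yset (A x.1) (A x.2.1) x.2.2.2 x.2.2.1) w *
            Df f ((2 * M : ℕ) * a) (x.2.2.2 * n + x.2.2.1 * w))) := by
        rw [hI, Finset.sum_product]
        refine Finset.sum_congr rfl fun i _ => ?_
        rw [Finset.sum_product]
      rw [e]
      calc _ ≤ ∑ x ∈ I, ε₁ := Finset.sum_le_sum hterm
        _ = I.card * ε₁ := by rw [Finset.sum_const, nsmul_eq_mul]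
    have h5 : C * ((I.card : ℝ) * ε₁) ≤ ε' := by
      rw [hε₁]
      have e : C * ((I.card : ℝ) * (ε' / (C * (I.card + 1)))) =
          ε' * (I.card / (I.card + 1)) := by field_simp
      rw [e]
      have : (I.card : ℝ) / (I.card + 1) ≤ 1 := by
        rw [div_le_one (by positivity)]; linarith
      nlinarith
    have h6 := mul_le_mul_of_nonneg_left hsum hC.le
    linarith
  refine ⟨2 * M, N, 1 / 2, by positivity, hNpn, by norm_num, fun b hb => ?_⟩
  have hB1 : S.m (ind {a | a - b ∈ B}) = 0 := by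
    rw [← hB0, ← S.m_shift_sub b (ind_bdd B)]
    rfl
  obtain ⟨a, haN, haB⟩ := exists_small S hNpn (δ := 1 / 2) (by norm_num)
    (S.pf.null_union hB0 hB1)
  have ha1 : a ∉ B := fun h => haB (Or.inl h)
  have ha2 : a - b ∉ B := fun h => haB (Or.inr h)
  have hNab : N (a - b) ≤ 1 := by
    have := hNpn.add a (-b)
    rw [hNpn.neg, ← sub_eq_add_neg] at this
    linarith
  refine diff_le (a := a) ?_ (hkey a ha1 (by linarith)) (hkey (a - b) ha2 hNab) ?_
  · push_cast
    exact (even_two_mul _)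
  · rw [hε']; linarith

end Pool.Agent.LC79
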