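import Pool.Agent.Lib.MP_60922f_co.LC.StmtsV2_79

/-!
LC: statements (as `Prop`s) of the modules of S3 (a colouring whose densities in progressions do
not drift has an infinite monochromatic sum-product sequence) and of the general log windows.
-/

set_option autoImplicit false

open Filter Topology

namespace Pool.Agent.LC79
open Pool.Agent.FinA Pool.Agent.FinClique
open Pool.Agent.FinA.M9m (B2 mm)

/-- the colouring as a real function on the integers -/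
noncomputable def Fr (f : ℕ → Bool) (z : ℤ) : ℝ := if f z.toNat then 1 else 0

/-- the densities of `f` in the progressions inside the multiples of `R` do not drift -/
def NoDrift (S : MeanSys) (f : ℕ → Bool) (R : ℕ) : Prop := ∀ (q : ℕ) (a : ℤ), 0 < q → R ∣ q →
  (R : ℤ) ∣ a → ∃ d : ℝ, ∀ ε > (0 : ℝ), ∃ K₀ : ℕ, ∀ K : ℕ, K₀ ≤ K →
    S.m (fun n => |(∑ k ∈ Finset.range K, Fr f (q * (n + k) + a)) / K - d|) ≤ ε

/-- on the multiples of `R` the function `f` is a limit of periodic functions -/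
def Perap (S : MeanSys) (f : ℕ → Bool) (R : ℕ) : Prop := ∀ ε > (0 : ℝ), ∃ (M : ℕ) (p : ℤ → ℝ),
  0 < M ∧ U01 p ∧ (∀ x, p (x + M) = p x) ∧
    S.m (fun z => if (R : ℤ) ∣ z then |Fr f z - p z| else 0) ≤ ε

/-- PR: profinite and without drift gives periodic approximation -/
def PR (S : MeanSys) : Prop := ∀ (f : ℕ → Bool) (R : ℕ), 0 < R → 2 ∣ R →
  (∀ ε > (0 : ℝ), ∃ M : ℕ, 0 < M ∧ 2 ∣ M ∧ ∀ k : ℤ, Ne S f (M * k) ≤ ε) →
  NoDrift S f R → Perap S f R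

/-- PP: projection on the limits of periodic functions -/
def PP (S : MeanSys) : Prop := ∀ g : ℤ → ℝ, U01 g → ∃ y : ℤ → ℝ, U01 y ∧
  (∀ ε > (0 : ℝ), ∀ Q : ℕ, 0 < Q → ∃ (M : ℕ) (p : ℤ → ℝ), 0 < M ∧ Q ∣ M ∧ U01 p ∧
    (∀ x, p (x + M) = p x) ∧ S.m (fun z => |y z - p z|) ≤ ε) ∧
  ∀ (M : ℕ) (h : ℤ → ℝ), 0 < M → Bdd h → (∀ x, h (x + M) = h x) →
    S.m (fun z => (g z - y z) * h z) = 0

/-- M9T: M9 with large primes which are congruent modulo a given number -/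
def M9T (S : MeanSys) : Prop := ∀ (J : ℕ) (A : Fin J → Set ℤ),
  (∀ i j, i ≠ j → Disjoint (A i) (A j)) → ∀ ε > (0 : ℝ), 1 - ∑ i, S.m (ind (A i)) ≤ ε / 8 →
  ∀ T R : ℕ, 0 < R → ∃ κ > (0 : ℝ), ∀ N : ℤ → ℝ, PN N → ∃ c > (0 : ℝ), ∃ u v : ℕ, u.Prime ∧
    v.Prime ∧ T < u ∧ u < v ∧ u ≡ v [MOD R] ∧ ∀ b : ℤ → ℝ, U01 b → (∀ n, ¬ Even n → b n = 0) → ε ≤ S.m b →
      (∀ t, S.m (fun n => |b (n + t) - b n|) ≤ N t + κ) →
      c ≤ ∑ i, ∑ j, Cor S (A i) (A j) u v b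

/-- PK: the K-move for the projections, and its consequence for two points -/
def PK (S : MeanSys) : Prop := ∀ (f : ℕ → Bool) (Y Y' : Set ℤ) (u v R : ℕ), 0 < R → 0 < u →
  u < v → u ≡ v [MOD R] → Kmv S f Y Y' u v → Perap S f R → ∀ y y' : ℤ → ℝ, U01 y → U01 y' →
  (∀ (M : ℕ) (h : ℤ → ℝ), 0 < M → Bdd h → (∀ x, h (x + M) = h x) →
    S.m (fun z => (ind Y z - y z) * h z) = 0) →
  (∀ (M : ℕ) (h : ℤ → ℝ), 0 < M → Bdd h → (∀ x, h (x + M) = h x) →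
    S.m (fun z => (ind Y' z - y' z) * h z) = 0) →
  ∀ s : ℤ, S.m (fun n => S.m (fun w => y n * y (n + v * s) * (y' w * y' (w - u * s)) *
    (if (R : ℤ) ∣ v * n + u * w then
      Df f (((v : ℤ) ^ 2 - (u : ℤ) ^ 2) * s) (v * n + u * w) else 0))) = 0

/-- local exact constancy: every class of multiples of `R` contains a class on which `f` is almost
everywhere constant -/
def LocC (S : MeanSys) (f : ℕ → Bool) (R : ℕ) : Prop := ∀ (Q : ℕ) (a : ℤ), 0 < Q → R ∣ Q →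
  (R : ℤ) ∣ a →
  ∃ (Q₁ : ℕ) (a₁ : ℤ) (b : Bool), 0 < Q₁ ∧ Q ∣ Q₁ ∧ (Q : ℤ) ∣ a₁ - a ∧
    S.m (ind {z | z ∈ cls a₁ Q₁ ∧ f z.toNat ≠ b}) = 0

/-- PQ: the density point argument -/
def PQ (S : MeanSys) : Prop := ∀ (f : ℕ → Bool) (R : ℕ), 0 < R → 2 ∣ R → InfBad f →
  Perap S f R → NoDrift S f R → LocC S f R

/-- ID: the idempotent argument -/
def ID (S : MeanSys) : Prop := ∀ (f : ℕ → Bool) (R : ℕ), 0 < R → LocC S f R → ¬ InfBad f

/-- S3 for the mean -/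
def S3 (S : MeanSys) : Prop := ∀ (f : ℕ → Bool) (R : ℕ), 0 < R → 2 ∣ R → NoDrift S f R → ¬ InfBad f

theorem S3_of (S : MeanSys) (h2 : V2 S) (hr : PR S) (hq : PQ S) (hi : ID S) : S3 S := by
  intro f R hR hR2 hf hb
  exact hi f R hR (hq f R hR hR2 hb (hr f R hR hR2 (h2 f hb) hf) hf) hb

/-- LW: a mean system on a subsequence of arbitrary log windows `[A j, B j)` -/
def LW : Prop := ∀ A B : ℕ → ℕ, Tendsto A atTop atTop →
  Tendsto (fun j => (B j : ℝ) / A j) atTop atTop →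
  ∃ (S : MeanSys) (φ : ℕ → ℕ), StrictMono φ ∧ ∀ (k : ℕ) (F : ℤ → ℝ),
    S.nu k F = (∑ n ∈ Finset.Ico (A (φ k)) (B (φ k)), (1 / (n : ℝ)) * F n) /
      ∑ n ∈ Finset.Ico (A (φ k)) (B (φ k)), (1 / (n : ℝ))

/-- the log average over a window -/
noncomputable def wav (A B : ℕ) (F : ℤ → ℝ) : ℝ :=
  (∑ n ∈ Finset.Ico A B, (1 / (n : ℝ)) * F n) / ∑ n ∈ Finset.Ico A B, (1 / (n : ℝ))

end Pool.Agent.LC79
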