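import Pool.Agent.Lib.MP_60922f_co.FIN.MeanZ55
import Pool.Agent.Lib.MP_60922f_co.LC.StmtsS3_79

/-!
LW: for arbitrary logarithmic windows `[A j, B j)` with `A j → ∞`, `B j / A j → ∞` there is a mean
system whose blocks are a subsequence of these windows.
-/

set_option autoImplicit false

namespace Pool.Agent.LC79
open Filter Topology Finset
open Pool.Agent.FinA Pool.Agent.FinClique

namespace LW14

/-- weight of the window `(M, N]` -/
noncomputable def Sg (M N : ℕ) : ℝ := ∑ n ∈ Ioc M N, (1 : ℝ) / n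

/-- log average over the window `(M, N]` -/
noncomputable def Eg (M N : ℕ) (f : ℕ → ℝ) : ℝ := (∑ n ∈ Ioc M N, f n / n) / Sg M N

/-- the same for functions on the integers -/
noncomputable def EZg (M N : ℕ) (F : ℤ → ℝ) : ℝ := Eg M N (fun n => F n)

lemma Sg_nonneg (M N : ℕ) : 0 ≤ Sg M N := by
  unfold Sg
  exact Finset.sum_nonneg fun n _ => by positivity

lemma Eg_abs_le {f : ℕ → ℝ} {C : ℝ} (hf : ∀ n, |f n| ≤ C) (M N : ℕ) : |Eg M N f| ≤ C := by
  have hC : 0 ≤ C := (abs_nonneg _).trans (hf 0)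
  unfold Eg
  rcases (Sg_nonneg M N).eq_or_lt with h | h
  · rw [← h]; simpa using hC
  · rw [abs_div, abs_of_pos h, div_le_iff₀ h]
    exact FIN.Win.sum_abs_le hf _

lemma shift_err {f : ℕ → ℝ} {C : ℝ} (hf : ∀ n, |f n| ≤ C) (M N : ℕ) (hM : 1 ≤ M) (hMN : M ≤ N) :
    |Eg M N (fun n => f (n + 1)) - Eg M N f| ≤ 3 * C / Sg M N := by
  have hC : 0 ≤ C := (abs_nonneg _).trans (hf 0)
  rcases (Sg_nonneg M N).eq_or_lt with h | h
  · unfold Eg; rw [← h]; simp
  · unfold Eg
    rw [← sub_div, abs_div, abs_of_pos h]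
    refine div_le_div_of_nonneg_right ?_ h.le
    rw [← Finset.sum_sub_distrib]
    have h1 := FIN.Win.shift_aux hf M N hM hMN
    have hN1 : (1 : ℝ) ≤ (N : ℝ) := by exact_mod_cast hM.trans hMN
    have hM1 : (1 : ℝ) ≤ (M : ℝ) := by exact_mod_cast hM
    have h2 : |f (N + 1) / (N : ℝ)| ≤ C := by
      rw [abs_div, Nat.abs_cast]
      exact (div_le_self (abs_nonneg _) hN1).trans (hf _)
    have h3 : 2 * C / (M : ℝ) ≤ 2 * C := div_le_self (by linarith) hM1
    have h4 : 0 ≤ C / (N : ℝ) := by positivity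
    have h5 := abs_sub_abs_le_abs_sub (∑ n ∈ Ioc M N, (f (n + 1) / n - f n / n))
      (f (N + 1) / (N : ℝ))
    linarith

lemma dil_err {f : ℕ → ℝ} {C : ℝ} (hf : ∀ n, |f n| ≤ C) (r : ℕ) (hr : 0 < r) (M₀ N₀ : ℕ)
    (hMN : M₀ ≤ N₀) :
    |Eg M₀ N₀ (fun n => f (r * n)) - r * Eg M₀ N₀ (fun n => if r ∣ n then f n else 0)| ≤
      2 * r ^ 2 * C / Sg M₀ N₀ := by
  have hC : 0 ≤ C := (abs_nonneg _).trans (hf 0)
  have hr' : (0 : ℝ) < r := by exact_mod_cast hr
  rcases (Sg_nonneg M₀ N₀).eq_or_lt with h | h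
  · unfold Eg; rw [← h]; simp
  · set G : ℕ → ℝ := fun k => if r ∣ k then f k / k else 0 with hGdef
    have hG0 : ∀ k, ¬ r ∣ k → G k = 0 := fun k hk => by simp [hGdef, hk]
    have hGb : ∀ k, |G k| ≤ C * (1 / k) := by
      intro k
      by_cases hk : r ∣ k
      · simp only [hGdef, hk, if_true, abs_div, Nat.abs_cast, mul_one_div]
        exact div_le_div_of_nonneg_right (hf k) (by positivity)
      · simp only [hGdef, hk, if_false, abs_zero]; positivity
    have key : ∀ N : ℕ, |∑ k ∈ Ioc 0 (r * N), G k - ∑ k ∈ Ioc 0 N, G k| ≤ C * r := by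
      intro N
      rw [← Finset.sum_Ioc_consecutive G (Nat.zero_le N) (Nat.le_mul_of_pos_left N hr),
        add_sub_cancel_left]
      refine (Finset.abs_sum_le_sum_abs _ _).trans ?_
      rcases Nat.eq_zero_or_pos N with hN | hN
      · subst hN; simp; positivity
      have hN' : (0 : ℝ) < N := by exact_mod_cast hN
      calc ∑ k ∈ Ioc N (r * N), |G k| ≤ ∑ k ∈ Ioc N (r * N), C * (1 / N) := by
            refine Finset.sum_le_sum fun k hk => (hGb k).trans ?_
            rw [Finset.mem_Ioc] at hk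
            apply mul_le_mul_of_nonneg_left _ hC
            apply one_div_le_one_div_of_le hN'
            exact_mod_cast hk.1.le
        _ = ((r * N - N : ℕ) : ℝ) * (C * (1 / N)) := by
            rw [Finset.sum_const, Nat.card_Ioc, nsmul_eq_mul]
        _ ≤ ((r * N : ℕ) : ℝ) * (C * (1 / N)) := by
            apply mul_le_mul_of_nonneg_right _ (by positivity)
            exact_mod_cast Nat.sub_le _ _
        _ = C * r := by push_cast; field_simp
    have e1 : ∑ n ∈ Ioc M₀ N₀, f (r * n) / n = r * ∑ n ∈ Ioc M₀ N₀, G (r * n) := by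
      rw [Finset.mul_sum]
      refine Finset.sum_congr rfl fun n hn => ?_
      rw [Finset.mem_Ioc] at hn
      have hn0 : (0 : ℝ) < n := by exact_mod_cast lt_of_le_of_lt (Nat.zero_le _) hn.1
      simp only [hGdef, dvd_mul_right, if_true]
      push_cast
      field_simp
    have e2 : ∑ n ∈ Ioc M₀ N₀, (if r ∣ n then f n else 0) / (n : ℝ) = ∑ n ∈ Ioc M₀ N₀, G n := by
      refine Finset.sum_congr rfl fun n _ => ?_
      by_cases hk : r ∣ n <;> simp [hGdef, hk]
    have sp : ∀ H : ℕ → ℝ, ∑ n ∈ Ioc M₀ N₀, H n =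
        ∑ n ∈ Ioc 0 N₀, H n - ∑ n ∈ Ioc 0 M₀, H n := by
      intro H
      rw [← Finset.sum_Ioc_consecutive H (Nat.zero_le M₀) hMN]
      ring
    unfold Eg
    rw [e1, e2, ← mul_div_assoc, ← sub_div, abs_div, abs_of_pos h]
    refine div_le_div_of_nonneg_right ?_ h.le
    rw [← mul_sub, abs_mul, Nat.abs_cast, sp (fun n => G (r * n)), sp G,
      FIN.Win.dil_aux G r hr hG0, FIN.Win.dil_aux G r hr hG0]
    have k1 := key N₀
    have k2 := key M₀
    rw [abs_le] at k1 k2
    have : |(∑ k ∈ Ioc 0 (r * N₀), G k - ∑ k ∈ Ioc 0 (r * M₀), G k) -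
        (∑ n ∈ Ioc 0 N₀, G n - ∑ n ∈ Ioc 0 M₀, G n)| ≤ 2 * C * r := by
      rw [abs_le]; constructor <;> linarith
    calc (r : ℝ) * _ ≤ r * (2 * C * r) := mul_le_mul_of_nonneg_left this hr'.le
      _ = 2 * r ^ 2 * C := by ring

lemma EZg_step {F : ℤ → ℝ} {C : ℝ} (hF : ∀ n, |F n| ≤ C) (M N : ℕ) (hM : 1 ≤ M) (hMN : M ≤ N) :
    |EZg M N (fun n => F (n + 1)) - EZg M N F| ≤ 3 * C / Sg M N := by
  have := shift_err (f := fun n : ℕ => F n) (fun n => hF n) M N hM hMN
  simpa [EZg] using this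

lemma EZg_shift_nat {F : ℤ → ℝ} {C : ℝ} (hF : ∀ n, |F n| ≤ C) (M N : ℕ) (hM : 1 ≤ M)
    (hMN : M ≤ N) (s : ℕ) :
    |EZg M N (fun n => F (n + s)) - EZg M N F| ≤ s * (3 * C / Sg M N) := by
  induction s with
  | zero => simp
  | succ s ih =>
    have h1 := EZg_step (F := fun n => F (n + s)) (fun n => hF _) M N hM hMN
    have e : (fun n : ℤ => F (n + 1 + s)) = fun n : ℤ => F (n + (s + 1 : ℕ)) := by
      funext n; congr 1; push_cast; ring
    simp only [e] at h1
    calc |EZg M N (fun n => F (n + (s + 1 : ℕ))) - EZg M N F|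
        ≤ |EZg M N (fun n => F (n + (s + 1 : ℕ))) - EZg M N (fun n => F (n + s))| +
          |EZg M N (fun n => F (n + s)) - EZg M N F| := abs_sub_le _ _ _
      _ ≤ 3 * C / Sg M N + s * (3 * C / Sg M N) := add_le_add h1 ih
      _ = ((s + 1 : ℕ) : ℝ) * (3 * C / Sg M N) := by push_cast; ring

lemma EZg_shift {F : ℤ → ℝ} {C : ℝ} (hF : ∀ n, |F n| ≤ C) (M N : ℕ) (hM : 1 ≤ M)
    (hMN : M ≤ N) (s : ℤ) :
    |EZg M N (fun n => F (n + s)) - EZg M N F| ≤ |(s : ℝ)| * (3 * C / Sg M N) := by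
  obtain ⟨t, rfl | rfl⟩ := s.eq_nat_or_neg
  · simpa using EZg_shift_nat hF M N hM hMN t
  · have h := EZg_shift_nat (F := fun n => F (n + -(t : ℤ))) (fun n => hF _) M N hM hMN t
    have e : (fun n : ℤ => F (n + (t : ℤ) + -(t : ℤ))) = F := by
      funext n; congr 1; ring
    simp only [e] at h
    rw [abs_sub_comm]
    simpa using h

lemma EZg_dil {F : ℤ → ℝ} {C : ℝ} (hF : ∀ n, |F n| ≤ C) (r : ℕ) (hr : 0 < r) (M N : ℕ)
    (hMN : M ≤ N) :
    |EZg M N (fun n => F (r * n)) - r * EZg M N (fun n => if (r : ℤ) ∣ n then F n else 0)| ≤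
      2 * r ^ 2 * C / Sg M N := by
  have := dil_err (f := fun n : ℕ => F n) (fun n => hF n) r hr M N hMN
  simpa [EZg, Int.natCast_dvd_natCast] using this

/-- block of the window `[a, b)`, as integers -/
noncomputable def bl (a b : ℕ) : Finset ℤ := (Ico a b).map Nat.castEmbedding

/-- normalised logarithmic weights -/
noncomputable def wg (a b : ℕ) (n : ℤ) : ℝ := 1 / |(n : ℝ)| / Sg (a - 1) (b - 1)

lemma Ico_eq (a b : ℕ) (ha : 1 ≤ a) : Ico a b = Ioc (a - 1) (b - 1) := by
  ext n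
  rw [Finset.mem_Ico, Finset.mem_Ioc]
  omega

lemma sum_bl (a b : ℕ) (ha : 1 ≤ a) (F : ℤ → ℝ) :
    ∑ n ∈ bl a b, wg a b n * F n = EZg (a - 1) (b - 1) F := by
  unfold bl EZg Eg
  rw [Finset.sum_map, Finset.sum_div, Ico_eq a b ha]
  refine Finset.sum_congr rfl fun n _ => ?_
  simp only [Nat.castEmbedding_apply, wg, Int.cast_natCast, Nat.abs_cast]
  ring

lemma Sg_ge (a b : ℕ) (ha : 1 ≤ a) (hab : a ≤ b) :
    Real.log ((b : ℝ) / a) ≤ Sg (a - 1) (b - 1) := by
  have h := FIN.Win.log_le (a - 1) (b - 1) (by omega)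
  have h1 : (((a - 1 : ℕ) : ℝ) + 1) = a := by
    rw [Nat.cast_sub ha]; push_cast; ring
  have h2 : (((b - 1 : ℕ) : ℝ) + 1) = b := by
    rw [Nat.cast_sub (ha.trans hab)]; push_cast; ring
  rw [h1, h2] at h
  have ha' : (a : ℝ) ≠ 0 := by positivity
  have hb' : (b : ℝ) ≠ 0 := by
    have : 0 < b := by omega
    positivity
  rw [Real.log_div hb' ha']
  exact h

lemma Sg_pos (a b : ℕ) (ha : 1 ≤ a) (hab : a < b) : 0 < Sg (a - 1) (b - 1) := by
  unfold Sg
  apply Finset.sum_pos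
  · intro n hn
    rw [Finset.mem_Ioc] at hn
    have : (0 : ℝ) < n := by exact_mod_cast (Nat.zero_le _).trans_lt hn.1
    positivity
  · rw [Finset.nonempty_Ioc]
    omega

/-- choice of the subsequence -/
lemma exists_sub (A B : ℕ → ℕ) (hA : Tendsto A atTop atTop)
    (hB : Tendsto (fun j => (B j : ℝ) / A j) atTop atTop) :
    ∃ φ : ℕ → ℕ, StrictMono φ ∧ (∀ k, k < A (φ k)) ∧ (∀ k, 2 ≤ A (φ k)) ∧
      (∀ k, A (φ k) < B (φ k)) ∧ (∀ k : ℕ, (k : ℝ) ≤ (B (φ k) : ℝ) / A (φ k)) ∧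
      ∀ k l, k < l → B (φ k) ≤ A (φ l) := by
  have hex : ∀ m c : ℕ, ∃ j, m < j ∧ c < A j ∧ 2 ≤ A j ∧ A j < B j ∧
      (c : ℝ) ≤ (B j : ℝ) / A j := by
    intro m c
    have h1 := hA.eventually_gt_atTop (c + 2)
    have h2 := hB.eventually_ge_atTop ((c : ℝ) + 2)
    obtain ⟨j, hj1, hj2, hj3⟩ := ((eventually_gt_atTop m).and (h1.and h2)).exists
    refine ⟨j, hj1, by omega, by omega, ?_, ?_⟩
    · have hA0 : (0 : ℝ) < A j := by
        have : 0 < A j := by omega
        exact_mod_cast this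
      rw [le_div_iff₀ hA0] at hj3
      have hc : (0 : ℝ) ≤ c := Nat.cast_nonneg c
      have : (A j : ℝ) < B j := by nlinarith
      exact_mod_cast this
    · linarith
  choose g hg1 hg2 hg3 hg4 hg5 using hex
  -- the recursion
  let φ : ℕ → ℕ := fun k => Nat.rec (g 0 0) (fun k p => g p (k + 1 + B p)) k
  have h0 : φ 0 = g 0 0 := rfl
  have hs : ∀ k, φ (k + 1) = g (φ k) (k + 1 + B (φ k)) := fun k => rfl
  have hmono : StrictMono φ := strictMono_nat_of_lt_succ fun k => by
    rw [hs k]; exact hg1 _ _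
  have hB2 : ∀ k, A (φ k) < B (φ k) := by
    intro k
    cases k with
    | zero => rw [h0]; exact hg4 _ _
    | succ k => rw [hs k]; exact hg4 _ _
  have hstep : ∀ k, B (φ k) ≤ A (φ (k + 1)) := by
    intro k
    have := hg2 (φ k) (k + 1 + B (φ k))
    rw [← hs k] at this
    omega
  refine ⟨φ, hmono, ?_, ?_, hB2, ?_, ?_⟩
  · intro k
    cases k with
    | zero => rw [h0]; exact lt_of_le_of_lt (Nat.zero_le _) (hg2 0 0)
    | succ k =>
      have := hg2 (φ k) (k + 1 + B (φ k))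
      rw [← hs k] at this
      omega
  · intro k
    cases k with
    | zero => rw [h0]; exact hg3 _ _
    | succ k => rw [hs k]; exact hg3 _ _
  · intro k
    cases k with
    | zero => rw [h0]; have := hg5 0 0; simpa using this
    | succ k =>
      have := hg5 (φ k) (k + 1 + B (φ k))
      rw [← hs k] at this
      refine le_trans ?_ this
      push_cast
      have : (0 : ℝ) ≤ (B (φ k) : ℝ) := Nat.cast_nonneg _
      linarith
  · intro k l hkl
    induction l, hkl using Nat.le_induction with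
    | base => exact hstep k
    | succ l hl ih => exact ih.trans ((hB2 l).le.trans (hstep l))

end LW14

open LW14 in
theorem lw : LW := by
  intro A B hA hB
  obtain ⟨φ, hmono, hk1, hk2, hk3, hk4, hk5⟩ := exists_sub A B hA hB
  have ha1 : ∀ k, 1 ≤ A (φ k) := fun k => by have := hk2 k; omega
  have hpos : ∀ k, 0 < Sg (A (φ k) - 1) (B (φ k) - 1) := fun k => Sg_pos _ _ (ha1 k) (hk3 k)
  have hS : Tendsto (fun k => Sg (A (φ k) - 1) (B (φ k) - 1)) atTop atTop := by
    have h1 : Tendsto (fun k : ℕ => Real.log (k : ℝ)) atTop atTop :=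
      Real.tendsto_log_atTop.comp tendsto_natCast_atTop_atTop
    refine tendsto_atTop_mono' _ ?_ h1
    filter_upwards [eventually_ge_atTop 1] with k hk
    refine le_trans ?_ (Sg_ge _ _ (ha1 k) (hk3 k).le)
    exact Real.log_le_log (by exact_mod_cast hk) (hk4 k)
  have hM1 : ∀ k, 1 ≤ A (φ k) - 1 := fun k => by have := hk2 k; omega
  have hMN : ∀ k, A (φ k) - 1 ≤ B (φ k) - 1 := fun k => by have := hk3 k; omega
  refine ⟨{
    U := hyperfilter ℕ
    blk := fun k => bl (A (φ k)) (B (φ k))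
    wt := fun k => wg (A (φ k)) (B (φ k))
    m := fun F => limUnder ((hyperfilter ℕ : Ultrafilter ℕ) : Filter ℕ)
      (fun k => ∑ n ∈ bl (A (φ k)) (B (φ k)), wg (A (φ k)) (B (φ k)) n * F n)
    free := Nat.hyperfilter_le_atTop
    wt_nonneg := fun k n => by
      unfold wg
      have := (hpos k).le
      positivity
    wt_sum := fun k => by
      have h := sum_bl (A (φ k)) (B (φ k)) (ha1 k) (fun _ => 1)
      simp only [mul_one] at h
      rw [h]
      unfold EZg Eg
      exact div_self (hpos k).ne'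
    blk_gt := fun k n hn => by
      unfold bl at hn
      rw [Finset.mem_map] at hn
      obtain ⟨a, ha, rfl⟩ := hn
      rw [Finset.mem_Ico] at ha
      have := hk1 k
      simp only [Nat.castEmbedding_apply, Nat.cast_lt]
      omega
    blk_disj := fun k l hkl => by
      rw [Finset.disjoint_left]
      intro n hn hn'
      unfold bl at hn hn'
      rw [Finset.mem_map] at hn hn'
      obtain ⟨a, ha, rfl⟩ := hn
      obtain ⟨b, hb, hab⟩ := hn'
      have hab' : b = a := by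
        simpa [Nat.castEmbedding_apply] using hab
      subst hab'
      rw [Finset.mem_Ico] at ha hb
      rcases lt_or_gt_of_ne hkl with h | h
      · have := hk5 k l h; omega
      · have := hk5 l k h; omega
    m_lim := fun F hF => by
      obtain ⟨C, hC⟩ := hF
      apply tendsto_nhds_limUnder
      exact FIN.Win.exists_lim
        (x := fun k => ∑ n ∈ bl (A (φ k)) (B (φ k)), wg (A (φ k)) (B (φ k)) n * F n)
        (fun k => by
          rw [sum_bl _ _ (ha1 k)]
          exact Eg_abs_le (f := fun n : ℕ => F n) (fun n => hC n) _ _)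
    shift_err := fun t ε hε => by
      have h := hS.eventually_ge_atTop (|(t : ℝ)| * 3 / ε)
      filter_upwards [h] with k hk F hF
      rw [sum_bl _ _ (ha1 k) F, sum_bl _ _ (ha1 k) (fun n => F (n + t))]
      refine (EZg_shift hF _ _ (hM1 k) (hMN k) t).trans ?_
      rw [mul_one, ← mul_div_assoc, div_le_iff₀ (hpos k)]
      rw [div_le_iff₀ hε] at hk
      linarith
    dil_err := fun r hr ε hε => by
      have h := hS.eventually_ge_atTop (2 * (r : ℝ) ^ 2 / ε)
      filter_upwards [h] with k hk F hF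
      rw [sum_bl _ _ (ha1 k) (fun n => F (r * n)),
        sum_bl _ _ (ha1 k) (fun n => if (r : ℤ) ∣ n then F n else 0)]
      refine (EZg_dil hF r hr _ _ (hMN k)).trans ?_
      rw [mul_one, div_le_iff₀ (hpos k)]
      rw [div_le_iff₀ hε] at hk
      linarith }, φ, hmono, ?_⟩
  intro k F
  show ∑ n ∈ bl (A (φ k)) (B (φ k)), wg (A (φ k)) (B (φ k)) n * F n = _
  rw [sum_bl _ _ (ha1 k)]
  unfold EZg Eg Sg
  rw [Ico_eq _ _ (ha1 k)]
  congr 1
  refine Finset.sum_congr rfl fun n _ => ?_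
  ring

end Pool.Agent.LC79
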