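import Pool.Agent.Lib.MP_60922f_co.FIN.M9_43
import Pool.Agent.Lib.MP_60922f_co.LC.StmtsS3_79

/-! LC, module M9T: M9 with large primes which are congruent modulo a given number. -/

set_option autoImplicit false
set_option linter.unusedVariables false

namespace Pool.Agent.LC79
open Filter Topology Pool.Agent.FinA Pool.Agent.FinClique Pool.Agent.FinA.P67 Pool.Agent.FinA.M9m

theorem m9T (S : MeanSys) (h7 : M7 S) (h8 : M8 S) : M9T S := by
  classical
  intro J A hA ε hε hcov T R hR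
  set D : ℝ := (J : ℝ) ^ 2 + 1 with hD
  have hD0 : 0 < D := by positivity
  have hD1 : 1 ≤ D := by
    have : (0 : ℝ) ≤ (J : ℝ) ^ 2 := by positivity
    rw [hD]; linarith
  set c0 : ℝ := ε ^ 2 / D with hc0
  have hc00 : 0 < c0 := by positivity
  set κ : ℝ := c0 / 16 with hκ
  have hκ0 : 0 < κ := by positivity
  set lam : ℝ := ε / D with hlam
  have hlam0 : 0 < lam := by positivity
  refine ⟨κ, hκ0, fun N₀ hN₀ => ?_⟩
  set N : ℤ → ℝ := fun t => N₀ t + (if Even t then 0 else κ) with hNdef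
  have hN : PN N := PN.sum2 hN₀ (PN.parity hκ0.le)
  have hodd : ∀ t, ¬ Even t → κ ≤ N t := by
    intro t ht
    simp only [hNdef, if_neg ht]
    have := hN₀.nonneg t
    linarith
  have hN₀N : ∀ t, N₀ t ≤ N t := by
    intro t
    simp only [hNdef]
    split_ifs <;> linarith
  have hm : 0 < S.m (psi39 N κ) := psi_pos43 S hN hκ0
  set W : ℤ → ℝ := W39 S N κ with hW
  have hW0 : ∀ n, 0 ≤ W n := W39_nonneg hm
  set C : ℝ := 1 / S.m (psi39 N κ) with hC
  have hC0 : 0 < C := by positivity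
  have hWC : ∀ n, W n ≤ C := W39_le hN hκ0 hm
  have hWb : Bdd W := W39_bdd hN hκ0 hm
  have hWm : S.m W = 1 := W39_mean hN hκ0 hm
  -- the small parameter
  set η : ℝ := min (1 / 8) (min (ε / 16) (ε / (16 * D))) with hη
  have hη0 : 0 < η := by
    refine lt_min (by norm_num) (lt_min (by positivity) (by positivity))
  have hη1 : η ≤ 1 / 8 := min_le_left _ _
  have hη2 : η ≤ ε / 16 := (min_le_right _ _).trans (min_le_left _ _)
  have hη3 : η ≤ ε / (16 * D) := (min_le_right _ _).trans (min_le_right _ _)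
  -- the net of translates of `W`
  set N2 : ℤ → ℝ := fun t => N t / (κ * S.m (psi39 N κ)) with hN2
  have hPN2 : PN N2 := pn_smul hN (mul_pos hκ0 hm)
  have hlip : ∀ x t, |W (x + t) - W x| ≤ N2 t := W39_lip hN hκ0 hm
  obtain ⟨P2, hP2⟩ := hPN2.tb (η / 4) (by positivity)
  -- moduli
  obtain ⟨M1, hM1, hU⟩ := W39_avg2 (S := S) h8 hN hκ0 hodd hm hη0
  obtain ⟨M2, hM2, hE⟩ := err39_M8 (S := S) h8 hN hκ0 hodd hm (half_pos hη0)
  obtain ⟨M3, hM3, hV⟩ := h8 W N2 hPN2 hlip η hη0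
  obtain ⟨L3, hL3, hV1⟩ := hV 1 one_pos (Nat.coprime_one_left M3)
  -- the primes
  obtain ⟨P, hPtop, hPprime, hPm, hPl⟩ := h7
  set ex : ℤ → ℝ := fun n => 1 - ∑ i, ind (A i) n with hex
  have bI : ∀ i, Bdd (ind (A i)) := fun i => bdd_ind (A i)
  have bsI : Bdd fun n => ∑ i, ind (A i) n := bdd_sum Finset.univ fun i _ => bI i
  have bex : Bdd ex := bdd_sub (bdd_const 1) bsI
  have hexm : S.m ex ≤ ε / 8 := by
    simp only [hex]
    rw [m_sub S (bdd_const 1) bsI, m_const, m_sum S Finset.univ fun i _ => bI i]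
    exact hcov
  have hexP : ∀ᶠ p : ℕ in (P : Filter ℕ), S.m (fun n => ex (p * n)) ≤ ε / 8 + η := by
    have h1 := hPm ex bex
    have h2 : ∀ᶠ p : ℕ in (P : Filter ℕ), S.m (fun n => ex (p * n)) < S.m ex + η :=
      h1.eventually_lt_const (by linarith)
    exact h2.mono fun p hp => by linarith
  have hpair : ∀ i j : Fin J, ∀ s ∈ P2, ∃ l : ℝ, ∀ᶠ u : ℕ in (P : Filter ℕ),
      ∀ᶠ v : ℕ in (P : Filter ℕ),
      |S.m (fun n => (ind (A i) (v * n) * W (v * n + s)) * ind (A j) (u * n)) - l| ≤ η / 4 ∧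
      |S.m (fun n => (ind (A i) (u * n) * W (u * n + s)) * ind (A j) (v * n)) - l| ≤ η / 4 := by
    intro i j s _
    obtain ⟨l, hl⟩ := hPl (fun x => ind (A i) x * W (x + s)) (ind (A j))
      (bdd_mul (bI i) (bdd_comp hWb fun x => x + s)) (bI j)
    exact ⟨l, hl (η / 4) (by positivity)⟩
  choose! l hl using hpair
  have hev : ∀ᶠ u : ℕ in (P : Filter ℕ), ∀ i j : Fin J, ∀ s ∈ P2, ∀ᶠ v : ℕ in (P : Filter ℕ),
      |S.m (fun n => (ind (A i) (v * n) * W (v * n + s)) * ind (A j) (u * n)) - l i j s| ≤ η / 4 ∧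
      |S.m (fun n => (ind (A i) (u * n) * W (u * n + s)) * ind (A j) (v * n)) - l i j s|
        ≤ η / 4 := by
    rw [eventually_all]; intro i
    rw [eventually_all]; intro j
    rw [eventually_all_finset]; intro s hs
    exact hl i j s hs
  have hbig : ∀ c : ℕ, ∀ᶠ p : ℕ in (P : Filter ℕ), c < p := fun c =>
    hPtop (eventually_gt_atTop c)
  have hcls : ∃ r ∈ Finset.range R, ∀ᶠ p : ℕ in (P : Filter ℕ), p % R = r := by
    refine (Ultrafilter.eventually_exists_mem_iff ?_).mp (Eventually.of_forall fun p => ?_)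
    · exact (Finset.range R).finite_toSet
    · exact ⟨p % R, Finset.mem_range.mpr (Nat.mod_lt _ hR), rfl⟩
  obtain ⟨r, _, hr⟩ := hcls
  obtain ⟨u, ⟨hup, huM, hTu, hur, hexu, hu2⟩⟩ :=
    (hPprime.and ((hbig (2 + M1 * M2)).and ((hbig T).and (hr.and (hexP.and hev))))).exists
  have hev2 : ∀ᶠ v : ℕ in (P : Filter ℕ), ∀ i j : Fin J, ∀ s ∈ P2,
      |S.m (fun n => (ind (A i) (v * n) * W (v * n + s)) * ind (A j) (u * n)) - l i j s| ≤ η / 4 ∧
      |S.m (fun n => (ind (A i) (u * n) * W (u * n + s)) * ind (A j) (v * n)) - l i j s|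
        ≤ η / 4 := by
    rw [eventually_all]; intro i
    rw [eventually_all]; intro j
    rw [eventually_all_finset]; intro s hs
    exact hu2 i j s hs
  obtain ⟨v, ⟨hvp, hvu, hvr, hexv, hv2⟩⟩ :=
    (hPprime.and ((hbig u).and (hr.and (hexP.and hev2)))).exists
  have hM12 : 0 < M1 * M2 := Nat.mul_pos hM1 hM2
  have hM1le : M1 ≤ M1 * M2 := Nat.le_mul_of_pos_right _ hM2
  have hM2le : M2 ≤ M1 * M2 := Nat.le_mul_of_pos_left _ hM1
  have huodd : Odd u := hup.odd_of_ne_two (by omega)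
  have hvodd : Odd v := hvp.odd_of_ne_two (by omega)
  have hcu1 : u.Coprime M1 := coprime_of_gt43 hup hM1 (by omega)
  have hcu2 : u.Coprime M2 := coprime_of_gt43 hup hM2 (by omega)
  have hcv2 : v.Coprime M2 := coprime_of_gt43 hvp hM2 (by omega)
  have huv : u.Coprime v := (Nat.coprime_primes hup hvp).mpr (by omega)
  obtain ⟨L1, hL1, hUL⟩ := hU u hup.pos huodd hcu1
  obtain ⟨L2, hL2, hEL⟩ := hE u v huv huodd hvodd (Nat.Coprime.mul_left hcu2 hcv2)
  set L : ℕ := max L1 (max L2 L3) with hLdef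
  have hLL1 : L1 ≤ L := le_max_left _ _
  have hLL2 : L2 ≤ L := (le_max_left _ _).trans (le_max_right _ _)
  have hLL3 : L3 ≤ L := (le_max_right _ _).trans (le_max_right _ _)
  have hL : 0 < L := lt_of_lt_of_le hL1 hLL1
  have hLr : (0 : ℝ) < L := by exact_mod_cast hL
  refine ⟨c0 / (2 * C ^ 2), by positivity, u, v, hup, hvp, hTu, hvu, hur.trans hvr.symm,
    fun b hb hbodd hbm hbN => ?_⟩
  -- closeness of `p` and `q`
  have hclose : ∀ (r r' : ℤ) (i j : Fin J) (s s' : ℤ), N2 (s - s') ≤ η / 4 →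
      |S.m (fun n => ind (A i) (r * n) * ind (A j) (r' * n) * W (r * n + s)) -
        S.m (fun n => (ind (A i) (r * n) * W (r * n + s')) * ind (A j) (r' * n))| ≤ η / 4 := by
    intro r r' i j s s' hss
    have b1 : Bdd fun n => ind (A i) (r * n) := bdd_comp (bI i) fun n => r * n
    have b2 : Bdd fun n => ind (A j) (r' * n) := bdd_comp (bI j) fun n => r' * n
    have b3 : ∀ s : ℤ, Bdd fun n => W (r * n + s) := fun s => bdd_comp hWb fun n => r * n + s
    rw [← m_sub S (bdd_mul (bdd_mul b1 b2) (b3 s)) (bdd_mul (bdd_mul b1 (b3 s')) b2)]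
    refine m_abs_le S fun n => ?_
    have e1 : ind (A i) (r * n) * ind (A j) (r' * n) * W (r * n + s) -
        ind (A i) (r * n) * W (r * n + s') * ind (A j) (r' * n) =
        (ind (A i) (r * n) * ind (A j) (r' * n)) * (W (r * n + s) - W (r * n + s')) := by ring
    rw [e1, abs_mul]
    have h1 : |ind (A i) (r * n) * ind (A j) (r' * n)| ≤ 1 := by
      rw [abs_mul]
      exact mul_le_one₀ (abs_ind_le _ _) (abs_nonneg _) (abs_ind_le _ _)
    have h2 : |W (r * n + s) - W (r * n + s')| ≤ η / 4 := by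
      have := hlip (r * n + s') (s - s')
      have e2 : r * n + s' + (s - s') = r * n + s := by ring
      rw [e2] at this
      exact this.trans hss
    calc _ ≤ 1 * (η / 4) := mul_le_mul h1 h2 (abs_nonneg _) zero_le_one
      _ = η / 4 := one_mul _
  have hpq : ∀ i j, ∀ s : ℤ,
      S.m (fun w => ind (A i) (u * w) * ind (A j) (v * w) * W (u * w + s)) - η ≤
      S.m (fun n => ind (A i) (v * n) * ind (A j) (u * n) * W (v * n + s)) := by
    intro i j s
    obtain ⟨s', hs', hss⟩ := hP2 s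
    have h1 := abs_le.mp (hclose u v i j s s' hss)
    have h2 := abs_le.mp (hclose v u i j s s' hss)
    have h3 := abs_le.mp (hv2 i j s' hs').1
    have h4 := abs_le.mp (hv2 i j s' hs').2
    linarith [h1.1, h1.2, h2.1, h2.2, h3.1, h3.2, h4.1, h4.2]
  have hU1 : ∀ x : ℤ, 1 / (L : ℝ) * ∑ s ∈ Finset.range L, W (x + s) ≤ 1 + η := by
    intro x
    have h1 := (abs_le.mp (hV1 L hLL3 x 0)).2
    rw [hWm] at h1
    have e1 : (∑ s ∈ Finset.range L, if ((1 : ℕ) : ℤ) ∣ x + s - 0 then W (x + s) else 0) =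
        ∑ s ∈ Finset.range L, W (x + s) := by
      refine Finset.sum_congr rfl fun s _ => ?_
      rw [if_pos]; simp
    rw [e1] at h1
    push_cast at h1
    linarith
  have hUu : ∀ y : ℤ, Even y → 2 - 2 * η ≤
      (u : ℝ) / L * ∑ s ∈ Finset.range L, if (u : ℤ) ∣ y + s then W (y + 2 * s) else 0 := by
    intro y hy
    have h1 := (abs_le.mp (hUL L hLL1 (-y) y hy)).1
    have e1 : (∑ s ∈ Finset.range L, if (u : ℤ) ∣ (s : ℤ) - -y then W39 S N κ (y + 2 * s) else 0) =
        ∑ s ∈ Finset.range L, if (u : ℤ) ∣ y + s then W (y + 2 * s) else 0 := by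
      refine Finset.sum_congr rfl fun s _ => ?_
      have e2 : (s : ℤ) - -y = y + s := by ring
      rw [e2]
    rw [e1] at h1
    linarith
  have herr := hEL L hLL2 κ b hκ0.le hb fun t => (hbN t).trans (by linarith [hN₀N t])
  have hmain := main43 S hA (W := W) (C := C) (η := η) (e := ε / 8 + η) (E := (2 + 2 * (η / 2)) * (κ + κ))
    (lam := lam) (u := u) (v := v) (L := L) hup.pos hvp.pos hL hη0.le ?_ hW0 hWC hpq hU1 hUu
    hexu hexv hb hbodd herr
  swap
  · have h1 : ε / (16 * D) ≤ 2 * lam := by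
      rw [hlam, mul_comm (16 : ℝ) D, ← div_div]
      have : 0 < ε / D := by positivity
      linarith
    exact hη3.trans h1
  have hT : ε ≤ (2 - 2 * η) * S.m b - (1 + η) * (2 * (ε / 8 + η)) := by
    have h1 : (2 - 2 * η) * ε ≤ (2 - 2 * η) * S.m b :=
      mul_le_mul_of_nonneg_left hbm (by linarith)
    have h2 : (1 + η) * (2 * (ε / 8 + η)) ≤ (9 / 8) * (2 * (ε / 8 + η)) :=
      mul_le_mul_of_nonneg_right (by linarith) (by positivity)
    have h3 : η * ε ≤ 1 / 8 * ε := mul_le_mul_of_nonneg_right hη1 hε.le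
    nlinarith
  have h2l : 0 ≤ 2 * lam - η := by
    have h1 : ε / (16 * D) ≤ 2 * lam := by
      rw [hlam, mul_comm (16 : ℝ) D, ← div_div]
      have : 0 < ε / D := by positivity
      linarith
    linarith
  have h3 := mul_le_mul_of_nonneg_left hT h2l
  have e1 : lam * ε = c0 := by rw [hlam, hc0]; ring
  have e2 : η * ε ≤ c0 / 16 := by
    have := mul_le_mul_of_nonneg_right hη3 hε.le
    refine this.trans (le_of_eq ?_)
    rw [hc0]; field_simp
  have e3 : lam ^ 2 * (J : ℝ) ^ 2 ≤ c0 := by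
    have h4 : lam ^ 2 * (J : ℝ) ^ 2 ≤ lam ^ 2 * D :=
      mul_le_mul_of_nonneg_left (by rw [hD]; linarith) (by positivity)
    refine h4.trans (le_of_eq ?_)
    rw [hlam, hc0]; field_simp
  have e4 : (2 + 2 * (η / 2)) * (κ + κ) ≤ (2 + 1 / 8) * (κ + κ) :=
    mul_le_mul_of_nonneg_right (by linarith) (by positivity)
  have e5 : c0 / 2 ≤ C ^ 2 * ∑ i, ∑ j, Cor S (A i) (A j) u v b := by
    have h5 : (2 * lam - η) * ε = 2 * c0 - η * ε := by rw [← e1]; ring
    have h6 : κ = c0 / 16 := hκ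
    linarith
  rw [div_le_iff₀ (by positivity)]
  linarith

end Pool.Agent.LC79
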