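import Pool.Agent.Lib.MP_60922f_co.LC.StmtsV2_79

/-!
LC: the distance to the nearest integer, and characters `e(x) = exp (2 π i x)`.
-/

set_option autoImplicit false

open Filter Topology

namespace Pool.Agent.LC79.ND14

lemma nd_nonneg (x : ℝ) : 0 ≤ nd x := abs_nonneg _

lemma nd_le (x : ℝ) (k : ℤ) : nd x ≤ |x - k| := round_le x k

lemma nd_le_abs (x : ℝ) : nd x ≤ |x| := by simpa using nd_le x 0

lemma exists_int (x : ℝ) : ∃ k : ℤ, nd x = |x - k| := ⟨round x, rfl⟩

lemma nd_le_half (x : ℝ) : nd x ≤ 1 / 2 := abs_sub_round x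

lemma nd_add_int (x : ℝ) (k : ℤ) : nd (x + k) = nd x := by
  unfold nd
  rw [round_add_intCast]
  congr 1
  push_cast
  ring

lemma nd_int (k : ℤ) : nd (k : ℝ) = 0 := by
  have h := nd_le (k : ℝ) k
  rw [sub_self, abs_zero] at h
  exact le_antisymm h (nd_nonneg _)

lemma nd_neg (x : ℝ) : nd (-x) = nd x := by
  have key : ∀ y : ℝ, nd (-y) ≤ nd y := fun y => by
    obtain ⟨k, hk⟩ := exists_int y
    refine (nd_le (-y) (-k)).trans (le_of_eq ?_)
    rw [hk, ← abs_neg]
    congr 1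
    push_cast
    ring
  refine le_antisymm (key x) ?_
  have := key (-x)
  rwa [neg_neg] at this

lemma nd_add (x y : ℝ) : nd (x + y) ≤ nd x + nd y := by
  obtain ⟨k, hk⟩ := exists_int x
  obtain ⟨l, hl⟩ := exists_int y
  rw [hk, hl]
  refine (nd_le (x + y) (k + l)).trans ?_
  have : x + y - ((k + l : ℤ) : ℝ) = (x - k) + (y - l) := by push_cast; ring
  rw [this]
  exact abs_add_le _ _

lemma nd_sub (x y : ℝ) : nd (x - y) ≤ nd x + nd y := by
  rw [sub_eq_add_neg, ← nd_neg y]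
  exact nd_add x (-y)

lemma nd_lip (x y : ℝ) : nd x ≤ nd y + |x - y| := by
  have h := nd_add y (x - y)
  rw [add_sub_cancel] at h
  exact h.trans (by have := nd_le_abs (x - y); linarith)

lemma nd_int_mul (a : ℤ) (x : ℝ) : nd (a * x) ≤ |(a : ℝ)| * nd x := by
  obtain ⟨k, hk⟩ := exists_int x
  rw [hk]
  refine (nd_le (a * x) (a * k)).trans (le_of_eq ?_)
  rw [← abs_mul]
  congr 1
  push_cast
  ring

lemma nd_sum {ι : Type*} (s : Finset ι) (f : ι → ℝ) : nd (∑ i ∈ s, f i) ≤ ∑ i ∈ s, nd (f i) := by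
  classical
  induction s using Finset.induction_on with
  | empty =>
    rw [Finset.sum_empty, Finset.sum_empty]
    exact le_of_eq (by simpa using nd_int 0)
  | insert a s ha ih =>
    rw [Finset.sum_insert ha, Finset.sum_insert ha]
    exact (nd_add _ _).trans (by linarith)

/-- the character -/
noncomputable def ee (x : ℝ) : ℂ := Complex.exp (((2 * Real.pi * x : ℝ) : ℂ) * Complex.I)

lemma norm_ee (x : ℝ) : ‖ee x‖ = 1 := Complex.norm_exp_ofReal_mul_I _

lemma ee_zero : ee 0 = 1 := by simp [ee]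

lemma ee_add (x y : ℝ) : ee (x + y) = ee x * ee y := by
  unfold ee
  rw [← Complex.exp_add]
  congr 1
  push_cast
  ring

lemma ee_neg (x : ℝ) : ee (-x) = (starRingEnd ℂ) (ee x) := by
  unfold ee
  rw [← Complex.exp_conj]
  congr 1
  rw [map_mul, Complex.conj_I, Complex.conj_ofReal]
  push_cast
  ring

lemma ee_sub (x y : ℝ) : ee (x - y) = ee x * (starRingEnd ℂ) (ee y) := by
  rw [sub_eq_add_neg, ee_add, ee_neg]

lemma ee_int (k : ℤ) : ee (k : ℝ) = 1 := by
  unfold ee
  rw [Complex.exp_eq_one_iff]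
  exact ⟨k, by push_cast; ring⟩

lemma ee_nat_mul (n : ℕ) (x : ℝ) : ee (n * x) = ee x ^ n := by
  unfold ee
  rw [← Complex.exp_nat_mul]
  congr 1
  push_cast
  ring

lemma ee_sum {ι : Type*} (s : Finset ι) (f : ι → ℝ) : ee (∑ i ∈ s, f i) = ∏ i ∈ s, ee (f i) := by
  classical
  induction s using Finset.induction_on with
  | empty => simpa using ee_zero
  | insert a s ha ih => rw [Finset.sum_insert ha, Finset.prod_insert ha, ee_add, ih]

lemma ee_eq_one {x : ℝ} (h : ee x = 1) : ∃ k : ℤ, x = k := by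
  unfold ee at h
  rw [Complex.exp_eq_one_iff] at h
  obtain ⟨k, hk⟩ := h
  refine ⟨k, ?_⟩
  have h1 : ((2 * Real.pi * x : ℝ) : ℂ) = ((2 * Real.pi * k : ℝ) : ℂ) := by
    have : ((2 * Real.pi * x : ℝ) : ℂ) * Complex.I = ((2 * Real.pi * k : ℝ) : ℂ) * Complex.I := by
      rw [hk]
      push_cast
      ring
    exact mul_right_cancel₀ Complex.I_ne_zero this
  have h2 : 2 * Real.pi * x = 2 * Real.pi * k := by exact_mod_cast h1
  exact mul_left_cancel₀ (by positivity) h2

lemma re_ee (x : ℝ) : (ee x).re = Real.cos (2 * Real.pi * x) := Complex.exp_ofReal_mul_I_re _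

lemma cos_eq (x : ℝ) (k : ℤ) : Real.cos (2 * Real.pi * x) = Real.cos (2 * Real.pi * (x - k)) := by
  rw [show 2 * Real.pi * (x - k) = 2 * Real.pi * x - k * (2 * Real.pi) by ring,
    Real.cos_sub_int_mul_two_pi]

lemma cos_nonneg {x : ℝ} (h : nd x ≤ 1 / 4) : 0 ≤ Real.cos (2 * Real.pi * x) := by
  obtain ⟨k, hk⟩ := exists_int x
  rw [hk, abs_le] at h
  rw [cos_eq x k]
  have hpi := Real.pi_pos
  refine Real.cos_nonneg_of_neg_pi_div_two_le_of_le ?_ ?_ <;> nlinarith [h.1, h.2]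

/-- `|e(x) - 1| ≥ 4 nd x` -/
lemma four_nd_le (x : ℝ) : 4 * nd x ≤ ‖ee x - 1‖ := by
  obtain ⟨k, hk⟩ := exists_int x
  have hhalf := nd_le_half x
  set y : ℝ := x - k with hy
  have he : ee x = ee y := by
    have : x = y + k := by rw [hy]; ring
    rw [this, ee_add, ee_int, mul_one]
  have hpi := Real.pi_pos
  rw [he, hk]
  rw [hk] at hhalf
  have h1 : ‖ee y - 1‖ = 2 * |Real.sin (Real.pi * y)| := by
    have h2 : ee y = Complex.exp (Complex.I * ((2 * (Real.pi * y) : ℝ) : ℂ)) := by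
      unfold ee
      congr 1
      push_cast
      ring
    rw [h2, Complex.norm_exp_I_mul_ofReal_sub_one]
    rw [Real.norm_eq_abs, abs_mul, abs_two]
    congr 3
    ring
  rw [h1]
  have h3 : 2 / Real.pi * (Real.pi * |y|) ≤ Real.sin (Real.pi * |y|) :=
    Real.mul_le_sin (by positivity) (by nlinarith)
  have h4 : 2 / Real.pi * (Real.pi * |y|) = 2 * |y| := by field_simp
  have h5 : Real.sin (Real.pi * |y|) ≤ |Real.sin (Real.pi * y)| := by
    rcases abs_cases y with ⟨h, -⟩ | ⟨h, -⟩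
    · rw [h]; exact le_abs_self _
    · rw [h, mul_neg, Real.sin_neg]; exact neg_le_abs _
  rw [h4] at h3
  linarith

end Pool.Agent.LC79.ND14
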