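import Pool.Agent.Lib.MP_60922f_co.LC.PP_29

/-!
LC, module PK: the K-move for the projections on the limits of periodic functions, and its
consequence for two points.
-/

set_option autoImplicit false

open Filter Topology

namespace Pool.Agent.LC79
open Pool.Agent.FinA Pool.Agent.FinClique
open Pool.Agent.FinA.M9m (B2 mm)

namespace P29

variable {S : MeanSys}

/-- the double mean of a function of `v n + u w` -/
lemma mm_dil_le {G : ℤ → ℝ} (hG : Bdd G) (h0 : ∀ x, 0 ≤ G x) {u : ℕ} (hu : 0 < u) (v : ℤ) :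
    mm S (fun n w => G (v * n + u * w)) ≤ u * S.m G := by
  unfold M9m.mm
  refine S.pf.le_of_le ((B2.of hG fun n w => v * n + u * w).outer S) fun n => ?_
  have hb : Bdd (fun x => G (v * n + x)) := hG.comp _
  have h1 : S.m (fun w => G (v * n + u * w)) = S.m (fun w => (fun x => G (v * n + x)) (u * w)) :=
    rfl
  rw [h1, S.m_dil' hu hb]
  refine mul_le_mul_of_nonneg_left ?_ (Nat.cast_nonneg u)
  rw [← S.m_shift_left (v * n) hG]
  refine S.pf.mono ((ind_bdd _).mul hb) hb fun x => ?_
  have h3 := ind_le_one (cls 0 u) x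
  have h4 : 0 ≤ G (v * n + x) := h0 _
  nlinarith

/-- the same with the roles of the variables exchanged -/
lemma mm_dil_le' {G : ℤ → ℝ} (hG : Bdd G) (h0 : ∀ x, 0 ≤ G x) (u : ℤ) {v : ℕ} (hv : 0 < v) :
    mm S (fun n w => G (u * n + v * w)) ≤ v * S.m G := mm_dil_le hG h0 hv u

/-- a function of two variables, periodic in both -/
lemma per2_sum {P : ℕ} (hP : 0 < P) {q : ℤ → ℤ → ℝ} (h1 : ∀ n w, q (n + P) w = q n w)
    (h2 : ∀ n w, q n (w + P) = q n w) (n w : ℤ) :
    q n w = ∑ a ∈ Finset.range P, ∑ b ∈ Finset.range P,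
      q (a : ℕ) (b : ℕ) * (ind (cls (a : ℤ) P) n * ind (cls (b : ℤ) P) w) := by
  have e1 : q n w = ∑ a ∈ Finset.range P, q (a : ℕ) w * ind (cls (a : ℤ) P) n :=
    per_sum hP (h := fun n => q n w) (fun x => h1 x w) n
  rw [e1]
  refine Finset.sum_congr rfl fun a _ => ?_
  have e2 : q (a : ℕ) w = ∑ b ∈ Finset.range P, q (a : ℕ) (b : ℕ) * ind (cls (b : ℤ) P) w :=
    per_sum hP (h := fun w => q (a : ℕ) w) (fun x => h2 _ x) w
  rw [e2, Finset.sum_mul]
  refine Finset.sum_congr rfl fun b _ => ?_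
  ring

/-- double means of a product against a periodic function -/
lemma mm_per {P : ℕ} (hP : 0 < P) {q : ℤ → ℤ → ℝ} (h1 : ∀ n w, q (n + P) w = q n w)
    (h2 : ∀ n w, q n (w + P) = q n w) {F G : ℤ → ℝ} (hF : Bdd F) (hG : Bdd G) :
    mm S (fun n w => F n * G w * q n w) = ∑ a ∈ Finset.range P, ∑ b ∈ Finset.range P,
      q (a : ℕ) (b : ℕ) * (S.m (fun n => F n * ind (cls (a : ℤ) P) n) *
        S.m (fun w => G w * ind (cls (b : ℤ) P) w)) := by
  have hFa : ∀ a : ℕ, Bdd (fun n => F n * ind (cls (a : ℤ) P) n) := fun a => hF.mul (ind_bdd _)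
  have hGb : ∀ b : ℕ, Bdd (fun n => G n * ind (cls (b : ℤ) P) n) := fun b => hG.mul (ind_bdd _)
  have e : (fun n w => F n * G w * q n w) = fun n w => ∑ a ∈ Finset.range P,
      ∑ b ∈ Finset.range P, q (a : ℕ) (b : ℕ) * ((F n * ind (cls (a : ℤ) P) n) *
        (G w * ind (cls (b : ℤ) P) w)) := by
    funext n w
    rw [per2_sum hP h1 h2 n w, Finset.mul_sum]
    refine Finset.sum_congr rfl fun a _ => ?_
    rw [Finset.mul_sum]
    refine Finset.sum_congr rfl fun b _ => ?_
    ring
  have hB : ∀ a b : ℕ, B2 fun n w => q (a : ℕ) (b : ℕ) * ((F n * ind (cls (a : ℤ) P) n) *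
        (G w * ind (cls (b : ℤ) P) w)) := fun a b => B2.smul _ (B2.prod (hFa a) (hGb b))
  rw [e, M9m.mm_sum _ fun (a : ℕ) _ => B2.sum _ fun (b : ℕ) _ => hB a b]
  refine Finset.sum_congr rfl fun a _ => ?_
  rw [M9m.mm_sum _ fun (b : ℕ) _ => hB a b]
  refine Finset.sum_congr rfl fun b _ => ?_
  rw [M9m.mm_smul _ (B2.prod (hFa a) (hGb b)), M9m.mm_mul (hFa a) (hGb b)]

/-- functions with the same means against periodic functions -/
def SameP (S : MeanSys) (F G : ℤ → ℝ) : Prop := ∀ (M : ℕ) (h : ℤ → ℝ), 0 < M → Bdd h →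
  (∀ x, h (x + M) = h x) → S.m (fun z => (F z - G z) * h z) = 0

lemma SameP.cls {F G : ℤ → ℝ} (h : SameP S F G) (hF : Bdd F) (hG : Bdd G) {P : ℕ} (hP : 0 < P)
    (a : ℤ) : S.m (fun n => F n * ind (cls a P) n) = S.m (fun n => G n * ind (cls a P) n) := by
  have h1 := h P (ind (FinA.cls a P)) hP (ind_bdd _) (fun x => by
    rw [ind_preimage (fun x => x + P)]
    congr 1
    ext n
    simp only [FinA.cls, Set.mem_preimage, Set.mem_ofPred_eq]
    rw [show n + (P : ℤ) - a = n - a + P by ring]
    exact ⟨fun h => by simpa using dvd_sub h (dvd_refl (P : ℤ)), fun h => dvd_add h (dvd_refl _)⟩)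
  have h2 : S.m (fun z => (F z - G z) * ind (FinA.cls a P) z) =
      S.m (fun z => F z * ind (FinA.cls a P) z) - S.m (fun z => G z * ind (FinA.cls a P) z) := by
    rw [← S.pf.sub (hF.mul (ind_bdd _)) (hG.mul (ind_bdd _))]
    exact S.pf.congr fun z => by ring
  rw [h2] at h1
  linarith

lemma mm_per_congr {F G F' G' : ℤ → ℝ} (hFF : SameP S F F') (hGG : SameP S G G') (hF : Bdd F)
    (hG : Bdd G) (hF' : Bdd F') (hG' : Bdd G') {P : ℕ} (hP : 0 < P) {q : ℤ → ℤ → ℝ}
    (h1 : ∀ n w, q (n + P) w = q n w) (h2 : ∀ n w, q n (w + P) = q n w) :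
    mm S (fun n w => F n * G w * q n w) = mm S (fun n w => F' n * G' w * q n w) := by
  rw [mm_per hP h1 h2 hF hG, mm_per hP h1 h2 hF' hG']
  refine Finset.sum_congr rfl fun a _ => Finset.sum_congr rfl fun b _ => ?_
  rw [hFF.cls hF hF' hP, hGG.cls hG hG' hP]

lemma Fr_U01 (f : ℕ → Bool) : U01 (Fr f) := fun z => by
  unfold Fr; split_ifs <;> norm_num

lemma abs_Fr_sub (f : ℕ → Bool) (x y : ℤ) :
    |Fr f x - Fr f y| = if f x.toNat = f y.toNat then 0 else 1 := by
  unfold Fr
  cases h1 : f x.toNat <;> cases h2 : f y.toNat <;> simp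

end P29

open P29

/-- PK: the K-move for the projections, and its consequence for two points. -/
theorem pk (S : MeanSys) : PK S := by
  intro f Y Y' u v R hR hu huv hmod hK hper y y' hy hy' hYy hYy' s
  classical
  have hv : 0 < v := hu.trans huv
  have hR' : (R : ℤ) ≠ 0 := by exact_mod_cast hR.ne'
  have huvR : (R : ℤ) ∣ (v : ℤ) - u := by
    have := (Nat.modEq_iff_dvd).mp hmod
    exact this
  have hRz : ∀ n w : ℤ, (R : ℤ) ∣ v * n + u * w ↔ (R : ℤ) ∣ u * n + v * w := by
    intro n w
    have h1 : (R : ℤ) ∣ (v - u) * (n - w) := Dvd.dvd.mul_right huvR _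
    constructor
    · intro h
      have := dvd_sub h h1
      rwa [show (v : ℤ) * n + u * w - (v - u) * (n - w) = u * n + v * w by ring] at this
    · intro h
      have := dvd_add h h1
      rwa [show (u : ℤ) * n + v * w + (v - u) * (n - w) = v * n + u * w by ring] at this
  set e : ℤ → ℤ → ℝ := fun n w => if (R : ℤ) ∣ v * n + u * w then
    |Fr f (v * n + u * w) - Fr f (u * n + v * w)| else 0 with he
  have he01 : ∀ n w, 0 ≤ e n w ∧ e n w ≤ 1 := by
    intro n w
    simp only [he]
    rw [abs_Fr_sub]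
    split_ifs <;> norm_num
  have heB : B2 e := ⟨1, fun n w => by rw [abs_of_nonneg (he01 n w).1]; exact (he01 n w).2⟩
  have hYb : Bdd (ind Y) := ind_bdd Y
  have hYb' : Bdd (ind Y') := ind_bdd Y'
  -- the K-move
  have hK0 : mm S (fun n w => ind Y n * ind Y' w * e n w) = 0 := by
    have h1 : ∀ n, S.m (fun w => ind Y n * ind Y' w * e n w) = 0 := by
      intro n
      by_cases hn : n ∈ Y
      · refine S.pf.eq_zero_of_null (((hYb'.smul (ind Y n)).mul (heB.row n))) (hK n hn)
          fun w hw => ?_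
        by_cases hwY : w ∈ Y'
        · have h3 : f (v * n + u * w).toNat = f (u * n + v * w).toNat := by
            by_contra hne
            exact hw ⟨hwY, hne⟩
          simp only [he]
          rw [abs_Fr_sub, if_pos h3]
          simp
        · rw [ind_of_notMem hwY]; ring
      · have : ∀ w, ind Y n * ind Y' w * e n w = 0 := fun w => by
          rw [ind_of_notMem hn]; ring
        rw [S.pf.congr this, S.pf.zero]
    unfold M9m.mm
    rw [S.pf.congr h1, S.pf.zero]
  -- the same for the projections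
  have hE0 : mm S (fun n w => y n * y' w * e n w) = 0 := by
    have hB1 : B2 fun n w => y n * y' w * e n w := (B2.prod hy.bdd hy'.bdd).mul heB
    have hB2 : B2 fun n w => ind Y n * ind Y' w * e n w := (B2.prod hYb hYb').mul heB
    have hnn : 0 ≤ mm S (fun n w => y n * y' w * e n w) :=
      mm_nonneg hB1 fun n w => mul_nonneg (mul_nonneg (hy n).1 (hy' w).1) (he01 n w).1
    refine le_antisymm ?_ hnn
    refine le_of_forall_pos_le_add fun ε hε => ?_
    rw [zero_add]
    have huv0 : (0 : ℝ) < u + v := by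
      have : (0 : ℝ) < u := by exact_mod_cast hu
      positivity
    obtain ⟨M, p, hM, hp01, hpp, hpm⟩ := hper (ε / (2 * (u + v))) (by positivity)
    set P : ℕ := R * M with hP
    have hP0 : 0 < P := Nat.mul_pos hR hM
    have hpP : ∀ (x k : ℤ), p (x + k * P) = p x := by
      intro x k
      have hp' : Function.Periodic p (M : ℤ) := hpp
      have h1 := hp'.int_mul (k * R) x
      rw [Int.cast_id] at h1
      rw [← h1, hP]
      congr 1
      push_cast
      ring
    set q : ℤ → ℤ → ℝ := fun n w => if (R : ℤ) ∣ v * n + u * w then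
      |p (v * n + u * w) - p (u * n + v * w)| else 0 with hq
    have hRP : ∀ x k : ℤ, (R : ℤ) ∣ x + k * P ↔ (R : ℤ) ∣ x := by
      intro x k
      have h1 : (R : ℤ) ∣ k * P := by rw [hP]; push_cast; exact ⟨k * M, by ring⟩
      exact ⟨fun h => by simpa using dvd_sub h h1, fun h => dvd_add h h1⟩
    have hq1 : ∀ n w, q (n + P) w = q n w := by
      intro n w
      simp only [hq]
      rw [show (v : ℤ) * (n + P) + u * w = v * n + u * w + v * P by ring,
        show (u : ℤ) * (n + P) + v * w = u * n + v * w + u * P by ring, hpP, hpP]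
      simp only [hRP]
    have hq2 : ∀ n w, q n (w + P) = q n w := by
      intro n w
      simp only [hq]
      rw [show (v : ℤ) * n + u * (w + P) = v * n + u * w + u * P by ring,
        show (u : ℤ) * n + v * (w + P) = u * n + v * w + v * P by ring, hpP, hpP]
      simp only [hRP]
    have hq01 : ∀ n w, 0 ≤ q n w ∧ q n w ≤ 1 := by
      intro n w
      simp only [hq]
      split_ifs
      · refine ⟨abs_nonneg _, ?_⟩
        rw [abs_le]
        have h1 := hp01 (v * n + u * w)
        have h2 := hp01 (u * n + v * w)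
        constructor <;> linarith [h1.1, h1.2, h2.1, h2.2]
      · exact ⟨le_rfl, zero_le_one⟩
    have hqB : B2 q := ⟨1, fun n w => by rw [abs_of_nonneg (hq01 n w).1]; exact (hq01 n w).2⟩
    set G : ℤ → ℝ := fun z => if (R : ℤ) ∣ z then |Fr f z - p z| else 0 with hG
    have hG0 : ∀ z, 0 ≤ G z := fun z => by
      simp only [hG]
      split_ifs
      · exact abs_nonneg _
      · exact le_rfl
    have hGb : Bdd G := ((Fr_U01 f).bdd.sub hp01.bdd).abs.ite (fun z => (R : ℤ) ∣ z)
    have hclose : ∀ n w, |e n w - q n w| ≤ G (v * n + u * w) + G (u * n + v * w) := by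
      intro n w
      simp only [he, hq, hG]
      by_cases hd : (R : ℤ) ∣ v * n + u * w
      · rw [if_pos hd, if_pos hd, if_pos hd, if_pos ((hRz n w).mp hd)]
        refine (abs_abs_sub_abs_le_abs_sub _ _).trans ?_
        have e1 : Fr f (v * n + u * w) - Fr f (u * n + v * w) -
            (p (v * n + u * w) - p (u * n + v * w)) = (Fr f (v * n + u * w) - p (v * n + u * w)) -
              (Fr f (u * n + v * w) - p (u * n + v * w)) := by ring
        rw [e1]
        exact abs_sub _ _
      · rw [if_neg hd, if_neg hd, if_neg hd, if_neg (fun h => hd ((hRz n w).mpr h))]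
        simp
    set δ : ℝ := ε / (2 * (u + v)) with hδ
    have hGB1 : B2 fun n w => G (v * n + u * w) := B2.of hGb _
    have hGB2 : B2 fun n w => G (u * n + v * w) := B2.of hGb _
    have hmG : mm S (fun n w => G (v * n + u * w) + G (u * n + v * w)) ≤ ε / 2 := by
      rw [M9m.mm_add hGB1 hGB2]
      have h1 := mm_dil_le (S := S) hGb hG0 hu v
      have h2 := mm_dil_le (S := S) hGb hG0 hv u
      have h3 : (u : ℝ) * S.m G ≤ u * δ := mul_le_mul_of_nonneg_left hpm (Nat.cast_nonneg u)
      have h4 : (v : ℝ) * S.m G ≤ v * δ := mul_le_mul_of_nonneg_left hpm (Nat.cast_nonneg v)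
      have h5 : (u + v : ℝ) * δ = ε / 2 := by rw [hδ]; field_simp
      linarith
    have hcomp : ∀ a b : ℤ → ℝ, U01 a → U01 b →
        |mm S (fun n w => a n * b w * e n w) - mm S (fun n w => a n * b w * q n w)| ≤ ε / 2 := by
      intro a b ha hb
      have hBa : B2 fun n w => a n * b w * e n w := (B2.prod ha.bdd hb.bdd).mul heB
      have hBq : B2 fun n w => a n * b w * q n w := (B2.prod ha.bdd hb.bdd).mul hqB
      have hpt : ∀ n w, |a n * b w * e n w - a n * b w * q n w| ≤
          G (v * n + u * w) + G (u * n + v * w) := by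
        intro n w
        rw [← mul_sub, abs_mul, abs_of_nonneg (mul_nonneg (ha n).1 (hb w).1)]
        calc a n * b w * |e n w - q n w| ≤ 1 * |e n w - q n w| :=
              mul_le_mul_of_nonneg_right (mul_le_one₀ (ha n).2 (hb w).1 (hb w).2) (abs_nonneg _)
          _ ≤ _ := by rw [one_mul]; exact hclose n w
      have hs1 : mm S (fun n w => a n * b w * e n w) ≤ mm S (fun n w => a n * b w * q n w +
          (G (v * n + u * w) + G (u * n + v * w))) :=
        M9m.mm_mono hBa (hBq.add (hGB1.add hGB2)) fun n w => by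
          have := (abs_le.mp (hpt n w)).2
          linarith
      have hs2 : mm S (fun n w => a n * b w * q n w) ≤ mm S (fun n w => a n * b w * e n w +
          (G (v * n + u * w) + G (u * n + v * w))) :=
        M9m.mm_mono hBq (hBa.add (hGB1.add hGB2)) fun n w => by
          have := (abs_le.mp (hpt n w)).1
          linarith
      rw [M9m.mm_add hBq (hGB1.add hGB2)] at hs1
      rw [M9m.mm_add hBa (hGB1.add hGB2)] at hs2
      rw [abs_le]
      constructor <;> linarith
    have hc1 := abs_le.mp (hcomp y y' hy hy')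
    have hc2 := abs_le.mp (hcomp (ind Y) (ind Y') (ind_U01 Y) (ind_U01 Y'))
    have hc3 := mm_per_congr (S := S) (F := ind Y) (G := ind Y') (F' := y) (G' := y') hYy hYy' hYb
      hYb' hy.bdd hy'.bdd hP0 hq1 hq2
    rw [hK0, hc3] at hc2
    linarith [hc1.2, hc2.1]
  -- two points
  have hshift : mm S (fun n w => y (n + v * s) * y' (w - u * s) * e (n + v * s) (w - u * s)) =
      0 := by
    rw [← hE0]
    exact mm_shift ((B2.prod hy.bdd hy'.bdd).mul heB) (v * s) (-(u * s))
  have hB1 : B2 fun n w => y n * y' w * e n w := (B2.prod hy.bdd hy'.bdd).mul heB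
  have hB2 : B2 fun n w => y (n + v * s) * y' (w - u * s) * e (n + v * s) (w - u * s) := by
    obtain ⟨C, hC⟩ := hB1
    exact ⟨C, fun n w => hC (n + v * s) (w - u * s)⟩
  set Z : ℤ → ℤ → ℝ := fun n w => y n * y (n + v * s) * (y' w * y' (w - u * s)) *
    (if (R : ℤ) ∣ v * n + u * w then
      Df f (((v : ℤ) ^ 2 - (u : ℤ) ^ 2) * s) (v * n + u * w) else 0) with hZ
  have hI01 : ∀ n w : ℤ, 0 ≤ (if (R : ℤ) ∣ v * n + u * w then
      Df f (((v : ℤ) ^ 2 - (u : ℤ) ^ 2) * s) (v * n + u * w) else 0) ∧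
      (if (R : ℤ) ∣ v * n + u * w then
      Df f (((v : ℤ) ^ 2 - (u : ℤ) ^ 2) * s) (v * n + u * w) else 0) ≤ 1 := by
    intro n w
    split_ifs
    · exact Df_U01 f _ _
    · exact ⟨le_rfl, zero_le_one⟩
  have hZ01 : ∀ n w, 0 ≤ Z n w ∧ Z n w ≤ 1 := by
    intro n w
    have a1 := hy n
    have a2 := hy (n + v * s)
    have a3 := hy' w
    have a4 := hy' (w - u * s)
    have b1 : 0 ≤ y n * y (n + v * s) := mul_nonneg a1.1 a2.1
    have b2 : y n * y (n + v * s) ≤ 1 := mul_le_one₀ a1.2 a2.1 a2.2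
    have b3 : 0 ≤ y' w * y' (w - u * s) := mul_nonneg a3.1 a4.1
    have b4 : y' w * y' (w - u * s) ≤ 1 := mul_le_one₀ a3.2 a4.1 a4.2
    exact ⟨mul_nonneg (mul_nonneg b1 b3) (hI01 n w).1,
      mul_le_one₀ (mul_le_one₀ b2 b3 b4) (hI01 n w).1 (hI01 n w).2⟩
  have hZB : B2 Z := ⟨1, fun n w => by rw [abs_of_nonneg (hZ01 n w).1]; exact (hZ01 n w).2⟩
  have hle : mm S Z ≤ mm S (fun n w => y n * y' w * e n w +
      y (n + v * s) * y' (w - u * s) * e (n + v * s) (w - u * s)) := by
    refine M9m.mm_mono hZB (hB1.add hB2) fun n w => ?_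
    have a1 := hy n
    have a2 := hy (n + v * s)
    have a3 := hy' w
    have a4 := hy' (w - u * s)
    set I : ℝ := (if (R : ℤ) ∣ v * n + u * w then
      Df f (((v : ℤ) ^ 2 - (u : ℤ) ^ 2) * s) (v * n + u * w) else 0) with hI
    have hIe : I ≤ e n w + e (n + v * s) (w - u * s) := by
      have hz1 : (v : ℤ) * (n + v * s) + u * (w - u * s) =
          v * n + u * w + ((v : ℤ) ^ 2 - (u : ℤ) ^ 2) * s := by ring
      have hz2 : (u : ℤ) * (n + v * s) + v * (w - u * s) = u * n + v * w := by ring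
      simp only [hI, he]
      rw [hz1, hz2]
      by_cases hd : (R : ℤ) ∣ v * n + u * w
      · have hd2 : (R : ℤ) ∣ v * n + u * w + ((v : ℤ) ^ 2 - (u : ℤ) ^ 2) * s := by
          refine dvd_add hd ?_
          rw [show ((v : ℤ) ^ 2 - (u : ℤ) ^ 2) * s = (v - u) * ((v + u) * s) by ring]
          exact Dvd.dvd.mul_right huvR _
        rw [if_pos hd, if_pos hd, if_pos hd2, abs_Fr_sub, abs_Fr_sub]
        unfold Df
        by_cases h1 : f (v * n + u * w).toNat = f (u * n + v * w).toNat
        · rw [if_pos h1, ← h1, zero_add]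
        · rw [if_neg h1]
          split_ifs <;> norm_num
      · rw [if_neg hd]
        have h1 := (he01 n w).1
        have h2 := (he01 (n + v * s) (w - u * s)).1
        simp only [he] at h1 h2
        rw [hz1, hz2] at h2
        exact add_nonneg h1 h2
    have hI0 : 0 ≤ I := (hI01 n w).1
    have e1 := (he01 n w).1
    have e2 := (he01 (n + v * s) (w - u * s)).1
    have c1 : 0 ≤ y n * y' w := mul_nonneg a1.1 a3.1
    have c2 : 0 ≤ y (n + v * s) * y' (w - u * s) := mul_nonneg a2.1 a4.1
    have c3 : y n * y' w ≤ 1 := mul_le_one₀ a1.2 a3.1 a3.2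
    have c4 : y (n + v * s) * y' (w - u * s) ≤ 1 := mul_le_one₀ a2.2 a4.1 a4.2
    have hZe : Z n w = (y n * y' w) * (y (n + v * s) * y' (w - u * s)) * I := by
      simp only [hZ, hI]; ring
    rw [hZe]
    calc (y n * y' w) * (y (n + v * s) * y' (w - u * s)) * I
        ≤ (y n * y' w) * (y (n + v * s) * y' (w - u * s)) *
          (e n w + e (n + v * s) (w - u * s)) :=
          mul_le_mul_of_nonneg_left hIe (mul_nonneg c1 c2)
      _ = (y n * y' w * e n w) * (y (n + v * s) * y' (w - u * s)) +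
          (y (n + v * s) * y' (w - u * s) * e (n + v * s) (w - u * s)) * (y n * y' w) := by ring
      _ ≤ (y n * y' w * e n w) * 1 +
          (y (n + v * s) * y' (w - u * s) * e (n + v * s) (w - u * s)) * 1 :=
          add_le_add (mul_le_mul_of_nonneg_left c4 (mul_nonneg c1 e1))
            (mul_le_mul_of_nonneg_left c3 (mul_nonneg c2 e2))
      _ = _ := by ring
  rw [M9m.mm_add hB1 hB2, hE0, hshift, add_zero] at hle
  exact le_antisymm hle (mm_nonneg hZB fun n w => (hZ01 n w).1)

end Pool.Agent.LC79
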