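import Pool.Agent.Lib.MP_60922f_co.LC.StmtsS3_79

/-!
LC, module PP: the projection of a function with values in `[0,1]` on the limits of periodic
functions.
-/

set_option autoImplicit false

open Filter Topology

namespace Pool.Agent.LC79
open Pool.Agent.FinA Pool.Agent.FinClique
open Pool.Agent.FinA.M9m (B2 mm)

namespace P29

variable {S : MeanSys}

/-- the representative of a class -/
def rp (M : ℕ) (x : ℤ) : ℕ := (x % M).toNat

lemma rp_cast {M : ℕ} (hM : 0 < M) (x : ℤ) : ((rp M x : ℕ) : ℤ) = x % M := by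
  have hM' : (M : ℤ) ≠ 0 := by exact_mod_cast hM.ne'
  exact Int.toNat_of_nonneg (Int.emod_nonneg x hM')

lemma rp_mem {M : ℕ} (hM : 0 < M) (x : ℤ) : rp M x ∈ Finset.range M := by
  have hM' : (0 : ℤ) < M := by exact_mod_cast hM
  rw [Finset.mem_range]
  have := Int.emod_lt_of_pos x hM'
  have h2 := rp_cast hM x
  omega

lemma per_eq {M : ℕ} (hM : 0 < M) {h : ℤ → ℝ} (hp : ∀ x, h (x + M) = h x) (x : ℤ) :
    h x = h (rp M x : ℕ) := by
  have hp' : Function.Periodic h (M : ℤ) := hp
  have h1 := hp'.int_mul (x / M) (x % M)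
  rw [Int.cast_id] at h1
  rw [rp_cast hM, ← h1]
  congr 1
  rw [mul_comm, Int.emod_add_mul_ediv]

lemma mem_cls_rp {M : ℕ} (hM : 0 < M) (x : ℤ) {a : ℕ} (ha : a ∈ Finset.range M) :
    x ∈ cls (a : ℤ) M ↔ a = rp M x := by
  have hM' : (0 : ℤ) < M := by exact_mod_cast hM
  rw [Finset.mem_range] at ha
  constructor
  · intro hd
    have h3 := Int.emod_eq_emod_iff_emod_sub_eq_zero.2 (Int.emod_eq_zero_of_dvd hd)
    have h4 : (a : ℤ) % M = a := Int.emod_eq_of_lt (by omega) (by omega)
    have h5 := rp_cast hM x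
    rw [h3, h4] at h5
    exact_mod_cast h5.symm
  · intro h
    have h5 := rp_cast hM x
    rw [← h] at h5
    simp only [cls, Set.mem_ofPred_eq]
    rw [h5]
    exact Int.dvd_self_sub_emod

/-- decomposition in classes -/
lemma sum_cls {M : ℕ} (hM : 0 < M) (c : ℕ → ℝ) (x : ℤ) :
    ∑ a ∈ Finset.range M, c a * ind (cls (a : ℤ) M) x = c (rp M x) := by
  rw [Finset.sum_eq_single_of_mem _ (rp_mem hM x)]
  · rw [ind_of_mem ((mem_cls_rp hM x (rp_mem hM x)).mpr rfl), mul_one]
  · intro a ha hne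
    rw [ind_of_notMem (fun h => hne ((mem_cls_rp hM x ha).mp h)), mul_zero]

lemma per_sum {M : ℕ} (hM : 0 < M) {h : ℤ → ℝ} (hp : ∀ x, h (x + M) = h x) (x : ℤ) :
    h x = ∑ a ∈ Finset.range M, h (a : ℕ) * ind (cls (a : ℤ) M) x := by
  rw [sum_cls hM (fun a => h (a : ℕ)) x]
  exact per_eq hM hp x

/-- the projection on the functions of period `M` -/
noncomputable def pr (S : MeanSys) (g : ℤ → ℝ) (M : ℕ) (x : ℤ) : ℝ :=
  M * S.m (fun z => g z * ind (cls x M) z)

lemma cls_eq {M : ℕ} {x y : ℤ} (h : (M : ℤ) ∣ x - y) : cls x M = cls y M := by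
  ext n
  simp only [cls, Set.mem_ofPred_eq]
  constructor
  · intro h1
    have := dvd_add h1 h
    rwa [show n - x + (x - y) = n - y by ring] at this
  · intro h1
    have := dvd_sub h1 h
    rwa [show n - y - (x - y) = n - x by ring] at this

lemma pr_per (g : ℤ → ℝ) (M : ℕ) (x : ℤ) : pr S g M (x + M) = pr S g M x := by
  unfold pr
  rw [cls_eq (x := x + M) (y := x) (M := M) ⟨1, by ring⟩]

lemma pr_U01 {g : ℤ → ℝ} (hg : U01 g) {M : ℕ} (hM : 0 < M) : U01 (pr S g M) := by
  intro x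
  have hM' : (0 : ℝ) < M := by exact_mod_cast hM
  have hb : Bdd (fun z => g z * ind (cls x M) z) := hg.bdd.mul (ind_bdd _)
  refine ⟨mul_nonneg hM'.le (S.pf.nonneg hb fun z => mul_nonneg (hg z).1 (ind_nonneg _ _)), ?_⟩
  have h1 : S.m (fun z => g z * ind (cls x M) z) ≤ 1 / M := by
    rw [← S.m_cls x hM]
    refine S.pf.mono hb (ind_bdd _) fun z => ?_
    have := (hg z).2
    have := ind_nonneg (cls x M) z
    nlinarith
  calc (M : ℝ) * S.m (fun z => g z * ind (cls x M) z) ≤ M * (1 / M) :=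
        mul_le_mul_of_nonneg_left h1 hM'.le
    _ = 1 := by field_simp

/-- the projection has the same means against periodic functions -/
lemma pr_orth {g : ℤ → ℝ} (hg : U01 g) {M : ℕ} (hM : 0 < M) {h : ℤ → ℝ}
    (hp : ∀ x, h (x + M) = h x) : S.m (fun z => g z * h z) = S.m (fun z => pr S g M z * h z) := by
  have hM' : (0 : ℝ) < M := by exact_mod_cast hM
  have e1 : S.m (fun z => g z * h z) =
      ∑ a ∈ Finset.range M, h (a : ℕ) * S.m (fun z => g z * ind (cls (a : ℤ) M) z) := by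
    rw [← Finset.sum_congr rfl fun (a : ℕ) _ =>
      S.pf.smul (h (a : ℕ)) (hg.bdd.mul (ind_bdd (cls (a : ℤ) M))),
      ← S.pf.sum _ _ fun (a : ℕ) _ => (hg.bdd.mul (ind_bdd (cls (a : ℤ) M))).smul (h (a : ℕ))]
    refine S.pf.congr fun z => ?_
    rw [per_sum hM hp z, Finset.mul_sum]
    refine Finset.sum_congr rfl fun a _ => ?_
    ring
  have hper : ∀ x, pr S g M (x + M) * h (x + M) = pr S g M x * h x := fun x => by
    rw [pr_per, hp]
  have e2 : S.m (fun z => pr S g M z * h z) =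
      ∑ a ∈ Finset.range M, (pr S g M (a : ℕ) * h (a : ℕ)) * S.m (ind (cls (a : ℤ) M)) := by
    rw [← Finset.sum_congr rfl fun (a : ℕ) _ =>
      S.pf.smul (pr S g M (a : ℕ) * h (a : ℕ)) (ind_bdd (cls (a : ℤ) M)),
      ← S.pf.sum _ _ fun (a : ℕ) _ => (ind_bdd (cls (a : ℤ) M)).smul _]
    refine S.pf.congr fun z => ?_
    exact per_sum hM (h := fun x => pr S g M x * h x) hper z
  rw [e1, e2]
  refine Finset.sum_congr rfl fun a _ => ?_
  rw [S.m_cls _ hM, pr]
  field_simp

lemma per_dvd {M M' : ℕ} (hd : M ∣ M') {h : ℤ → ℝ} (hp : ∀ x, h (x + M) = h x) (x : ℤ) :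
    h (x + M') = h x := by
  obtain ⟨k, rfl⟩ := hd
  have hp' : Function.Periodic h (M : ℤ) := hp
  have h1 := hp'.int_mul (k : ℤ) x
  rw [← h1]
  congr 1
  push_cast
  ring

/-- Pythagoras -/
lemma pr_sub_sq {g : ℤ → ℝ} (hg : U01 g) {M M' : ℕ} (hM : 0 < M) (hM' : 0 < M') (hd : M ∣ M') :
    S.m (fun z => (pr S g M z - pr S g M' z) ^ 2) =
      S.m (fun z => pr S g M' z ^ 2) - S.m (fun z => pr S g M z ^ 2) := by
  have hb := (pr_U01 (S := S) hg hM).bdd
  have hb' := (pr_U01 (S := S) hg hM').bdd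
  have h1 := pr_orth (S := S) hg hM (pr_per (S := S) g M)
  have h2 := pr_orth (S := S) hg hM' (per_dvd hd (pr_per (S := S) g M))
  have h3 : S.m (fun z => (pr S g M z - pr S g M' z) ^ 2) =
      S.m (fun z => (pr S g M z ^ 2 + pr S g M' z ^ 2) - 2 * (pr S g M' z * pr S g M z)) :=
    S.pf.congr fun z => by ring
  rw [h3, S.pf.sub (hb.sq.add hb'.sq) ((hb'.mul hb).smul 2), S.pf.add hb.sq hb'.sq,
    S.pf.smul 2 (hb'.mul hb), ← h2, h1]
  have h4 : S.m (fun z => pr S g M z * pr S g M z) = S.m (fun z => pr S g M z ^ 2) :=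
    S.pf.congr fun z => by ring
  rw [h4]
  ring

end P29

open P29

/-- PP: the projection on the limits of periodic functions. -/
theorem pp (S : MeanSys) (h2 : M2a S) : PP S := by
  intro g hg
  set F : ℕ → ℤ → ℝ := fun r => pr S g r.factorial with hF
  have hF01 : ∀ r, U01 (F r) := fun r => pr_U01 hg (Nat.factorial_pos r)
  set a : ℕ → ℝ := fun r => S.m (fun z => F r z ^ 2) with ha
  have hsub : ∀ r s, r ≤ s → S.m (fun z => (F r z - F s z) ^ 2) = a s - a r := fun r s hrs =>
    pr_sub_sq hg (Nat.factorial_pos r) (Nat.factorial_pos s) (Nat.factorial_dvd_factorial hrs)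
  have hmono : Monotone a := by
    intro r s hrs
    have h1 := hsub r s hrs
    have h3 : 0 ≤ S.m (fun z => (F r z - F s z) ^ 2) :=
      S.pf.sq_nonneg ((hF01 r).bdd.sub (hF01 s).bdd)
    linarith
  have hbd : BddAbove (Set.range a) := by
    refine ⟨1, ?_⟩
    rintro _ ⟨r, rfl⟩
    refine S.pf.le_of_le (hF01 r).bdd.sq fun z => ?_
    have := (hF01 r z).1
    have := (hF01 r z).2
    nlinarith
  have hconv := tendsto_atTop_ciSup hmono hbd
  have hcau : ∀ ε > (0 : ℝ), ∃ R, ∀ r s, R ≤ r → R ≤ s →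
      S.m (fun n => (F r n - F s n) ^ 2) ≤ ε := by
    intro ε hε
    have hc := hconv.cauchySeq
    rw [Metric.cauchySeq_iff] at hc
    obtain ⟨R, hR⟩ := hc ε hε
    refine ⟨R, fun r s hr hs => ?_⟩
    have h1 := hR r hr s hs
    rw [Real.dist_eq] at h1
    rcases le_total r s with h | h
    · rw [hsub r s h]
      have := neg_abs_le (a r - a s)
      linarith
    · have h3 : S.m (fun n => (F r n - F s n) ^ 2) = S.m (fun n => (F s n - F r n) ^ 2) :=
        S.pf.congr fun z => by ring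
      rw [h3, hsub s r h]
      exact (le_abs_self _).trans h1.le
  obtain ⟨y, hy, hyl⟩ := h2 F hF01 hcau
  have hclose : ∀ ε > (0 : ℝ), ∃ R, ∀ r, R ≤ r → S.m (fun z => |y z - F r z|) ≤ ε := by
    intro ε hε
    obtain ⟨R, hR⟩ := hyl (ε ^ 2) (by positivity)
    refine ⟨R, fun r hr => ?_⟩
    have h1 := hR r hr
    have h3 : S.m (fun z => |y z - F r z|) ≤ Real.sqrt (S.m (fun n => (F r n - y n) ^ 2)) := by
      have h4 := S.pf.abs_le_sqrt (hy.bdd.sub (hF01 r).bdd)
      have h5 : S.m (fun n => (F r n - y n) ^ 2) = S.m (fun n => (y n - F r n) ^ 2) :=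
        S.pf.congr fun z => by ring
      rw [h5]
      exact h4
    refine h3.trans ?_
    rw [← Real.sqrt_sq hε.le]
    exact Real.sqrt_le_sqrt h1
  refine ⟨y, hy, ?_, ?_⟩
  · intro ε hε Q hQ
    obtain ⟨R, hR⟩ := hclose ε hε
    refine ⟨(max R Q).factorial, F (max R Q), Nat.factorial_pos _,
      (Nat.dvd_factorial hQ (le_max_right R Q)), hF01 _, pr_per g _, hR _ (le_max_left _ _)⟩
  · intro M h hM hh hp
    obtain ⟨C, hC0, hC⟩ := hh.pos_bound
    have hgy : Bdd (fun z => (g z - y z) * h z) := (hg.bdd.sub hy.bdd).mul hh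
    have hle : ∀ ε > (0 : ℝ), |S.m (fun z => (g z - y z) * h z)| ≤ ε := by
      intro ε hε
      obtain ⟨R, hR⟩ := hclose (ε / C) (by positivity)
      set r := max R M with hr
      have hdvd : M ∣ r.factorial := Nat.dvd_factorial hM (le_max_right R M)
      have h1 := pr_orth (S := S) hg (Nat.factorial_pos r) (per_dvd hdvd hp)
      have h3 : S.m (fun z => (g z - y z) * h z) = S.m (fun z => -((y z - F r z) * h z)) := by
        have e1 : S.m (fun z => (g z - y z) * h z) =
            S.m (fun z => g z * h z) - S.m (fun z => y z * h z) := by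
          rw [← S.pf.sub (hg.bdd.mul hh) (hy.bdd.mul hh)]
          exact S.pf.congr fun z => by ring
        have e2 : S.m (fun z => -((y z - F r z) * h z)) =
            S.m (fun z => F r z * h z) - S.m (fun z => y z * h z) := by
          rw [← S.pf.sub ((hF01 r).bdd.mul hh) (hy.bdd.mul hh)]
          exact S.pf.congr fun z => by ring
        rw [e1, e2, h1]
      have hb : Bdd (fun z => (y z - F r z) * h z) := (hy.bdd.sub (hF01 r).bdd).mul hh
      rw [h3]
      calc |S.m (fun z => -((y z - F r z) * h z))| ≤ S.m (fun z => |-((y z - F r z) * h z)|) :=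
            S.pf.abs_le_abs hb.neg
        _ ≤ S.m (fun z => C * |y z - F r z|) := by
            refine S.pf.mono hb.neg.abs ((hy.bdd.sub (hF01 r).bdd).abs.smul C) fun z => ?_
            rw [abs_neg, abs_mul, mul_comm]
            exact mul_le_mul_of_nonneg_right (hC z) (abs_nonneg _)
        _ = C * S.m (fun z => |y z - F r z|) := S.pf.smul C (hy.bdd.sub (hF01 r).bdd).abs
        _ ≤ C * (ε / C) := mul_le_mul_of_nonneg_left (hR r (le_max_left _ _)) hC0.le
        _ = ε := by field_simp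
    have h0 : |S.m (fun z => (g z - y z) * h z)| ≤ 0 :=
      le_of_forall_pos_le_add fun ε hε => by rw [zero_add]; exact hle ε hε
    exact abs_nonpos_iff.mp h0

end Pool.Agent.LC79
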