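import Pool.Agent.Lib.MP_60922f_co.LC.StmtsS3_79

/-!
LC, module PQ: the density point argument.
-/

set_option autoImplicit false

open Filter Topology

namespace Pool.Agent.LC79
open Pool.Agent.FinA Pool.Agent.FinClique
open Pool.Agent.FinA.M9m (B2 mm)

namespace PQ99

variable {S : MeanSys}

/-! ### periodic functions and classes -/

lemma per_mul {φ : ℤ → ℝ} {M : ℤ} (h : ∀ x, φ (x + M) = φ x) (k x : ℤ) : φ (x + M * k) = φ x := by
  induction k using Int.induction_on with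
  | zero => simp
  | succ i ih =>
    rw [show x + M * ((i : ℤ) + 1) = x + M * i + M by ring, h, ih]
  | pred i ih =>
    rw [← h, show x + M * (-(i : ℤ) - 1) + M = x + M * (-i) by ring, ih]

lemma per_eq {φ : ℤ → ℝ} {M : ℤ} (h : ∀ x, φ (x + M) = φ x) {x y : ℤ} (hd : M ∣ x - y) :
    φ x = φ y := by
  obtain ⟨k, hk⟩ := hd
  rw [show x = y + M * k by linarith]
  exact per_mul h k y

lemma ind_cls_congr {M : ℕ} {a b x y : ℤ} (h : (M : ℤ) ∣ (x - a) - (y - b)) :
    ind (cls a M) x = ind (cls b M) y := by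
  by_cases h1 : (M : ℤ) ∣ x - a
  · have h2 : (M : ℤ) ∣ y - b := by
      have := dvd_sub h1 h
      simpa using this
    rw [ind_of_mem (show x ∈ cls a M from h1), ind_of_mem (show y ∈ cls b M from h2)]
  · have h2 : ¬ (M : ℤ) ∣ y - b := fun h3 => h1 (by
      have := dvd_add h h3
      simpa using this)
    rw [ind_of_notMem (show x ∉ cls a M from h1), ind_of_notMem (show y ∉ cls b M from h2)]

/-- mean over a class -/
lemma m_cls_mul {G : ℤ → ℝ} (hG : Bdd G) (c : ℤ) {M : ℕ} (hM : 0 < M) :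
    S.m (fun n => ind (cls c M) n * G n) = S.m (fun k => G (c + M * k)) / M := by
  have h1 := S.m_shift c ((ind_bdd (cls c M)).mul hG)
  have e : (fun n => ind (cls c M) (n + c) * G (n + c)) =
      fun n => ind (cls 0 M) n * G (n + c) := by
    funext n
    rw [ind_cls_congr (a := c) (b := 0) (x := n + c) (y := n) (by simp)]
  rw [← h1, e, S.m_dil_ind hM (hG.shift c)]
  congr 1
  refine S.pf.congr fun k => ?_
  rw [add_comm]

lemma m_prog {G : ℤ → ℝ} (hG : Bdd G) (c : ℤ) {M : ℕ} (hM : 0 < M) :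
    S.m (fun k => G (c + M * k)) = M * S.m (fun n => ind (cls c M) n * G n) := by
  have hM' : (M : ℝ) ≠ 0 := by positivity
  rw [m_cls_mul hG c hM]; field_simp

lemma dil_le {G : ℤ → ℝ} (hG : Bdd G) (h0 : ∀ n, 0 ≤ G n) (c : ℤ) {u : ℕ} (hu : 0 < u) :
    S.m (fun k => G (c + u * k)) ≤ u * S.m G := by
  rw [m_prog hG c hu]
  refine mul_le_mul_of_nonneg_left ?_ (Nat.cast_nonneg u)
  exact S.pf.mono ((ind_bdd _).mul hG) hG fun n => mul_le_of_le_one_left (h0 n) (ind_le_one _ _)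

lemma sum_cls {M : ℕ} (hM : 0 < M) {φ : ℤ → ℝ} (hφ : ∀ x, φ (x + M) = φ x) (n : ℤ) :
    ∑ r ∈ Finset.range M, ind (cls (r : ℤ) M) n * φ r = φ n := by
  have hM' : (0 : ℤ) < M := by exact_mod_cast hM
  have h1 := Int.emod_nonneg n hM'.ne'
  have h2 := Int.emod_lt_of_pos n hM'
  have hmem : (n % M).toNat ∈ Finset.range M := by
    rw [Finset.mem_range]; omega
  have h3 : (((n % M).toNat : ℕ) : ℤ) = n % M := Int.toNat_of_nonneg h1
  have h4 : (M : ℤ) ∣ n - n % M := Int.dvd_self_sub_emod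
  rw [Finset.sum_eq_single_of_mem _ hmem]
  · rw [h3, ind_of_mem (show n ∈ cls (n % M) M from h4), one_mul]
    exact (per_eq hφ h4).symm
  · intro j hj hne
    rw [Finset.mem_range] at hj
    rw [ind_of_notMem, zero_mul]
    intro hd
    apply hne
    have h5 : (M : ℤ) ∣ n - j := hd
    have h6 : n % M = j := by
      have h7 := Int.emod_emod_of_dvd n (dvd_refl (M : ℤ))
      have h8 := Int.emod_eq_emod_iff_emod_sub_eq_zero.2 (Int.emod_eq_zero_of_dvd h5)
      rw [h8]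
      exact Int.emod_eq_of_lt (by omega) (by omega)
    omega

/-- the mean of a periodic function -/
lemma avg_per {M : ℕ} (hM : 0 < M) {φ : ℤ → ℝ} (hφ : ∀ x, φ (x + M) = φ x) :
    S.m φ = (∑ r ∈ Finset.range M, φ r) / M := by
  have e : φ = fun n => ∑ r ∈ Finset.range M, ind (cls (r : ℤ) M) n * φ r :=
    funext fun n => (sum_cls hM hφ n).symm
  calc S.m φ = S.m (fun n => ∑ r ∈ Finset.range M, ind (cls (r : ℤ) M) n * φ r) :=
        congrArg S.m e
    _ = ∑ r ∈ Finset.range M, S.m (fun n => ind (cls (r : ℤ) M) n * φ r) :=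
        S.pf.sum _ _ fun r _ => (ind_bdd _).mul_const _
    _ = _ := by
        rw [Finset.sum_div]
        refine Finset.sum_congr rfl fun r _ => ?_
        rw [S.pf.mul_const (ind_bdd _), S.m_cls _ hM]
        ring

lemma sum_cls_mul {u v : ℕ} (hu : 0 < u) (huv : Nat.Coprime v u) (x : ℤ) :
    ∑ r ∈ Finset.range u, ind (cls ((v : ℤ) * r) u) x = 1 := by
  obtain ⟨a, b, hab⟩ := Nat.isCoprime_iff_coprime.2 huv
  have h1 : ∀ r : ℕ, ind (cls ((v : ℤ) * r) u) x = ind (cls (r : ℤ) u) (a * x) * 1 := by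
    intro r
    rw [mul_one]
    by_cases h : (u : ℤ) ∣ x - v * r
    · have h2 : (u : ℤ) ∣ a * x - r := by
        have e : a * x - r = a * (x - v * r) - u * (b * r) := by
          linear_combination (r : ℤ) * hab
        rw [e]
        exact dvd_sub (Dvd.dvd.mul_left h a) (dvd_mul_right _ _)
      rw [ind_of_mem (show x ∈ cls ((v : ℤ) * r) u from h),
        ind_of_mem (show a * x ∈ cls (r : ℤ) u from h2)]
    · have h2 : ¬ (u : ℤ) ∣ a * x - r := by
        intro h3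
        apply h
        have e : x - v * r = v * (a * x - r) + u * (b * x) := by
          linear_combination (-x) * hab
        rw [e]
        exact dvd_add (Dvd.dvd.mul_left h3 _) (dvd_mul_right _ _)
      rw [ind_of_notMem (show x ∉ cls ((v : ℤ) * r) u from h),
        ind_of_notMem (show a * x ∉ cls (r : ℤ) u from h2)]
  rw [Finset.sum_congr rfl fun r _ => h1 r]
  exact sum_cls (φ := fun _ => 1) hu (fun _ => rfl) (a * x)

/-- equidistribution of `v n + u w` -/
lemma unif {G : ℤ → ℝ} (hG : Bdd G) {u v : ℕ} (hu : 0 < u) (huv : Nat.Coprime v u) :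
    S.m (fun n => S.m (fun w => G (v * n + u * w))) = S.m G := by
  have hu' : (u : ℝ) ≠ 0 := by positivity
  have e1 : ∀ n : ℤ, S.m (fun w => G (v * n + u * w)) =
      u * S.m (fun x => ind (cls (v * n) u) x * G x) := fun n => m_prog hG (v * n) hu
  have hper : ∀ n : ℤ, S.m (fun w => G (v * (n + u) + u * w)) = S.m (fun w => G (v * n + u * w)) := by
    intro n
    rw [e1, e1]
    congr 1
    refine S.pf.congr fun x => ?_
    rw [ind_cls_congr (M := u) (a := v * (n + u)) (b := v * n) (x := x) (y := x) ?_]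
    exact ⟨-v, by ring⟩
  rw [avg_per hu hper, Finset.sum_congr rfl fun (r : ℕ) _ => e1 (r : ℤ), ← Finset.mul_sum,
    mul_div_assoc, mul_div_cancel₀ _ hu',
    ← S.pf.sum (Finset.range u) (fun r x => ind (cls ((v : ℤ) * r) u) x * G x)
      fun r _ => (ind_bdd _).mul hG]
  refine S.pf.congr fun x => ?_
  rw [← Finset.sum_mul, sum_cls_mul hu huv, one_mul]

/-- exchange of the means for periodic functions -/
lemma exch_per {D B : ℤ → ℝ} (hD : Bdd D) {M : ℕ} (hM : 0 < M) (hp : ∀ x, D (x + M) = D x)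
    (hB : Bdd B) (u v : ℕ) : S.m (fun n => S.m (fun w => B w * D (v * n + u * w))) =
      S.m (fun w => B w * S.m (fun n => D (v * n + u * w))) := by
  have e1 : S.m (fun n => S.m (fun w => B w * D (v * n + u * w))) =
      (∑ r ∈ Finset.range M, S.m (fun w => B w * D (v * r + u * w))) / M := by
    refine avg_per (φ := fun n => S.m (fun w => B w * D (v * n + u * w))) hM fun n => ?_
    refine S.pf.congr fun w => ?_
    rw [per_eq hp (x := v * (n + M) + u * w) (y := v * n + u * w) ⟨v, by ring⟩]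
  have e2 : ∀ w : ℤ, S.m (fun n => D (v * n + u * w)) =
      (∑ r ∈ Finset.range M, D (v * r + u * w)) / M := fun w =>
    avg_per (φ := fun n => D (v * n + u * w)) hM fun n => by
      rw [per_eq hp (x := v * (n + M) + u * w) (y := v * n + u * w) ⟨v, by ring⟩]
  rw [e1, ← S.pf.sum (Finset.range M) (fun r w => B w * D (v * r + u * w))
      fun r _ => hB.mul (hD.comp _), ← S.pf.div_const (Bdd.sum _ _ fun r _ => hB.mul (hD.comp _))]
  refine S.pf.congr fun w => ?_
  rw [e2 w, ← Finset.mul_sum]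
  ring

/-- limits of periodic functions -/
def Lim (S : MeanSys) (Δ : ℤ → ℝ) : Prop := ∀ ι > (0 : ℝ), ∃ (M : ℕ) (D : ℤ → ℝ), 0 < M ∧ U01 D ∧
  (∀ x, D (x + M) = D x) ∧ S.m (fun z => |Δ z - D z|) ≤ ι

/-- exchange inequality for limits of periodic functions -/
lemma exch {Δ B : ℤ → ℝ} (hΔ : Lim S Δ) (hΔ01 : U01 Δ) (hB : U01 B) {u v : ℕ} (hu : 0 < u)
    (hv : 0 < v) :
    S.m (fun n => S.m (fun w => B w * Δ (v * n + u * w))) ≤ v * (S.m B * S.m Δ) := by
  refine le_of_forall_pos_le_add fun ι hι => ?_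
  have huv : (0 : ℝ) < u + v := by positivity
  obtain ⟨M, D, hM, hD01, hp, hDΔ⟩ := hΔ (ι / (u + v)) (by positivity)
  have bB := hB.bdd
  have bD := hD01.bdd
  have bΔ := hΔ01.bdd
  have bE : Bdd (fun z => |Δ z - D z|) := (bΔ.sub bD).abs
  have r1 : ∀ n : ℤ, Bdd (fun w => B w * Δ (v * n + u * w)) := fun n => bB.mul (bΔ.comp _)
  have r2 : ∀ n : ℤ, Bdd (fun w => B w * D (v * n + u * w)) := fun n => bB.mul (bD.comp _)
  have r3 : ∀ n : ℤ, Bdd (fun w => |Δ (v * n + u * w) - D (v * n + u * w)|) := fun n =>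
    bE.comp (fun w => v * n + u * w)
  have hin : ∀ n : ℤ, S.m (fun w => B w * Δ (v * n + u * w)) ≤
      S.m (fun w => B w * D (v * n + u * w)) + u * S.m (fun z => |Δ z - D z|) := by
    intro n
    have h1 : S.m (fun w => |Δ (v * n + u * w) - D (v * n + u * w)|) ≤
        u * S.m (fun z => |Δ z - D z|) :=
      dil_le (G := fun z => |Δ z - D z|) bE (fun _ => abs_nonneg _) (v * n) hu
    refine le_trans ?_ (add_le_add_right h1 _)
    rw [← S.pf.add (r2 n) (r3 n)]
    refine S.pf.mono (r1 n) ((r2 n).add (r3 n)) fun w => ?_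
    have h2 := hB w
    have h3 := le_abs_self (Δ (v * n + u * w) - D (v * n + u * w))
    have h4 := abs_nonneg (Δ (v * n + u * w) - D (v * n + u * w))
    nlinarith [h2.1, h2.2]
  have b1 : Bdd (fun n => S.m (fun w => B w * Δ (v * n + u * w))) := ⟨1, fun n =>
    S.pf.abs_le fun w => (hB.mul (hΔ01.comp fun w => v * n + u * w)).abs_le_one w⟩
  have b2 : Bdd (fun n => S.m (fun w => B w * D (v * n + u * w))) := ⟨1, fun n =>
    S.pf.abs_le fun w => (hB.mul (hD01.comp fun w => v * n + u * w)).abs_le_one w⟩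
  have h5 : S.m (fun n => S.m (fun w => B w * Δ (v * n + u * w))) ≤
      S.m (fun n => S.m (fun w => B w * D (v * n + u * w))) + u * S.m (fun z => |Δ z - D z|) := by
    refine (S.pf.mono b1 (b2.add (Bdd.const _)) hin).trans (le_of_eq ?_)
    rw [S.pf.add b2 (Bdd.const _), S.pf.const]
  rw [exch_per bD hM hp bB u v] at h5
  have hmD0 : 0 ≤ S.m D := S.pf.nonneg bD fun n => (hD01 n).1
  have hmB0 : 0 ≤ S.m B := S.pf.nonneg bB fun n => (hB n).1
  have hmB1 : S.m B ≤ 1 := S.pf.le_of_le bB fun n => (hB n).2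
  have h6 : S.m (fun w => B w * S.m (fun n => D (v * n + u * w))) ≤ v * (S.m B * S.m D) := by
    have h7 : ∀ w : ℤ, S.m (fun n => D (v * n + u * w)) ≤ v * S.m D := by
      intro w
      have := dil_le (S := S) bD (fun n => (hD01 n).1) (u * w) hv
      refine le_trans (le_of_eq ?_) this
      refine S.pf.congr fun n => ?_
      rw [add_comm]
    have b3 : Bdd (fun w => B w * S.m (fun n => D (v * n + u * w))) := bB.mul
      ⟨1, fun w => S.pf.abs_le fun n => (hD01.comp fun n => v * n + u * w).abs_le_one n⟩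
    refine (S.pf.mono b3 (bB.mul_const (v * S.m D)) fun w =>
      mul_le_mul_of_nonneg_left (h7 w) (hB w).1).trans (le_of_eq ?_)
    rw [S.pf.mul_const bB]
    ring
  have h8 : S.m D ≤ S.m Δ + S.m (fun z => |Δ z - D z|) := by
    rw [← S.pf.add bΔ bE]
    refine S.pf.mono bD (bΔ.add bE) fun z => ?_
    have := neg_abs_le (Δ z - D z)
    linarith
  have hδ0 : 0 ≤ S.m (fun z => |Δ z - D z|) := S.pf.nonneg bE fun _ => abs_nonneg _
  have hv0 : (0 : ℝ) ≤ v := Nat.cast_nonneg v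
  have h9 : v * (S.m B * S.m D) ≤ v * (S.m B * S.m Δ) + v * S.m (fun z => |Δ z - D z|) := by
    rw [← mul_add]
    refine mul_le_mul_of_nonneg_left ?_ hv0
    calc S.m B * S.m D ≤ S.m B * (S.m Δ + S.m (fun z => |Δ z - D z|)) :=
          mul_le_mul_of_nonneg_left h8 hmB0
      _ = S.m B * S.m Δ + S.m B * S.m (fun z => |Δ z - D z|) := by ring
      _ ≤ S.m B * S.m Δ + S.m (fun z => |Δ z - D z|) := by
          have := mul_le_of_le_one_left hδ0 hmB1
          linarith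
  have h10 : ((u : ℝ) + v) * S.m (fun z => |Δ z - D z|) ≤ ι := by
    calc ((u : ℝ) + v) * S.m (fun z => |Δ z - D z|) ≤ (u + v) * (ι / (u + v)) :=
          mul_le_mul_of_nonneg_left hDΔ huv.le
      _ = ι := by field_simp
  linarith

/-! ### the colouring -/

lemma Fr_U01 (f : ℕ → Bool) : U01 (Fr f) := fun z => by
  unfold Fr; split_ifs <;> norm_num

lemma Df_eq_abs (f : ℕ → Bool) (t z : ℤ) : Df f t z = |Fr f (z + t) - Fr f z| := by
  unfold Df Fr
  cases f (z + t).toNat <;> cases f z.toNat <;> simp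

lemma abs4 {a b c d a' b' c' d' : ℝ} (ha : 0 ≤ a ∧ a ≤ 1) (hb : 0 ≤ b ∧ b ≤ 1)
    (hc : 0 ≤ c ∧ c ≤ 1) (hd : 0 ≤ d ∧ d ≤ 1) (ha' : 0 ≤ a' ∧ a' ≤ 1) (hb' : 0 ≤ b' ∧ b' ≤ 1)
    (hc' : 0 ≤ c' ∧ c' ≤ 1) (hd' : 0 ≤ d' ∧ d' ≤ 1) :
    a' * b' * (c' * d') ≤ a * b * (c * d) + (|a - a'| + |b - b'|) + (|c - c'| + |d - d'|) := by
  have key : ∀ x y x' y' : ℝ, (0 ≤ x ∧ x ≤ 1) → (0 ≤ y ∧ y ≤ 1) → (0 ≤ x' ∧ x' ≤ 1) →
      (0 ≤ y' ∧ y' ≤ 1) → |x * y - x' * y'| ≤ |x - x'| + |y - y'| := by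
    intro x y x' y' hx hy hx' hy'
    have e : x * y - x' * y' = (x - x') * y + x' * (y - y') := by ring
    rw [e]
    refine (abs_add_le _ _).trans ?_
    rw [abs_mul, abs_mul, abs_of_nonneg hy.1, abs_of_nonneg hx'.1]
    have h1 := mul_le_of_le_one_right (abs_nonneg (x - x')) hy.2
    have h2 := mul_le_of_le_one_left (abs_nonneg (y - y')) hx'.2
    linarith
  have hab : 0 ≤ a * b ∧ a * b ≤ 1 := ⟨mul_nonneg ha.1 hb.1, mul_le_one₀ ha.2 hb.1 hb.2⟩
  have hcd : 0 ≤ c * d ∧ c * d ≤ 1 := ⟨mul_nonneg hc.1 hd.1, mul_le_one₀ hc.2 hd.1 hd.2⟩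
  have hab' : 0 ≤ a' * b' ∧ a' * b' ≤ 1 := ⟨mul_nonneg ha'.1 hb'.1, mul_le_one₀ ha'.2 hb'.1 hb'.2⟩
  have hcd' : 0 ≤ c' * d' ∧ c' * d' ≤ 1 := ⟨mul_nonneg hc'.1 hd'.1, mul_le_one₀ hc'.2 hd'.1 hd'.2⟩
  have h1 := key _ _ _ _ hab hcd hab' hcd'
  have h2 := key _ _ _ _ ha hb ha' hb'
  have h3 := key _ _ _ _ hc hd hc' hd'
  have h4 := neg_abs_le (a * b * (c * d) - a' * b' * (c' * d'))
  linarith

/-- the local difference is a limit of periodic functions -/
lemma lim_delta {f : ℕ → Bool} {R M : ℕ} (hRM : R ∣ M) (hM : 0 < M) {z0 : ℤ} (hz0 : (R : ℤ) ∣ z0)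
    {t : ℤ} (ht : (R : ℤ) ∣ t) (hP : Perap S f R) :
    Lim S (fun z => ind (cls z0 M) z * Df f t z) := by
  intro ι hι
  obtain ⟨M', p, hM', hp01, hpp, hpE⟩ := hP (ι / 2) (by positivity)
  have hRM' : (R : ℤ) ∣ M := by exact_mod_cast hRM
  set E : ℤ → ℝ := fun z => if (R : ℤ) ∣ z then |Fr f z - p z| else 0 with hE
  have hE0 : ∀ z, 0 ≤ E z := fun z => by
    simp only [hE]; split_ifs
    · exact abs_nonneg _
    · exact le_rfl
  have bE : Bdd E := ((Fr_U01 f).bdd.sub hp01.bdd).abs.ite _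
  refine ⟨M * M', fun z => ind (cls z0 M) z * |p (z + t) - p z|, by positivity, ?_, ?_, ?_⟩
  · refine (ind_U01 _).mul fun z => ⟨abs_nonneg _, ?_⟩
    have h1 := hp01 (z + t)
    have h2 := hp01 z
    exact abs_le.2 ⟨by linarith [h1.1, h2.2], by linarith [h1.2, h2.1]⟩
  · intro x
    simp only
    rw [ind_cls_congr (M := M) (a := z0) (b := z0) (x := x + ((M * M' : ℕ) : ℤ)) (y := x)
        ⟨M', by push_cast; ring⟩,
      per_eq hpp (x := x + ((M * M' : ℕ) : ℤ) + t) (y := x + t) ⟨M, by push_cast; ring⟩,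
      per_eq hpp (x := x + ((M * M' : ℕ) : ℤ)) (y := x) ⟨M, by push_cast; ring⟩]
  · have hpt : ∀ z, |ind (cls z0 M) z * Df f t z - ind (cls z0 M) z * (|p (z + t) - p z|)| ≤
        E (z + t) + E z := by
      intro z
      by_cases h : z ∈ cls z0 M
      · have h1 : (R : ℤ) ∣ z := by
          have h2 : (M : ℤ) ∣ z - z0 := h
          have := dvd_add (hRM'.trans h2) hz0
          simpa using this
        have h3 : (R : ℤ) ∣ z + t := dvd_add h1 ht
        rw [ind_of_mem h, one_mul, one_mul]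
        simp only [hE]
        rw [if_pos h1, if_pos h3, Df_eq_abs]
        refine (abs_abs_sub_abs_le_abs_sub _ _).trans ?_
        have e : Fr f (z + t) - Fr f z - (p (z + t) - p z) =
            (Fr f (z + t) - p (z + t)) - (Fr f z - p z) := by ring
        rw [e]
        exact abs_sub _ _
      · rw [ind_of_notMem h]
        simp only [zero_mul, sub_zero, abs_zero]
        exact add_nonneg (hE0 _) (hE0 _)
    have bL : Bdd (fun z => |ind (cls z0 M) z * Df f t z -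
        ind (cls z0 M) z * (|p (z + t) - p z|)|) :=
      (((ind_bdd _).mul (Df_bdd f t)).sub
        ((ind_bdd _).mul ((hp01.bdd.shift t).sub hp01.bdd).abs)).abs
    refine (S.pf.mono bL ((bE.shift t).add bE) hpt).trans ?_
    rw [S.pf.add (bE.shift t) bE, S.m_shift t bE]
    linarith

/-- double mean over a pair of classes -/
lemma mm_class {Δ : ℤ → ℝ} (hΔ : Bdd Δ) {u v M : ℕ} (hu : 0 < u) (hcop : Nat.Coprime v u)
    (hM : 0 < M) (n0 w0 : ℤ) (hsupp : ∀ z, ind (cls (v * n0 + u * w0) M) z * Δ z = Δ z) :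
    S.m (fun n => S.m (fun w => ind (cls n0 M) n * ind (cls w0 M) w * Δ (v * n + u * w))) =
      S.m Δ / M := by
  have hM' : (M : ℝ) ≠ 0 := by positivity
  set H : ℤ → ℝ := fun n => S.m (fun k => Δ (v * n + u * (w0 + M * k))) / M with hH
  have h1 : ∀ n : ℤ, S.m (fun w => ind (cls n0 M) n * ind (cls w0 M) w * Δ (v * n + u * w)) =
      ind (cls n0 M) n * H n := by
    intro n
    have b1 : Bdd (fun w => Δ (v * n + u * w)) := hΔ.comp _
    have h2 := m_cls_mul (S := S) b1 w0 hM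
    simp only [hH]
    rw [← h2, ← S.pf.smul _ ((ind_bdd _).mul b1)]
    refine S.pf.congr fun w => ?_
    ring
  have bH : Bdd H := by
    obtain ⟨C, hC⟩ := hΔ
    exact Bdd.div_const ⟨C, fun n => S.pf.abs_le fun k => hC _⟩ _
  rw [S.pf.congr h1, m_cls_mul bH n0 hM]
  have h3 : ∀ j : ℤ, H (n0 + M * j) =
      S.m (fun k => (fun x => Δ (v * n0 + u * w0 + M * x)) (v * j + u * k)) / M := by
    intro j
    simp only [hH]
    congr 1
    refine S.pf.congr fun k => ?_
    congr 1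
    ring
  have bG : Bdd (fun x => Δ (v * n0 + u * w0 + M * x)) := hΔ.comp _
  have bI : Bdd (fun j => S.m (fun k => (fun x => Δ (v * n0 + u * w0 + M * x)) (v * j + u * k))) := by
    obtain ⟨C, hC⟩ := hΔ
    exact ⟨C, fun n => S.pf.abs_le fun k => hC _⟩
  rw [S.pf.congr h3, S.pf.div_const bI, unif bG hu hcop, m_prog hΔ _ hM,
    S.pf.congr hsupp]
  field_simp

/-- the local difference vanishes -/
lemma gam_zero {f : ℕ → Bool} {R M u v : ℕ} (hu : 0 < u) (hv : 0 < v) (hcop : Nat.Coprime v u)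
    (hM : 0 < M) (hRM : R ∣ M) (hP : Perap S f R) {y y' : ℤ → ℝ} (hy : U01 y) (hy' : U01 y')
    {n0 w0 : ℤ} {π π' lam : ℝ} (hz0 : (R : ℤ) ∣ v * n0 + u * w0) (s : ℤ) (hs : (M : ℤ) ∣ s)
    (hPK : S.m (fun n => S.m (fun w => y n * y (n + v * s) * (y' w * y' (w - u * s)) *
      (if (R : ℤ) ∣ v * n + u * w then
        Df f (((v : ℤ) ^ 2 - (u : ℤ) ^ 2) * s) (v * n + u * w) else 0))) = 0)
    (hπ : 0 ≤ π ∧ π ≤ 1) (hπ' : 0 ≤ π' ∧ π' ≤ 1)
    (h1 : M * S.m (fun n => ind (cls n0 M) n * |y n - π|) ≤ lam)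
    (h2 : M * S.m (fun n => ind (cls w0 M) n * |y' n - π'|) ≤ lam)
    (hlam : 2 * lam * (u + v) < (π * π') ^ 2) :
    S.m (fun z => ind (cls (v * n0 + u * w0) M) z *
      Df f (((v : ℤ) ^ 2 - (u : ℤ) ^ 2) * s) z) = 0 := by
  have hRM' : (R : ℤ) ∣ M := by exact_mod_cast hRM
  have hM0 : (0 : ℝ) < M := by exact_mod_cast hM
  set z0 : ℤ := v * n0 + u * w0 with hz0d
  set t : ℤ := ((v : ℤ) ^ 2 - (u : ℤ) ^ 2) * s with ht
  have hRt : (R : ℤ) ∣ t := Dvd.dvd.mul_left (hRM'.trans hs) _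
  set Δ : ℤ → ℝ := fun z => ind (cls z0 M) z * Df f t z with hΔ
  have hΔ01 : U01 Δ := (ind_U01 _).mul (Df_U01 f t)
  have bΔ := hΔ01.bdd
  have hLim : Lim S Δ := lim_delta hRM hM hz0 hRt hP
  have hsupp : ∀ z, ind (cls z0 M) z * Δ z = Δ z := fun z => by
    simp only [hΔ]
    rw [← mul_assoc, ← _root_.sq, ind_sq]
  set g : ℝ := S.m Δ with hg
  have hg0 : 0 ≤ g := S.pf.nonneg bΔ fun z => (hΔ01 z).1
  set I : ℤ → ℝ := ind (cls n0 M) with hI
  set I' : ℤ → ℝ := ind (cls w0 M) with hI'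
  have hI01 : U01 I := ind_U01 _
  have hI01' : U01 I' := ind_U01 _
  have hd : ∀ {y : ℤ → ℝ} {π : ℝ}, U01 y → (0 ≤ π ∧ π ≤ 1) → ∀ n, 0 ≤ |y n - π| ∧ |y n - π| ≤ 1 := by
    intro y π hy hπ n
    have k1 := hy n
    exact ⟨abs_nonneg _, abs_le.2 ⟨by linarith [k1.1, hπ.2], by linarith [k1.2, hπ.1]⟩⟩
  set A1 : ℤ → ℝ := fun n => I n * |y n - π| with hA1
  set A2 : ℤ → ℝ := fun n => I n * |y (n + v * s) - π| with hA2
  set B1 : ℤ → ℝ := fun w => I' w * |y' w - π'| with hB1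
  set B2' : ℤ → ℝ := fun w => I' w * |y' (w - u * s) - π'| with hB2
  have uA1 : U01 A1 := hI01.mul (hd hy hπ)
  have uA2 : U01 A2 := hI01.mul fun n => hd hy hπ (n + v * s)
  have uB1 : U01 B1 := hI01'.mul (hd hy' hπ')
  have uB2 : U01 B2' := hI01'.mul fun w => hd hy' hπ' (w - u * s)
  -- shifts
  have mA2 : S.m A2 = S.m A1 := by
    rw [← S.m_shift (v * s) uA1.bdd]
    refine S.pf.congr fun n => ?_
    simp only [hA1, hA2, hI]
    rw [ind_cls_congr (M := M) (a := n0) (b := n0) (x := n + v * s) (y := n)]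
    have : (n + v * s - n0) - (n - n0) = v * s := by ring
    rw [this]
    exact Dvd.dvd.mul_left hs _
  have mB2 : S.m B2' = S.m B1 := by
    rw [← S.m_shift_sub (u * s) uB1.bdd]
    refine S.pf.congr fun w => ?_
    simp only [hB1, hB2, hI']
    rw [ind_cls_congr (M := M) (a := w0) (b := w0) (x := w - u * s) (y := w)]
    have : (w - u * s - w0) - (w - w0) = -(u * s) := by ring
    rw [this]
    exact (dvd_neg).2 (Dvd.dvd.mul_left hs _)
  -- the four double means
  set PKt : ℤ → ℤ → ℝ := fun n w => y n * y (n + v * s) * (y' w * y' (w - u * s)) *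
      (if (R : ℤ) ∣ v * n + u * w then Df f t (v * n + u * w) else 0) with hPKt
  have hPK01 : ∀ n w, 0 ≤ PKt n w ∧ PKt n w ≤ 1 := by
    intro n w
    have k1 := mul_nonneg (hy n).1 (hy (n + v * s)).1
    have k2 := mul_le_one₀ (hy n).2 (hy (n + v * s)).1 (hy (n + v * s)).2
    have k3 := mul_nonneg (hy' w).1 (hy' (w - u * s)).1
    have k4 := mul_le_one₀ (hy' w).2 (hy' (w - u * s)).1 (hy' (w - u * s)).2
    have k5 : 0 ≤ (if (R : ℤ) ∣ v * n + u * w then Df f t (v * n + u * w) else 0) ∧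
        (if (R : ℤ) ∣ v * n + u * w then Df f t (v * n + u * w) else 0) ≤ 1 := by
      split_ifs
      · exact Df_U01 f t _
      · norm_num
    exact ⟨mul_nonneg (mul_nonneg k1 k3) k5.1, mul_le_one₀ (mul_le_one₀ k2 k3 k4) k5.1 k5.2⟩
  have b2of : ∀ {F : ℤ → ℤ → ℝ}, (∀ n w, 0 ≤ F n w ∧ F n w ≤ 1) → B2 F := fun h =>
    ⟨1, fun n w => by rw [abs_of_nonneg (h n w).1]; exact (h n w).2⟩
  have bP : B2 PKt := b2of hPK01
  have bL : B2 (fun n w => I n * I' w * Δ (v * n + u * w)) := b2of fun n w =>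
    ⟨mul_nonneg (mul_nonneg (hI01 n).1 (hI01' w).1) (hΔ01 _).1,
      mul_le_one₀ (mul_le_one₀ (hI01 n).2 (hI01' w).1 (hI01' w).2) (hΔ01 _).1 (hΔ01 _).2⟩
  have bA : ∀ {A : ℤ → ℝ}, U01 A → B2 (fun n w => A n * Δ (v * n + u * w)) := fun hA =>
    b2of fun n w => ⟨mul_nonneg (hA n).1 (hΔ01 _).1, mul_le_one₀ (hA n).2 (hΔ01 _).1 (hΔ01 _).2⟩
  have bB : ∀ {B : ℤ → ℝ}, U01 B → B2 (fun n w => B w * Δ (v * n + u * w)) := fun hB =>
    b2of fun n w => ⟨mul_nonneg (hB w).1 (hΔ01 _).1, mul_le_one₀ (hB w).2 (hΔ01 _).1 (hΔ01 _).2⟩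
  have hpt : ∀ n w, (π * π') ^ 2 * (I n * I' w * Δ (v * n + u * w)) ≤
      PKt n w + (A1 n * Δ (v * n + u * w) + A2 n * Δ (v * n + u * w)) +
        (B1 w * Δ (v * n + u * w) + B2' w * Δ (v * n + u * w)) := by
    intro n w
    have k1 := abs4 (hy n) (hy (n + v * s)) (hy' w) (hy' (w - u * s)) hπ hπ hπ' hπ'
    set W : ℝ := I n * I' w * Δ (v * n + u * w) with hW
    have hW0 : 0 ≤ W := mul_nonneg (mul_nonneg (hI01 n).1 (hI01' w).1) (hΔ01 _).1
    have k2 : (π * π') ^ 2 * W ≤ (y n * y (n + v * s) * (y' w * y' (w - u * s)) +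
        (|y n - π| + |y (n + v * s) - π|) + (|y' w - π'| + |y' (w - u * s) - π'|)) * W := by
      refine mul_le_mul_of_nonneg_right ?_ hW0
      calc (π * π') ^ 2 = π * π * (π' * π') := by ring
        _ ≤ _ := k1
    refine k2.trans ?_
    have k3 : y n * y (n + v * s) * (y' w * y' (w - u * s)) * W ≤ PKt n w := by
      have k4 := mul_nonneg (mul_nonneg (hy n).1 (hy (n + v * s)).1)
        (mul_nonneg (hy' w).1 (hy' (w - u * s)).1)
      simp only [hPKt]
      refine mul_le_mul_of_nonneg_left ?_ k4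
      by_cases hz : (v : ℤ) * n + u * w ∈ cls z0 M
      · have h3 : (R : ℤ) ∣ v * n + u * w := by
          have h4 : (M : ℤ) ∣ v * n + u * w - z0 := hz
          have := dvd_add (hRM'.trans h4) hz0
          simpa using this
        rw [if_pos h3, hW]
        simp only [hΔ]
        rw [ind_of_mem hz, one_mul]
        exact mul_le_of_le_one_left (Df_U01 f t _).1
          (mul_le_one₀ (hI01 n).2 (hI01' w).1 (hI01' w).2)
      · have h3 : W = 0 := by
          rw [hW]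
          simp only [hΔ]
          rw [ind_of_notMem hz]
          ring
        rw [h3]
        split_ifs
        · exact (Df_U01 f t _).1
        · exact le_rfl
    have hΔ0 := (hΔ01 (v * n + u * w)).1
    have k5 : ∀ x : ℝ, 0 ≤ x → x * W ≤ I n * x * Δ (v * n + u * w) := by
      intro x hx
      have e : x * W = I' w * (I n * x * Δ (v * n + u * w)) := by rw [hW]; ring
      rw [e]
      exact mul_le_of_le_one_left (mul_nonneg (mul_nonneg (hI01 n).1 hx) hΔ0) (hI01' w).2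
    have k6 : ∀ x : ℝ, 0 ≤ x → x * W ≤ I' w * x * Δ (v * n + u * w) := by
      intro x hx
      have e : x * W = I n * (I' w * x * Δ (v * n + u * w)) := by rw [hW]; ring
      rw [e]
      exact mul_le_of_le_one_left (mul_nonneg (mul_nonneg (hI01' w).1 hx) hΔ0) (hI01 n).2
    have k7 := k5 _ (abs_nonneg (y n - π))
    have k8 := k5 _ (abs_nonneg (y (n + v * s) - π))
    have k9 := k6 _ (abs_nonneg (y' w - π'))
    have k10 := k6 _ (abs_nonneg (y' (w - u * s) - π'))
    have e : (y n * y (n + v * s) * (y' w * y' (w - u * s)) +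
        (|y n - π| + |y (n + v * s) - π|) + (|y' w - π'| + |y' (w - u * s) - π'|)) * W =
        y n * y (n + v * s) * (y' w * y' (w - u * s)) * W +
        (|y n - π| * W + |y (n + v * s) - π| * W) +
        (|y' w - π'| * W + |y' (w - u * s) - π'| * W) := by ring
    rw [e]
    simp only [hA1, hA2, hB1, hB2]
    linarith
  have h3 := M9m.mm_mono (S := S) (bL.smul ((π * π') ^ 2))
    ((bP.add ((bA uA1).add (bA uA2))).add ((bB uB1).add (bB uB2))) hpt
  rw [M9m.mm_smul _ bL, M9m.mm_add (bP.add ((bA uA1).add (bA uA2))) ((bB uB1).add (bB uB2)),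
    M9m.mm_add bP ((bA uA1).add (bA uA2)), M9m.mm_add (bA uA1) (bA uA2),
    M9m.mm_add (bB uB1) (bB uB2)] at h3
  have e1 : mm S (fun n w => I n * I' w * Δ (v * n + u * w)) = g / M :=
    mm_class bΔ hu hcop hM n0 w0 hsupp
  have e2 : mm S PKt = 0 := hPK
  have hu0 : (0 : ℝ) ≤ u := Nat.cast_nonneg u
  have hv0 : (0 : ℝ) ≤ v := Nat.cast_nonneg v
  have e3 : ∀ {A : ℤ → ℝ}, U01 A → mm S (fun n w => A n * Δ (v * n + u * w)) ≤
      u * (S.m A * g) := by
    intro A hA
    have k1 : ∀ n : ℤ, S.m (fun w => A n * Δ (v * n + u * w)) ≤ A n * (u * g) := by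
      intro n
      rw [S.pf.smul (A n) (bΔ.comp fun w => v * n + u * w)]
      exact mul_le_mul_of_nonneg_left (dil_le bΔ (fun z => (hΔ01 z).1) (v * n) hu) (hA n).1
    have k2 := S.pf.mono ((bA hA).outer S) (hA.bdd.mul_const (u * g)) k1
    rw [S.pf.mul_const hA.bdd] at k2
    unfold M9m.mm
    linarith
  have e4 : ∀ {B : ℤ → ℝ}, U01 B → mm S (fun n w => B w * Δ (v * n + u * w)) ≤
      v * (S.m B * g) := fun hB => exch hLim hΔ01 hB hu hv
  have f1 := e3 uA1
  have f2 := e3 uA2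
  have f3 := e4 uB1
  have f4 := e4 uB2
  rw [mA2] at f2
  rw [mB2] at f4
  rw [e1, e2] at h3
  have h4 : (π * π') ^ 2 * g ≤ 2 * lam * (u + v) * g := by
    have k1 : M * S.m A1 ≤ lam := h1
    have k2 : M * S.m B1 ≤ lam := h2
    have k3 : (π * π') ^ 2 * (g / M) ≤ 2 * (u * (S.m A1 * g)) + 2 * (v * (S.m B1 * g)) := by
      linarith
    have k4 : (π * π') ^ 2 * g = M * ((π * π') ^ 2 * (g / M)) := by field_simp
    rw [k4]
    calc M * ((π * π') ^ 2 * (g / M)) ≤ M * (2 * (u * (S.m A1 * g)) + 2 * (v * (S.m B1 * g))) :=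
          mul_le_mul_of_nonneg_left k3 hM0.le
      _ = 2 * (M * S.m A1) * (u * g) + 2 * (M * S.m B1) * (v * g) := by ring
      _ ≤ 2 * lam * (u * g) + 2 * lam * (v * g) := by
          have l1 := mul_nonneg hu0 hg0
          have l2 := mul_nonneg hv0 hg0
          have l3 := mul_le_mul_of_nonneg_right k1 l1
          have l4 := mul_le_mul_of_nonneg_right k2 l2
          linarith
      _ = 2 * lam * (u + v) * g := by ring
  by_contra hne
  have hgpos : 0 < g := lt_of_le_of_ne hg0 (Ne.symm hne)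
  have h5 := mul_lt_mul_of_pos_right hlam hgpos
  linarith

/-- local average of a function -/
lemma m_loc {G : ℤ → ℝ} (hG : Bdd G) {M : ℕ} (hM : 0 < M) :
    S.m (fun n => M * S.m (fun x => ind (cls n M) x * G x)) = S.m G := by
  rw [← unif (S := S) hG hM (Nat.coprime_one_left M)]
  refine S.pf.congr fun n => ?_
  rw [m_prog hG _ hM]
  push_cast
  rw [one_mul]

/-- the pseudonorm of a residue class -/
lemma pn_cls {Q : ℕ} (hQ : 0 < Q) : PN (fun t : ℤ => if (Q : ℤ) ∣ t then (0 : ℝ) else 2) where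
  nonneg := fun t => by split_ifs <;> norm_num
  zero := by simp
  neg := fun t => by simp only [dvd_neg]
  add := fun s t => by
    by_cases hs : (Q : ℤ) ∣ s
    · by_cases ht : (Q : ℤ) ∣ t
      · rw [if_pos hs, if_pos ht, if_pos (dvd_add hs ht)]; norm_num
      · rw [if_neg ht]; split_ifs <;> norm_num
    · rw [if_neg hs]; split_ifs <;> norm_num
  tb := fun η hη => by
    classical
    refine ⟨(Finset.range Q).image (fun r : ℕ => (r : ℤ)), fun t => ⟨t % Q, ?_, ?_⟩⟩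
    · have hQ' : (0 : ℤ) < Q := by exact_mod_cast hQ
      have h1 := Int.emod_nonneg t hQ'.ne'
      have h2 := Int.emod_lt_of_pos t hQ'
      rw [Finset.mem_image]
      exact ⟨(t % Q).toNat, by rw [Finset.mem_range]; omega, Int.toNat_of_nonneg h1⟩
    · rw [if_pos Int.dvd_self_sub_emod]
      exact hη.le

/-- choice of a pair of residue classes -/
lemma choose_pair {Y Y' : Set ℤ} {y y' : ℤ → ℝ} (hy : U01 y) (hy' : U01 y')
    (hyA : ∀ ε > (0 : ℝ), ∀ Q : ℕ, 0 < Q → ∃ (M : ℕ) (p : ℤ → ℝ), 0 < M ∧ Q ∣ M ∧ U01 p ∧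
      (∀ x, p (x + M) = p x) ∧ S.m (fun z => |y z - p z|) ≤ ε)
    (hyA' : ∀ ε > (0 : ℝ), ∀ Q : ℕ, 0 < Q → ∃ (M : ℕ) (p : ℤ → ℝ), 0 < M ∧ Q ∣ M ∧ U01 p ∧
      (∀ x, p (x + M) = p x) ∧ S.m (fun z => |y' z - p z|) ≤ ε)
    (hyO : ∀ (M : ℕ) (h : ℤ → ℝ), 0 < M → Bdd h → (∀ x, h (x + M) = h x) →
      S.m (fun z => (ind Y z - y z) * h z) = 0)
    (hyO' : ∀ (M : ℕ) (h : ℤ → ℝ), 0 < M → Bdd h → (∀ x, h (x + M) = h x) →
      S.m (fun z => (ind Y' z - y' z) * h z) = 0)
    {Q : ℕ} (hQ : 0 < Q) {b : ℤ → ℝ} (hb : U01 b) (hbp : ∀ x, b (x + Q) = b x) (u v : ℕ)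
    {c1 : ℝ} (hc1 : 0 < c1)
    (hc : c1 ≤ S.m (fun n => S.m (fun w => ind Y n * ind Y' w * b (v * n + u * w))))
    {lam : ℝ} (hlam : 0 < lam) :
    ∃ (M : ℕ) (n0 w0 : ℤ) (π π' : ℝ), 0 < M ∧ Q ∣ M ∧ (0 ≤ π ∧ π ≤ 1) ∧ (0 ≤ π' ∧ π' ≤ 1) ∧
      c1 / 2 < π * π' ∧ b (v * n0 + u * w0) ≠ 0 ∧
      M * S.m (fun n => ind (cls n0 M) n * |y n - π|) ≤ lam ∧
      M * S.m (fun n => ind (cls w0 M) n * |y' n - π'|) ≤ lam := by
  have bb := hb.bdd
  -- from the sets to the projections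
  have hper : ∀ n w : ℤ, b (v * n + u * (w + Q)) = b (v * n + u * w) := fun n w =>
    per_eq hbp ⟨u, by ring⟩
  have hper' : ∀ n w : ℤ, b (v * (n + Q) + u * w) = b (v * n + u * w) := fun n w =>
    per_eq hbp ⟨v, by ring⟩
  set K : ℤ → ℝ := fun n => S.m (fun w => y' w * b (v * n + u * w)) with hK
  have rK : ∀ n : ℤ, Bdd (fun w => y' w * b (v * n + u * w)) := fun n => hy'.bdd.mul (bb.comp _)
  have bK : Bdd K := ⟨1, fun n => S.pf.abs_le fun w =>
    (hy'.mul (hb.comp fun w => v * n + u * w)).abs_le_one w⟩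
  have hK1 : ∀ n : ℤ, S.m (fun w => ind Y n * ind Y' w * b (v * n + u * w)) = ind Y n * K n := by
    intro n
    have z := hyO' Q (fun w => b (v * n + u * w)) hQ (bb.comp _) fun w => hper n w
    have rd : Bdd (fun w => (ind Y' w - y' w) * b (v * n + u * w)) :=
      ((ind_bdd _).sub hy'.bdd).mul (bb.comp _)
    have e : (fun w => ind Y n * ind Y' w * b (v * n + u * w)) =
        fun w => ind Y n * (y' w * b (v * n + u * w)) +
          ind Y n * ((ind Y' w - y' w) * b (v * n + u * w)) := by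
      funext w; ring
    rw [e, S.pf.add ((rK n).smul _) (rd.smul _), S.pf.smul _ (rK n), S.pf.smul _ rd, z]
    ring
  have hK2 : S.m (fun n => ind Y n * K n) = S.m (fun n => y n * K n) := by
    have z := hyO Q K hQ bK fun n => S.pf.congr fun w => by rw [hper']
    have e : (fun n => ind Y n * K n) = fun n => y n * K n + (ind Y n - y n) * K n := by
      funext n; ring
    rw [e, S.pf.add (hy.bdd.mul bK) (((ind_bdd _).sub hy.bdd).mul bK), z, add_zero]
  rw [S.pf.congr hK1, hK2] at hc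
  -- approximation
  set e' : ℝ := c1 / (8 * (1 + lam⁻¹)) with he'
  have hli : 0 < lam⁻¹ := inv_pos.2 hlam
  have he0 : 0 < e' := by positivity
  obtain ⟨M1, p, hM1, hQM1, hp01, hpp, hpE⟩ := hyA e' he0 Q hQ
  obtain ⟨M, p', hM, hM1M, hp01', hpp', hpE'⟩ := hyA' e' he0 M1 hM1
  have hpp2 : ∀ x, p (x + M) = p x := fun x => by
    obtain ⟨k, rfl⟩ := hM1M
    exact per_eq hpp ⟨k, by push_cast; ring⟩
  set G1 : ℤ → ℝ := fun n => |y n - p n| with hG1
  set G2 : ℤ → ℝ := fun n => |y' n - p' n| with hG2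
  have uG : ∀ {y p : ℤ → ℝ}, U01 y → U01 p → U01 (fun n => |y n - p n|) := by
    intro y p hy hp n
    have k1 := hy n
    have k2 := hp n
    exact ⟨abs_nonneg _, abs_le.2 ⟨by linarith [k1.1, k2.2], by linarith [k1.2, k2.1]⟩⟩
  have uG1 : U01 G1 := uG hy hp01
  have uG2 : U01 G2 := uG hy' hp01'
  set α : ℤ → ℝ := fun n => M * S.m (fun x => ind (cls n M) x * G1 x) with hα
  set β : ℤ → ℝ := fun n => M * S.m (fun x => ind (cls n M) x * G2 x) with hβ
  have hloc : ∀ {G : ℤ → ℝ}, U01 G → ∀ n, 0 ≤ (M : ℝ) * S.m (fun x => ind (cls n M) x * G x) ∧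
      (M : ℝ) * S.m (fun x => ind (cls n M) x * G x) ≤ M := by
    intro G hG n
    have k1 : U01 (fun x => ind (cls n M) x * G x) := (ind_U01 _).mul hG
    have k2 := S.pf.nonneg k1.bdd fun x => (k1 x).1
    have k3 := S.pf.le_of_le k1.bdd fun x => (k1 x).2
    have k4 : (0 : ℝ) ≤ M := Nat.cast_nonneg M
    exact ⟨mul_nonneg k4 k2, mul_le_of_le_one_right k4 k3⟩
  have bα : Bdd α := ⟨M, fun n => by
    have := hloc uG1 n
    simp only [hα]
    rw [abs_of_nonneg this.1]; exact this.2⟩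
  have bβ : Bdd β := ⟨M, fun n => by
    have := hloc uG2 n
    simp only [hβ]
    rw [abs_of_nonneg this.1]; exact this.2⟩
  have mα : S.m α = S.m G1 := m_loc uG1.bdd hM
  have mβ : S.m β = S.m G2 := m_loc uG2.bdd hM
  have hex : ∃ n0 w0 : ℤ, c1 / 2 < p n0 * p' w0 * b (v * n0 + u * w0) - lam⁻¹ * (α n0 + β w0) := by
    by_contra hcon
    push Not at hcon
    have hpt : ∀ n w : ℤ, y n * (y' w * b (v * n + u * w)) ≤
        (c1 / 2 + (lam⁻¹ * α n + G1 n)) + (lam⁻¹ * β w + G2 w) := by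
      intro n w
      have k1 := hcon n w
      have k2 : y n * y' w - p n * p' w ≤ G1 n + G2 w := by
        have e : y n * y' w - p n * p' w = (y n - p n) * y' w + p n * (y' w - p' w) := by ring
        rw [e]
        have l1 := le_abs_self (y n - p n)
        have l2 := le_abs_self (y' w - p' w)
        have l3 := hy' w
        have l4 := hp01 n
        have l5 := abs_nonneg (y n - p n)
        have l6 := abs_nonneg (y' w - p' w)
        simp only [hG1, hG2]
        nlinarith [l3.1, l3.2, l4.1, l4.2]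
      have k3 := hb (v * n + u * w)
      have k4 : (y n * y' w - p n * p' w) * b (v * n + u * w) ≤ G1 n + G2 w := by
        have l1 := (uG1 n).1
        have l2 := (uG2 w).1
        calc (y n * y' w - p n * p' w) * b (v * n + u * w) ≤
              (G1 n + G2 w) * b (v * n + u * w) := mul_le_mul_of_nonneg_right k2 k3.1
          _ ≤ G1 n + G2 w := mul_le_of_le_one_right (add_nonneg l1 l2) k3.2
      linarith
    have r1 : ∀ n : ℤ, S.m (fun w => (c1 / 2 + (lam⁻¹ * α n + G1 n)) + (lam⁻¹ * β w + G2 w)) =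
        (c1 / 2 + (lam⁻¹ * α n + G1 n)) + (lam⁻¹ * S.m β + S.m G2) := by
      intro n
      rw [S.pf.add (Bdd.const _) ((bβ.smul _).add uG2.bdd), S.pf.const,
        S.pf.add (bβ.smul _) uG2.bdd, S.pf.smul _ bβ]
    have r2 : ∀ n : ℤ, y n * K n ≤
        (c1 / 2 + (lam⁻¹ * α n + G1 n)) + (lam⁻¹ * S.m β + S.m G2) := by
      intro n
      rw [← r1 n, hK]
      simp only
      rw [← S.pf.smul _ (rK n)]
      exact S.pf.mono ((rK n).smul _) ((Bdd.const _).add ((bβ.smul _).add uG2.bdd)) (hpt n)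
    have b3 : Bdd (fun n => lam⁻¹ * α n + G1 n) := (bα.smul _).add uG1.bdd
    have r3 := S.pf.mono (hy.bdd.mul bK)
      (((Bdd.const (c1 / 2)).add b3).add (Bdd.const (lam⁻¹ * S.m β + S.m G2))) r2
    rw [S.pf.add ((Bdd.const (c1 / 2)).add b3) (Bdd.const _), S.pf.const,
      S.pf.add (Bdd.const _) b3, S.pf.const, S.pf.add (bα.smul _) uG1.bdd, S.pf.smul _ bα,
      mα, mβ] at r3
    have k5 : lam⁻¹ * S.m G1 ≤ lam⁻¹ * e' := mul_le_mul_of_nonneg_left hpE hli.le
    have k6 : lam⁻¹ * S.m G2 ≤ lam⁻¹ * e' := mul_le_mul_of_nonneg_left hpE' hli.le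
    have k7 : 2 * ((1 + lam⁻¹) * e') = c1 / 4 := by
      rw [he']; field_simp; ring
    have k8 : S.m G1 ≤ e' := hpE
    have k9 : S.m G2 ≤ e' := hpE'
    nlinarith
  obtain ⟨n0, w0, h0⟩ := hex
  have hα0 := (hloc uG1 n0).1
  have hβ0 := (hloc uG2 w0).1
  have hb0 := hb (v * n0 + u * w0)
  have hp0 := hp01 n0
  have hp0' := hp01' w0
  have hpp0 : 0 ≤ p n0 * p' w0 ∧ p n0 * p' w0 ≤ 1 :=
    ⟨mul_nonneg hp0.1 hp0'.1, mul_le_one₀ hp0.2 hp0'.1 hp0'.2⟩
  have hαd : α n0 = M * S.m (fun x => ind (cls n0 M) x * G1 x) := rfl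
  have hβd : β w0 = M * S.m (fun x => ind (cls w0 M) x * G2 x) := rfl
  rw [← hαd] at hα0
  rw [← hβd] at hβ0
  have hs0 : 0 ≤ lam⁻¹ * (α n0 + β w0) := mul_nonneg hli.le (add_nonneg hα0 hβ0)
  have h1 : p n0 * p' w0 * b (v * n0 + u * w0) ≤ p n0 * p' w0 :=
    mul_le_of_le_one_right hpp0.1 hb0.2
  have h2 : lam⁻¹ * (α n0 + β w0) ≤ 1 := by
    have : p n0 * p' w0 * b (v * n0 + u * w0) ≤ 1 := h1.trans hpp0.2
    linarith
  have h3 : α n0 + β w0 ≤ lam := by
    have := mul_le_mul_of_nonneg_left h2 hlam.le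
    rw [← mul_assoc, mul_inv_cancel₀ hlam.ne', one_mul, mul_one] at this
    exact this
  have eα : ∀ {y p : ℤ → ℝ} (_ : ∀ x, p (x + M) = p x) (n0 : ℤ),
      (fun x => ind (cls n0 M) x * |y x - p x|) = fun x => ind (cls n0 M) x * |y x - p n0| := by
    intro y p hp n0
    funext x
    by_cases hx : x ∈ cls n0 M
    · rw [per_eq hp (x := x) (y := n0) hx]
    · rw [ind_of_notMem hx, zero_mul, zero_mul]
  refine ⟨M, n0, w0, p n0, p' w0, hM, hQM1.trans hM1M, hp0, hp0', by linarith, ?_, ?_, ?_⟩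
  · intro hz
    rw [hz, mul_zero] at h0
    linarith
  · have h4 : α n0 ≤ lam := by linarith
    rw [hαd] at h4
    simp only [hG1] at h4
    rw [eα hpp2 n0] at h4
    exact h4
  · have h4 : β w0 ≤ lam := by linarith
    rw [hβd] at h4
    simp only [hG2] at h4
    rw [eα hpp' w0] at h4
    exact h4

end PQ99

open PQ99 in
theorem pq (S : MeanSys) (h3 : M3 S) (hc : LC1 S) (h9 : M9T S) (hpp : PP S) (hk : PK S) :
    PQ S := by
  intro f R hR h2R hbad hPer hND Q a hQ hRQ hRa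
  have hQ0 : (0 : ℝ) < Q := by exact_mod_cast hQ
  obtain ⟨J, A, hdisj, htie, hsum⟩ := h3 f hbad (1 / (Q : ℝ) / 8) (by positivity)
  obtain ⟨κ0, hκ0, h9'⟩ := h9 J A hdisj (1 / (Q : ℝ)) (by positivity) hsum 2 R hR
  obtain ⟨c, hc0, u, v, hup, hvp, hTu, huv, hmod, h9b⟩ := h9' _ (pn_cls hQ)
  have hu : 0 < u := hup.pos
  have hv : 0 < v := hvp.pos
  have hcop : Nat.Coprime v u := (Nat.coprime_primes hvp hup).2 huv.ne'
  have hRQ' : (R : ℤ) ∣ Q := by exact_mod_cast hRQ
  have h2R' : (2 : ℤ) ∣ R := by exact_mod_cast h2R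
  have hCR : ∀ z ∈ cls a Q, (R : ℤ) ∣ z := by
    intro z hz
    have h4 : (Q : ℤ) ∣ z - a := hz
    have := dvd_add (hRQ'.trans h4) hRa
    simpa using this
  -- the class has positive correlation with some pair of cells
  have hcor := h9b (ind (cls a Q)) (ind_U01 _) (fun n hn => ind_of_notMem fun hm =>
    hn (even_iff_two_dvd.2 (h2R'.trans (hCR n hm)))) (by rw [S.m_cls a hQ]) (by
      intro t
      by_cases ht : (Q : ℤ) ∣ t
      · have e : (fun n => |ind (cls a Q) (n + t) - ind (cls a Q) n|) = fun _ => 0 := by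
          funext n
          rw [ind_cls_congr (M := Q) (a := a) (b := a) (x := n + t) (y := n)
            (by simpa using ht), sub_self, abs_zero]
        rw [e, S.pf.zero]
        simp only [if_pos ht]
        linarith
      · simp only [if_neg ht]
        refine (S.pf.le_of_le ((((ind_bdd _).shift t).sub (ind_bdd _)).abs) (C := 1)
          fun n => ?_).trans (by linarith)
        have k1 := ind_U01 (cls a Q) (n + t)
        have k2 := ind_U01 (cls a Q) n
        exact abs_le.2 ⟨by linarith [k1.1, k2.2], by linarith [k1.2, k2.1]⟩)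
  have hij : ∃ i j, 0 < Cor S (A i) (A j) u v (ind (cls a Q)) := by
    by_contra hcon
    push Not at hcon
    have : ∑ i, ∑ j, Cor S (A i) (A j) u v (ind (cls a Q)) ≤ 0 :=
      Finset.sum_nonpos fun i _ => Finset.sum_nonpos fun j _ => hcon i j
    linarith
  obtain ⟨i, j, hcij⟩ := hij
  set Y : Set ℤ := Yset (A i) (A j) u v with hY
  set Y' : Set ℤ := Yset (A i) (A j) v u with hY'
  have hKm : Kmv S f Y Y' u v := hc f (A i) (A j) u v hu hv (htie i) (htie j)
  obtain ⟨y, hy01, hyA, hyO⟩ := hpp (ind Y) (ind_U01 _)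
  obtain ⟨y', hy01', hyA', hyO'⟩ := hpp (ind Y') (ind_U01 _)
  set c1 : ℝ := Cor S (A i) (A j) u v (ind (cls a Q)) with hc1
  have hcor1 : c1 ≤ S.m (fun n => S.m (fun w => ind Y n * ind Y' w *
      ind (cls a Q) (v * n + u * w))) := by
    refine le_of_eq ?_
    rw [hc1]
    unfold Cor
    refine S.pf.congr fun n => S.pf.congr fun w => ?_
    have e1 : ind Y n = ind (A i) (v * n) * ind (A j) (u * n) := by
      rw [hY]
      exact ind_inter ((fun n => (v : ℤ) * n) ⁻¹' (A i)) ((fun n => (u : ℤ) * n) ⁻¹' (A j)) n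
    have e2 : ind Y' w = ind (A i) (u * w) * ind (A j) (v * w) := by
      rw [hY']
      exact ind_inter ((fun n => (u : ℤ) * n) ⁻¹' (A i)) ((fun n => (v : ℤ) * n) ⁻¹' (A j)) w
    rw [e1, e2]
  have huv0 : (0 : ℝ) < u + v := by positivity
  obtain ⟨M, n0, w0, π, π', hM, hQM, hπ, hπ', hππ, hbz, hl1, hl2⟩ :=
    choose_pair (S := S) hy01 hy01' hyA hyA' hyO hyO' hQ (ind_U01 (cls a Q))
      (fun x => ind_cls_congr (M := Q) (a := a) (b := a) (x := x + Q) (y := x) (by simp))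
      u v hcij hcor1 (lam := c1 ^ 2 / (16 * (u + v))) (by positivity)
  have hz0C : (v : ℤ) * n0 + u * w0 ∈ cls a Q := by
    by_contra hcon
    exact hbz (ind_of_notMem hcon)
  have hRz0 : (R : ℤ) ∣ v * n0 + u * w0 := hCR _ hz0C
  have hRM : R ∣ M := hRQ.trans hQM
  have hlam : 2 * (c1 ^ 2 / (16 * ((u : ℝ) + v))) * (u + v) < (π * π') ^ 2 := by
    have e : 2 * (c1 ^ 2 / (16 * ((u : ℝ) + v))) * (u + v) = c1 ^ 2 / 8 := by
      field_simp; ring
    rw [e]
    have k1 : (c1 / 2) ^ 2 < (π * π') ^ 2 :=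
      pow_lt_pow_left₀ hππ (by positivity) (by norm_num)
    have k2 : 0 < c1 ^ 2 := by positivity
    nlinarith
  set z0 : ℤ := v * n0 + u * w0 with hz0
  have hgam : ∀ k : ℤ, S.m (fun z => ind (cls z0 M) z *
      Df f (((v : ℤ) ^ 2 - (u : ℤ) ^ 2) * (M * k)) z) = 0 := fun k =>
    gam_zero hu hv hcop hM hRM hPer hy01 hy01' hRz0 (M * k) (dvd_mul_right _ _)
      (hk f Y Y' u v R hR hu huv hmod hKm hPer y y' hy01 hy01' hyO hyO' (M * k)) hπ hπ' hl1 hl2 hlam
  -- no drift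
  set q : ℕ := (v ^ 2 - u ^ 2) * M with hq
  have huv2 : u ^ 2 < v ^ 2 := Nat.pow_lt_pow_left huv (by norm_num)
  have hqpos : 0 < q := Nat.mul_pos (Nat.sub_pos_of_lt huv2) hM
  have hqc : (q : ℤ) = ((v : ℤ) ^ 2 - (u : ℤ) ^ 2) * M := by
    rw [hq]
    push_cast [Nat.cast_sub huv2.le]
    ring
  obtain ⟨d, hd⟩ := hND q z0 hqpos (Dvd.dvd.mul_left hRM _) hRz0
  have hFb : Bdd (Fr f) := (Fr_U01 f).bdd
  have hdiff : ∀ k : ℕ, S.m (fun n => |Fr f (q * (n + k) + z0) - Fr f (q * n + z0)|) = 0 := by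
    intro k
    have bD : Bdd (fun z => ind (cls z0 M) z * Df f (((v : ℤ) ^ 2 - (u : ℤ) ^ 2) * (M * k)) z) :=
      (ind_bdd _).mul (Df_bdd f _)
    have k1 := dil_le (S := S) bD (fun z => mul_nonneg (ind_nonneg _ _) (Df_U01 f _ z).1) z0 hqpos
    rw [hgam k, mul_zero] at k1
    refine le_antisymm (le_trans (le_of_eq (S.pf.congr fun n => ?_)) k1)
      (S.pf.nonneg ((hFb.comp _).sub (hFb.comp _)).abs fun _ => abs_nonneg _)
    have hm : z0 + q * n ∈ cls z0 M := by
      show (M : ℤ) ∣ z0 + q * n - z0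
      rw [hqc]
      exact ⟨((v : ℤ) ^ 2 - (u : ℤ) ^ 2) * n, by ring⟩
    rw [ind_of_mem hm, one_mul, Df_eq_abs]
    congr 2
    · congr 1
      rw [hqc]; ring
    · congr 1
      ring
  have hlim : S.m (fun n => |Fr f (q * n + z0) - d|) = 0 := by
    have bL : Bdd (fun n => |Fr f (q * n + z0) - d|) := ((hFb.comp _).sub (Bdd.const d)).abs
    refine le_antisymm (le_of_forall_pos_le_add fun ε hε => ?_)
      (S.pf.nonneg bL fun _ => abs_nonneg _)
    obtain ⟨K₀, hK₀⟩ := hd ε hε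
    have hK1 := hK₀ (K₀ + 1) (Nat.le_succ _)
    set K : ℕ := K₀ + 1 with hK
    have hKpos : (0 : ℝ) < K := by positivity
    have bS : ∀ k ∈ Finset.range K, Bdd (fun n : ℤ =>
        |Fr f (q * (n + k) + z0) - Fr f (q * n + z0)|) := fun k _ =>
      ((hFb.comp _).sub (hFb.comp _)).abs
    have bS' : Bdd (fun n : ℤ => ∑ k ∈ Finset.range K,
        |Fr f (q * (n + k) + z0) - Fr f (q * n + z0)|) := Bdd.sum _ _ bS
    have bA : Bdd (fun n : ℤ => |(∑ k ∈ Finset.range K, Fr f (q * (n + k) + z0)) / K - d|) :=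
      (((Bdd.sum (Finset.range K) (fun (k : ℕ) (n : ℤ) => Fr f (q * (n + k) + z0))
        fun k _ => hFb.comp _).div_const _).sub (Bdd.const d)).abs
    have hpt : ∀ n : ℤ, |Fr f (q * n + z0) - d| ≤
        |(∑ k ∈ Finset.range K, Fr f (q * (n + k) + z0)) / K - d| +
        (∑ k ∈ Finset.range K, |Fr f (q * (n + k) + z0) - Fr f (q * n + z0)|) / K := by
      intro n
      have e : Fr f (q * n + z0) - d =
          ((∑ k ∈ Finset.range K, Fr f (q * (n + k) + z0)) / K - d) -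
          (∑ k ∈ Finset.range K, (Fr f (q * (n + k) + z0) - Fr f (q * n + z0))) / K := by
        rw [Finset.sum_sub_distrib, Finset.sum_const, Finset.card_range, nsmul_eq_mul]
        field_simp
        ring
      rw [e]
      refine (abs_sub _ _).trans ?_
      refine add_le_add_right ?_ _
      rw [abs_div, abs_of_pos hKpos]
      exact div_le_div_of_nonneg_right (Finset.abs_sum_le_sum_abs _ _) hKpos.le
    refine (S.pf.mono bL (bA.add (bS'.div_const _)) hpt).trans ?_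
    rw [S.pf.add bA (bS'.div_const _), S.pf.div_const bS', S.pf.sum _ _ bS,
      Finset.sum_eq_zero fun k _ => hdiff k]
    simpa using hK1
  -- the colour
  have hb : ∃ b : Bool, ∀ n : ℤ, ind {z : ℤ | f z.toNat ≠ b} (z0 + q * n) ≤
      2 * |Fr f (q * n + z0) - d| := by
    rcases le_or_gt d (1 / 2) with hd1 | hd1
    · refine ⟨false, fun n => ?_⟩
      rw [add_comm z0]
      by_cases h : f (q * n + z0).toNat = false
      · rw [ind_of_notMem (show (q : ℤ) * n + z0 ∉ {z : ℤ | f z.toNat ≠ false} from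
          fun h' => h' h)]
        positivity
      · have h1 : f ((q : ℤ) * n + z0).toNat = true := by simpa using h
        rw [ind_of_mem h]
        unfold Fr
        rw [h1]
        simp only [if_true]
        have := le_abs_self (1 - d)
        linarith
    · refine ⟨true, fun n => ?_⟩
      rw [add_comm z0]
      by_cases h : f (q * n + z0).toNat = true
      · rw [ind_of_notMem (show (q : ℤ) * n + z0 ∉ {z : ℤ | f z.toNat ≠ true} from
          fun h' => h' h)]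
        positivity
      · have h1 : f ((q : ℤ) * n + z0).toNat = false := by simpa using h
        rw [ind_of_mem h]
        unfold Fr
        rw [h1]
        simp only [Bool.false_eq_true, if_false, zero_sub, abs_neg]
        have := le_abs_self d
        linarith
  obtain ⟨b, hb⟩ := hb
  refine ⟨q, z0, b, hqpos, Dvd.dvd.mul_left hQM _, hz0C, ?_⟩
  have e : ind {z : ℤ | z ∈ cls z0 q ∧ f z.toNat ≠ b} =
      fun z => ind (cls z0 q) z * ind {z : ℤ | f z.toNat ≠ b} z :=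
    funext fun z => ind_inter (cls z0 q) {z : ℤ | f z.toNat ≠ b} z
  rw [e, m_cls_mul (ind_bdd _) z0 hqpos]
  have bL : Bdd (fun n => |Fr f (q * n + z0) - d|) := ((hFb.comp _).sub (Bdd.const d)).abs
  have h5 : S.m (fun k => ind {z : ℤ | f z.toNat ≠ b} (z0 + q * k)) = 0 := by
    refine le_antisymm ?_ (S.pf.nonneg ((ind_bdd _).comp _) fun _ => ind_nonneg _ _)
    refine (S.pf.mono ((ind_bdd _).comp _) (bL.smul 2) hb).trans ?_
    rw [S.pf.smul 2 bL, hlim, mul_zero]
  rw [h5, zero_div]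

end Pool.Agent.LC79
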