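import Pool.Agent.Lib.MP_60922f_co.LC.StmtsS3_79

/-!
LC, module PR: profinite in mean and without drift gives periodic approximation.
-/

set_option autoImplicit false

open Filter Topology

namespace Pool.Agent.LC79
open Pool.Agent.FinA Pool.Agent.FinClique

lemma sum_cls74 {M : ℕ} (hM : 0 < M) (z : ℤ) : ∑ a ∈ Finset.range M, ind (cls a M) z = 1 := by
  have hM' : (0 : ℤ) < M := by exact_mod_cast hM
  have h0 : 0 ≤ z % M := Int.emod_nonneg z hM'.ne'
  have h1 : z % M < M := Int.emod_lt_of_pos z hM'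
  have h2 : (((z % M).toNat : ℕ) : ℤ) = z % M := Int.toNat_of_nonneg h0
  rw [Finset.sum_eq_single (z % M).toNat]
  · refine ind_of_mem ?_
    change (M : ℤ) ∣ z - ((z % M).toNat : ℕ)
    rw [h2]
    exact Int.dvd_self_sub_of_emod_eq rfl
  · intro b hb hne
    refine ind_of_notMem fun hz => hne ?_
    have hz' : (M : ℤ) ∣ z - (b : ℤ) := hz
    have h3 : (b : ℤ) < M := by exact_mod_cast Finset.mem_range.mp hb
    have h4 : (b : ℤ) % M = z % M := Int.modEq_iff_dvd.mpr hz'
    rw [Int.emod_eq_of_lt (by positivity) h3] at h4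
    omega
  · intro h
    exfalso
    exact h (Finset.mem_range.mpr (by omega))

/-- a mean is the average of the means over the residue classes -/
lemma m_classes74 (S : MeanSys) {M : ℕ} (hM : 0 < M) {G : ℤ → ℝ} (hG : Bdd G) :
    S.m G = ∑ a ∈ Finset.range M, S.m (fun n => G (M * n + a)) / M := by
  have h1 : S.m G = S.m (fun z => ∑ a ∈ Finset.range M, ind (cls a M) z * G z) := by
    refine S.pf.congr fun z => ?_
    rw [← Finset.sum_mul, sum_cls74 hM, one_mul]
  rw [h1, S.pf.sum _ _ fun a _ => (ind_bdd _).mul hG]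
  refine Finset.sum_congr rfl fun a _ => ?_
  rw [← S.m_shift a ((ind_bdd _).mul hG), ← S.m_dil_ind hM (hG.shift a)]
  refine S.pf.congr fun z => ?_
  have e : z + (a : ℤ) ∈ cls a M ↔ z ∈ cls 0 M := by
    simp only [cls, Set.mem_setOf_eq, add_sub_cancel_right, sub_zero]
  by_cases h : z ∈ cls 0 M
  · rw [ind_of_mem h, ind_of_mem (e.mpr h)]
  · rw [ind_of_notMem h, ind_of_notMem (fun h' => h (e.mp h'))]

lemma Fr_U01_74 (f : ℕ → Bool) : U01 (Fr f) := fun z => by
  unfold Fr; split_ifs <;> norm_num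

lemma Fr_sub_abs74 (f : ℕ → Bool) (z t : ℤ) : |Fr f z - Fr f (z + t)| = Df f t z := by
  unfold Fr Df
  cases h1 : f z.toNat <;> cases h2 : f (z + t).toNat <;> simp

/-- the clamp to `[0,1]` is closer to points of `[0,1]` -/
lemma clamp_le74 {x d : ℝ} (h0 : 0 ≤ x) (h1 : x ≤ 1) : |x - max 0 (min 1 d)| ≤ |x - d| := by
  rcases le_total d 0 with hd | hd
  · rw [min_eq_right (by linarith), max_eq_left hd, sub_zero, abs_of_nonneg h0,
      abs_of_nonneg (by linarith)]
    linarith
  · rcases le_total d 1 with hd' | hd'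
    · rw [min_eq_right hd', max_eq_right hd]
    · rw [min_eq_left hd', max_eq_right zero_le_one, abs_sub_comm, abs_sub_comm x d,
        abs_of_nonneg (by linarith), abs_of_nonneg (by linarith)]
      linarith

theorem pr (S : MeanSys) : PR S := by
  intro f R hR hR2 hprof hdr ε hε
  obtain ⟨M₀, hM₀, hM₀2, hNe⟩ := hprof (ε / 2) (half_pos hε)
  set M : ℕ := M₀ * R with hMdef
  have hM : 0 < M := Nat.mul_pos hM₀ hR
  have hRM : R ∣ M := Dvd.intro_left _ rfl
  -- the densities
  have hd : ∀ a : ℕ, ∃ d : ℝ, (R : ℤ) ∣ (a : ℤ) → ∀ ε > (0 : ℝ), ∃ K₀ : ℕ, ∀ K : ℕ, K₀ ≤ K →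
      S.m (fun n => |(∑ k ∈ Finset.range K, Fr f (M * (n + k) + a)) / K - d|) ≤ ε := by
    intro a
    by_cases ha : (R : ℤ) ∣ (a : ℤ)
    · obtain ⟨d, hd⟩ := hdr M a hM hRM ha
      exact ⟨d, fun _ => hd⟩
    · exact ⟨0, fun h => absurd h ha⟩
  choose d hd using hd
  have hK : ∀ a : ℕ, ∃ K₀ : ℕ, (R : ℤ) ∣ (a : ℤ) → ∀ K : ℕ, K₀ ≤ K →
      S.m (fun n => |(∑ k ∈ Finset.range K, Fr f (M * (n + k) + a)) / K - d a|) ≤ ε / 2 := by
    intro a
    by_cases ha : (R : ℤ) ∣ (a : ℤ)
    · obtain ⟨K₀, hK₀⟩ := hd a ha (ε / 2) (half_pos hε)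
      exact ⟨K₀, fun _ => hK₀⟩
    · exact ⟨0, fun h => absurd h ha⟩
  choose K₀ hK₀ using hK
  set K : ℕ := 1 + ∑ a ∈ Finset.range M, K₀ a with hKdef
  have hKpos : 0 < K := by omega
  have hKr : (0 : ℝ) < K := by exact_mod_cast hKpos
  have hKa : ∀ a ∈ Finset.range M, K₀ a ≤ K := fun a ha =>
    (Finset.single_le_sum (f := K₀) (fun _ _ => Nat.zero_le _) ha).trans (by omega)
  set p : ℤ → ℝ := fun z => max 0 (min 1 (d (z % M).toNat)) with hp
  have hpU : U01 p := fun z => ⟨le_max_left _ _, max_le zero_le_one (min_le_left _ _)⟩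
  have hpp : ∀ x, p (x + M) = p x := fun x => by simp only [hp, Int.add_emod_right]
  refine ⟨M, p, hM, hpU, hpp, ?_⟩
  have hpa : ∀ a ∈ Finset.range M, ∀ n : ℤ, p (M * n + a) = max 0 (min 1 (d a)) := by
    intro a ha n
    have h3 : (a : ℤ) < M := by exact_mod_cast Finset.mem_range.mp ha
    simp only [hp, Int.mul_add_emod_self_left]
    rw [Int.emod_eq_of_lt (by positivity) h3, Int.toNat_natCast]
  set A : ℤ → ℝ := fun z => (∑ k ∈ Finset.range K, Fr f (z + M * k)) / K with hA
  have hFb : Bdd (Fr f) := (Fr_U01_74 f).bdd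
  have hAU : U01 A := by
    intro z
    have h1 : 0 ≤ ∑ k ∈ Finset.range K, Fr f (z + M * k) :=
      Finset.sum_nonneg fun k _ => (Fr_U01_74 f _).1
    have h2 : ∑ k ∈ Finset.range K, Fr f (z + M * k) ≤ K := by
      refine (Finset.sum_le_sum fun k _ => (Fr_U01_74 f _).2).trans ?_
      simp
    exact ⟨div_nonneg h1 hKr.le, (div_le_one hKr).mpr h2⟩
  set G1 : ℤ → ℝ := fun z => if (R : ℤ) ∣ z then |Fr f z - A z| else 0 with hG1
  set G2 : ℤ → ℝ := fun z => if (R : ℤ) ∣ z then |A z - p z| else 0 with hG2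
  have bG1 : Bdd G1 := ((hFb.sub hAU.bdd).abs).ite (fun z => (R : ℤ) ∣ z)
  have bG2 : Bdd G2 := ((hAU.bdd.sub hpU.bdd).abs).ite (fun z => (R : ℤ) ∣ z)
  have bG : Bdd (fun z => if (R : ℤ) ∣ z then |Fr f z - p z| else 0) :=
    ((hFb.sub hpU.bdd).abs).ite (fun z => (R : ℤ) ∣ z)
  have hsplit : S.m (fun z => if (R : ℤ) ∣ z then |Fr f z - p z| else 0) ≤ S.m G1 + S.m G2 := by
    rw [← S.pf.add bG1 bG2]
    refine S.pf.mono bG (bG1.add bG2) fun z => ?_
    simp only [hG1, hG2]
    split_ifs
    · exact abs_sub_le _ _ _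
    · norm_num
  have h1 : S.m G1 ≤ ε / 2 := by
    set H : ℕ → ℤ → ℝ := fun k z => if Even z then Df f (M * k) z else 0 with hH
    have bH : ∀ k, Bdd (H k) := fun k => (Df_bdd f _).ite (fun z => Even z)
    have hle : ∀ z, G1 z ≤ (∑ k ∈ Finset.range K, H k z) / K := by
      intro z
      simp only [hG1]
      split_ifs with hz
      · have hev : Even z := by
          have h2 : (2 : ℤ) ∣ (R : ℤ) := by exact_mod_cast hR2
          exact even_iff_two_dvd.mpr (h2.trans hz)
        have e1 : Fr f z - A z = (∑ k ∈ Finset.range K, (Fr f z - Fr f (z + M * k))) / K := by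
          rw [Finset.sum_sub_distrib, Finset.sum_const, Finset.card_range, nsmul_eq_mul, hA]
          field_simp
        rw [e1, abs_div, abs_of_pos hKr]
        refine div_le_div_of_nonneg_right ?_ hKr.le
        refine (Finset.abs_sum_le_sum_abs _ _).trans (Finset.sum_le_sum fun k _ => ?_)
        simp only [hH, if_pos hev]
        exact (Fr_sub_abs74 f z _).le
      · refine div_nonneg (Finset.sum_nonneg fun k _ => ?_) hKr.le
        simp only [hH]
        split_ifs
        · exact (Df_U01 f _ _).1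
        · exact le_rfl
    refine (S.pf.mono bG1 ((Bdd.sum _ _ fun k _ => bH k).div_const K) hle).trans ?_
    rw [S.pf.div_const (Bdd.sum _ _ fun k _ => bH k), S.pf.sum _ _ fun k _ => bH k, div_le_iff₀ hKr]
    calc ∑ k ∈ Finset.range K, S.m (H k) ≤ ∑ k ∈ Finset.range K, ε / 2 := by
          refine Finset.sum_le_sum fun k _ => ?_
          have h2 := hNe (R * k)
          have e2 : ((M₀ : ℤ) * (R * k)) = (M : ℤ) * k := by rw [hMdef]; push_cast; ring
          rw [e2] at h2
          exact h2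
      _ = ε / 2 * K := by rw [Finset.sum_const, Finset.card_range, nsmul_eq_mul, mul_comm]
  have h2 : S.m G2 ≤ ε / 2 := by
    have hMr : (0 : ℝ) < M := by exact_mod_cast hM
    rw [m_classes74 S hM bG2]
    calc ∑ a ∈ Finset.range M, S.m (fun n => G2 (M * n + a)) / M
        ≤ ∑ a ∈ Finset.range M, (ε / 2) / M := by
          refine Finset.sum_le_sum fun a ha => div_le_div_of_nonneg_right ?_ hMr.le
          by_cases hRa : (R : ℤ) ∣ (a : ℤ)
          · have h3 := hK₀ a hRa K (hKa a ha)
            refine (S.pf.mono (bG2.comp _) ?_ fun n => ?_).trans h3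
            · exact (((Bdd.sum _ _ fun k _ => hFb.comp _).div_const K).sub (Bdd.const (d a))).abs
            · simp only [hG2]
              have hRM' : (R : ℤ) ∣ (M : ℤ) * n + a :=
                (Dvd.dvd.mul_right (by exact_mod_cast hRM) n).add hRa
              rw [if_pos hRM', hpa a ha n]
              refine (clamp_le74 (hAU _).1 (hAU _).2).trans (le_of_eq ?_)
              simp only [hA]
              congr 3
              refine Finset.sum_congr rfl fun k _ => ?_
              congr 1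
              ring
          · have h3 : ∀ n : ℤ, G2 (M * n + a) = 0 := by
              intro n
              simp only [hG2]
              rw [if_neg]
              intro h
              exact hRa ((Int.dvd_add_right (Dvd.dvd.mul_right (by exact_mod_cast hRM) n)).mp h)
            rw [S.pf.congr h3, S.pf.zero]
            linarith
      _ = ε / 2 := by
          rw [Finset.sum_const, Finset.card_range, nsmul_eq_mul]
          field_simp
  linarith

end Pool.Agent.LC79
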