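import Pool.Agent.Lib.MP_60922f_co.LC.V2_79
import Pool.Agent.Lib.MP_60922f_co.LC.M9T_39
import Pool.Agent.Lib.MP_60922f_co.LC.PR_74
import Pool.Agent.Lib.MP_60922f_co.LC.PP_29
import Pool.Agent.Lib.MP_60922f_co.LC.PK_29
import Pool.Agent.Lib.MP_60922f_co.LC.PQ_99
import Pool.Agent.Lib.MP_60922f_co.LC.ID_38
import Pool.Agent.Lib.MP_60922f_co.LC.LW_14
import Pool.Agent.Lib.MP_60922f_co.LC.Fin3_79
import Pool.Agent.Lib.MP_60922f_co.LC.Fin2_79

/-! LC: S3 and the structure theorem, assembled. -/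

set_option autoImplicit false

open Filter Topology

namespace Pool.Agent.LC79
open Pool.Agent.FinA

theorem s3_holds (S : MeanSys) : S3 S :=
  S3_of S (v2_holds S) (pr S)
    (pq S (m3 S (m2b S)) (lc1 S) (m9T S (P67.m7 S) (m8 S m6)) (pp S (m2a S)) (pk S)) (id_ S)

/-- a colouring whose densities in the progressions inside the multiples of `R` do not drift in a
sequence of log windows has an infinite monochromatic sum-product sequence -/
theorem noDrift_final (c : ℕ → Bool) (R : ℕ) (hR : 0 < R) (A B : ℕ → ℕ)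
    (hA : Tendsto A atTop atTop) (hB : Tendsto (fun j => (B j : ℝ) / A j) atTop atTop)
    (h : NoDriftW c R A B) : HasSeq c :=
  stat3 lw s3_holds c R hR A B hA hB h

/-- the structure theorem -/
theorem structure_final (c : ℕ → Bool) : HasSeq c ∨
    ∀ A B : ℕ → ℕ, Tendsto A atTop atTop → Tendsto (fun j => (B j : ℝ) / A j) atTop atTop →
      ∃ (φ : ℕ → ℕ) (d : ℕ → ℝ), StrictMono φ ∧
        (∀ t, Tendsto (fun j => wd c (A (φ j)) (B (φ j)) t) atTop (𝓝 (d t))) ∧
        ∀ ε > (0 : ℝ), ∃ M : ℕ, 0 < M ∧ ∀ k : ℕ, d (k * M) ≤ ε :=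
  stat2 lw v2_holds c

end Pool.Agent.LC79
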