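import Pool.Agent.Lib.MP_60922f_co.LC.Base79

/-!
LC: statements (as `Prop`s) of the modules of V1 (a colouring without infinite sum-product
sequences is almost periodic in mean on the even numbers).
`u < v` are positive, `z = v n + u w`, `z' = u n + v w`, `κ = v ^ 2 - u ^ 2`.
-/

set_option autoImplicit false

open Filter Topology

namespace Pool.Agent.LC79
open Pool.Agent.FinA Pool.Agent.FinClique
open Pool.Agent.FinA.M9m (B2 mm)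

/-- LA: the projection exists -/
def LA (S : MeanSys) : Prop := ∀ g, U01 g → ∃ φ, IsPr S g φ

/-- LB1: weakly mixing functions are orthogonal to almost periodic ones (with a dilation) -/
def LB1 (S : MeanSys) : Prop := ∀ ψ h : ℤ → ℝ, WM S ψ → AP1 S h → ∀ u : ℕ, 0 < u → ∀ s : ℤ,
  S.m (fun w => ψ (u * w + s) * h w) = 0

/-- LB2: bilinear Wiener property -/
def LB2 (S : MeanSys) : Prop := ∀ ψ : ℤ → ℝ, WM S ψ → ∀ F, Bdd F → ∀ u v : ℕ, 0 < u → 0 < v →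
  ∀ s : ℤ, S.m (fun n => |S.m (fun w => F w * ψ (v * n + u * w + s))|) = 0

/-- LB3: bilinear Wiener property with an almost periodic factor -/
def LB3 (S : MeanSys) : Prop := ∀ ψ θ : ℤ → ℝ, WM S ψ → AP1 S θ → ∀ F, Bdd F →
  ∀ u v a b : ℕ, 0 < u → 0 < v → 0 < a → 0 < b →
  S.m (fun n => |S.m (fun w => F w * θ (a * n + b * w) * ψ (v * n + u * w))|) = 0

/-- LC1: the K-move for tie cells -/
def LC1 (S : MeanSys) : Prop := ∀ (f : ℕ → Bool) (A B : Set ℤ) (u v : ℕ), 0 < u → 0 < v →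
  TieCell S f A → TieCell S f B → Kmv S f (Yset A B u v) (Yset A B v u) u v

/-- LD: the K-move for the projections of the two-point functions, the same `w` -/
def LD (S : MeanSys) : Prop := ∀ (f : ℕ → Bool) (Y Y' : Set ℤ) (u v : ℕ), 0 < u → u < v →
  Kmv S f Y Y' u v → ∀ (t : ℤ) (θ₁ θ₂ g : ℤ → ℝ), IsPr S (Df f (v * t)) θ₁ →
  IsPr S (Df f (u * t)) θ₂ → IsPr S (ind Y') g →
  S.m (fun n => ind {n | n ∈ Y ∧ n + t ∈ Y} n *
    S.m (fun w => g w * |θ₁ (v * n + u * w) - θ₂ (u * n + v * w)|)) = 0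

/-- LE: flatness of `θ₁`, seen from `Y` and `g ^ 2` (pigeonhole in `n`) -/
def LE (S : MeanSys) : Prop := ∀ g : ℤ → ℝ, U01 g → AP1 S g → ∀ u v : ℕ, 0 < u → u < v →
  ∀ R : ℕ, 0 < R → ∀ η > (0 : ℝ), ∃ δ > (0 : ℝ), ∀ (Y : Set ℤ) (θ₁ θ₂ : ℤ → ℝ), U01 θ₁ → U01 θ₂ →
    S.m (fun n => ind Y n *
      S.m (fun w => g w * |θ₁ (v * n + u * w) - θ₂ (u * n + v * w)|)) = 0 →
    ∀ τ : ℤ, modu S g τ ≤ δ →
      S.m (fun n => ind Y n * S.m (fun w => g w ^ 2 * |θ₁ (v * n + u * w) -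
        θ₁ (v * n + u * w + ((v : ℤ) ^ 2 - (u : ℤ) ^ 2) * (R.factorial * (u * τ)))|))
        ≤ 1 / (R + 1) + η

/-- LF: transfer from `{n, n + t ∈ Y}`, `g ^ 2` to `Y`, `Y'`, for typical small `t` -/
def LF (S : MeanSys) : Prop := ∀ (Y Y' : Set ℤ) (φ g : ℤ → ℝ), IsPr S (ind Y) φ →
  IsPr S (ind Y') g → ∀ u v : ℕ, 0 < u → u < v → ∀ η > (0 : ℝ), ∃ δ > (0 : ℝ), ∀ v₀ : ℕ, 0 < v₀ →
    ∃ B : Set ℤ, S.m (ind B) = 0 ∧ ∀ a ∉ B, modu S φ (v₀ * a) ≤ δ →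
      ∀ h : ℤ → ℝ, U01 h → AP1 S h → ∀ lam > (0 : ℝ),
        S.m (fun n => ind Y n * S.m (fun w => ind Y' w * h (v * n + u * w))) ≤
          lam + lam⁻¹ * (S.m (fun n => ind {n | n ∈ Y ∧ n + v₀ * a ∈ Y} n *
            S.m (fun w => g w ^ 2 * h (v * n + u * w))) + η)

/-- LG: flatness of the two-point functions seen from `Y` and `Y'`, for typical small times -/
def LG (S : MeanSys) : Prop := ∀ (f : ℕ → Bool) (Y Y' : Set ℤ) (u v : ℕ), 0 < u → u < v →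
  Kmv S f Y Y' u v → ∀ η > (0 : ℝ), ∃ (L : ℕ) (N : ℤ → ℝ) (δ : ℝ), 0 < L ∧ PN N ∧ 0 < δ ∧
    ∀ v₀ : ℕ, 0 < v₀ → ∃ B : Set ℤ, S.m (ind B) = 0 ∧ ∀ a ∉ B, N (v₀ * a) ≤ δ →
      ∀ θ : ℤ → ℝ, IsPr S (Df f (v * (v₀ * a))) θ → ∀ τ : ℤ, N τ ≤ δ →
        S.m (fun n => ind Y n * S.m (fun w => ind Y' w * |θ (v * n + u * w) -
          θ (v * n + u * w + ((v : ℤ) ^ 2 - (u : ℤ) ^ 2) * (L * (u * τ)))|)) ≤ η

/-- `Y`, `Y'` see that `f` is almost periodic in mean, at typical times -/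
def Rig (S : MeanSys) (f : ℕ → Bool) (Y Y' : Set ℤ) (u v : ℕ) : Prop :=
  ∀ ε > (0 : ℝ), ∃ (Q : ℕ) (N : ℤ → ℝ) (δ : ℝ) (B : Set ℤ), 0 < Q ∧ PN N ∧ 0 < δ ∧
    S.m (ind B) = 0 ∧ ∀ a ∉ B, N a ≤ δ →
      S.m (fun n => ind Y n * S.m (fun w => ind Y' w * Df f (Q * a) (v * n + u * w))) ≤ ε

/-- LH: rigid times (second pigeonhole) -/
def LH (S : MeanSys) : Prop := ∀ (f : ℕ → Bool) (Y Y' : Set ℤ) (u v : ℕ), 0 < u → u < v →
  Kmv S f Y Y' u v → Rig S f Y Y' u v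

/-- LI: the cells see almost every even number (from M10) -/
def LI (S : MeanSys) : Prop := ∀ (J : ℕ) (A : Fin J → Set ℤ),
  (∀ i j, i ≠ j → Disjoint (A i) (A j)) → ∀ ε > (0 : ℝ), 1 - ∑ i, S.m (ind (A i)) ≤ ε / 8 →
  ∃ (P : Finset (ℕ × ℕ)) (C : ℝ), (∀ p ∈ P, 0 < p.1 ∧ p.1 < p.2) ∧ 0 < C ∧
    ∀ d : ℤ → ℝ, U01 d → S.m (fun z => if Even z then d z else 0) ≤
      3 * ε + C * ∑ i, ∑ j, ∑ p ∈ P, S.m (fun n => ind (Yset (A i) (A j) p.1 p.2) n *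
        S.m (fun w => ind (Yset (A i) (A j) p.2 p.1) w * d (p.2 * n + p.1 * w)))

/-- V1: on the even numbers the colouring is almost periodic in mean -/
def V1 (S : MeanSys) : Prop := ∀ f : ℕ → Bool, InfBad f → ∀ ε > (0 : ℝ),
  ∃ (Q : ℕ) (N : ℤ → ℝ) (δ : ℝ), 0 < Q ∧ PN N ∧ 0 < δ ∧ ∀ b : ℤ, N b ≤ δ →
    S.m (fun z => if Even z then Df f (Q * b) z else 0) ≤ ε

/-- LJ: assembly -/
def LJ (S : MeanSys) : Prop := M3 S → LC1 S → LH S → LI S → V1 S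

/-- glue of V1 -/
theorem V1_of (S : MeanSys) (h3 : M3 S) (hc : LC1 S) (hh : LH S) (hi : LI S) (hj : LJ S) : V1 S :=
  hj h3 hc hh hi

end Pool.Agent.LC79
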