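import Pool.Agent.Lib.MP_60922f_co.LC.Stmts79

/-!
LC: statements (as `Prop`s) of the modules of V2 (no irrational frequencies: on the even numbers
the colouring is profinite in mean).
-/

set_option autoImplicit false

open Filter Topology

namespace Pool.Agent.LC79
open Pool.Agent.FinA Pool.Agent.FinClique
open Pool.Agent.FinA.M9m (B2 mm)

/-- density of the even `z` with `f (z + t) ≠ f z` -/
noncomputable def Ne (S : MeanSys) (f : ℕ → Bool) (t : ℤ) : ℝ :=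
  S.m (fun z => if Even z then Df f t z else 0)

/-- the same as a pseudonorm on all integers -/
noncomputable def NEv (S : MeanSys) (f : ℕ → Bool) (t : ℤ) : ℝ := if Even t then Ne S f t else 1

/-- VN: V1 says that `NEv` is totally bounded -/
def VN (S : MeanSys) : Prop := V1 S → ∀ f : ℕ → Bool, InfBad f → PN (NEv S f)

/-- distance to the nearest integer -/
noncomputable def nd (x : ℝ) : ℝ := |x - round x|

/-- VB: small balls of totally bounded pseudonorms contain Bohr sets -/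
def VB : Prop := ∀ N : ℤ → ℝ, PN N → ∀ δ > (0 : ℝ), ∃ (n : ℕ) (θ : Fin n → ℝ) (ρ : ℝ), 0 < ρ ∧
  ∀ t : ℤ, (∀ i, nd (θ i * t) ≤ ρ) → N t ≤ δ

/-- `1, β_1, …, β_d` are linearly independent over the rationals -/
def Indep {d : ℕ} (β : Fin d → ℝ) : Prop := ∀ (c : Fin d → ℤ) (c₀ : ℤ), ∑ l, c l * β l = c₀ → c = 0

/-- VQ: passage to independent frequencies and a modulus -/
def VQ : Prop := ∀ (n : ℕ) (θ : Fin n → ℝ) (ρ : ℝ), 0 < ρ →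
  ∃ (d M : ℕ) (β : Fin d → ℝ) (ρ' : ℝ), 0 < ρ' ∧ 0 < M ∧ 2 ∣ M ∧ Indep β ∧
    ∀ t : ℤ, (M : ℤ) ∣ t → (∀ l, nd (β l * t) ≤ ρ') → ∀ i, nd (θ i * t) ≤ ρ

/-- VK: Kronecker's theorem with a modulus -/
def VK : Prop := ∀ (d : ℕ) (β : Fin d → ℝ), Indep β → ∀ (M : ℕ), 0 < M → ∀ (x : Fin d → ℝ) (ρ : ℝ),
  0 < ρ → ∃ h : ℤ, (M : ℤ) ∣ h ∧ ∀ l, nd (β l * h - x l) ≤ ρ

/-- finite rank: `Ψ (x + s)` is a finite sum of products -/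
def FRank (Ψ : ℤ → ℝ) : Prop := ∃ (I : ℕ) (p q : Fin I → ℤ → ℝ), (∀ i, Bdd (p i)) ∧
  (∀ i, Bdd (q i)) ∧ ∀ x s, Ψ (x + s) = ∑ i, p i x * q i s

/-- a kernel: nonnegative, supported on multiples of `M`, of finite rank, all means equal to `1` -/
structure Ker (Ψ : ℤ → ℝ) (M : ℕ) : Prop where
  pos : 0 < M
  even : 2 ∣ M
  nonneg : ∀ x, 0 ≤ Ψ x
  bdd : Bdd Ψ
  supp : ∀ x, Ψ x ≠ 0 → (M : ℤ) ∣ x
  rank : FRank Ψ
  avg : ∀ ι > (0 : ℝ), ∃ S₀ : ℕ, ∀ L : ℕ, S₀ ≤ L → ∀ y : ℤ,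
    |(1 / (L : ℝ)) * ∑ s ∈ Finset.range L, Ψ (y + s) - 1| ≤ ι

/-- averages of the kernel along classes modulo `v` and modulo `u v` -/
structure KerUV (Ψ : ℤ → ℝ) (M u v : ℕ) : Prop where
  avg2 : ∀ ι > (0 : ℝ), ∃ S₀ : ℕ, ∀ L : ℕ, S₀ ≤ L → ∀ y a : ℤ,
    |(v / (L : ℝ)) * ∑ s ∈ Finset.range L, (if (v : ℤ) ∣ a + s then Ψ (y + 2 * s) else 0)
      - (if Even y then 2 else 0)| ≤ ι
  avg3 : ∀ ι > (0 : ℝ), ∃ S₀ : ℕ, ∀ L : ℕ, S₀ ≤ L → ∀ t y : ℤ, (M : ℤ) ∣ t →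
    (1 / (L : ℝ)) * ∑ s ∈ Finset.range L, (if (v : ℤ) ∣ t - s ∧ (u : ℤ) ∣ y + s then
      (u * v : ℝ) * Ψ (y + 2 * s) * ((1 / (L : ℝ)) * ∑ r ∈ Finset.range L,
        Ψ (u * ((t - s) / v) + r) * Ψ (v * ((y + s) / u) + r)) else 0)
      ≤ (if Even y then 2 * (M : ℝ) else 0) + ι

/-- VP: kernels concentrated on Bohr sets exist -/
def VP (S : MeanSys) : Prop := ∀ (d M : ℕ) (β : Fin d → ℝ) (ρ : ℝ), Indep β → 0 < M → 2 ∣ M →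
  0 < ρ → ∀ ε > (0 : ℝ), ∃ Ψ : ℤ → ℝ, Ker Ψ M ∧
    (∀ N : ℤ → ℝ, (∀ t, 0 ≤ N t ∧ N t ≤ 1) →
      (∀ t : ℤ, (M : ℤ) ∣ t → (∀ l, nd (β l * t) ≤ ρ) → N t ≤ ε) →
      S.m (fun t => Ψ t * N t) ≤ 2 * ε) ∧
    ∃ T : ℕ, ∀ u v : ℕ, u.Prime → v.Prime → T < u → T < v → u ≠ v → u ≡ v [MOD M] →
      KerUV Ψ M u v

/-- kernels for a totally bounded pseudonorm -/
def VPN (S : MeanSys) : Prop := ∀ N : ℤ → ℝ, PN N → (∀ t, N t ≤ 1) → ∀ δ > (0 : ℝ),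
  ∃ (Ψ : ℤ → ℝ) (M : ℕ), Ker Ψ M ∧ S.m (fun t => Ψ t * N t) ≤ δ ∧
    ∃ T : ℕ, ∀ u v : ℕ, u.Prime → v.Prime → T < u → T < v → u ≠ v → u ≡ v [MOD M] →
      KerUV Ψ M u v

/-- the four kernels -/
noncomputable def K4 (Ψ : ℤ → ℝ) (u v : ℕ) (n w s r : ℤ) : ℝ :=
  Ψ (v * n + s) * Ψ (u * w + s) * (Ψ (u * n + r) * Ψ (v * w + r))

/-- average over two shifts -/
noncomputable def E2 (L : ℕ) (G : ℤ → ℤ → ℝ) : ℝ :=
  (1 / (L : ℝ)) * ∑ s ∈ Finset.range L, (1 / (L : ℝ)) * ∑ r ∈ Finset.range L, G s r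

/-- VE: the error term -/
def VE (S : MeanSys) : Prop := ∀ (f : ℕ → Bool) (Ψ : ℤ → ℝ) (M u v : ℕ), Ker Ψ M → u.Prime →
  v.Prime → u ≠ v → KerUV Ψ M u v → ∀ ι > (0 : ℝ), ∃ S₀ : ℕ, ∀ L : ℕ, S₀ ≤ L →
    E2 L (fun s r => S.m (fun n => S.m (fun w => K4 Ψ u v n w s r *
      Df f (v * n + s) (u * w - s)))) ≤ 2 * M * S.m (fun t => Ψ t * NEv S f t) + ι

/-- the defect of `F (u w) = F (v w)`, `F` = the colour at the doubled phase -/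
noncomputable def Dful (S : MeanSys) (f : ℕ → Bool) (Ψ : ℤ → ℝ) (u v L : ℕ) : ℝ :=
  E2 L (fun s r => S.m (fun w => Ψ (u * w + s) * Ψ (v * w + r) *
    (if f (u * w - s).toNat = f (v * w - r).toNat then 0 else 1)))

/-- VM: main inequality (Cauchy-Schwarz over the cells, M7) -/
def VM (S : MeanSys) : Prop := ∀ f : ℕ → Bool, InfBad f → PN (NEv S f) → ∀ ε > (0 : ℝ),
  ∃ (Ψ : ℤ → ℝ) (M : ℕ), Ker Ψ M ∧ ∀ T : ℕ, ∃ u v : ℕ, u.Prime ∧ v.Prime ∧ T < u ∧ T < v ∧ u ≠ v ∧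
    KerUV Ψ M u v ∧ KerUV Ψ M v u ∧ ∃ S₀ : ℕ, ∀ L : ℕ, S₀ ≤ L → Dful S f Ψ u v L ≤ ε

/-- VKey: the modulus at `2 v h` against the modulus at `2 u h`, uniformly in `h` -/
def VKey (S : MeanSys) : Prop := ∀ f : ℕ → Bool, InfBad f → PN (NEv S f) → ∀ ε > (0 : ℝ), ∀ T : ℕ,
  ∃ u v : ℕ, u.Prime ∧ v.Prime ∧ T < u ∧ T < v ∧ u ≠ v ∧
    ∀ h : ℤ, Ne S f (2 * v * h) ≤ Ne S f (2 * u * h) + ε

/-- V2: on the even numbers the colouring is profinite in mean -/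
def V2 (S : MeanSys) : Prop := ∀ f : ℕ → Bool, InfBad f → ∀ ε > (0 : ℝ),
  ∃ M : ℕ, 0 < M ∧ 2 ∣ M ∧ ∀ k : ℤ, Ne S f (M * k) ≤ ε

/-- assembly of V2 -/
def VF (S : MeanSys) : Prop := V1 S → VN S → VB → VQ → VK → VKey S → V2 S

theorem V2_of (S : MeanSys) (h1 : V1 S) (hn : VN S) (hb : VB) (hq : VQ) (hk : VK) (hkey : VKey S)
    (hf : VF S) : V2 S := hf h1 hn hb hq hk hkey

end Pool.Agent.LC79
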