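import Pool.Agent.Lib.MP_60922f_co.FIN.M2_88
import Pool.Agent.Lib.MP_60922f_co.FIN.M3_5
import Pool.Agent.Lib.MP_60922f_co.FIN.M5_74
import Pool.Agent.Lib.MP_60922f_co.FIN.M6_24
import Pool.Agent.Lib.MP_60922f_co.FIN.M8_78
import Pool.Agent.Lib.MP_60922f_co.FIN.M9_43
import Pool.Agent.Lib.MP_60922f_co.FIN.Prime67
import Pool.Agent.Lib.MP_60922f_co.LC.LA_42
import Pool.Agent.Lib.MP_60922f_co.LC.LB_90
import Pool.Agent.Lib.MP_60922f_co.LC.LD_99
import Pool.Agent.Lib.MP_60922f_co.LC.LE_70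
import Pool.Agent.Lib.MP_60922f_co.LC.LF_77
import Pool.Agent.Lib.MP_60922f_co.LC.LG_42
import Pool.Agent.Lib.MP_60922f_co.LC.LH_77
import Pool.Agent.Lib.MP_60922f_co.LC.LI_42
import Pool.Agent.Lib.MP_60922f_co.LC.LJ_77

/-! LC: V1, assembled: a colouring without infinite sum-product sequences is almost periodic in
mean on the even numbers. -/

set_option autoImplicit false

namespace Pool.Agent.LC79
open Pool.Agent.FinA

theorem m10_holds (S : MeanSys) : M10 S :=
  m10 S (m5 S (m2a S) (m4 S)) (m9 S (P67.m7 S) (m8 S m6))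

theorem la_holds (S : MeanSys) : LA S := la S (m2a S)

theorem lg_holds (S : MeanSys) : LG S :=
  lg S (la_holds S) (ld S (lb1 S) (lb3 S)) (le S) (lf S (lb1 S))

theorem v1_holds (S : MeanSys) : V1 S :=
  V1_of S (m3 S (m2b S)) (lc1 S) (lh S (la_holds S) (lb2 S) (lg_holds S)) (li S (m10_holds S)) (lj S)

end Pool.Agent.LC79
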