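import Pool.Agent.Lib.MP_60922f_co.LC.ND_14

/-!
LC, module VB: a small ball of a totally bounded pseudonorm on `ℤ` contains a Bohr set
(the argument of Bogolyubov in `ℤ / 5 L`, then compactness).
-/

set_option autoImplicit false

open Filter Topology

namespace Pool.Agent.LC79
open Pool.Agent.FinA Pool.Agent.FinClique

namespace VB14
open ND14

/-- the additive character -/
noncomputable def ps (q : ℕ) [NeZero q] : AddChar (ZMod q) ℂ := ZMod.stdAddChar

/-- the exponential sum of a set -/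
noncomputable def hA (q : ℕ) [NeZero q] (A : Finset ℤ) (x : ZMod q) : ℂ :=
  ∑ a ∈ A, ps q ((a : ZMod q) * x)

lemma norm_ps {q : ℕ} [NeZero q] (x : ZMod q) : ‖ps q x‖ = 1 := AddChar.norm_apply _ _

lemma conj_ps {q : ℕ} [NeZero q] (x : ZMod q) : (starRingEnd ℂ) (ps q x) = ps q (-x) := by
  rw [AddChar.map_neg_eq_conj]

lemma sum_ps {q : ℕ} [NeZero q] (b : ZMod q) :
    ∑ x : ZMod q, ps q (b * x) = if b = 0 then (q : ℂ) else 0 := by
  have h := AddChar.sum_mulShift (ψ := ps q) b (ZMod.isPrimitive_stdAddChar q)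
  rw [ZMod.card] at h
  have h2 : ∑ x : ZMod q, ps q (b * x) = ∑ x : ZMod q, ps q (x * b) :=
    Finset.sum_congr rfl fun x _ => by rw [mul_comm]
  rw [h2, h]
  split_ifs <;> simp

lemma conj_hA {q : ℕ} [NeZero q] (A : Finset ℤ) (x : ZMod q) :
    (starRingEnd ℂ) (hA q A x) = ∑ a ∈ A, ps q (-((a : ZMod q) * x)) := by
  unfold hA
  rw [map_sum]
  exact Finset.sum_congr rfl fun a _ => conj_ps _

lemma norm_hA_le {q : ℕ} [NeZero q] (A : Finset ℤ) (x : ZMod q) : ‖hA q A x‖ ≤ A.card := by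
  refine (norm_sum_le _ _).trans (le_of_eq ?_)
  simp

lemma hA_zero {q : ℕ} [NeZero q] (A : Finset ℤ) : hA q A 0 = A.card := by
  unfold hA
  simp

/-- Parseval -/
lemma parseval {q : ℕ} [NeZero q] (A : Finset ℤ)
    (hinj : ∀ a ∈ A, ∀ b ∈ A, (a : ZMod q) = b → a = b) :
    ∑ x : ZMod q, ‖hA q A x‖ ^ 2 = q * A.card := by
  have h1 : ∑ x : ZMod q, ((‖hA q A x‖ ^ 2 : ℝ) : ℂ) = ((q * A.card : ℝ) : ℂ) := by
    have h2 : ∀ x : ZMod q, ((‖hA q A x‖ ^ 2 : ℝ) : ℂ) =
        ∑ a ∈ A, ∑ b ∈ A, ps q (((a : ZMod q) - b) * x) := by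
      intro x
      rw [← Complex.normSq_eq_norm_sq, ← Complex.mul_conj, conj_hA]
      unfold hA
      rw [Finset.sum_mul_sum]
      refine Finset.sum_congr rfl fun a _ => Finset.sum_congr rfl fun b _ => ?_
      rw [← AddChar.map_add_eq_mul]
      congr 1
      ring
    simp_rw [h2]
    rw [Finset.sum_comm]
    have h3 : ∀ a ∈ A, ∑ x : ZMod q, ∑ b ∈ A, ps q (((a : ZMod q) - b) * x) = q := by
      intro a ha
      rw [Finset.sum_comm]
      simp_rw [sum_ps]
      rw [Finset.sum_eq_single_of_mem a ha]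
      · rw [sub_self, if_pos rfl]
      · intro b hb hab
        rw [if_neg]
        intro h
        exact hab (hinj a ha b hb (sub_eq_zero.mp h)).symm
    rw [Finset.sum_congr rfl h3]
    simp
    ring
  rw [← Complex.ofReal_sum] at h1
  exact_mod_cast h1

/-- if `t` is not in `A + A - A - A` modulo `q`, the fourth moment with the phase vanishes -/
lemma fourth {q : ℕ} [NeZero q] (A : Finset ℤ) (t : ZMod q)
    (ht : ∀ a ∈ A, ∀ b ∈ A, ∀ c ∈ A, ∀ d ∈ A, ((a : ZMod q) + b - c - d) ≠ t) :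
    ∑ x : ZMod q, ((‖hA q A x‖ ^ 4 : ℝ) : ℂ) * ps q (-(t * x)) = 0 := by
  have h2 : ∀ x : ZMod q, ((‖hA q A x‖ ^ 4 : ℝ) : ℂ) * ps q (-(t * x)) =
      ∑ a ∈ A, ∑ b ∈ A, ∑ c ∈ A, ∑ d ∈ A, ps q (((a : ZMod q) + b - c - d - t) * x) := by
    intro x
    have h3 : ((‖hA q A x‖ ^ 4 : ℝ) : ℂ) = (hA q A x * hA q A x) *
        ((starRingEnd ℂ) (hA q A x) * (starRingEnd ℂ) (hA q A x)) := by
      have : ((‖hA q A x‖ ^ 2 : ℝ) : ℂ) = hA q A x * (starRingEnd ℂ) (hA q A x) := by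
        rw [Complex.mul_conj, Complex.normSq_eq_norm_sq]
      calc ((‖hA q A x‖ ^ 4 : ℝ) : ℂ) = ((‖hA q A x‖ ^ 2 : ℝ) : ℂ) * ((‖hA q A x‖ ^ 2 : ℝ) : ℂ) := by
            push_cast
            ring
        _ = _ := by
            rw [this]
            ring
    rw [h3, conj_hA]
    unfold hA
    rw [Finset.sum_mul_sum, Finset.sum_mul_sum, Finset.sum_mul, Finset.sum_mul]
    refine Finset.sum_congr rfl fun a _ => ?_
    rw [Finset.sum_mul, Finset.sum_mul]
    refine Finset.sum_congr rfl fun b _ => ?_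
    rw [Finset.mul_sum, Finset.sum_mul]
    refine Finset.sum_congr rfl fun c _ => ?_
    rw [Finset.mul_sum, Finset.sum_mul]
    refine Finset.sum_congr rfl fun d _ => ?_
    rw [← AddChar.map_add_eq_mul, ← AddChar.map_add_eq_mul, ← AddChar.map_add_eq_mul,
      ← AddChar.map_add_eq_mul]
    congr 1
    ring
  simp_rw [h2]
  rw [Finset.sum_comm]
  refine Finset.sum_eq_zero fun a ha => ?_
  rw [Finset.sum_comm]
  refine Finset.sum_eq_zero fun b hb => ?_
  rw [Finset.sum_comm]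
  refine Finset.sum_eq_zero fun c hc => ?_
  rw [Finset.sum_comm]
  refine Finset.sum_eq_zero fun d hd => ?_
  rw [sum_ps, if_neg]
  exact fun h => ht a ha b hb c hc d hd (sub_eq_zero.mp h)

/-- the character in terms of `ee` -/
lemma ps_eq {q : ℕ} [NeZero q] (t : ℤ) (x : ZMod q) :
    ps q (-((t : ZMod q) * x)) = ee (-(((x.val : ℝ) / q) * t)) := by
  have h1 : (-((t : ZMod q) * x)) = ((-(t * (x.val : ℤ)) : ℤ) : ZMod q) := by
    push_cast
    rw [ZMod.natCast_zmod_val]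
  rw [h1]
  unfold ps ee
  rw [ZMod.stdAddChar_coe]
  congr 1
  push_cast
  ring

/-- Bogolyubov's lemma in `ℤ / q`: the large frequencies -/
lemma bogo {q : ℕ} [NeZero q] (A : Finset ℤ) (hinj : ∀ a ∈ A, ∀ b ∈ A, (a : ZMod q) = b → a = b)
    (k : ℕ) (hk : (q : ℝ) < k * A.card) :
    ∃ Λ : Finset (ZMod q), Λ.card ≤ k ^ 2 ∧ ∀ t : ℤ,
      (∀ x ∈ Λ, nd (((x.val : ℝ) / q) * t) ≤ 1 / 4) →
      ∃ a ∈ A, ∃ b ∈ A, ∃ c ∈ A, ∃ d ∈ A, ((a : ZMod q) + b - c - d) = t := by
  classical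
  have hq0 : (0 : ℝ) < q := by exact_mod_cast Nat.pos_of_ne_zero (NeZero.ne q)
  have hA0 : (0 : ℝ) < A.card := by
    by_contra h
    have h1 : (A.card : ℝ) = 0 := le_antisymm (not_lt.mp h) (Nat.cast_nonneg _)
    rw [h1, mul_zero] at hk
    linarith
  have hk0 : (0 : ℝ) < k := by
    by_contra h
    have h1 : (k : ℝ) = 0 := le_antisymm (not_lt.mp h) (Nat.cast_nonneg _)
    rw [h1, zero_mul] at hk
    linarith
  -- the large spectrum
  let Λ : Finset (ZMod q) := Finset.univ.filter fun x =>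
    (A.card : ℝ) ^ 2 ≤ k * ‖hA q A x‖ ^ 2
  refine ⟨Λ, ?_, fun t ht => ?_⟩
  · have h1 : (Λ.card : ℝ) * (A.card : ℝ) ^ 2 ≤ k * (q * A.card) := by
      rw [← parseval A hinj, Finset.mul_sum]
      calc (Λ.card : ℝ) * (A.card : ℝ) ^ 2 = ∑ x ∈ Λ, (A.card : ℝ) ^ 2 := by
            rw [Finset.sum_const, nsmul_eq_mul]
        _ ≤ ∑ x ∈ Λ, k * ‖hA q A x‖ ^ 2 :=
            Finset.sum_le_sum fun x hx => (Finset.mem_filter.mp hx).2
        _ ≤ _ := Finset.sum_le_sum_of_subset_of_nonneg (Finset.subset_univ _)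
            fun x _ _ => by positivity
    have h2 : (Λ.card : ℝ) * (A.card : ℝ) ^ 2 ≤ (k : ℝ) ^ 2 * (A.card : ℝ) ^ 2 := by
      refine h1.trans ?_
      have : (k : ℝ) * (q * A.card) ≤ k * ((k * A.card) * A.card) := by gcongr
      nlinarith
    have h3 : (Λ.card : ℝ) ≤ (k : ℝ) ^ 2 := le_of_mul_le_mul_right h2 (by positivity)
    exact_mod_cast h3
  · by_contra hcon
    push Not at hcon
    have h0 := fourth A (t : ZMod q) fun a ha b hb c hc d hd => hcon a ha b hb c hc d hd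
    have h1 := congrArg Complex.re h0
    rw [Complex.re_sum, Complex.zero_re] at h1
    simp_rw [Complex.re_ofReal_mul, ps_eq, re_ee] at h1
    -- split the sum
    have h2 : ∀ x : ZMod q, (if x = 0 then (A.card : ℝ) ^ 4 else 0) -
        (A.card : ℝ) ^ 2 / k * ‖hA q A x‖ ^ 2 + (if x = 0 then (A.card : ℝ) ^ 4 / k else 0) ≤
        ‖hA q A x‖ ^ 4 * Real.cos (2 * Real.pi * -(((x.val : ℝ) / q) * t)) := by
      intro x
      by_cases hx0 : x = 0
      · subst hx0
        rw [if_pos rfl, if_pos rfl, hA_zero, ZMod.val_zero]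
        simp
        ring_nf
        rfl
      · rw [if_neg hx0, if_neg hx0, zero_sub, add_zero]
        by_cases hx : x ∈ Λ
        · have h3 : 0 ≤ Real.cos (2 * Real.pi * -(((x.val : ℝ) / q) * t)) := by
            apply cos_nonneg
            rw [nd_neg]
            exact ht x hx
          have h4 : 0 ≤ (A.card : ℝ) ^ 2 / k * ‖hA q A x‖ ^ 2 := by positivity
          have h5 := mul_nonneg (pow_nonneg (norm_nonneg (hA q A x)) 4) h3
          linarith
        · have h3 : ‖hA q A x‖ ^ 2 ≤ (A.card : ℝ) ^ 2 / k := by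
            have : ¬ (A.card : ℝ) ^ 2 ≤ k * ‖hA q A x‖ ^ 2 := fun h =>
              hx (Finset.mem_filter.mpr ⟨Finset.mem_univ _, h⟩)
            rw [le_div_iff₀ hk0]
            linarith [not_le.mp this]
          have h4 : ‖hA q A x‖ ^ 4 ≤ (A.card : ℝ) ^ 2 / k * ‖hA q A x‖ ^ 2 := by
            calc ‖hA q A x‖ ^ 4 = ‖hA q A x‖ ^ 2 * ‖hA q A x‖ ^ 2 := by ring
              _ ≤ _ := by gcongr
          have h5 := Real.neg_one_le_cos (2 * Real.pi * -(((x.val : ℝ) / q) * t))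
          have h6 : 0 ≤ ‖hA q A x‖ ^ 4 := by positivity
          nlinarith
    have h3 := Finset.sum_le_sum fun x (_ : x ∈ Finset.univ) => h2 x
    rw [h1, Finset.sum_add_distrib, Finset.sum_sub_distrib, ← Finset.mul_sum, parseval A hinj,
      Finset.sum_ite_eq' Finset.univ, Finset.sum_ite_eq' Finset.univ] at h3
    simp only [Finset.mem_univ, if_true] at h3
    have h4 : (A.card : ℝ) ^ 2 / k * (q * A.card) < (A.card : ℝ) ^ 4 := by
      rw [div_mul_eq_mul_div, div_lt_iff₀ hk0]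
      have : (q : ℝ) * (A.card : ℝ) ^ 3 < (k * A.card) * (A.card : ℝ) ^ 3 := by gcongr
      nlinarith
    have h5 : 0 ≤ (A.card : ℝ) ^ 4 / k := by positivity
    linarith

/-- the finite version -/
lemma finite_vb {N : ℤ → ℝ} (hN : PN N) {δ : ℝ} (hδ : 0 < δ) : ∃ n : ℕ, ∀ L : ℕ, 0 < L →
    ∃ θ : Fin n → ℝ, (∀ i, 0 ≤ θ i ∧ θ i ≤ 1) ∧ ∀ t : ℤ, |t| ≤ L →
      (∀ i, nd (θ i * t) ≤ 1 / 4) → N t ≤ δ := by
  classical
  obtain ⟨P, hP⟩ := hN.tb (δ / 4) (by linarith)
  set k : ℕ := 5 * (P.card + 1) with hk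
  refine ⟨k ^ 2, fun L hL => ?_⟩
  have hL0 : (0 : ℝ) < L := by exact_mod_cast hL
  let I : Finset ℤ := Finset.Ico 0 (L : ℤ)
  have hI : I.card = L := by simp [I]
  -- a large class
  obtain ⟨s, hs, hcard⟩ : ∃ s ∈ P, L < (P.card + 1) * (I.filter fun t => N (t - s) ≤ δ / 4).card := by
    by_contra hcon
    push Not at hcon
    have h1 : I ⊆ P.biUnion fun s => I.filter fun t => N (t - s) ≤ δ / 4 := by
      intro t ht
      obtain ⟨s, hs, h⟩ := hP t
      exact Finset.mem_biUnion.mpr ⟨s, hs, Finset.mem_filter.mpr ⟨ht, h⟩⟩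
    have h2 := (Finset.card_le_card h1).trans Finset.card_biUnion_le
    rw [hI] at h2
    have h3 : (P.card + 1) * L ≤ P.card * L := by
      calc (P.card + 1) * L ≤ (P.card + 1) * ∑ s ∈ P, (I.filter fun t => N (t - s) ≤ δ / 4).card :=
            Nat.mul_le_mul_left _ h2
        _ = ∑ s ∈ P, (P.card + 1) * (I.filter fun t => N (t - s) ≤ δ / 4).card := by
            rw [Finset.mul_sum]
        _ ≤ ∑ s ∈ P, L := Finset.sum_le_sum fun s hs => hcon s hs
        _ = _ := by rw [Finset.sum_const, smul_eq_mul]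
    have : (P.card + 1) * L = P.card * L + L := by ring
    omega
  set A : Finset ℤ := I.filter fun t => N (t - s) ≤ δ / 4 with hA
  have hAmem : ∀ a ∈ A, 0 ≤ a ∧ a < L ∧ N (a - s) ≤ δ / 4 := by
    intro a ha
    rw [hA, Finset.mem_filter, Finset.mem_Ico] at ha
    exact ⟨ha.1.1, ha.1.2, ha.2⟩
  have hqne : NeZero (5 * L) := ⟨by omega⟩
  have hcong : ∀ z : ℤ, |z| < 5 * L → (z : ZMod (5 * L)) = 0 → z = 0 := by
    intro z hz h
    rw [ZMod.intCast_zmod_eq_zero_iff_dvd] at h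
    refine Int.eq_zero_of_abs_lt_dvd h ?_
    push_cast
    exact hz
  have hinj : ∀ a ∈ A, ∀ b ∈ A, (a : ZMod (5 * L)) = b → a = b := by
    intro a ha b hb h
    have h1 := hAmem a ha
    have h2 := hAmem b hb
    have h3 : ((a - b : ℤ) : ZMod (5 * L)) = 0 := by push_cast; rw [h, sub_self]
    have := hcong (a - b) (by rw [abs_lt]; constructor <;> linarith) h3
    linarith
  obtain ⟨Λ, hΛ, hb⟩ := bogo (q := 5 * L) A hinj k (by
    rw [hk]
    have : (L : ℝ) < (P.card + 1) * (A.card : ℝ) := by exact_mod_cast hcard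
    push_cast
    linarith)
  -- list the frequencies
  let e := Λ.equivFin
  refine ⟨fun i => if h : i.1 < Λ.card then
    (((e.symm ⟨i.1, h⟩).1.val : ℝ) / ((5 * L : ℕ) : ℝ)) else 0, fun i => ?_, fun t ht hθ => ?_⟩
  · dsimp only
    split_ifs with h
    · refine ⟨by positivity, ?_⟩
      rw [div_le_one (by push_cast; positivity)]
      exact_mod_cast (ZMod.val_lt _).le
    · norm_num
  · obtain ⟨a, ha, b, hb', c, hc, d, hd, h⟩ := hb t (by
      intro x hx
      have h1 : (e ⟨x, hx⟩).1 < k ^ 2 := lt_of_lt_of_le (e ⟨x, hx⟩).2 hΛ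
      have h2 := hθ ⟨(e ⟨x, hx⟩).1, h1⟩
      simp only [(e ⟨x, hx⟩).2, dif_pos] at h2
      simpa using h2)
    have h1 := hAmem a ha
    have h2 := hAmem b hb'
    have h3 := hAmem c hc
    have h4 := hAmem d hd
    have h5 : a + b - c - d = t := by
      have h6 : ((a + b - c - d - t : ℤ) : ZMod (5 * L)) = 0 := by
        push_cast
        rw [h, sub_self]
      have h7 := abs_le.mp ht
      have := hcong (a + b - c - d - t) (by rw [abs_lt]; constructor <;> linarith) h6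
      linarith
    have h6 : t = (a - s) + (b - s) + ((-(c - s)) + (-(d - s))) := by rw [← h5]; ring
    have h7 := hN.add ((a - s) + (b - s)) ((-(c - s)) + (-(d - s)))
    have h8 := hN.add (a - s) (b - s)
    have h9 := hN.add (-(c - s)) (-(d - s))
    rw [hN.neg, hN.neg] at h9
    rw [← h6] at h7
    linarith

end VB14

open ND14 in
/-- VB -/
theorem vb : VB := by
  intro N hN δ hδ
  obtain ⟨n, hn⟩ := VB14.finite_vb hN hδ
  choose θ hθ1 hθ2 using fun L : ℕ => hn (L + 1) (Nat.succ_pos L)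
  have hcpt : IsCompact (Set.Icc (0 : Fin n → ℝ) 1) := isCompact_Icc
  obtain ⟨θ₀, -, φ, hφ, hlim⟩ := hcpt.tendsto_subseq (x := θ) fun L =>
    ⟨fun i => (hθ1 L i).1, fun i => (hθ1 L i).2⟩
  refine ⟨n, θ₀, 1 / 8, by norm_num, fun t ht => ?_⟩
  have h1 : ∀ᶠ L in atTop, ∀ i, |θ (φ L) i - θ₀ i| * |(t : ℝ)| ≤ 1 / 8 := by
    rw [Filter.eventually_all]
    intro i
    have h2 : Tendsto (fun L => θ (φ L) i) atTop (𝓝 (θ₀ i)) := (tendsto_pi_nhds.mp hlim) i
    have h3 : Tendsto (fun L => |θ (φ L) i - θ₀ i| * |(t : ℝ)|) atTop (𝓝 (|θ₀ i - θ₀ i| * |(t : ℝ)|)) :=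
      ((h2.sub_const _).abs).mul_const _
    rw [sub_self, abs_zero, zero_mul] at h3
    exact (h3.eventually_lt_const (by norm_num : (0 : ℝ) < 1 / 8)).mono fun L h => h.le
  have h2 : ∀ᶠ L in atTop, t.natAbs ≤ φ L := hφ.tendsto_atTop.eventually_ge_atTop _
  obtain ⟨L, hL1, hL2⟩ := (h1.and h2).exists
  refine hθ2 (φ L) t ?_ fun i => ?_
  · rw [Int.abs_eq_natAbs]
    exact Int.ofNat_le.mpr (hL2.trans (Nat.le_succ _))
  · refine (nd_lip _ (θ₀ i * t)).trans ?_
    have h3 : |θ (φ L) i * t - θ₀ i * t| = |θ (φ L) i - θ₀ i| * |(t : ℝ)| := by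
      rw [← sub_mul, abs_mul]
    rw [h3]
    have := ht i
    have := hL1 i
    linarith

end Pool.Agent.LC79
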