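import Pool.Agent.Lib.MP_60922f_co.LC.StmtsV2_79

/-!
LC, module VE: the error term of the double phase matching.
-/

set_option autoImplicit false

open Filter Topology

namespace Pool.Agent.LC79
open Pool.Agent.FinA Pool.Agent.FinClique
open Pool.Agent.FinA.M9m (B2 mm)

namespace VE77

variable {S : MeanSys}

lemma subst1 {h : ℤ → ℝ} (hh : Bdd h) {u : ℕ} (hu : 0 < u) (s : ℤ) :
    S.m h = u * S.m (fun y => ind (cls 0 u) (y + s) * h ((y + s) / u)) := by
  have hu' : (u : ℤ) ≠ 0 := by exact_mod_cast hu.ne'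
  have hb : Bdd (fun x => h (x / u)) := hh.comp _
  have h1 := S.m_dil' hu hb
  have h2 : S.m (fun n => h ((u : ℤ) * n / u)) = S.m h :=
    S.pf.congr fun n => by rw [Int.mul_ediv_cancel_left _ hu']
  rw [h2] at h1
  rw [h1, ← S.m_shift s ((ind_bdd (cls 0 u)).mul hb)]

lemma subst2 {g : ℤ → ℤ → ℝ} (hg : B2 g) {u v : ℕ} (hu : 0 < u) (hv : 0 < v) (s : ℤ) :
    mm S g = mm S (fun t y => (v : ℝ) * u * (ind (cls 0 v) (t - s) * ind (cls 0 u) (y + s)) *
      g ((t - s) / v) ((y + s) / u)) := by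
  unfold M9m.mm
  have h1 := subst1 (S := S) (hg.outer S) hv (-s)
  rw [h1, ← S.pf.smul (v : ℝ)]
  · refine S.pf.congr fun t => ?_
    simp only [← sub_eq_add_neg]
    rw [subst1 (S := S) (hg.row ((t - s) / v)) hu s]
    have hb : Bdd (fun y => ind (cls 0 u) (y + s) * g ((t - s) / v) ((y + s) / u)) :=
      ((ind_bdd (cls 0 u)).shift s).mul ((hg.row ((t - s) / v)).comp fun y => (y + s) / u)
    have e : (v : ℝ) * (ind (cls 0 v) (t - s) *
        (u * S.m (fun y => ind (cls 0 u) (y + s) * g ((t - s) / v) ((y + s) / u)))) =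
        ((v : ℝ) * u * ind (cls 0 v) (t - s)) *
          S.m (fun y => ind (cls 0 u) (y + s) * g ((t - s) / v) ((y + s) / u)) := by ring
    rw [e, ← S.pf.smul _ hb]
    exact S.pf.congr fun y => by ring
  · exact ((ind_bdd (cls 0 v)).shift (-s)).mul ((hg.outer S).comp fun t => (t + -s) / v)

/-- the pulled back integrand -/
noncomputable def Ph (Ψ : ℤ → ℝ) (u v : ℕ) (s r t y : ℤ) : ℝ :=
  if (v : ℤ) ∣ t - s ∧ (u : ℤ) ∣ y + s then
    (u * v : ℝ) * Ψ (y + 2 * s) * (Ψ (u * ((t - s) / v) + r) * Ψ (v * ((y + s) / u) + r)) else 0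

lemma pull (f : ℕ → Bool) (Ψ : ℤ → ℝ) {u v : ℕ} (hu : 0 < u) (hv : 0 < v) (s r t y : ℤ) :
    (v : ℝ) * u * (ind (cls 0 v) (t - s) * ind (cls 0 u) (y + s)) *
      (K4 Ψ u v ((t - s) / v) ((y + s) / u) s r *
        Df f (v * ((t - s) / v) + s) (u * ((y + s) / u) - s)) =
      Ψ t * Df f t y * Ph Ψ u v s r t y := by
  have hu' : (u : ℤ) ≠ 0 := by exact_mod_cast hu.ne'
  have hv' : (v : ℤ) ≠ 0 := by exact_mod_cast hv.ne'
  unfold Ph
  by_cases h1 : (v : ℤ) ∣ t - s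
  · by_cases h2 : (u : ℤ) ∣ y + s
    · rw [if_pos ⟨h1, h2⟩]
      have m1 : t - s ∈ cls 0 v := by simpa [cls] using h1
      have m2 : y + s ∈ cls 0 u := by simpa [cls] using h2
      rw [ind_of_mem m1, ind_of_mem m2]
      have e1 : (v : ℤ) * ((t - s) / v) = t - s := Int.mul_ediv_cancel' h1
      have e2 : (u : ℤ) * ((y + s) / u) = y + s := Int.mul_ediv_cancel' h2
      unfold K4
      rw [e1, e2, show t - s + s = t by ring, show y + s + s = y + 2 * s by ring,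
        show y + s - s = y by ring]
      ring
    · rw [if_neg (fun h => h2 h.2)]
      have m2 : y + s ∉ cls 0 u := by simpa [cls] using h2
      rw [ind_of_notMem m2]; ring
  · rw [if_neg (fun h => h1 h.1)]
    have m1 : t - s ∉ cls 0 v := by simpa [cls] using h1
    rw [ind_of_notMem m1]; ring

lemma B2.ite {P : ℤ → ℤ → Prop} [∀ n w, Decidable (P n w)] {F : ℤ → ℤ → ℝ} (hF : B2 F) :
    B2 (fun n w => if P n w then F n w else 0) := by
  obtain ⟨C, hC⟩ := hF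
  refine ⟨C, fun n w => ?_⟩
  beta_reduce
  split_ifs
  · exact hC n w
  · rw [abs_zero]; exact (abs_nonneg _).trans (hC n w)

lemma Ph_b2 {Ψ : ℤ → ℝ} (hΨ : Bdd Ψ) (u v : ℕ) (s r : ℤ) : B2 (Ph Ψ u v s r) := by
  unfold Ph
  refine B2.ite (P := fun t y => (v : ℤ) ∣ t - s ∧ (u : ℤ) ∣ y + s) ?_
  exact (M9m.B2.smul ((u : ℝ) * v) (M9m.B2.of hΨ fun _ y => y + 2 * s)).mul
    ((M9m.B2.of hΨ fun t _ => u * ((t - s) / v) + r).mul
      (M9m.B2.of hΨ fun _ y => v * ((y + s) / u) + r))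

lemma K4_b2 {Ψ : ℤ → ℝ} (hΨ : Bdd Ψ) (u v : ℕ) (s r : ℤ) : B2 (fun n w => K4 Ψ u v n w s r) := by
  unfold K4
  exact ((M9m.B2.of hΨ fun n _ => v * n + s).mul (M9m.B2.of hΨ fun _ w => u * w + s)).mul
    ((M9m.B2.of hΨ fun n _ => u * n + r).mul (M9m.B2.of hΨ fun _ w => v * w + r))

lemma Df2_b2 (f : ℕ → Bool) (a b : ℤ → ℤ → ℤ) : B2 (fun n w => Df f (a n w) (b n w)) :=
  ⟨1, fun _ _ => (Df_U01 f _).abs_le_one _⟩

end VE77

open VE77 in
theorem ve (S : MeanSys) : VE S := by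
  intro f Ψ M u v hK hu hv huv hKer ι hι
  have hu0 := hu.pos
  have hv0 := hv.pos
  obtain ⟨C, hC0, hC⟩ := hK.bdd.pos_bound
  obtain ⟨S₀, hS₀⟩ := hKer.avg3 (ι / C) (by positivity)
  refine ⟨S₀, fun L hL => ?_⟩
  have hΨ := hK.bdd
  -- rewrite each mean
  have h1 : ∀ s r : ℤ, S.m (fun n => S.m (fun w => K4 Ψ u v n w s r *
      Df f (v * n + s) (u * w - s))) =
      mm S (fun t y => Ψ t * Df f t y * Ph Ψ u v s r t y) := by
    intro s r
    have hb : B2 (fun n w : ℤ => K4 Ψ u v n w s r * Df f (v * n + s) (u * w - s)) :=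
      (K4_b2 hΨ u v s r).mul (Df2_b2 f (fun n w => v * n + s) fun n w => u * w - s)
    have := subst2 (S := S) hb hu0 hv0 s
    unfold M9m.mm at this ⊢
    rw [this]
    exact S.pf.congr fun t => S.pf.congr fun y => pull f Ψ hu0 hv0 s r t y
  have hTD : B2 (fun t y : ℤ => Ψ t * Df f t y) :=
    (M9m.B2.of hΨ fun t _ => t).mul (Df2_b2 f (fun t _ => t) fun _ y => y)
  have hb0 : ∀ s r : ℤ, B2 (fun t y : ℤ => Ψ t * Df f t y * Ph Ψ u v s r t y) := fun s r =>
    hTD.mul (Ph_b2 hΨ u v s r)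
  have hb1 : ∀ s : ℤ, B2 (fun t y : ℤ => (1 / (L : ℝ)) * ∑ r ∈ Finset.range L,
      Ψ t * Df f t y * Ph Ψ u v s r t y) := fun s =>
    M9m.B2.smul _ (M9m.B2.sum _ fun (r : ℕ) _ => hb0 s (r : ℤ))
  have h2 : E2 L (fun s r => S.m (fun n => S.m (fun w => K4 Ψ u v n w s r *
      Df f (v * n + s) (u * w - s)))) =
      mm S (fun t y => (1 / (L : ℝ)) * ∑ s ∈ Finset.range L, (1 / (L : ℝ)) *
        ∑ r ∈ Finset.range L, Ψ t * Df f t y * Ph Ψ u v s r t y) := by
    unfold E2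
    rw [M9m.mm_smul _ (M9m.B2.sum _ fun (s : ℕ) _ => hb1 (s : ℤ)),
      M9m.mm_sum _ fun (s : ℕ) _ => hb1 (s : ℤ)]
    congr 1
    refine Finset.sum_congr rfl fun s _ => ?_
    rw [M9m.mm_smul _ (M9m.B2.sum _ fun (r : ℕ) _ => hb0 (s : ℤ) (r : ℤ)),
      M9m.mm_sum _ fun (r : ℕ) _ => hb0 (s : ℤ) (r : ℤ)]
    congr 1
    exact Finset.sum_congr rfl fun r _ => h1 (s : ℤ) (r : ℤ)
  rw [h2]
  -- pointwise bound
  have hpt : ∀ t y : ℤ, (1 / (L : ℝ)) * ∑ s ∈ Finset.range L, (1 / (L : ℝ)) *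
        ∑ r ∈ Finset.range L, Ψ t * Df f t y * Ph Ψ u v s r t y ≤
      Ψ t * (2 * M * (if Even y then Df f t y else 0) + ι / C) := by
    intro t y
    have hD0 := (Df_U01 f t y).1
    have hD1 := (Df_U01 f t y).2
    have e : (1 / (L : ℝ)) * ∑ s ∈ Finset.range L, (1 / (L : ℝ)) *
        ∑ r ∈ Finset.range L, Ψ t * Df f t y * Ph Ψ u v s r t y =
        Ψ t * Df f t y * ((1 / (L : ℝ)) * ∑ s ∈ Finset.range L,
          (if (v : ℤ) ∣ t - s ∧ (u : ℤ) ∣ y + s then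
          (u * v : ℝ) * Ψ (y + 2 * s) * ((1 / (L : ℝ)) * ∑ r ∈ Finset.range L,
          Ψ (u * ((t - s) / v) + r) * Ψ (v * ((y + s) / u) + r)) else 0)) := by
      rw [mul_left_comm (Ψ t * Df f t y)]
      congr 1
      rw [Finset.mul_sum]
      refine Finset.sum_congr rfl fun s _ => ?_
      unfold Ph
      split_ifs with hd
      · rw [← Finset.mul_sum, ← Finset.mul_sum]; ring
      · simp
    rw [e]
    by_cases ht : Ψ t = 0
    · rw [ht]; simp
    have hMt := hK.supp t ht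
    have hΨ0 := hK.nonneg t
    have hA := hS₀ L hL t y hMt
    have h3 : Ψ t * Df f t y * ((1 / (L : ℝ)) * ∑ s ∈ Finset.range L,
          (if (v : ℤ) ∣ t - s ∧ (u : ℤ) ∣ y + s then
          (u * v : ℝ) * Ψ (y + 2 * s) * ((1 / (L : ℝ)) * ∑ r ∈ Finset.range L,
          Ψ (u * ((t - s) / v) + r) * Ψ (v * ((y + s) / u) + r)) else 0)) ≤
        Ψ t * Df f t y * ((if Even y then 2 * (M : ℝ) else 0) + ι / C) :=
      mul_le_mul_of_nonneg_left hA (mul_nonneg hΨ0 hD0)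
    refine h3.trans ?_
    rw [mul_assoc]
    refine mul_le_mul_of_nonneg_left ?_ hΨ0
    have h4 : Df f t y * (ι / C) ≤ 1 * (ι / C) :=
      mul_le_mul_of_nonneg_right hD1 (by positivity)
    split_ifs with hy
    · linarith
    · linarith
  have hbL : B2 (fun t y : ℤ => (1 / (L : ℝ)) * ∑ s ∈ Finset.range L, (1 / (L : ℝ)) *
        ∑ r ∈ Finset.range L, Ψ t * Df f t y * Ph Ψ u v s r t y) :=
    M9m.B2.smul _ (M9m.B2.sum _ fun (s : ℕ) _ => hb1 (s : ℤ))
  have hbE : B2 (fun t y : ℤ => if Even y then Df f t y else 0) :=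
    B2.ite (P := fun _ y => Even y) (Df2_b2 f (fun t _ => t) fun _ y => y)
  have hbc : B2 (fun _ _ : ℤ => ι / C) := ⟨|ι / C|, fun _ _ => le_rfl⟩
  have hbR : B2 (fun t y : ℤ => Ψ t * (2 * M * (if Even y then Df f t y else 0) + ι / C)) :=
    (M9m.B2.of hΨ fun t _ => t).mul ((M9m.B2.smul (2 * (M : ℝ)) hbE).add hbc)
  refine (M9m.mm_mono hbL hbR hpt).trans ?_
  -- evaluate
  have h5 : ∀ t : ℤ, S.m (fun y => Ψ t * (2 * M * (if Even y then Df f t y else 0) + ι / C)) =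
      2 * M * (Ψ t * NEv S f t) + Ψ t * (ι / C) := by
    intro t
    have hby : Bdd (fun y => if Even y then Df f t y else 0) := hbE.row t
    rw [S.pf.smul (Ψ t) ((hby.smul (2 * (M : ℝ))).add (Bdd.const (ι / C))),
      S.pf.add (hby.smul _) (Bdd.const _), S.pf.smul _ hby, S.pf.const]
    by_cases ht : Ψ t = 0
    · rw [ht]; ring
    have hMt := hK.supp t ht
    have hEt : Even t := by
      have h2M : (2 : ℤ) ∣ M := by exact_mod_cast hK.even
      exact even_iff_two_dvd.2 (h2M.trans hMt)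
    have : NEv S f t = S.m (fun y => if Even y then Df f t y else 0) := by
      unfold NEv; rw [if_pos hEt]; rfl
    rw [this]; ring
  have hbN : Bdd (fun t => Ψ t * NEv S f t) := by
    have : Bdd (NEv S f) := by
      refine ⟨1, fun t => ?_⟩
      unfold NEv
      split_ifs
      · refine S.pf.abs_le fun z => ?_
        split_ifs
        · exact (Df_U01 f _).abs_le_one _
        · simp
      · simp
    exact hΨ.mul this
  unfold M9m.mm
  rw [S.pf.congr h5, S.pf.add (hbN.smul _) (hΨ.mul_const _), S.pf.smul _ hbN,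
    S.pf.mul_const hΨ]
  have h6 : S.m Ψ ≤ C := S.pf.le_of_le hΨ fun n => (le_abs_self _).trans (hC n)
  have h7 : S.m Ψ * (ι / C) ≤ ι := by
    calc S.m Ψ * (ι / C) ≤ C * (ι / C) := mul_le_mul_of_nonneg_right h6 (by positivity)
      _ = ι := by field_simp
  linarith

end Pool.Agent.LC79
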