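import Pool.Agent.Lib.MP_60922f_co.LC.StmtsV2_79

/-!
LC, module VF: assembly of V2.
-/

set_option autoImplicit false

open Filter Topology

namespace Pool.Agent.LC79
open Pool.Agent.FinA Pool.Agent.FinClique

namespace VF38

lemma nd_le (x : ℝ) (m : ℤ) : nd x ≤ |x - m| := round_le x m

lemma nd_nonneg (x : ℝ) : 0 ≤ nd x := abs_nonneg _

lemma nd_add (x y : ℝ) : nd (x + y) ≤ nd x + nd y := by
  refine (nd_le (x + y) (round x + round y)).trans ?_
  have h : x + y - ((round x + round y : ℤ) : ℝ) = (x - round x) + (y - round y) := by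
    push_cast; ring
  rw [h]
  exact abs_add_le _ _

lemma nd_mul (k : ℤ) (x : ℝ) : nd (k * x) ≤ |(k : ℝ)| * nd x := by
  refine (nd_le (k * x) (k * round x)).trans ?_
  have h : k * x - ((k * round x : ℤ) : ℝ) = k * (x - round x) := by push_cast; ring
  rw [h, abs_mul]
  rfl

/-- an integer `j` with `v j / u` close to `y` modulo one -/
lemma exists_j {u v : ℕ} (hu : u.Prime) (hv : v.Prime) (huv : u ≠ v) (y : ℝ) :
    ∃ j : ℤ, nd ((v : ℝ) * ((j : ℝ) / u) - y) ≤ 1 / (2 * u) := by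
  have hu0 : (0 : ℝ) < u := by exact_mod_cast hu.pos
  have hcop : IsCoprime (v : ℤ) (u : ℤ) := by
    rw [Nat.isCoprime_iff_coprime]
    exact ((Nat.coprime_primes hv hu).2 (Ne.symm huv))
  obtain ⟨a, b, hab⟩ := hcop
  set i : ℤ := round (u * y) with hi
  refine ⟨a * i, (nd_le _ (-(b * i))).trans ?_⟩
  have h1 : (v : ℝ) * (((a * i : ℤ) : ℝ) / u) - y - ((-(b * i) : ℤ) : ℝ) = -(u * y - i) / u := by
    have h2 : (a : ℝ) * v + b * u = 1 := by exact_mod_cast hab
    push_cast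
    field_simp
    linear_combination (i : ℝ) * h2
  rw [h1, abs_div, abs_neg, abs_of_pos hu0]
  have h3 : |u * y - i| ≤ 1 / 2 := abs_sub_round _
  rw [div_le_div_iff₀ hu0 (by positivity)]
  nlinarith

end VF38

theorem vf (S : MeanSys) : VF S := by
  intro hV1 hVN hVB hVQ hVK hKey f hf ε hε
  have hP := hVN hV1 f hf
  set N2 : ℤ → ℝ := fun t => NEv S f (2 * t) with hN2
  have hP2 : PN N2 := by
    refine ⟨fun t => hP.nonneg _, ?_, fun t => ?_, fun s t => ?_, fun η hη => ?_⟩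
    · show NEv S f (2 * 0) = 0
      rw [mul_zero]; exact hP.zero
    · show NEv S f (2 * -t) = NEv S f (2 * t)
      rw [mul_neg]; exact hP.neg _
    · show NEv S f (2 * (s + t)) ≤ NEv S f (2 * s) + NEv S f (2 * t)
      rw [mul_add]; exact hP.add _ _
    · -- total boundedness of the dilated pseudonorm
      obtain ⟨P, hPt⟩ := hP.tb (η / 2) (by positivity)
      classical
      have hch : ∀ s : ℤ, ∃ r : ℤ, (∃ t : ℤ, NEv S f (2 * t - s) ≤ η / 2) → NEv S f (2 * r - s) ≤ η / 2 := by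
        intro s
        by_cases h : ∃ t : ℤ, NEv S f (2 * t - s) ≤ η / 2
        · exact ⟨h.choose, fun _ => h.choose_spec⟩
        · exact ⟨0, fun h' => absurd h' h⟩
      choose r hr using hch
      refine ⟨P.image r, fun t => ?_⟩
      obtain ⟨s, hs, hts⟩ := hPt (2 * t)
      refine ⟨r s, Finset.mem_image_of_mem _ hs, ?_⟩
      have h1 := hr s ⟨t, hts⟩
      show NEv S f (2 * (t - r s)) ≤ η
      have h2 : 2 * (t - r s) = (2 * t - s) + (-(2 * r s - s)) := by ring
      rw [h2]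
      refine (hP.add _ _).trans ?_
      rw [hP.neg]
      linarith
  have hNe : ∀ t : ℤ, N2 t = Ne S f (2 * t) := fun t => by
    show NEv S f (2 * t) = Ne S f (2 * t)
    unfold NEv
    rw [if_pos ⟨t, by ring⟩]
  set e : ℝ := ε / 3 with he
  have he0 : 0 < e := by positivity
  obtain ⟨n, θ, ρ, hρ, hB⟩ := hVB N2 hP2 e he0
  obtain ⟨d, M, β, ρ', hρ', hM, h2M, hβ, hQ⟩ := hVQ n θ ρ hρ
  have hball : ∀ t : ℤ, (M : ℤ) ∣ t → (∀ l, nd (β l * t) ≤ ρ') → N2 t ≤ e :=
    fun t ht hl => hB t (hQ t ht hl)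
  refine ⟨2 * M, by omega, Dvd.intro _ rfl, fun k => ?_⟩
  have hgoal : Ne S f ((2 * M : ℕ) * k) = N2 (M * k) := by
    rw [hNe]
    congr 1
    push_cast
    ring
  rw [hgoal]
  set t₀ : ℤ := M * k with ht₀
  obtain ⟨u, v, hu, hv, hTu, hTv, huv, hh⟩ := hKey f hf hP e he0 (⌈1 / ρ'⌉₊ + 1)
  have hu0 : (0 : ℝ) < u := by exact_mod_cast hu.pos
  have hv0 : (0 : ℝ) < v := by exact_mod_cast hv.pos
  have hur : 1 / ρ' ≤ u := by
    refine (Nat.le_ceil _).trans ?_
    exact_mod_cast (by omega : ⌈1 / ρ'⌉₊ ≤ u)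
  have hur' : 1 / (u : ℝ) ≤ ρ' := by
    rw [div_le_iff₀ hρ'] at hur
    rw [div_le_iff₀ hu0]
    linarith
  choose j hj using fun l => VF38.exists_j hu hv huv (β l * t₀)
  obtain ⟨h, hMh, hhl⟩ := hVK d β hβ M hM (fun l => (j l : ℝ) / u) (ρ' / (2 * u * v)) (by positivity)
  have hv1 : (1 : ℝ) ≤ v := by exact_mod_cast hv.one_lt.le
  have hu1 : (1 : ℝ) ≤ u := by exact_mod_cast hu.one_lt.le
  -- `u h` is small
  have h1 : N2 (u * h) ≤ e := by
    refine hball _ (hMh.mul_left _) fun l => ?_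
    have h3 : β l * ((u * h : ℤ) : ℝ) = ((u : ℤ) : ℝ) * (β l * h - (j l : ℝ) / u) + (j l : ℤ) := by
      push_cast
      field_simp
      ring
    have h4 : nd (β l * ((u * h : ℤ) : ℝ)) ≤ nd (((u : ℤ) : ℝ) * (β l * h - (j l : ℝ) / u)) := by
      refine (VF38.nd_le _ (round (((u : ℤ) : ℝ) * (β l * h - (j l : ℝ) / u)) + j l)).trans (le_of_eq ?_)
      rw [h3, nd]
      congr 1
      push_cast
      ring
    refine h4.trans ((VF38.nd_mul _ _).trans ?_)
    have h5 := hhl l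
    have h6 : |((u : ℤ) : ℝ)| = u := by push_cast; exact abs_of_pos hu0
    rw [h6]
    calc (u : ℝ) * nd (β l * h - (j l : ℝ) / u) ≤ u * (ρ' / (2 * u * v)) :=
          mul_le_mul_of_nonneg_left h5 hu0.le
      _ = ρ' / (2 * v) := by field_simp
      _ ≤ ρ' := by
          rw [div_le_iff₀ (by positivity)]
          nlinarith
  -- `v h - t₀` is small
  have h2 : N2 (t₀ - v * h) ≤ e := by
    rw [← hP2.neg]
    refine hball _ ?_ fun l => ?_
    · rw [neg_sub]
      exact dvd_sub (hMh.mul_left _) (Dvd.intro _ rfl)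
    · have h3 : β l * ((-(t₀ - v * h) : ℤ) : ℝ) = ((v : ℤ) : ℝ) * (β l * h - (j l : ℝ) / u) +
          ((v : ℝ) * ((j l : ℝ) / u) - β l * t₀) := by
        push_cast
        ring
      rw [h3]
      refine (VF38.nd_add _ _).trans ?_
      have h4 := VF38.nd_mul (v : ℤ) (β l * h - (j l : ℝ) / u)
      have h5 := hhl l
      have h6 : |((v : ℤ) : ℝ)| = v := by push_cast; exact abs_of_pos hv0
      rw [h6] at h4
      have h7 : (v : ℝ) * nd (β l * h - (j l : ℝ) / u) ≤ ρ' / (2 * u) := by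
        calc (v : ℝ) * nd (β l * h - (j l : ℝ) / u) ≤ v * (ρ' / (2 * u * v)) :=
              mul_le_mul_of_nonneg_left h5 hv0.le
          _ = ρ' / (2 * u) := by field_simp
      have h8 : ρ' / (2 * u) ≤ ρ' / 2 := by
        rw [div_le_div_iff₀ (by positivity) (by norm_num)]
        nlinarith
      have h9 : 1 / (2 * (u : ℝ)) = 1 / u / 2 := by field_simp
      have h10 := hj l
      rw [h9] at h10
      linarith
  have h3 : N2 (v * h) ≤ e + e := by
    have h4 := hh h
    rw [hNe, show (2 : ℤ) * (v * h) = 2 * v * h by ring]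
    have h5 : N2 (u * h) = Ne S f (2 * u * h) := by
      rw [hNe, show (2 : ℤ) * (u * h) = 2 * u * h by ring]
    linarith
  have h4 : t₀ = v * h + (t₀ - v * h) := by ring
  have h5 := hP2.add (v * h) (t₀ - v * h)
  rw [← h4] at h5
  have h6 : e + e + e = ε := by rw [he]; ring
  linarith

end Pool.Agent.LC79
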