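import Pool.Agent.Lib.MP_60922f_co.LC.ND_14

/-!
LC, module VK: Kronecker's theorem with a modulus, by a second moment.
-/

set_option autoImplicit false

open Filter Topology

namespace Pool.Agent.LC79
open Pool.Agent.FinA Pool.Agent.FinClique

namespace VK14
open ND14

/-- averages of powers of a unimodular number -/
lemma avg_pow {z : ℂ} (hz : ‖z‖ = 1) (h1 : z ≠ 1) :
    Tendsto (fun L : ℕ => (1 / (L : ℂ)) * ∑ k ∈ Finset.range L, z ^ k) atTop (𝓝 0) := by
  rw [tendsto_zero_iff_norm_tendsto_zero]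
  have h2 : 0 < ‖z - 1‖ := norm_pos_iff.mpr (sub_ne_zero.mpr h1)
  have h3 : Tendsto (fun L : ℕ => (2 / ‖z - 1‖) * (1 / (L : ℝ))) atTop (𝓝 ((2 / ‖z - 1‖) * 0)) :=
    tendsto_one_div_atTop_nhds_zero_nat.const_mul _
  rw [mul_zero] at h3
  refine squeeze_zero (fun L => norm_nonneg _) (fun L => ?_) h3
  rw [geom_sum_eq h1, norm_mul, norm_div, norm_div, norm_one, Complex.norm_natCast]
  have h4 : ‖z ^ L - 1‖ ≤ 2 := by
    refine (norm_sub_le _ _).trans ?_
    rw [norm_pow, hz, one_pow, norm_one]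
    norm_num
  calc 1 / (L : ℝ) * (‖z ^ L - 1‖ / ‖z - 1‖) ≤ 1 / (L : ℝ) * (2 / ‖z - 1‖) := by gcongr
    _ = _ := by ring

/-- averages of a character with a phase -/
lemma avg_ee (α c : ℝ) (hα : ∀ k : ℤ, α ≠ k) :
    Tendsto (fun L : ℕ => (1 / (L : ℂ)) * ∑ k ∈ Finset.range L, ee (k * α + c)) atTop (𝓝 0) := by
  have h1 : ee α ≠ 1 := fun h => by
    obtain ⟨k, hk⟩ := ee_eq_one h
    exact hα k hk
  have h2 := (avg_pow (norm_ee α) h1).mul_const (ee c)
  rw [zero_mul] at h2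
  refine h2.congr fun L => ?_
  rw [mul_assoc, Finset.sum_mul]
  congr 1
  refine Finset.sum_congr rfl fun k _ => ?_
  rw [ee_add, ee_nat_mul]

lemma avg_one : Tendsto (fun L : ℕ => (1 / (L : ℂ)) * ∑ _k ∈ Finset.range L, (1 : ℂ)) atTop (𝓝 1) := by
  refine tendsto_const_nhds.congr' ?_
  filter_upwards [eventually_gt_atTop 0] with L hL
  have : (L : ℂ) ≠ 0 := by exact_mod_cast hL.ne'
  simp [this]

/-- the trigonometric polynomial: a product of geometric sums -/
noncomputable def PP {d : ℕ} (t : Fin d → Finset ℕ) (y : Fin d → ℝ) : ℂ :=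
  ∏ l, ∑ j ∈ t l, ee (j * y l)

lemma PP_eq {d : ℕ} (t : Fin d → Finset ℕ) (y : Fin d → ℝ) :
    PP t y = ∑ p ∈ Fintype.piFinset t, ee (∑ l, p l * y l) := by
  unfold PP
  rw [Finset.prod_univ_sum]
  refine Finset.sum_congr rfl fun p _ => ?_
  rw [ee_sum]

/-- the second moment -/
lemma moment {d : ℕ} {γ : Fin d → ℝ} (hγ : ∀ (c : Fin d → ℤ) (c₀ : ℤ), ∑ l, c l * γ l = c₀ → c = 0)
    (x : Fin d → ℝ) (t : Fin d → Finset ℕ) :
    Tendsto (fun L : ℕ => (1 / (L : ℝ)) * ∑ k ∈ Finset.range L, ‖PP t (fun l => k * γ l - x l)‖ ^ 2)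
      atTop (𝓝 (∏ l, ((t l).card : ℝ))) := by
  classical
  have h0 : ∀ L : ℕ, (((1 / (L : ℝ)) * ∑ k ∈ Finset.range L,
      ‖PP t (fun l => k * γ l - x l)‖ ^ 2 : ℝ) : ℂ) =
      ∑ p ∈ Fintype.piFinset t, ∑ q ∈ Fintype.piFinset t, (1 / (L : ℂ)) *
        ∑ k ∈ Finset.range L, ee (k * (∑ l, ((p l : ℝ) - q l) * γ l) +
          (-∑ l, ((p l : ℝ) - q l) * x l)) := by
    intro L
    push_cast
    simp_rw [← Finset.mul_sum]
    congr 1
    have h1 : ∀ k ∈ Finset.range L, ((‖PP t (fun l => (k : ℝ) * γ l - x l)‖ : ℂ)) ^ 2 =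
        ∑ p ∈ Fintype.piFinset t, ∑ q ∈ Fintype.piFinset t,
          ee (k * (∑ l, ((p l : ℝ) - q l) * γ l) + (-∑ l, ((p l : ℝ) - q l) * x l)) := by
      intro k _
      rw [← Complex.mul_conj', PP_eq, map_sum, Finset.sum_mul_sum]
      refine Finset.sum_congr rfl fun p _ => Finset.sum_congr rfl fun q _ => ?_
      rw [← ee_sub]
      congr 1
      rw [← Finset.sum_sub_distrib, Finset.mul_sum, ← Finset.sum_neg_distrib,
        ← Finset.sum_add_distrib]
      refine Finset.sum_congr rfl fun l _ => ?_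
      ring
    rw [Finset.sum_congr rfl h1, Finset.sum_comm]
    refine Finset.sum_congr rfl fun p _ => ?_
    rw [Finset.sum_comm]
  have h2 : ∀ p ∈ Fintype.piFinset t, ∀ q ∈ Fintype.piFinset t,
      Tendsto (fun L : ℕ => (1 / (L : ℂ)) *
        ∑ k ∈ Finset.range L, ee (k * (∑ l, ((p l : ℝ) - q l) * γ l) +
          (-∑ l, ((p l : ℝ) - q l) * x l))) atTop (𝓝 (if p = q then 1 else 0)) := by
    intro p _ q _
    by_cases hpq : p = q
    · subst hpq
      rw [if_pos rfl]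
      refine avg_one.congr fun L => ?_
      congr 1
      refine Finset.sum_congr rfl fun k _ => ?_
      simp [ee_zero]
    · rw [if_neg hpq]
      refine avg_ee _ _ fun k hk => hpq ?_
      have h3 := hγ (fun l => (p l : ℤ) - q l) k (by
        rw [← hk]
        refine Finset.sum_congr rfl fun l _ => ?_
        push_cast
        ring)
      funext l
      have h4 := congrFun h3 l
      simp only [Pi.zero_apply] at h4
      omega
  have h3 : Tendsto (fun L : ℕ => (((1 / (L : ℝ)) * ∑ k ∈ Finset.range L,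
      ‖PP t (fun l => k * γ l - x l)‖ ^ 2 : ℝ) : ℂ)) atTop
      (𝓝 ((∏ l, ((t l).card : ℝ) : ℝ) : ℂ)) := by
    simp_rw [h0]
    have h4 := tendsto_finset_sum (Fintype.piFinset t) fun p hp =>
      tendsto_finset_sum (Fintype.piFinset t) fun q hq => h2 p hp q hq
    have h5 : ∑ p ∈ Fintype.piFinset t, ∑ q ∈ Fintype.piFinset t, (if p = q then (1 : ℂ) else 0) =
        ((∏ l, ((t l).card : ℝ) : ℝ) : ℂ) := by
      have h6 : ∀ p ∈ Fintype.piFinset t,
          ∑ q ∈ Fintype.piFinset t, (if p = q then (1 : ℂ) else 0) = 1 := by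
        intro p hp
        rw [Finset.sum_ite_eq, if_pos hp]
      rw [Finset.sum_congr rfl h6, Finset.sum_const, Fintype.card_piFinset]
      simp
    rwa [h5] at h4
  exact (Complex.continuous_re.tendsto _).comp h3

/-- geometric sums are small away from the integers -/
lemma geom_le (K : ℕ) {y ρ : ℝ} (hρ : 0 < ρ) (h : ρ < nd y) :
    ‖∑ j ∈ Finset.range K, ee (j * y)‖ ^ 2 ≤ (1 / (2 * ρ)) ^ 2 := by
  have h1 := four_nd_le y
  have h2 : 0 < ‖ee y - 1‖ := by linarith
  have h3 : ee y ≠ 1 := fun h => by rw [h, sub_self, norm_zero] at h2; exact lt_irrefl _ h2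
  have h4 : ∑ j ∈ Finset.range K, ee (j * y) = (ee y ^ K - 1) / (ee y - 1) := by
    rw [← geom_sum_eq h3]
    exact Finset.sum_congr rfl fun j _ => ee_nat_mul j y
  have h5 : ‖ee y ^ K - 1‖ ≤ 2 := by
    refine (norm_sub_le _ _).trans ?_
    rw [norm_pow, norm_ee, one_pow, norm_one]
    norm_num
  refine pow_le_pow_left₀ (norm_nonneg _) ?_ 2
  rw [h4, norm_div, div_le_iff₀ h2]
  have h6 : 2 ≤ 1 / (2 * ρ) * ‖ee y - 1‖ := by
    rw [div_mul_eq_mul_div, le_div_iff₀ (by positivity)]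
    linarith
  linarith

/-- Kronecker's theorem -/
lemma kronecker {d : ℕ} {γ : Fin d → ℝ}
    (hγ : ∀ (c : Fin d → ℤ) (c₀ : ℤ), ∑ l, c l * γ l = c₀ → c = 0) (x : Fin d → ℝ) {ρ : ℝ}
    (hρ : 0 < ρ) : ∃ k : ℕ, ∀ l, nd (k * γ l - x l) ≤ ρ := by
  classical
  by_contra hcon
  push Not at hcon
  set B : ℝ := (1 / (2 * ρ)) ^ 2 with hB
  have hB0 : 0 < B := by positivity
  obtain ⟨K, hK⟩ := exists_nat_gt (d * B)
  have hK0 : (0 : ℝ) < K := lt_of_le_of_lt (by positivity) hK
  let t : Fin d → Finset ℕ := fun _ => Finset.range K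
  let s : Fin d → Fin d → Finset ℕ := fun l l' => if l' = l then {0} else Finset.range K
  have h1 := moment hγ x t
  have h2 := tendsto_finset_sum Finset.univ fun (l : Fin d) _ => (moment hγ x (s l)).const_mul B
  have h3 : ∀ L : ℕ, (1 / (L : ℝ)) * ∑ k ∈ Finset.range L, ‖PP t (fun l => k * γ l - x l)‖ ^ 2 ≤
      ∑ l, B * ((1 / (L : ℝ)) * ∑ k ∈ Finset.range L, ‖PP (s l) (fun l => k * γ l - x l)‖ ^ 2) := by
    intro L
    have h4 : ∀ k ∈ Finset.range L, ‖PP t (fun l => (k : ℝ) * γ l - x l)‖ ^ 2 ≤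
        ∑ l, B * ‖PP (s l) (fun l => (k : ℝ) * γ l - x l)‖ ^ 2 := by
      intro k _
      obtain ⟨l, hl⟩ := hcon k
      refine le_trans ?_ (Finset.single_le_sum (f := fun l =>
        B * ‖PP (s l) (fun l => (k : ℝ) * γ l - x l)‖ ^ 2) (fun l _ => by positivity)
        (Finset.mem_univ l))
      unfold PP
      rw [← Finset.mul_prod_erase Finset.univ _ (Finset.mem_univ l),
        ← Finset.mul_prod_erase Finset.univ (fun l' => ∑ j ∈ s l l', _) (Finset.mem_univ l),
        norm_mul, mul_pow, norm_mul, mul_pow]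
      have h5 : ∑ j ∈ s l l, ee (j * ((k : ℝ) * γ l - x l)) = 1 := by
        simp [s, ee_zero]
      have h6 : ∀ l' ∈ Finset.univ.erase l, ∑ j ∈ t l', ee (j * ((k : ℝ) * γ l' - x l')) =
          ∑ j ∈ s l l', ee (j * ((k : ℝ) * γ l' - x l')) := by
        intro l' hl'
        have : l' ≠ l := (Finset.mem_erase.mp hl').1
        simp [s, t, this]
      rw [h5, Finset.prod_congr rfl h6, norm_one, one_pow, one_mul]
      exact mul_le_mul_of_nonneg_right (geom_le K hρ hl) (by positivity)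
    calc _ ≤ (1 / (L : ℝ)) * ∑ k ∈ Finset.range L,
          ∑ l, B * ‖PP (s l) (fun l => (k : ℝ) * γ l - x l)‖ ^ 2 :=
          mul_le_mul_of_nonneg_left (Finset.sum_le_sum h4) (by positivity)
      _ = _ := by
          rw [Finset.sum_comm, Finset.mul_sum]
          refine Finset.sum_congr rfl fun l _ => ?_
          rw [← Finset.mul_sum]
          ring
  have h4 := le_of_tendsto_of_tendsto' h1 h2 h3
  have h5 : ∏ l, ((t l).card : ℝ) = (K : ℝ) ^ d := by simp [t]
  have h6 : ∀ l, ∏ l', ((s l l').card : ℝ) = (K : ℝ) ^ (d - 1) := by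
    intro l
    rw [← Finset.mul_prod_erase Finset.univ _ (Finset.mem_univ l)]
    have h7 : ∀ l' ∈ Finset.univ.erase l, ((s l l').card : ℝ) = K := by
      intro l' hl'
      have : l' ≠ l := (Finset.mem_erase.mp hl').1
      simp [s, this]
    rw [Finset.prod_congr rfl h7, Finset.prod_const, Finset.card_erase_of_mem (Finset.mem_univ l)]
    simp [s]
  simp_rw [h5, h6, Finset.sum_const, nsmul_eq_mul] at h4
  simp only [Finset.card_univ, Fintype.card_fin] at h4
  rcases Nat.eq_zero_or_pos d with hd | hd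
  · subst hd
    obtain ⟨l, -⟩ := hcon 0
    exact l.elim0
  · have h8 : (K : ℝ) ^ d = K * (K : ℝ) ^ (d - 1) := by
      rw [← pow_succ']
      congr 1
      omega
    rw [h8] at h4
    have h9 : 0 < (K : ℝ) ^ (d - 1) := by positivity
    have h10 : (K : ℝ) * (K : ℝ) ^ (d - 1) ≤ (d * B) * (K : ℝ) ^ (d - 1) := by linarith
    have := le_of_mul_le_mul_right h10 h9
    linarith

end VK14

open ND14 in
/-- VK -/
theorem vk : VK := by
  intro d β hβ M hM x ρ hρ
  have hM0 : (M : ℝ) ≠ 0 := by exact_mod_cast hM.ne'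
  obtain ⟨k, hk⟩ := VK14.kronecker (γ := fun l => M * β l) (fun c c₀ h => by
    have h1 := hβ (fun l => M * c l) c₀ (by
      rw [← h]
      refine Finset.sum_congr rfl fun l _ => ?_
      push_cast
      ring)
    funext l
    have h2 := congrFun h1 l
    simp only [Pi.zero_apply, mul_eq_zero] at h2
    rcases h2 with h2 | h2
    · exact absurd (by exact_mod_cast h2) hM.ne'
    · exact h2) x hρ
  refine ⟨M * k, Dvd.intro _ rfl, fun l => ?_⟩
  have := hk l
  have h1 : β l * ((M * k : ℤ) : ℝ) - x l = (k : ℝ) * (M * β l) - x l := by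
    push_cast
    ring
  rw [h1]
  exact this

end Pool.Agent.LC79
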