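import Pool.Agent.Lib.MP_60922f_co.LC.StmtsV2_79

/-!
LC, module VKey: the modulus at `2 v h` against the modulus at `2 u h`, uniformly in `h`.
-/

set_option autoImplicit false

open Filter Topology

namespace Pool.Agent.LC79
open Pool.Agent.FinA Pool.Agent.FinClique
open Pool.Agent.FinA.M9m (B2 mm)

namespace K29

variable {S : MeanSys}

/-- average over one shift -/
noncomputable def E1 (L : ℕ) (B : ℤ → ℝ) : ℝ := (1 / (L : ℝ)) * ∑ s ∈ Finset.range L, B s

lemma E2_eq (L : ℕ) (G : ℤ → ℤ → ℝ) : E2 L G = E1 L (fun s => E1 L (G s)) := rfl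

lemma E1_mono {L : ℕ} {A B : ℤ → ℝ} (h : ∀ s, A s ≤ B s) : E1 L A ≤ E1 L B :=
  mul_le_mul_of_nonneg_left (Finset.sum_le_sum fun s _ => h s) (by positivity)

lemma E1_nonneg {L : ℕ} {A : ℤ → ℝ} (h : ∀ s, 0 ≤ A s) : 0 ≤ E1 L A :=
  mul_nonneg (by positivity) (Finset.sum_nonneg fun s _ => h s)

lemma E1_add (L : ℕ) (A B : ℤ → ℝ) : E1 L (fun s => A s + B s) = E1 L A + E1 L B := by
  unfold E1
  rw [Finset.sum_add_distrib, mul_add]

lemma E1_sub (L : ℕ) (A B : ℤ → ℝ) : E1 L (fun s => A s - B s) = E1 L A - E1 L B := by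
  unfold E1
  rw [Finset.sum_sub_distrib, mul_sub]

lemma E1_smul (L : ℕ) (c : ℝ) (A : ℤ → ℝ) : E1 L (fun s => c * A s) = c * E1 L A := by
  unfold E1
  rw [← Finset.mul_sum]
  ring

lemma E1_abs_le {L : ℕ} {A : ℤ → ℝ} {D : ℝ} (hD : 0 ≤ D) (h : ∀ s, |A s| ≤ D) :
    |E1 L A| ≤ D := by
  unfold E1
  rw [abs_mul, abs_of_nonneg (by positivity : (0 : ℝ) ≤ 1 / (L : ℝ))]
  rcases Nat.eq_zero_or_pos L with rfl | hL
  · simpa using hD
  · have hL' : (0 : ℝ) < L := by exact_mod_cast hL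
    calc (1 / (L : ℝ)) * |∑ s ∈ Finset.range L, A s| ≤ (1 / (L : ℝ)) * (L * D) := by
          refine mul_le_mul_of_nonneg_left ?_ (by positivity)
          refine (Finset.abs_sum_le_sum_abs _ _).trans ?_
          have h1 : ∑ s ∈ Finset.range L, |A s| ≤ ∑ _s ∈ Finset.range L, D :=
            Finset.sum_le_sum fun (s : ℕ) _ => h s
          rwa [Finset.sum_const, Finset.card_range, nsmul_eq_mul] at h1
      _ = D := by field_simp

lemma E1_m (L : ℕ) {H : ℤ → ℤ → ℝ} (hb : ∀ s, Bdd (H s)) :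
    E1 L (fun s => S.m (H s)) = S.m (fun w => E1 L (fun s => H s w)) := by
  unfold E1
  rw [S.pf.smul (1 / (L : ℝ)) (Bdd.sum _ (fun (s : ℕ) w => H s w) fun s _ => hb s),
    S.pf.sum _ (fun (s : ℕ) w => H s w) fun s _ => hb s]

lemma E1_bdd {L : ℕ} {H : ℤ → ℤ → ℝ} {D : ℝ} (hD : 0 ≤ D) (hb : ∀ s w, |H s w| ≤ D) :
    Bdd (fun w => E1 L (fun s => H s w)) :=
  ⟨D, fun w => E1_abs_le hD fun s => hb s w⟩

lemma E2_m (L : ℕ) {H : ℤ → ℤ → ℤ → ℝ} {D : ℝ} (hD : 0 ≤ D) (hb : ∀ s r w, |H s r w| ≤ D) :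
    E2 L (fun s r => S.m (H s r)) = S.m (fun w => E2 L (fun s r => H s r w)) := by
  rw [E2_eq]
  have h1 : ∀ s, E1 L (fun r => S.m (H s r)) = S.m (fun w => E1 L (fun r => H s r w)) := fun s =>
    E1_m L fun r => ⟨D, hb s r⟩
  simp only [h1]
  rw [E1_m L fun s => E1_bdd hD fun r w => hb s r w]
  rfl

lemma E2_mul (L : ℕ) (A B : ℤ → ℝ) : E2 L (fun s r => A s * B r) = E1 L A * E1 L B := by
  rw [E2_eq]
  have h1 : ∀ s, E1 L (fun r => A s * B r) = E1 L B * A s := fun s => by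
    rw [E1_smul, mul_comm]
  simp only [h1]
  rw [E1_smul, mul_comm]

lemma E2_mono {L : ℕ} {A B : ℤ → ℤ → ℝ} (h : ∀ s r, A s r ≤ B s r) : E2 L A ≤ E2 L B :=
  E1_mono fun s => E1_mono (h s)

lemma E2_add (L : ℕ) (A B : ℤ → ℤ → ℝ) :
    E2 L (fun s r => A s r + B s r) = E2 L A + E2 L B := by
  rw [E2_eq, E2_eq, E2_eq]
  simp only [E1_add]

/-- shifting the range by one -/
lemma sum_shift_one (B : ℤ → ℝ) (L : ℕ) (a : ℤ) :
    ∑ s ∈ Finset.range L, B (s + (a + 1)) =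
      ∑ s ∈ Finset.range L, B (s + a) + (B (L + a) - B a) := by
  induction L with
  | zero => simp
  | succ L ih =>
    rw [Finset.sum_range_succ, Finset.sum_range_succ, ih]
    push_cast
    rw [show (L : ℤ) + (a + 1) = L + 1 + a by ring]
    ring

lemma sum_shift_le {B : ℤ → ℝ} {D : ℝ} (hB : ∀ x, |B x| ≤ D) (L : ℕ) (n : ℕ) :
    |∑ s ∈ Finset.range L, B (s + (n : ℤ)) - ∑ s ∈ Finset.range L, B s| ≤ 2 * n * D := by
  induction n with
  | zero => simp
  | succ n ih =>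
    push_cast
    rw [sum_shift_one B L n]
    have h1 := hB (L + n)
    have h2 := hB n
    have h3 := abs_sub (B (L + n)) (B n)
    have h4 := abs_add_le (∑ s ∈ Finset.range L, B (s + (n : ℤ)) - ∑ s ∈ Finset.range L, B s)
      (B (L + n) - B n)
    have e : ∑ s ∈ Finset.range L, B (s + (n : ℤ)) + (B (L + n) - B n) -
        ∑ s ∈ Finset.range L, B s = (∑ s ∈ Finset.range L, B (s + (n : ℤ)) -
        ∑ s ∈ Finset.range L, B s) + (B (L + n) - B n) := by ring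
    rw [e]
    linarith

lemma sum_shift_int {B : ℤ → ℝ} {D : ℝ} (hB : ∀ x, |B x| ≤ D) (L : ℕ) (a : ℤ) :
    |∑ s ∈ Finset.range L, B (s + a) - ∑ s ∈ Finset.range L, B s| ≤ 2 * |(a : ℝ)| * D := by
  obtain ⟨n, rfl | rfl⟩ := Int.eq_nat_or_neg a
  · have := sum_shift_le hB L n
    push_cast
    rwa [Nat.abs_cast]
  · have h1 := sum_shift_le (B := fun x => B (x - n)) (fun x => hB _) L n
    simp only [add_sub_cancel_right] at h1
    rw [abs_sub_comm] at h1
    push_cast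
    rw [abs_neg, Nat.abs_cast]
    refine le_trans (le_of_eq ?_) h1
    congr 1

/-- shifting the range of an average -/
lemma E1_shift {B : ℤ → ℝ} {D : ℝ} (hB : ∀ x, |B x| ≤ D) (L : ℕ) (a : ℤ) :
    |E1 L (fun s => B (s + a)) - E1 L B| ≤ 2 * |(a : ℝ)| * D / L := by
  unfold E1
  rw [← mul_sub, abs_mul, abs_of_nonneg (by positivity : (0 : ℝ) ≤ 1 / (L : ℝ))]
  have := sum_shift_int hB L a
  rw [div_mul_eq_mul_div, one_mul]
  gcongr

lemma E2_shift {A : ℤ → ℤ → ℝ} {D : ℝ} (hD : 0 ≤ D) (hA : ∀ x y, |A x y| ≤ D) (L : ℕ)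
    (a b : ℤ) :
    |E2 L (fun s r => A (s + a) (r + b)) - E2 L A| ≤
      2 * |(a : ℝ)| * D / L + 2 * |(b : ℝ)| * D / L := by
  have h1 : |E2 L (fun s r => A (s + a) (r + b)) - E2 L (fun s r => A s (r + b))| ≤
      2 * |(a : ℝ)| * D / L := by
    rw [E2_eq, E2_eq]
    exact E1_shift (B := fun s => E1 L (fun r => A s (r + b)))
      (fun x => E1_abs_le hD fun r => hA _ _) L a
  have h2 : |E2 L (fun s r => A s (r + b)) - E2 L A| ≤ 2 * |(b : ℝ)| * D / L := by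
    rw [E2_eq, E2_eq, ← E1_sub]
    exact E1_abs_le (by positivity) fun s => E1_shift (hA s) L b
  have h3 := abs_sub_le (E2 L (fun s r => A (s + a) (r + b))) (E2 L (fun s r => A s (r + b)))
    (E2 L A)
  linarith

/-- the mean of the doubled phase along the multiples of `v` -/
lemma mean_phase {Ψ : ℤ → ℝ} (hΨ : Bdd Ψ) {f : ℕ → Bool} {v L : ℕ} (hv : 0 < v) {ι : ℝ}
    (havg : ∀ y a : ℤ, |(v / (L : ℝ)) * ∑ s ∈ Finset.range L,
      (if (v : ℤ) ∣ a + s then Ψ (y + 2 * s) else 0) - (if Even y then 2 else 0)| ≤ ι) (t : ℤ) :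
    |S.m (fun w => E1 L (fun r => Ψ (v * w + r) * Df f t (v * w - r))) - 2 * Ne S f t| ≤ ι := by
  have hDb : Bdd (Df f t) := Df_bdd f t
  have hD01 := Df_U01 f t
  have hKb : Bdd (fun y => (v / (L : ℝ)) * ∑ s ∈ Finset.range L,
      (if (v : ℤ) ∣ y + s then Ψ (y + 2 * s) else 0)) := by
    refine Bdd.smul _ (Bdd.sum _ _ fun s _ => ?_)
    exact (hΨ.comp fun y => y + 2 * s).ite (fun y => (v : ℤ) ∣ y + s)
  have e1 : S.m (fun w => E1 L (fun r => Ψ (v * w + r) * Df f t (v * w - r))) =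
      S.m (fun y => Df f t y * ((v / (L : ℝ)) * ∑ s ∈ Finset.range L,
        (if (v : ℤ) ∣ y + s then Ψ (y + 2 * s) else 0))) := by
    have hr : ∀ r : ℤ, S.m (fun w => Ψ (v * w + r) * Df f t (v * w - r)) =
        S.m (fun y => v * ((if (v : ℤ) ∣ y + r then Ψ (y + 2 * r) else 0) * Df f t y)) := by
      intro r
      have hb : Bdd (fun x => Ψ (x + r) * Df f t (x - r)) :=
        (hΨ.comp fun x => x + r).mul (hDb.comp fun x => x - r)
      have h1 : S.m (fun w => Ψ (v * w + r) * Df f t (v * w - r)) =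
          S.m (fun w => (fun x => Ψ (x + r) * Df f t (x - r)) (v * w)) := rfl
      rw [h1, S.m_dil' hv hb, ← S.pf.smul (v : ℝ) ((ind_bdd _).mul hb),
        ← S.m_shift r (((ind_bdd (cls 0 v)).mul hb).smul (v : ℝ))]
      refine S.pf.congr fun y => ?_
      rw [show y + r + r = y + 2 * r by ring, show y + r - r = y by ring]
      by_cases hd : (v : ℤ) ∣ y + r
      · rw [if_pos hd, ind_of_mem (by simpa [cls] using hd)]
        ring
      · rw [if_neg hd, ind_of_notMem (by simpa [cls] using hd)]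
        ring
    have hbr : ∀ r : ℤ, Bdd (fun w => Ψ (v * w + r) * Df f t (v * w - r)) := fun r =>
      (hΨ.comp fun w => v * w + r).mul (hDb.comp fun w => v * w - r)
    have hbr' : ∀ r : ℤ, Bdd (fun y => (v : ℝ) * ((if (v : ℤ) ∣ y + r then Ψ (y + 2 * r) else 0) *
        Df f t y)) := fun r =>
      (((hΨ.comp fun y => y + 2 * r).ite (fun y => (v : ℤ) ∣ y + r)).mul hDb).smul _
    rw [← E1_m L (H := fun r w => Ψ (v * w + r) * Df f t (v * w - r)) hbr]
    simp only [hr]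
    rw [E1_m L hbr']
    refine S.pf.congr fun y => ?_
    unfold E1
    rw [← Finset.mul_sum, ← Finset.sum_mul]
    ring
  have e2 : 2 * Ne S f t = S.m (fun y => Df f t y * (if Even y then 2 else 0)) := by
    unfold Ne
    rw [← S.pf.smul 2 (hDb.ite (fun z => Even z))]
    refine S.pf.congr fun y => ?_
    split_ifs <;> ring
  have hEb : Bdd (fun y : ℤ => (if Even y then (2 : ℝ) else 0)) :=
    (Bdd.const 2).ite (fun y : ℤ => Even y)
  rw [e1, e2]
  refine (S.pf.abs_sub_le (hDb.mul hKb) (hDb.mul hEb)).trans ?_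
  refine S.pf.le_of_le ((hDb.mul hKb).sub (hDb.mul hEb)).abs fun y => ?_
  rw [← mul_sub, abs_mul, abs_of_nonneg (hD01 y).1]
  calc Df f t y * _ ≤ 1 * ι := mul_le_mul (hD01 y).2 (havg y y) (abs_nonneg _) zero_le_one
    _ = ι := one_mul _

/-- triangle inequality for colours -/
lemma ne_tri {a b c d : Bool} : (if d = c then (0 : ℝ) else 1) ≤
    (if a = c then 0 else 1) + (if b = a then 0 else 1) + (if b = d then 0 else 1) := by
  cases a <;> cases b <;> cases c <;> cases d <;> norm_num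

end K29

open K29

/-- VKey: the modulus at `2 v h` against the modulus at `2 u h`, uniformly in `h`. -/
theorem vkey (S : MeanSys) (hM : VM S) : VKey S := by
  intro f hf hN ε hε T
  obtain ⟨Ψ, M, hK, hall⟩ := hM f hf hN (ε / 2) (by positivity)
  obtain ⟨u, v, hu, hv, hTu, hTv, hne, huv, hvu, S₀, hS₀⟩ := hall T
  refine ⟨u, v, hu, hv, hTu, hTv, hne, fun h => ?_⟩
  refine le_of_forall_pos_le_add fun η hη => ?_
  have hΨ := hK.bdd
  have hΨ0 := hK.nonneg
  obtain ⟨C, hC0, hC⟩ := hΨ.pos_bound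
  -- the parameters
  set ι : ℝ := min 1 (η / 8) with hι
  have hι0 : 0 < ι := lt_min zero_lt_one (by positivity)
  have hι1 : ι ≤ 1 := min_le_left _ _
  have hιη : ι ≤ η / 8 := min_le_right _ _
  obtain ⟨S₁, hS₁⟩ := hK.avg ι hι0
  obtain ⟨S₂, hS₂⟩ := huv.avg2 ι hι0
  obtain ⟨S₃, hS₃⟩ := hvu.avg2 ι hι0
  set D : ℝ := C * C with hD
  have hD0 : 0 ≤ D := by positivity
  obtain ⟨S₄, hS₄⟩ := exists_nat_gt
    ((2 * |((u * h : ℤ) : ℝ)| * D + 2 * |((v * h : ℤ) : ℝ)| * D) / (η / 2))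
  set L : ℕ := S₀ + S₁ + S₂ + S₃ + S₄ + 1 with hL
  have hL0 : (0 : ℝ) < L := by rw [hL]; positivity
  have hDf := hS₀ L (by omega)
  have havg := hS₁ L (by omega)
  have havgv := hS₂ L (by omega)
  have havgu := hS₃ L (by omega)
  have hbdL : 2 * |((u * h : ℤ) : ℝ)| * D / L + 2 * |((v * h : ℤ) : ℝ)| * D / L ≤ η / 2 := by
    rw [← add_div, div_le_iff₀ hL0]
    rw [div_lt_iff₀ (by positivity)] at hS₄
    have h1 : (S₄ : ℝ) ≤ L := by
      rw [hL]
      exact_mod_cast (by omega : S₄ ≤ S₀ + S₁ + S₂ + S₃ + S₄ + 1)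
    nlinarith
  -- the functions
  set I : ℤ → ℤ → ℤ → ℝ := fun s r w =>
    if f (u * w - s).toNat = f (v * w - r).toNat then 0 else 1 with hI
  have hI01 : ∀ s r w, 0 ≤ I s r w ∧ I s r w ≤ 1 := fun s r w => by
    simp only [hI]; split_ifs <;> norm_num
  set g : ℤ → ℤ → ℤ → ℝ := fun s r w => Ψ (u * w + s) * Ψ (v * w + r) * I s r w with hg
  set I' : ℤ → ℤ → ℤ → ℝ := fun s r w =>
    if f (u * w - s + 2 * u * h).toNat = f (v * w - r + 2 * v * h).toNat then 0 else 1 with hI'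
  have hI'01 : ∀ s r w, 0 ≤ I' s r w ∧ I' s r w ≤ 1 := fun s r w => by
    simp only [hI']; split_ifs <;> norm_num
  set g' : ℤ → ℤ → ℤ → ℝ := fun s r w => Ψ (u * w + s) * Ψ (v * w + r) * I' s r w with hg'
  have hΨΨ : ∀ x y : ℤ, 0 ≤ Ψ x * Ψ y ∧ Ψ x * Ψ y ≤ D := by
    intro x y
    have h1 := hC x
    have h2 := hC y
    rw [abs_of_nonneg (hΨ0 x)] at h1
    rw [abs_of_nonneg (hΨ0 y)] at h2
    exact ⟨mul_nonneg (hΨ0 x) (hΨ0 y), mul_le_mul h1 h2 (hΨ0 y) hC0.le⟩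
  have hmulD : ∀ (x y : ℤ) {c : ℝ}, 0 ≤ c → c ≤ 1 → |Ψ x * Ψ y * c| ≤ D := by
    intro x y c hc0 hc1
    rw [abs_of_nonneg (mul_nonneg (hΨΨ x y).1 hc0)]
    calc Ψ x * Ψ y * c ≤ D * 1 := mul_le_mul (hΨΨ x y).2 hc1 hc0 hD0
      _ = D := mul_one _
  have hgD : ∀ s r w, |g s r w| ≤ D := fun s r w => hmulD _ _ (hI01 s r w).1 (hI01 s r w).2
  have hg'D : ∀ s r w, |g' s r w| ≤ D := fun s r w => hmulD _ _ (hI'01 s r w).1 (hI'01 s r w).2
  have hDful : E2 L (fun s r => S.m (g s r)) ≤ ε / 2 := hDf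
  -- shift of the third variable
  have hgg' : ∀ s r, S.m (g s r) = S.m (g' (s + u * h) (r + v * h)) := by
    intro s r
    rw [← S.m_shift h (⟨D, hgD s r⟩ : Bdd (g s r))]
    refine S.pf.congr fun w => ?_
    simp only [hg, hg', hI, hI']
    rw [show (u : ℤ) * (w + h) + s = u * w + (s + u * h) by ring,
      show (v : ℤ) * (w + h) + r = v * w + (r + v * h) by ring,
      show (u : ℤ) * (w + h) - s = u * w - (s + u * h) + 2 * u * h by ring,
      show (v : ℤ) * (w + h) - r = v * w - (r + v * h) + 2 * v * h by ring]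
  have hg'L : E2 L (fun s r => S.m (g' s r)) ≤ ε / 2 + η / 2 := by
    have hA : ∀ x y, |S.m (g' x y)| ≤ D := fun x y => S.pf.abs_le (hg'D x y)
    have h1 := E2_shift hD0 hA L (u * h) (v * h)
    have h2 : E2 L (fun s r => S.m (g' (s + u * h) (r + v * h))) = E2 L (fun s r => S.m (g s r)) := by
      simp only [← hgg']
    rw [h2] at h1
    have h3 := (abs_le.mp (h1.trans hbdL)).1
    linarith
  -- the two sides
  set Xv : ℤ → ℤ → ℤ → ℝ := fun s r w => Ψ (u * w + s) * (Ψ (v * w + r) *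
    Df f (2 * v * h) (v * w - r)) with hXv
  set Xu : ℤ → ℤ → ℤ → ℝ := fun s r w => (Ψ (u * w + s) * Df f (2 * u * h) (u * w - s)) *
    Ψ (v * w + r) with hXu
  have hXvD : ∀ s r w, |Xv s r w| ≤ D := fun s r w => by
    simp only [hXv]
    rw [← mul_assoc]
    exact hmulD _ _ (Df_U01 f _ _).1 (Df_U01 f _ _).2
  have hXuD : ∀ s r w, |Xu s r w| ≤ D := fun s r w => by
    simp only [hXu]
    rw [mul_right_comm]
    exact hmulD _ _ (Df_U01 f _ _).1 (Df_U01 f _ _).2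
  have htri : ∀ s r w, Xv s r w ≤ g s r w + Xu s r w + g' s r w := by
    intro s r w
    simp only [hXv, hXu, hg, hg']
    have h1 : Df f (2 * v * h) (v * w - r) ≤ I s r w + Df f (2 * u * h) (u * w - s) + I' s r w := by
      simp only [hI, hI', Df]
      exact ne_tri
    calc Ψ (u * w + s) * (Ψ (v * w + r) * Df f (2 * v * h) (v * w - r))
        = (Ψ (u * w + s) * Ψ (v * w + r)) * Df f (2 * v * h) (v * w - r) := by ring
      _ ≤ (Ψ (u * w + s) * Ψ (v * w + r)) *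
          (I s r w + Df f (2 * u * h) (u * w - s) + I' s r w) :=
          mul_le_mul_of_nonneg_left h1 (hΨΨ _ _).1
      _ = _ := by ring
  have hmain : E2 L (fun s r => S.m (Xv s r)) ≤
      E2 L (fun s r => S.m (g s r)) + E2 L (fun s r => S.m (Xu s r)) +
        E2 L (fun s r => S.m (g' s r)) := by
    rw [← E2_add, ← E2_add]
    refine E2_mono fun s r => ?_
    have b1 : Bdd (g s r) := ⟨D, hgD s r⟩
    have b2 : Bdd (Xu s r) := ⟨D, hXuD s r⟩
    have b3 : Bdd (g' s r) := ⟨D, hg'D s r⟩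
    rw [← S.pf.add b1 b2, ← S.pf.add (b1.add b2) b3]
    exact S.pf.mono ⟨D, hXvD s r⟩ ((b1.add b2).add b3) (htri s r)
  -- the left side
  have hΨavg : ∀ y : ℤ, |E1 L (fun s => Ψ (y + s)) - 1| ≤ ι := fun y => havg y
  have hbv : ∀ w : ℤ, 0 ≤ E1 L (fun r => Ψ (v * w + r) * Df f (2 * v * h) (v * w - r)) ∧
      E1 L (fun r => Ψ (v * w + r) * Df f (2 * v * h) (v * w - r)) ≤ 2 := by
    intro w
    refine ⟨E1_nonneg fun r => mul_nonneg (hΨ0 _) (Df_U01 f _ _).1, ?_⟩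
    have h1 := (abs_le.mp (hΨavg (v * w))).2
    have h2 : E1 L (fun r => Ψ (v * w + r) * Df f (2 * v * h) (v * w - r)) ≤
        E1 L (fun r => Ψ (v * w + r)) := E1_mono fun r =>
      mul_le_of_le_one_right (hΨ0 _) (Df_U01 f _ _).2
    linarith
  have hbu : ∀ w : ℤ, 0 ≤ E1 L (fun s => Ψ (u * w + s) * Df f (2 * u * h) (u * w - s)) ∧
      E1 L (fun s => Ψ (u * w + s) * Df f (2 * u * h) (u * w - s)) ≤ 2 := by
    intro w
    refine ⟨E1_nonneg fun r => mul_nonneg (hΨ0 _) (Df_U01 f _ _).1, ?_⟩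
    have h1 := (abs_le.mp (hΨavg (u * w))).2
    have h2 : E1 L (fun s => Ψ (u * w + s) * Df f (2 * u * h) (u * w - s)) ≤
        E1 L (fun s => Ψ (u * w + s)) := E1_mono fun r =>
      mul_le_of_le_one_right (hΨ0 _) (Df_U01 f _ _).2
    linarith
  have hbvB : Bdd (fun w => E1 L (fun r => Ψ (v * w + r) * Df f (2 * v * h) (v * w - r))) :=
    ⟨2, fun w => by rw [abs_of_nonneg (hbv w).1]; exact (hbv w).2⟩
  have hbuB : Bdd (fun w => E1 L (fun s => Ψ (u * w + s) * Df f (2 * u * h) (u * w - s))) :=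
    ⟨2, fun w => by rw [abs_of_nonneg (hbu w).1]; exact (hbu w).2⟩
  have hleft : S.m (fun w => E1 L (fun r => Ψ (v * w + r) * Df f (2 * v * h) (v * w - r))) -
      2 * ι ≤ E2 L (fun s r => S.m (Xv s r)) := by
    rw [E2_m L hD0 hXvD, ← S.pf.const (2 * ι), ← S.pf.sub hbvB (Bdd.const _)]
    have hBB : Bdd (fun w => E2 L (fun s r => Xv s r w)) :=
      ⟨D, fun w => E1_abs_le hD0 fun s => E1_abs_le hD0 fun r => hXvD s r w⟩
    refine S.pf.mono (hbvB.sub (Bdd.const _)) hBB fun w => ?_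
    have e1 : E2 L (fun s r => Xv s r w) = E1 L (fun s => Ψ (u * w + s)) *
        E1 L (fun r => Ψ (v * w + r) * Df f (2 * v * h) (v * w - r)) :=
      E2_mul L (fun s => Ψ (u * w + s)) (fun r => Ψ (v * w + r) * Df f (2 * v * h) (v * w - r))
    rw [e1]
    have h1 := (abs_le.mp (hΨavg (u * w))).1
    have h2 := hbv w
    nlinarith [h2.1, h2.2]
  have hright : E2 L (fun s r => S.m (Xu s r)) ≤
      S.m (fun w => E1 L (fun s => Ψ (u * w + s) * Df f (2 * u * h) (u * w - s))) + 2 * ι := by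
    rw [E2_m L hD0 hXuD, ← S.pf.const (2 * ι), ← S.pf.add hbuB (Bdd.const _)]
    have hBB : Bdd (fun w => E2 L (fun s r => Xu s r w)) :=
      ⟨D, fun w => E1_abs_le hD0 fun s => E1_abs_le hD0 fun r => hXuD s r w⟩
    refine S.pf.mono hBB (hbuB.add (Bdd.const _)) fun w => ?_
    have e1 : E2 L (fun s r => Xu s r w) =
        E1 L (fun s => Ψ (u * w + s) * Df f (2 * u * h) (u * w - s)) *
          E1 L (fun r => Ψ (v * w + r)) :=
      E2_mul L (fun s => Ψ (u * w + s) * Df f (2 * u * h) (u * w - s)) (fun r => Ψ (v * w + r))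
    rw [e1]
    have h1 := (abs_le.mp (hΨavg (v * w))).2
    have h2 := hbu w
    nlinarith [h2.1, h2.2]
  have hpv := abs_le.mp (mean_phase (S := S) hΨ (f := f) hv.pos havgv (2 * v * h))
  have hpu := abs_le.mp (mean_phase (S := S) hΨ (f := f) hu.pos havgu (2 * u * h))
  linarith [hpv.1, hpv.2, hpu.1, hpu.2]

end Pool.Agent.LC79
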