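import Pool.Agent.Lib.MP_60922f_co.LC.StmtsV2_79

/-!
LC, module VM: the main inequality of the double phase matching.
-/

set_option autoImplicit false

open Filter Topology

namespace Pool.Agent.LC79
open Pool.Agent.FinA Pool.Agent.FinClique
open Pool.Agent.FinA.M9m (B2 mm)

namespace VM77

variable {S : MeanSys}

/-! ### averages over two shifts -/

lemma E2_add (L : ℕ) (G H : ℤ → ℤ → ℝ) :
    E2 L (fun s r => G s r + H s r) = E2 L G + E2 L H := by
  unfold E2
  simp only [Finset.sum_add_distrib, mul_add]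

lemma E2_smul (L : ℕ) (c : ℝ) (G : ℤ → ℤ → ℝ) : E2 L (fun s r => c * G s r) = c * E2 L G := by
  unfold E2
  simp only [Finset.mul_sum]
  exact Finset.sum_congr rfl fun s _ => Finset.sum_congr rfl fun r _ => by ring

lemma E2_mono (L : ℕ) {G H : ℤ → ℤ → ℝ} (h : ∀ s r, G s r ≤ H s r) : E2 L G ≤ E2 L H := by
  unfold E2
  have hL : (0 : ℝ) ≤ 1 / L := by positivity
  exact mul_le_mul_of_nonneg_left (Finset.sum_le_sum fun s _ =>
    mul_le_mul_of_nonneg_left (Finset.sum_le_sum fun r _ => h s r) hL) hL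

lemma E2_swap (L : ℕ) (G : ℤ → ℤ → ℝ) : E2 L (fun s r => G r s) = E2 L G := by
  unfold E2
  rw [← Finset.mul_sum, ← Finset.mul_sum, Finset.sum_comm]

lemma E2_nonneg (L : ℕ) {G : ℤ → ℤ → ℝ} (h : ∀ s r, 0 ≤ G s r) : 0 ≤ E2 L G := by
  have := E2_mono L (G := fun _ _ => 0) (H := G) h
  have h0 : E2 L (fun _ _ => (0 : ℝ)) = 0 := by simp [E2]
  linarith

/-- in a window of length `L` at most `L / M + 1` integers are in a class modulo `M` -/
lemma count_class (M : ℕ) (hM : 0 < M) (L : ℕ) (s : ℤ) :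
    (∑ r ∈ Finset.range L, if (M : ℤ) ∣ s - (r : ℤ) then (1 : ℝ) else 0) ≤ (L : ℝ) / M + 1 := by
  have hM' : (0 : ℤ) < M := by exact_mod_cast hM
  rw [← Finset.sum_filter, Finset.sum_const, nsmul_eq_mul, mul_one]
  have h1 : ((Finset.range L).filter fun r : ℕ => (M : ℤ) ∣ s - (r : ℤ)).card ≤ L / M + 1 := by
    have h2 : ((Finset.range L).filter fun r : ℕ => (M : ℤ) ∣ s - (r : ℤ)).card ≤
        (Finset.range (L / M + 1)).card := by
      refine Finset.card_le_card_of_injOn (fun r => r / M) ?_ ?_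
      · intro r hr
        have hr' := Finset.mem_filter.1 (Finset.mem_coe.1 hr)
        have h3 := Finset.mem_range.1 hr'.1
        refine Finset.mem_coe.2 (Finset.mem_range.2 ?_)
        have : r / M ≤ L / M := Nat.div_le_div_right h3.le
        exact Nat.lt_succ_of_le this
      · intro r hr r' hr' he
        have a1 := (Finset.mem_filter.1 (Finset.mem_coe.1 hr)).2
        have a2 := (Finset.mem_filter.1 (Finset.mem_coe.1 hr')).2
        have a3 : (M : ℤ) ∣ (r : ℤ) - r' := by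
          have := dvd_sub a2 a1
          rwa [show s - (r' : ℤ) - (s - (r : ℤ)) = (r : ℤ) - r' by ring] at this
        have a4 : r % M = r' % M := by
          have := (Nat.modEq_iff_dvd (n := M) (a := r') (b := r)).2 a3
          exact this.symm
        have b1 := Nat.div_add_mod r M
        have b2 := Nat.div_add_mod r' M
        simp only at he
        rw [he, a4] at b1
        omega
    rwa [Finset.card_range] at h2
  have h3 : ((((Finset.range L).filter fun r : ℕ => (M : ℤ) ∣ s - (r : ℤ)).card : ℕ) : ℝ) ≤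
      ((L / M + 1 : ℕ) : ℝ) := by exact_mod_cast h1
  refine h3.trans ?_
  push_cast
  have := Nat.cast_div_le (α := ℝ) (m := L) (n := M)
  linarith

lemma E2_class (M : ℕ) (hM : 0 < M) {L : ℕ} (hL : 0 < L) :
    E2 L (fun s r => if (M : ℤ) ∣ s - r then (1 : ℝ) else 0) ≤ 1 / M + 1 / L := by
  have hL' : (0 : ℝ) < L := by exact_mod_cast hL
  unfold E2
  have h1 : ∀ s ∈ Finset.range L, (1 / (L : ℝ)) * ∑ r ∈ Finset.range L,
      (if (M : ℤ) ∣ (s : ℤ) - (r : ℤ) then (1 : ℝ) else 0) ≤ 1 / M + 1 / L := by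
    intro s _
    have := mul_le_mul_of_nonneg_left (count_class M hM L s) (by positivity : (0 : ℝ) ≤ 1 / L)
    refine this.trans (le_of_eq ?_)
    field_simp
  calc _ ≤ (1 / (L : ℝ)) * ∑ s ∈ Finset.range L, (1 / (M : ℝ) + 1 / L) :=
        mul_le_mul_of_nonneg_left (Finset.sum_le_sum h1) (by positivity)
    _ = 1 / M + 1 / L := by
        rw [Finset.sum_const, Finset.card_range, nsmul_eq_mul]
        field_simp

/-! ### correlations -/

/-- `1` where the colours differ -/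
noncomputable def nef (f : ℕ → Bool) (x y : ℤ) : ℝ := if f x.toNat = f y.toNat then 0 else 1

lemma nef_nonneg (f : ℕ → Bool) (x y : ℤ) : 0 ≤ nef f x y := by
  unfold nef; split_ifs <;> norm_num

lemma nef_le_one (f : ℕ → Bool) (x y : ℤ) : nef f x y ≤ 1 := by
  unfold nef; split_ifs <;> norm_num

/-- correlation of two cells with kernels -/
noncomputable def Cc (S : MeanSys) (Ψ : ℤ → ℝ) (A B : Set ℤ) (u v : ℕ) (s r : ℤ) : ℝ :=
  S.m (fun n => ind A (v * n) * Ψ (v * n + s) * (ind B (u * n) * Ψ (u * n + r)))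

/-- the same, restricted to points where the colours differ -/
noncomputable def Dd (S : MeanSys) (f : ℕ → Bool) (Ψ : ℤ → ℝ) (A B : Set ℤ) (u v : ℕ)
    (s r : ℤ) : ℝ :=
  S.m (fun w => ind A (u * w) * Ψ (u * w + s) * (ind B (v * w) * Ψ (v * w + r)) *
    nef f (u * w - s) (v * w - r))

lemma Cc_bdd {Ψ : ℤ → ℝ} (hΨ : Bdd Ψ) (A B : Set ℤ) (u v : ℕ) (s r : ℤ) :
    Bdd (fun n : ℤ => ind A (v * n) * Ψ (v * n + s) * (ind B (u * n) * Ψ (u * n + r))) :=
  (((ind_bdd A).comp fun n => v * n).mul (hΨ.comp fun n => v * n + s)).mul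
    (((ind_bdd B).comp fun n => u * n).mul (hΨ.comp fun n => u * n + r))

lemma nef_bdd (f : ℕ → Bool) (a b : ℤ → ℤ) : Bdd (fun w => nef f (a w) (b w)) :=
  ⟨1, fun _ => by rw [abs_of_nonneg (nef_nonneg _ _ _)]; exact nef_le_one _ _ _⟩

lemma Dd_bdd {Ψ : ℤ → ℝ} (hΨ : Bdd Ψ) (f : ℕ → Bool) (A B : Set ℤ) (u v : ℕ) (s r : ℤ) :
    Bdd (fun w : ℤ => ind A (u * w) * Ψ (u * w + s) * (ind B (v * w) * Ψ (v * w + r)) *
      nef f (u * w - s) (v * w - r)) :=
  (Cc_bdd hΨ A B v u s r).mul (nef_bdd f _ _)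

lemma Cc_nonneg {Ψ : ℤ → ℝ} (hΨ : Bdd Ψ) (h0 : ∀ x, 0 ≤ Ψ x) (A B : Set ℤ) (u v : ℕ)
    (s r : ℤ) : 0 ≤ Cc S Ψ A B u v s r :=
  S.pf.nonneg (Cc_bdd hΨ A B u v s r) fun n => mul_nonneg
    (mul_nonneg (ind_nonneg _ _) (h0 _)) (mul_nonneg (ind_nonneg _ _) (h0 _))

lemma Dd_nonneg {Ψ : ℤ → ℝ} (hΨ : Bdd Ψ) (h0 : ∀ x, 0 ≤ Ψ x) (f : ℕ → Bool) (A B : Set ℤ)
    (u v : ℕ) (s r : ℤ) : 0 ≤ Dd S f Ψ A B u v s r :=
  S.pf.nonneg (Dd_bdd hΨ f A B u v s r) fun w => mul_nonneg (mul_nonneg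
    (mul_nonneg (ind_nonneg _ _) (h0 _)) (mul_nonneg (ind_nonneg _ _) (h0 _))) (nef_nonneg _ _ _)

lemma Dd_le {Ψ : ℤ → ℝ} (hΨ : Bdd Ψ) (h0 : ∀ x, 0 ≤ Ψ x) (f : ℕ → Bool) (A B : Set ℤ)
    (u v : ℕ) (s r : ℤ) : Dd S f Ψ A B u v s r ≤ Cc S Ψ A B v u s r :=
  S.pf.mono (Dd_bdd hΨ f A B u v s r) (Cc_bdd hΨ A B v u s r) fun w =>
    mul_le_of_le_one_right (mul_nonneg (mul_nonneg (ind_nonneg _ _) (h0 _))
      (mul_nonneg (ind_nonneg _ _) (h0 _))) (nef_le_one _ _ _)

lemma Dd_supp {Ψ : ℤ → ℝ} {M : ℕ} (hs : ∀ x, Ψ x ≠ 0 → (M : ℤ) ∣ x) (f : ℕ → Bool)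
    (A B : Set ℤ) {u v : ℕ} (huv : u ≡ v [MOD M]) {s r : ℤ} (hsr : ¬ (M : ℤ) ∣ s - r) :
    Dd S f Ψ A B u v s r = 0 := by
  unfold Dd
  rw [S.pf.congr (G := fun _ => 0), S.pf.zero]
  intro w
  by_cases h1 : Ψ (u * w + s) = 0
  · rw [h1]; ring
  by_cases h2 : Ψ (v * w + r) = 0
  · rw [h2]; ring
  exfalso
  apply hsr
  have a1 := hs _ h1
  have a2 := hs _ h2
  have a3 : (M : ℤ) ∣ (v : ℤ) - u := (Nat.modEq_iff_dvd (n := M) (a := u) (b := v)).1 huv
  have a4 := dvd_add (dvd_sub a1 a2) (Dvd.dvd.mul_right a3 w)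
  rwa [show (u : ℤ) * w + s - (v * w + r) + (v - u) * w = s - r by ring] at a4

/-! ### the two correlations are close -/

/-- expansion of a correlation by the rank of the kernel -/
lemma Cc_expand {Ψ : ℤ → ℝ} {I : ℕ} {p q : Fin I → ℤ → ℝ}
    (hp : ∀ i, Bdd (p i)) (hr : ∀ x s, Ψ (x + s) = ∑ i, p i x * q i s) (A B : Set ℤ)
    (u v : ℕ) (s r : ℤ) : Cc S Ψ A B u v s r = ∑ a, ∑ b, q a s * q b r *
      S.m (fun n => (ind A (v * n) * p a (v * n)) * (ind B (u * n) * p b (u * n))) := by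
  have hb : ∀ a b, Bdd (fun n : ℤ => (ind A (v * n) * p a (v * n)) *
      (ind B (u * n) * p b (u * n))) := fun a b =>
    (((ind_bdd A).comp fun n => v * n).mul ((hp a).comp fun n => v * n)).mul
      (((ind_bdd B).comp fun n => u * n).mul ((hp b).comp fun n => u * n))
  have e : (fun n : ℤ => ind A (v * n) * Ψ (v * n + s) * (ind B (u * n) * Ψ (u * n + r))) =
      fun n => ∑ a, ∑ b, q a s * q b r *
        ((ind A (v * n) * p a (v * n)) * (ind B (u * n) * p b (u * n))) := by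
    funext n
    rw [hr, hr, Finset.mul_sum, Finset.mul_sum, Finset.sum_mul_sum]
    refine Finset.sum_congr rfl fun a _ => Finset.sum_congr rfl fun b _ => by ring
  unfold Cc
  rw [e, S.pf.sum _ _ fun a _ => Bdd.sum _ _ fun b _ => (hb a b).smul _]
  refine Finset.sum_congr rfl fun a _ => ?_
  rw [S.pf.sum _ _ fun b _ => (hb a b).smul _]
  exact Finset.sum_congr rfl fun b _ => S.pf.smul _ (hb a b)

lemma close {P : Ultrafilter ℕ} (h7 : ∀ G H : ℤ → ℝ, Bdd G → Bdd H → ∃ l : ℝ, ∀ ε > (0 : ℝ),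
    ∀ᶠ u : ℕ in (P : Filter ℕ), ∀ᶠ v : ℕ in (P : Filter ℕ),
      |S.m (fun n => G (v * n) * H (u * n)) - l| ≤ ε ∧
      |S.m (fun n => G (u * n) * H (v * n)) - l| ≤ ε)
    {Ψ : ℤ → ℝ} (hR : FRank Ψ) (A B : Set ℤ) {ι : ℝ} (hι : 0 < ι) :
    ∀ᶠ u : ℕ in (P : Filter ℕ), ∀ᶠ v : ℕ in (P : Filter ℕ), ∀ s r : ℤ,
      |Cc S Ψ A B u v s r - Cc S Ψ A B v u s r| ≤ ι := by
  obtain ⟨I, p, q, hp, hq, hr⟩ := hR
  obtain ⟨Cq, hCq⟩ : ∃ Cq : ℝ, 0 < Cq ∧ ∀ a s, |q a s| ≤ Cq := by
    choose D hD0 hD using fun a => (hq a).pos_bound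
    refine ⟨∑ a, D a + 1, by
      have : 0 ≤ ∑ a, D a := Finset.sum_nonneg fun a _ => (hD0 a).le
      linarith, fun a s => ?_⟩
    have h1 : D a ≤ ∑ a, D a := Finset.single_le_sum (fun a _ => (hD0 a).le) (Finset.mem_univ a)
    have := hD a s
    linarith
  obtain ⟨hC0, hCq⟩ := hCq
  set η : ℝ := ι / (2 * ((I : ℝ) ^ 2 + 1) * Cq ^ 2) with hη
  have hη0 : 0 < η := by positivity
  have hpair : ∀ a b : Fin I, ∀ᶠ u : ℕ in (P : Filter ℕ), ∀ᶠ v : ℕ in (P : Filter ℕ),
      |S.m (fun n => (ind A (v * n) * p a (v * n)) * (ind B (u * n) * p b (u * n))) -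
        S.m (fun n => (ind A (u * n) * p a (u * n)) * (ind B (v * n) * p b (v * n)))| ≤ 2 * η := by
    intro a b
    obtain ⟨l, hl⟩ := h7 (fun x => ind A x * p a x) (fun x => ind B x * p b x)
      ((ind_bdd A).mul (hp a)) ((ind_bdd B).mul (hp b))
    filter_upwards [hl η hη0] with u hu
    filter_upwards [hu] with v hv
    obtain ⟨h1, h2⟩ := hv
    rw [abs_le] at h1 h2 ⊢
    constructor <;> linarith [h1.1, h1.2, h2.1, h2.2]
  have hall : ∀ᶠ u : ℕ in (P : Filter ℕ), ∀ᶠ v : ℕ in (P : Filter ℕ), ∀ a b : Fin I,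
      |S.m (fun n => (ind A (v * n) * p a (v * n)) * (ind B (u * n) * p b (u * n))) -
        S.m (fun n => (ind A (u * n) * p a (u * n)) * (ind B (v * n) * p b (v * n)))| ≤ 2 * η := by
    have := eventually_all.2 fun a => eventually_all.2 fun b => hpair a b
    filter_upwards [this] with u hu
    exact eventually_all.2 fun a => eventually_all.2 fun b => hu a b
  filter_upwards [hall] with u hu
  filter_upwards [hu] with v hv
  intro s r
  rw [Cc_expand hp hr, Cc_expand hp hr, ← Finset.sum_sub_distrib]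
  calc _ ≤ ∑ a : Fin I, ∑ b : Fin I, Cq ^ 2 * (2 * η) := by
        refine (Finset.abs_sum_le_sum_abs _ _).trans (Finset.sum_le_sum fun a _ => ?_)
        rw [← Finset.sum_sub_distrib]
        refine (Finset.abs_sum_le_sum_abs _ _).trans (Finset.sum_le_sum fun b _ => ?_)
        rw [← mul_sub, abs_mul, abs_mul]
        have h1 : |q a s| * |q b r| ≤ Cq ^ 2 := by
          rw [sq]; exact mul_le_mul (hCq a s) (hCq b r) (abs_nonneg _) hC0.le
        exact mul_le_mul h1 (hv a b) (abs_nonneg _) (by positivity)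
    _ = (I : ℝ) ^ 2 * (Cq ^ 2 * (2 * η)) := by
        simp only [Finset.sum_const, Finset.card_univ, Fintype.card_fin, nsmul_eq_mul]
        ring
    _ ≤ ι := by
        rw [hη]
        have e : (I : ℝ) ^ 2 * (Cq ^ 2 * (2 * (ι / (2 * ((I : ℝ) ^ 2 + 1) * Cq ^ 2)))) =
            ι * ((I : ℝ) ^ 2 / ((I : ℝ) ^ 2 + 1)) := by field_simp
        rw [e]
        have : (I : ℝ) ^ 2 / ((I : ℝ) ^ 2 + 1) ≤ 1 := by
          rw [div_le_one (by positivity)]; linarith
        nlinarith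

/-! ### the K-move -/

lemma K4_b2 {Ψ : ℤ → ℝ} (hΨ : Bdd Ψ) (u v : ℕ) (s r : ℤ) : B2 (fun n w => K4 Ψ u v n w s r) := by
  unfold K4
  exact ((M9m.B2.of hΨ fun n _ => v * n + s).mul (M9m.B2.of hΨ fun _ w => u * w + s)).mul
    ((M9m.B2.of hΨ fun n _ => u * n + r).mul (M9m.B2.of hΨ fun _ w => v * w + r))

lemma Df2_b2 (f : ℕ → Bool) (a b : ℤ → ℤ → ℤ) : B2 (fun n w => Df f (a n w) (b n w)) :=
  ⟨1, fun _ _ => (Df_U01 f _).abs_le_one _⟩

lemma nef2_b2 (f : ℕ → Bool) (a b : ℤ → ℤ → ℤ) : B2 (fun n w => nef f (a n w) (b n w)) :=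
  ⟨1, fun n w => by rw [abs_of_nonneg (nef_nonneg _ _ _)]; exact nef_le_one _ _ _⟩

lemma ind_Yset (A B : Set ℤ) (u v : ℕ) (n : ℤ) :
    ind (Yset A B u v) n = ind A (v * n) * ind B (u * n) := by
  by_cases h1 : (v : ℤ) * n ∈ A
  · by_cases h2 : (u : ℤ) * n ∈ B
    · rw [ind_of_mem h1, ind_of_mem h2, ind_of_mem (show n ∈ Yset A B u v from ⟨h1, h2⟩)]
      norm_num
    · rw [ind_of_notMem h2, mul_zero]
      exact ind_of_notMem fun h => h2 h.2
  · rw [ind_of_notMem h1, zero_mul]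
    exact ind_of_notMem fun h => h1 h.1

/-- the product of the correlations is an iterated mean; K-move -/
lemma prod_le {f : ℕ → Bool} {Ψ : ℤ → ℝ} (hΨ : Bdd Ψ) (h0 : ∀ x, 0 ≤ Ψ x) {A B : Set ℤ}
    {u v : ℕ} (hK : Kmv S f (Yset A B u v) (Yset A B v u) u v) (s r : ℤ) :
    Cc S Ψ A B u v s r * Dd S f Ψ A B u v s r ≤
      mm S (fun n w => ind (Yset A B u v) n * ind (Yset A B v u) w * (K4 Ψ u v n w s r *
        (Df f (v * n + s) (u * w - s) + Df f (u * n + r) (v * w - r)))) := by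
  have hbC := Cc_bdd hΨ A B u v s r
  have hbD := Dd_bdd hΨ f A B u v s r
  unfold Cc Dd
  rw [← M9m.mm_mul hbC hbD]
  have hbR : B2 (fun n w : ℤ => ind (Yset A B u v) n * ind (Yset A B v u) w *
      (K4 Ψ u v n w s r *
        (Df f (v * n + s) (u * w - s) + Df f (u * n + r) (v * w - r)))) :=
    (B2.prod (ind_bdd _) (ind_bdd _)).mul ((K4_b2 hΨ u v s r).mul
      ((Df2_b2 f (fun n _ => v * n + s) fun _ w => u * w - s).add
        (Df2_b2 f (fun n _ => u * n + r) fun _ w => v * w - r)))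
  have hbL : B2 (fun n w : ℤ => (ind A (v * n) * Ψ (v * n + s) *
      (ind B (u * n) * Ψ (u * n + r))) * (ind A (u * w) * Ψ (u * w + s) *
      (ind B (v * w) * Ψ (v * w + r)) * nef f (u * w - s) (v * w - r))) := B2.prod hbC hbD
  unfold M9m.mm
  refine S.pf.mono (hbL.outer S) (hbR.outer S) fun n => ?_
  by_cases hn : n ∈ Yset A B u v
  swap
  · have e1 : ind A (v * n) * ind B (u * n) = 0 := by
      rw [← ind_Yset, ind_of_notMem hn]
    rw [S.pf.congr (G := fun _ => 0), S.pf.zero]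
    · refine S.pf.nonneg (hbR.row n) fun w => ?_
      beta_reduce
      rw [ind_of_notMem hn]; simp
    · intro w
      beta_reduce
      have : ind A (v * n) * Ψ (v * n + s) * (ind B (u * n) * Ψ (u * n + r)) =
          (ind A (v * n) * ind B (u * n)) * (Ψ (v * n + s) * Ψ (u * n + r)) := by ring
      rw [this, e1]; ring
  · -- off a null set the inequality holds pointwise
    set E : Set ℤ := {w | w ∈ Yset A B v u ∧
      f (v * n + u * w).toNat ≠ f (u * n + v * w).toNat} with hE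
    have hE0 : S.m (ind E) = 0 := hK n hn
    obtain ⟨D, hD0, hD⟩ := (hbL.row n).nonneg_bound
    have h1 : S.m (fun w : ℤ => (ind A (v * n) * Ψ (v * n + s) *
      (ind B (u * n) * Ψ (u * n + r))) * (ind A (u * w) * Ψ (u * w + s) *
      (ind B (v * w) * Ψ (v * w + r)) * nef f (u * w - s) (v * w - r))) ≤
      S.m (fun w : ℤ => ind (Yset A B u v) n * ind (Yset A B v u) w * (K4 Ψ u v n w s r *
        (Df f (v * n + s) (u * w - s) + Df f (u * n + r) (v * w - r))) + D * ind E w) := by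
      refine S.pf.mono (hbL.row n) ((hbR.row n).add ((ind_bdd E).smul D)) fun w => ?_
      by_cases hwE : w ∈ E
      · rw [ind_of_mem hwE, mul_one]
        have a1 := (le_abs_self _).trans (hD w)
        have a2 : 0 ≤ ind (Yset A B u v) n * ind (Yset A B v u) w * (K4 Ψ u v n w s r *
            (Df f (v * n + s) (u * w - s) + Df f (u * n + r) (v * w - r))) := by
          refine mul_nonneg (mul_nonneg (ind_nonneg _ _) (ind_nonneg _ _)) (mul_nonneg ?_
            (add_nonneg (Df_U01 f _ _).1 (Df_U01 f _ _).1))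
          unfold K4
          exact mul_nonneg (mul_nonneg (h0 _) (h0 _)) (mul_nonneg (h0 _) (h0 _))
        linarith
      rw [ind_of_notMem hwE, mul_zero, add_zero, ind_Yset, ind_Yset]
      have e : (ind A (v * n) * Ψ (v * n + s) * (ind B (u * n) * Ψ (u * n + r))) *
          (ind A (u * w) * Ψ (u * w + s) * (ind B (v * w) * Ψ (v * w + r)) *
            nef f (u * w - s) (v * w - r)) =
          (ind A (v * n) * ind B (u * n)) * (ind A (u * w) * ind B (v * w)) *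
            (K4 Ψ u v n w s r * nef f (u * w - s) (v * w - r)) := by
        unfold K4; ring
      rw [e]
      by_cases hw : w ∈ Yset A B v u
      swap
      · have e1 : ind A (u * w) * ind B (v * w) = 0 := by
          rw [← ind_Yset A B v u, ind_of_notMem hw]
        rw [e1]; simp
      have hc : f (v * n + u * w).toNat = f (u * n + v * w).toNat := by
        by_contra hne
        exact hwE ⟨hw, hne⟩
      have k0 : 0 ≤ K4 Ψ u v n w s r := by
        unfold K4
        exact mul_nonneg (mul_nonneg (h0 _) (h0 _)) (mul_nonneg (h0 _) (h0 _))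
      refine mul_le_mul_of_nonneg_left (mul_le_mul_of_nonneg_left ?_ k0)
        (mul_nonneg (mul_nonneg (ind_nonneg _ _) (ind_nonneg _ _))
          (mul_nonneg (ind_nonneg _ _) (ind_nonneg _ _)))
      unfold nef Df
      rw [show (u : ℤ) * w - s + (v * n + s) = v * n + u * w by ring,
        show (v : ℤ) * w - r + (u * n + r) = u * n + v * w by ring]
      by_cases c1 : f (v * n + u * w).toNat = f (u * w - s).toNat
      · by_cases c2 : f (u * n + v * w).toNat = f (v * w - r).toNat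
        · rw [if_pos (c1.symm.trans (hc.trans c2)), if_pos c1, if_pos c2]; norm_num
        · rw [if_neg c2]; split_ifs <;> norm_num
      · rw [if_neg c1]; split_ifs <;> norm_num
    rw [S.pf.add (hbR.row n) ((ind_bdd E).smul D), S.pf.smul _ (ind_bdd E), hE0] at h1
    linarith

lemma sum_prod_le {f : ℕ → Bool} {Ψ : ℤ → ℝ} (hΨ : Bdd Ψ) (h0 : ∀ x, 0 ≤ Ψ x) {J : ℕ}
    {A : Fin J → Set ℤ} (hA : ∀ i j, i ≠ j → Disjoint (A i) (A j)) {u v : ℕ}
    (hK : ∀ i j, Kmv S f (Yset (A i) (A j) u v) (Yset (A i) (A j) v u) u v) (s r : ℤ) :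
    ∑ i, ∑ j, Cc S Ψ (A i) (A j) u v s r * Dd S f Ψ (A i) (A j) u v s r ≤
      S.m (fun n => S.m (fun w => K4 Ψ u v n w s r * Df f (v * n + s) (u * w - s))) +
      S.m (fun n => S.m (fun w => K4 Ψ v u n w r s * Df f (u * n + r) (v * w - r))) := by
  have b1 : B2 (fun n w : ℤ => K4 Ψ u v n w s r * Df f (v * n + s) (u * w - s)) :=
    (K4_b2 hΨ u v s r).mul (Df2_b2 f (fun n _ => v * n + s) fun _ w => u * w - s)
  have b2 : B2 (fun n w : ℤ => K4 Ψ v u n w r s * Df f (u * n + r) (v * w - r)) :=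
    (K4_b2 hΨ v u r s).mul (Df2_b2 f (fun n _ => u * n + r) fun _ w => v * w - r)
  have b3 : ∀ i j, B2 (fun n w : ℤ => ind (Yset (A i) (A j) u v) n *
      ind (Yset (A i) (A j) v u) w * (K4 Ψ u v n w s r *
        (Df f (v * n + s) (u * w - s) + Df f (u * n + r) (v * w - r)))) := fun i j =>
    (B2.prod (ind_bdd _) (ind_bdd _)).mul ((K4_b2 hΨ u v s r).mul
      ((Df2_b2 f (fun n _ => v * n + s) fun _ w => u * w - s).add
        (Df2_b2 f (fun n _ => u * n + r) fun _ w => v * w - r)))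
  calc _ ≤ ∑ i, ∑ j, mm S (fun n w => ind (Yset (A i) (A j) u v) n *
      ind (Yset (A i) (A j) v u) w * (K4 Ψ u v n w s r *
        (Df f (v * n + s) (u * w - s) + Df f (u * n + r) (v * w - r)))) :=
        Finset.sum_le_sum fun i _ => Finset.sum_le_sum fun j _ => prod_le hΨ h0 (hK i j) s r
    _ = mm S (fun n w => ∑ i, ∑ j, ind (Yset (A i) (A j) u v) n *
      ind (Yset (A i) (A j) v u) w * (K4 Ψ u v n w s r *
        (Df f (v * n + s) (u * w - s) + Df f (u * n + r) (v * w - r)))) := by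
        rw [M9m.mm_sum _ fun i _ => M9m.B2.sum _ fun j _ => b3 i j]
        refine Finset.sum_congr rfl fun i _ => ?_
        rw [M9m.mm_sum _ fun j _ => b3 i j]
    _ ≤ mm S (fun n w => K4 Ψ u v n w s r * Df f (v * n + s) (u * w - s) +
        K4 Ψ v u n w r s * Df f (u * n + r) (v * w - r)) := by
        refine M9m.mm_mono (M9m.B2.sum _ fun i _ => M9m.B2.sum _ fun j _ => b3 i j)
          (b1.add b2) fun n w => ?_
        have e1 : K4 Ψ v u n w r s = K4 Ψ u v n w s r := by unfold K4; ring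
        rw [e1, ← mul_add]
        simp only [← Finset.sum_mul]
        have k0 : 0 ≤ K4 Ψ u v n w s r := by
          unfold K4
          exact mul_nonneg (mul_nonneg (h0 _) (h0 _)) (mul_nonneg (h0 _) (h0 _))
        have k1 : 0 ≤ K4 Ψ u v n w s r * (Df f (v * n + s) (u * w - s) +
            Df f (u * n + r) (v * w - r)) :=
          mul_nonneg k0 (add_nonneg (Df_U01 f _ _).1 (Df_U01 f _ _).1)
        have k2 : ∑ i, ∑ j, ind (Yset (A i) (A j) u v) n * ind (Yset (A i) (A j) v u) w ≤ 1 := by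
          have c1 : ∀ i j, ind (Yset (A i) (A j) u v) n * ind (Yset (A i) (A j) v u) w ≤
              ind (A i) (v * n) * ind (A j) (u * n) := by
            intro i j
            rw [ind_Yset (A i) (A j) u v]
            exact mul_le_of_le_one_right (mul_nonneg (ind_nonneg _ _) (ind_nonneg _ _))
              (ind_le_one _ _)
          calc _ ≤ ∑ i, ∑ j, ind (A i) (v * n) * ind (A j) (u * n) :=
                Finset.sum_le_sum fun i _ => Finset.sum_le_sum fun j _ => c1 i j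
            _ = (∑ i, ind (A i) (v * n)) * ∑ j, ind (A j) (u * n) := by
                rw [Finset.sum_mul_sum]
            _ ≤ 1 := mul_le_one₀ (M9m.sum_ind_le hA _) (M9m.sum_ind_nonneg A _)
                (M9m.sum_ind_le hA _)
        have := mul_le_mul_of_nonneg_right k2 k1
        rw [one_mul] at this
        refine le_trans (le_of_eq ?_) this
        simp only [Finset.sum_mul]
    _ = _ := by
        rw [M9m.mm_add b1 b2]
        rfl

/-! ### the part outside the cells -/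

lemma rest_le {Ψ g : ℤ → ℝ} (hΨ : Bdd Ψ) (h0 : ∀ x, 0 ≤ Ψ x) (hg : Bdd g) (hg0 : ∀ w, 0 ≤ g w)
    {u v L : ℕ} (hav : ∀ y : ℤ, |(1 / (L : ℝ)) * ∑ s ∈ Finset.range L, Ψ (y + s) - 1| ≤ 1 / 4) :
    E2 L (fun s r => S.m (fun w => g w * (Ψ (u * w + s) * Ψ (v * w + r)))) ≤ 25 / 16 * S.m g := by
  have hb : ∀ s r : ℤ, Bdd (fun w : ℤ => g w * (Ψ (u * w + s) * Ψ (v * w + r))) := fun s r =>
    hg.mul ((hΨ.comp fun w => u * w + s).mul (hΨ.comp fun w => v * w + r))
  have e : E2 L (fun s r => S.m (fun w => g w * (Ψ (u * w + s) * Ψ (v * w + r)))) =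
      S.m (fun w => (1 / (L : ℝ)) * ∑ s ∈ Finset.range L, (1 / (L : ℝ)) *
        ∑ r ∈ Finset.range L, g w * (Ψ (u * w + (s : ℤ)) * Ψ (v * w + (r : ℤ)))) := by
    have hb1 : ∀ s : ℤ, Bdd (fun w : ℤ => (1 / (L : ℝ)) *
        ∑ r ∈ Finset.range L, g w * (Ψ (u * w + s) * Ψ (v * w + (r : ℤ)))) := fun s =>
      (Bdd.sum _ _ fun (r : ℕ) _ => hb s (r : ℤ)).smul _
    unfold E2
    rw [S.pf.smul _ (Bdd.sum _ _ fun (s : ℕ) _ => hb1 (s : ℤ)),
      S.pf.sum _ _ fun (s : ℕ) _ => hb1 (s : ℤ)]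
    congr 1
    refine Finset.sum_congr rfl fun s _ => ?_
    rw [S.pf.smul _ (Bdd.sum _ _ fun (r : ℕ) _ => hb (s : ℤ) (r : ℤ)),
      S.pf.sum _ _ fun (r : ℕ) _ => hb (s : ℤ) (r : ℤ)]
  rw [e, ← S.pf.smul _ hg]
  have hb2 : Bdd (fun w : ℤ => (1 / (L : ℝ)) * ∑ s ∈ Finset.range L, (1 / (L : ℝ)) *
        ∑ r ∈ Finset.range L, g w * (Ψ (u * w + (s : ℤ)) * Ψ (v * w + (r : ℤ)))) :=
    (Bdd.sum _ _ fun (s : ℕ) _ => (Bdd.sum _ _ fun (r : ℕ) _ =>
      hb (s : ℤ) (r : ℤ)).smul _).smul _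
  refine S.pf.mono hb2 (hg.smul _) fun w => ?_
  have e2 : (1 / (L : ℝ)) * ∑ s ∈ Finset.range L, (1 / (L : ℝ)) *
        ∑ r ∈ Finset.range L, g w * (Ψ (u * w + (s : ℤ)) * Ψ (v * w + (r : ℤ))) =
      g w * (((1 / (L : ℝ)) * ∑ s ∈ Finset.range L, Ψ (u * w + (s : ℤ))) *
        ((1 / (L : ℝ)) * ∑ r ∈ Finset.range L, Ψ (v * w + (r : ℤ)))) := by
    have : ∀ s ∈ Finset.range L, (1 / (L : ℝ)) *
        ∑ r ∈ Finset.range L, g w * (Ψ (u * w + (s : ℤ)) * Ψ (v * w + (r : ℤ))) =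
        Ψ (u * w + (s : ℤ)) * (g w * ((1 / (L : ℝ)) *
          ∑ r ∈ Finset.range L, Ψ (v * w + (r : ℤ)))) := by
      intro s _
      rw [← Finset.mul_sum, ← Finset.mul_sum]; ring
    rw [Finset.sum_congr rfl this, ← Finset.sum_mul]; ring
  rw [e2]
  have a1 := hav (u * w)
  have a2 := hav (v * w)
  rw [abs_le] at a1 a2
  have p1 : 0 ≤ (1 / (L : ℝ)) * ∑ r ∈ Finset.range L, Ψ (v * w + (r : ℤ)) :=
    mul_nonneg (by positivity) (Finset.sum_nonneg fun _ _ => h0 _)
  have p2 : ((1 / (L : ℝ)) * ∑ s ∈ Finset.range L, Ψ (u * w + (s : ℤ))) *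
        ((1 / (L : ℝ)) * ∑ r ∈ Finset.range L, Ψ (v * w + (r : ℤ))) ≤ 5 / 4 * (5 / 4) :=
    mul_le_mul (by linarith [a1.2]) (by linarith [a2.2]) p1 (by norm_num)
  have := mul_le_mul_of_nonneg_left p2 (hg0 w)
  linarith

end VM77

open VM77 in
theorem vm (S : MeanSys) (h3 : M3 S) (h7 : M7 S) (hc : LC1 S) (he : VE S) (hp : VPN S) : VM S := by
  classical
  intro f hf hNE ε hε
  obtain ⟨J, A, hdisj, htie, hmass⟩ := h3 f hf (ε / 32) (by positivity)
  set lam : ℝ := ε / (32 * ((J : ℝ) ^ 2 + 1)) with hlam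
  have hlam0 : 0 < lam := by positivity
  have hlamJ : (J : ℝ) ^ 2 * lam ≤ ε / 32 := by
    rw [hlam]
    have e : (J : ℝ) ^ 2 * (ε / (32 * ((J : ℝ) ^ 2 + 1))) =
        ε / 32 * ((J : ℝ) ^ 2 / ((J : ℝ) ^ 2 + 1)) := by field_simp
    rw [e]
    have : (J : ℝ) ^ 2 / ((J : ℝ) ^ 2 + 1) ≤ 1 := by rw [div_le_one (by positivity)]; linarith
    nlinarith
  have hN1 : ∀ t, NEv S f t ≤ 1 := by
    intro t
    unfold NEv
    split_ifs
    · refine S.pf.le_of_le ((Df_bdd f t).ite fun z => Even z) fun z => ?_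
      split_ifs
      · exact (Df_U01 f t z).2
      · norm_num
    · exact le_rfl
  set δ' : ℝ := lam * ε / 64 with hδ'
  have hδ'0 : 0 < δ' := by positivity
  obtain ⟨Ψ, M, hKer, hsmall, T₀, hUV⟩ := hp (NEv S f) hNE hN1 δ' hδ'0
  refine ⟨Ψ, M, hKer, fun T => ?_⟩
  have hΨ := hKer.bdd
  have h0 := hKer.nonneg
  have hM0 := hKer.pos
  have hMr : (0 : ℝ) < M := by exact_mod_cast hM0
  have hM1 : (1 : ℝ) ≤ M := by exact_mod_cast hM0
  set x : ℝ := lam * M with hx
  have hx0 : 0 < x := by positivity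
  set ι : ℝ := min (x * ε / 64) (x / 2) with hι
  have hι0 : 0 < ι := lt_min (by positivity) (by positivity)
  have hι1 : ι ≤ x * ε / 64 := min_le_left _ _
  have hι2 : ι ≤ x / 2 := min_le_right _ _
  obtain ⟨P, hPtop, hPprime, hPdil, hPcor⟩ := h7
  -- the complement of the cells
  set G : ℤ → ℝ := fun z => 1 - ∑ i, ind (A i) z with hG
  have hGb : Bdd G := (Bdd.const 1).sub (Bdd.sum _ _ fun i _ => ind_bdd (A i))
  have hG0 : ∀ z, 0 ≤ G z := fun z => sub_nonneg.2 (M9m.sum_ind_le hdisj z)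
  have hGm : S.m G ≤ ε / 32 := by
    rw [hG, S.pf.sub (Bdd.const 1) (Bdd.sum _ _ fun i _ => ind_bdd (A i)), S.pf.one,
      S.pf.sum _ _ fun i _ => ind_bdd (A i)]
    exact hmass
  have hGP : ∀ᶠ p : ℕ in (P : Filter ℕ), S.m (fun n => G (p * n)) ≤ ε / 16 := by
    have := (hPdil G hGb).eventually (gt_mem_nhds (show S.m G < ε / 16 by linarith))
    filter_upwards [this] with p hp'
    exact hp'.le
  -- a residue class
  obtain ⟨c, hc'⟩ : ∃ c : ℕ, ∀ᶠ p : ℕ in (P : Filter ℕ), p % M = c := by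
    have h1 : ∀ᶠ p : ℕ in (P : Filter ℕ), ∃ c ∈ Set.Iio M, p % M = c :=
      Eventually.of_forall fun p => ⟨p % M, Nat.mod_lt _ hM0, rfl⟩
    obtain ⟨c, _, h⟩ := (Ultrafilter.eventually_exists_mem_iff (f := P)
      (P := fun c p => p % M = c) (Set.finite_Iio M)).1 h1
    exact ⟨c, h⟩
  have hbig : ∀ᶠ p : ℕ in (P : Filter ℕ), max T T₀ < p :=
    (eventually_gt_atTop (max T T₀)).filter_mono hPtop
  have hcl : ∀ᶠ u : ℕ in (P : Filter ℕ), ∀ᶠ v : ℕ in (P : Filter ℕ), ∀ (i j : Fin J) (s r : ℤ),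
      |Cc S Ψ (A i) (A j) u v s r - Cc S Ψ (A i) (A j) v u s r| ≤ ι := by
    have := eventually_all.2 fun i => eventually_all.2 fun j =>
      close (S := S) hPcor hKer.rank (A i) (A j) hι0
    filter_upwards [this] with u hu
    exact eventually_all.2 fun i => eventually_all.2 fun j => hu i j
  obtain ⟨u, hu⟩ := (hcl.and (hPprime.and (hbig.and (hGP.and hc')))).exists
  obtain ⟨hucl, hup, hub, huG, huc⟩ := hu
  have hgt : ∀ᶠ v : ℕ in (P : Filter ℕ), u < v := (eventually_gt_atTop u).filter_mono hPtop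
  obtain ⟨v, hv⟩ := (hucl.and (hPprime.and (hbig.and (hGP.and (hc'.and hgt))))).exists
  obtain ⟨hcl', hvp, hvb, hvG, hvc, huv⟩ := hv
  have hTu : T < u := lt_of_le_of_lt (le_max_left _ _) hub
  have hTv : T < v := lt_of_le_of_lt (le_max_left _ _) hvb
  have hT₀u : T₀ < u := lt_of_le_of_lt (le_max_right _ _) hub
  have hT₀v : T₀ < v := lt_of_le_of_lt (le_max_right _ _) hvb
  have hmod : u ≡ v [MOD M] := huc.trans hvc.symm
  have hKuv := hUV u v hup hvp hT₀u hT₀v huv.ne hmod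
  have hKvu := hUV v u hvp hup hT₀v hT₀u huv.ne' hmod.symm
  refine ⟨u, v, hup, hvp, hTu, hTv, huv.ne, hKuv, hKvu, ?_⟩
  obtain ⟨S₁, hS₁⟩ := he f Ψ M u v hKer hup hvp huv.ne hKuv ι hι0
  obtain ⟨S₂, hS₂⟩ := he f Ψ M v u hKer hvp hup huv.ne' hKvu ι hι0
  obtain ⟨S₃, hS₃⟩ := hKer.avg (1 / 4) (by norm_num)
  refine ⟨S₁ + S₂ + S₃ + M, fun L hL => ?_⟩
  have hL0 : 0 < L := by omega
  have hLr : (0 : ℝ) < L := by exact_mod_cast hL0
  have hLM : (M : ℝ) ≤ L := by
    have : M ≤ L := by omega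
    exact_mod_cast this
  have e1 := hS₁ L (by omega)
  have e2 := hS₂ L (by omega)
  have e3 := hS₃ L (by omega)
  have hK : ∀ i j, Kmv S f (Yset (A i) (A j) u v) (Yset (A i) (A j) v u) u v := fun i j =>
    hc f (A i) (A j) u v hup.pos hvp.pos (htie i) (htie j)
  -- sums of correlations
  set DD : ℤ → ℤ → ℝ := fun s r => ∑ i, ∑ j, Dd S f Ψ (A i) (A j) u v s r with hDD
  set CD : ℤ → ℤ → ℝ := fun s r => ∑ i, ∑ j, Cc S Ψ (A i) (A j) u v s r *
    Dd S f Ψ (A i) (A j) u v s r with hCD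
  have hDD0 : ∀ s r, 0 ≤ DD s r := fun s r => Finset.sum_nonneg fun i _ =>
    Finset.sum_nonneg fun j _ => Dd_nonneg hΨ h0 f _ _ _ _ _ _
  -- upper bound for the products
  have hX : E2 L CD ≤ 4 * M * δ' + 2 * ι := by
    have h1 := E2_mono L (fun s r => sum_prod_le hΨ h0 hdisj hK s r)
    rw [E2_add] at h1
    have h2 : E2 L (fun s r => S.m (fun n => S.m (fun w => K4 Ψ v u n w r s *
        Df f (u * n + r) (v * w - r)))) =
        E2 L (fun s r => S.m (fun n => S.m (fun w => K4 Ψ v u n w s r *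
        Df f (u * n + s) (v * w - s)))) :=
      E2_swap L (fun s r => S.m (fun n => S.m (fun w => K4 Ψ v u n w s r *
        Df f (u * n + s) (v * w - s))))
    rw [h2] at h1
    have h4 : 2 * (M : ℝ) * S.m (fun t => Ψ t * NEv S f t) ≤ 2 * M * δ' :=
      mul_le_mul_of_nonneg_left hsmall (by positivity)
    linarith
  -- pointwise lower bound
  have hpt : ∀ s r, (x - ι) * DD s r ≤ CD s r + (J : ℝ) ^ 2 * x ^ 2 *
      (if (M : ℤ) ∣ s - r then (1 : ℝ) else 0) := by
    intro s r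
    have hij : ∀ i j, (x - ι) * Dd S f Ψ (A i) (A j) u v s r ≤
        Cc S Ψ (A i) (A j) u v s r * Dd S f Ψ (A i) (A j) u v s r +
          x ^ 2 * (if (M : ℤ) ∣ s - r then (1 : ℝ) else 0) := by
      intro i j
      have d0 := Dd_nonneg (S := S) hΨ h0 f (A i) (A j) u v s r
      by_cases hd : (M : ℤ) ∣ s - r
      · rw [if_pos hd, mul_one]
        rcases le_or_gt (x - ι) (Cc S Ψ (A i) (A j) u v s r) with h | h
        · have := mul_le_mul_of_nonneg_right h d0
          nlinarith [sq_nonneg x]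
        · have d1 := Dd_le (S := S) hΨ h0 f (A i) (A j) u v s r
          have d2 := (abs_le.1 (hcl' i j s r)).1
          have d3 : Dd S f Ψ (A i) (A j) u v s r ≤ x := by linarith
          have c0 := Cc_nonneg (S := S) hΨ h0 (A i) (A j) u v s r
          have d4 : (x - ι) * Dd S f Ψ (A i) (A j) u v s r ≤ x * x :=
            mul_le_mul (by linarith) d3 d0 hx0.le
          nlinarith [mul_nonneg c0 d0]
      · rw [if_neg hd, mul_zero, add_zero,
          Dd_supp (S := S) hKer.supp f (A i) (A j) hmod hd]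
        simp
    calc (x - ι) * DD s r = ∑ i, ∑ j, (x - ι) * Dd S f Ψ (A i) (A j) u v s r := by
          rw [hDD]; simp only [Finset.mul_sum]
      _ ≤ ∑ i : Fin J, ∑ j : Fin J, (Cc S Ψ (A i) (A j) u v s r *
          Dd S f Ψ (A i) (A j) u v s r +
          x ^ 2 * (if (M : ℤ) ∣ s - r then (1 : ℝ) else 0)) :=
          Finset.sum_le_sum fun i _ => Finset.sum_le_sum fun j _ => hij i j
      _ = _ := by
          rw [hCD]
          simp only [Finset.sum_add_distrib, Finset.sum_const, Finset.card_univ,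
            Fintype.card_fin, nsmul_eq_mul]
          ring
  have hE := E2_mono L hpt
  rw [E2_smul, E2_add, E2_smul] at hE
  have hcls := E2_class M hM0 hL0
  have hcls2 : E2 L (fun s r => if (M : ℤ) ∣ s - r then (1 : ℝ) else 0) ≤ 2 / M := by
    refine hcls.trans ?_
    have : (1 : ℝ) / L ≤ 1 / M := one_div_le_one_div_of_le hMr hLM
    have e : (2 : ℝ) / M = 1 / M + 1 / M := by ring
    linarith
  have hDDb : E2 L DD ≤ 5 / 16 * ε := by
    have k1 : (J : ℝ) ^ 2 * x ^ 2 * E2 L (fun s r => if (M : ℤ) ∣ s - r then (1 : ℝ) else 0) ≤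
        x * (ε / 16) := by
      calc _ ≤ (J : ℝ) ^ 2 * x ^ 2 * (2 / M) := mul_le_mul_of_nonneg_left hcls2 (by positivity)
        _ = x * (2 * ((J : ℝ) ^ 2 * lam)) := by rw [hx]; field_simp
        _ ≤ x * (ε / 16) := mul_le_mul_of_nonneg_left (by linarith) hx0.le
    have k2 : 4 * (M : ℝ) * δ' = x * (ε / 16) := by rw [hδ', hx]; ring
    have k3 : 0 ≤ E2 L DD := E2_nonneg L hDD0
    have k4 : x / 2 * E2 L DD ≤ (x - ι) * E2 L DD := mul_le_mul_of_nonneg_right (by linarith) k3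
    have k5 : x / 2 * E2 L DD ≤ x / 2 * (5 / 16 * ε) := by
      have : x / 2 * (5 / 16 * ε) = x * (ε / 16) + x * (ε / 32) + x * (ε / 16) := by ring
      rw [this]
      have : 2 * ι ≤ x * (ε / 32) := by linarith
      linarith
    exact le_of_mul_le_mul_left k5 (by positivity)
  -- conclusion
  have hbu : Bdd (fun w : ℤ => G (u * w)) := hGb.comp _
  have hbv : Bdd (fun w : ℤ => G (v * w)) := hGb.comp _
  have hfin : ∀ s r : ℤ, S.m (fun w => Ψ (u * w + s) * Ψ (v * w + r) *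
      (if f (u * w - s).toNat = f (v * w - r).toNat then 0 else 1)) ≤
      DD s r + S.m (fun w => (G (u * w) + G (v * w)) * (Ψ (u * w + s) * Ψ (v * w + r))) := by
    intro s r
    have bD : ∀ i j, Bdd (fun w : ℤ => ind (A i) (u * w) * Ψ (u * w + s) *
        (ind (A j) (v * w) * Ψ (v * w + r)) * nef f (u * w - s) (v * w - r)) := fun i j =>
      Dd_bdd hΨ f (A i) (A j) u v s r
    have bR : Bdd (fun w : ℤ => (G (u * w) + G (v * w)) * (Ψ (u * w + s) * Ψ (v * w + r))) :=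
      (hbu.add hbv).mul ((hΨ.comp fun w => u * w + s).mul (hΨ.comp fun w => v * w + r))
    have eD : DD s r = S.m (fun w => ∑ i, ∑ j, ind (A i) (u * w) * Ψ (u * w + s) *
        (ind (A j) (v * w) * Ψ (v * w + r)) * nef f (u * w - s) (v * w - r)) := by
      rw [S.pf.sum _ _ fun i _ => Bdd.sum _ _ fun j _ => bD i j]
      refine Finset.sum_congr rfl fun i _ => ?_
      rw [S.pf.sum _ _ fun j _ => bD i j]
      rfl
    have bL : Bdd (fun w : ℤ => Ψ (u * w + s) * Ψ (v * w + r) *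
        (if f (u * w - s).toNat = f (v * w - r).toNat then (0 : ℝ) else 1)) :=
      ((hΨ.comp fun w => u * w + s).mul (hΨ.comp fun w => v * w + r)).mul
        (nef_bdd f (fun w => u * w - s) fun w => v * w - r)
    rw [eD, ← S.pf.add (Bdd.sum _ _ fun i _ => Bdd.sum _ _ fun j _ => bD i j) bR]
    refine S.pf.mono bL ((Bdd.sum _ _ fun i _ => Bdd.sum _ _ fun j _ => bD i j).add bR)
      fun w => ?_
    have e : ∑ i, ∑ j, ind (A i) (u * w) * Ψ (u * w + s) *
        (ind (A j) (v * w) * Ψ (v * w + r)) * nef f (u * w - s) (v * w - r) =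
        (∑ i, ind (A i) (u * w)) * (∑ j, ind (A j) (v * w)) *
          (Ψ (u * w + s) * Ψ (v * w + r) * nef f (u * w - s) (v * w - r)) := by
      rw [Finset.sum_mul_sum, Finset.sum_mul]
      refine Finset.sum_congr rfl fun i _ => ?_
      rw [Finset.sum_mul]
      exact Finset.sum_congr rfl fun j _ => by ring
    rw [e]
    have q1 := hG0 (u * w)
    have q2 := hG0 (v * w)
    have q3 := M9m.sum_ind_nonneg A (u * w)
    have q4 := M9m.sum_ind_nonneg A (v * w)
    set a : ℝ := ∑ i, ind (A i) (u * w) with ha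
    set b : ℝ := ∑ j, ind (A j) (v * w) with hb
    have g1 : G (u * w) = 1 - a := rfl
    have g2 : G (v * w) = 1 - b := rfl
    rw [g1, g2] at *
    have p0 : 0 ≤ Ψ (u * w + s) * Ψ (v * w + r) := mul_nonneg (h0 _) (h0 _)
    have n0 := nef_nonneg f (u * w - s) (v * w - r)
    have n1 := nef_le_one f (u * w - s) (v * w - r)
    change Ψ (u * w + s) * Ψ (v * w + r) * nef f (u * w - s) (v * w - r) ≤ _
    have r1 : 1 - a * b ≤ (1 - a) + (1 - b) := by nlinarith
    have r2 : (1 - a * b) * (Ψ (u * w + s) * Ψ (v * w + r) * nef f (u * w - s) (v * w - r)) ≤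
        ((1 - a) + (1 - b)) * (Ψ (u * w + s) * Ψ (v * w + r)) := by
      calc _ ≤ ((1 - a) + (1 - b)) *
            (Ψ (u * w + s) * Ψ (v * w + r) * nef f (u * w - s) (v * w - r)) :=
            mul_le_mul_of_nonneg_right r1 (mul_nonneg p0 n0)
        _ ≤ _ := by
            refine mul_le_mul_of_nonneg_left ?_ (by linarith)
            exact mul_le_of_le_one_right p0 n1
    linarith
  have hD1 : Dful S f Ψ u v L ≤ E2 L DD +
      E2 L (fun s r => S.m (fun w => (G (u * w) + G (v * w)) *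
        (Ψ (u * w + s) * Ψ (v * w + r)))) := by
    unfold Dful
    rw [← E2_add]
    exact E2_mono L hfin
  have hR := rest_le (S := S) (u := u) (v := v) hΨ h0 (hbu.add hbv)
    (fun w => add_nonneg (hG0 _) (hG0 _)) e3
  rw [S.pf.add hbu hbv] at hR
  have hfinal : 25 / 16 * (S.m (fun w : ℤ => G (u * w)) + S.m (fun w : ℤ => G (v * w))) ≤
      25 / 128 * ε := by linarith
  linarith

end Pool.Agent.LC79
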