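import Pool.Agent.Lib.MP_60922f_co.LC.StmtsV2_79

/-!
LC, module VN: V1 says that the modulus of continuity on the even numbers is a totally bounded
pseudonorm.
-/

set_option autoImplicit false

open Filter Topology

namespace Pool.Agent.LC79
open Pool.Agent.FinA Pool.Agent.FinClique

namespace VN14

variable {S : MeanSys} {f : ℕ → Bool}

/-- the even part of the defect -/
noncomputable def ev (f : ℕ → Bool) (t z : ℤ) : ℝ := if Even z then Df f t z else 0

lemma ev_U01 (t : ℤ) : U01 (ev f t) := fun z => by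
  unfold ev
  split_ifs
  · exact Df_U01 f t z
  · norm_num

lemma ev_bdd (t : ℤ) : Bdd (ev f t) := (ev_U01 t).bdd

lemma Ne_eq (t : ℤ) : Ne S f t = S.m (ev f t) := rfl

lemma Ne_nonneg (t : ℤ) : 0 ≤ Ne S f t :=
  S.pf.nonneg (ev_bdd t) fun z => (ev_U01 (f := f) t z).1

lemma Ne_le_one (t : ℤ) : Ne S f t ≤ 1 :=
  S.pf.le_of_le (ev_bdd t) fun z => (ev_U01 (f := f) t z).2

lemma Ne_zero : Ne S f 0 = 0 := by
  rw [Ne_eq, ← S.pf.zero]
  refine S.pf.congr fun z => ?_
  unfold ev Df
  simp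

lemma ev_shift {s : ℤ} (hs : Even s) (t z : ℤ) : ev f t (z + s) = if Even z then Df f t (z + s) else 0 := by
  unfold ev
  have h : Even (z + s) ↔ Even z := by rw [Int.even_add]; simp [hs]
  by_cases hz : Even z
  · rw [if_pos hz, if_pos (h.mpr hz)]
  · rw [if_neg hz, if_neg (fun h' => hz (h.mp h'))]

lemma Ne_neg {t : ℤ} (ht : Even t) : Ne S f (-t) = Ne S f t := by
  rw [Ne_eq, Ne_eq, ← S.m_shift t (ev_bdd (f := f) (-t))]
  refine S.pf.congr fun z => ?_
  rw [ev_shift ht]
  unfold ev Df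
  rw [show z + t + -t = z by ring]
  by_cases hz : Even z
  · rw [if_pos hz, if_pos hz]
    by_cases h : f (z + t).toNat = f z.toNat
    · rw [if_pos h, if_pos h.symm]
    · rw [if_neg h, if_neg (fun h' => h h'.symm)]
  · rw [if_neg hz, if_neg hz]

lemma Ne_add {s t : ℤ} (hs : Even s) : Ne S f (s + t) ≤ Ne S f s + Ne S f t := by
  have h1 : Ne S f t = S.m (fun z => ev f t (z + s)) := (S.m_shift s (ev_bdd (f := f) t)).symm
  rw [h1, Ne_eq, Ne_eq, ← S.pf.add (ev_bdd s) ((ev_bdd t).shift s)]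
  refine S.pf.mono (ev_bdd _) ((ev_bdd s).add ((ev_bdd t).shift s)) fun z => ?_
  rw [ev_shift hs]
  unfold ev
  split_ifs
  · exact Df_add_le f s t z
  · norm_num

end VN14

open VN14 in
/-- VN -/
theorem vn (S : MeanSys) : VN S := by
  intro h1 f hf
  refine ⟨fun t => ?_, ?_, fun t => ?_, fun s t => ?_, fun η hη => ?_⟩
  · unfold NEv
    split_ifs
    · exact Ne_nonneg t
    · norm_num
  · unfold NEv
    rw [if_pos (by simp), Ne_zero]
  · unfold NEv
    by_cases ht : Even t
    · rw [if_pos ht, if_pos (by simpa using ht), Ne_neg ht]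
    · rw [if_neg ht, if_neg (by simpa using ht)]
  · unfold NEv
    by_cases hs : Even s
    · by_cases ht : Even t
      · rw [if_pos hs, if_pos ht, if_pos (hs.add ht)]
        exact Ne_add hs
      · rw [if_pos hs, if_neg ht, if_neg (by rw [Int.even_add]; simp [hs, ht])]
        linarith [Ne_nonneg (S := S) (f := f) s]
    · by_cases ht : Even t
      · rw [if_neg hs, if_pos ht, if_neg (by rw [Int.even_add]; simp [hs, ht])]
        linarith [Ne_nonneg (S := S) (f := f) t]
      · rw [if_neg hs, if_neg ht, if_pos (by rw [Int.even_add]; simp [hs, ht])]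
        linarith [Ne_le_one (S := S) (f := f) (s + t)]
  · classical
    obtain ⟨Q, N, δ, hQ, hN, hδ, h⟩ := h1 f hf η hη
    obtain ⟨P, hP⟩ := hN.tb (δ / 2) (by linarith)
    have hQ2 : (0 : ℤ) < 2 * Q := by positivity
    refine ⟨(P ×ˢ Finset.Ico 0 (2 * Q : ℤ)).image fun p => 2 * Q * p.1 + p.2, fun t => ?_⟩
    obtain ⟨s, hs, hst⟩ := hP (t / (2 * Q))
    refine ⟨2 * Q * s + t % (2 * Q), Finset.mem_image.mpr ⟨(s, t % (2 * Q)), ?_, rfl⟩, ?_⟩
    · rw [Finset.mem_product, Finset.mem_Ico]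
      exact ⟨hs, Int.emod_nonneg _ hQ2.ne', Int.emod_lt_of_pos _ hQ2⟩
    · have h2 : t - (2 * Q * s + t % (2 * Q)) = Q * (2 * (t / (2 * Q) - s)) := by
        have := Int.mul_ediv_add_emod t (2 * Q)
        linear_combination (-1 : ℤ) * this
      have h3 : Even ((Q : ℤ) * (2 * (t / (2 * Q) - s))) := by
        rw [show (Q : ℤ) * (2 * (t / (2 * Q) - s)) = 2 * (Q * (t / (2 * Q) - s)) by ring]
        exact even_two_mul _
      rw [h2]
      unfold NEv
      rw [if_pos h3]
      refine h _ ?_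
      have h4 := PN.mul_le hN 2 (t / (2 * Q) - s)
      push_cast at h4
      linarith

end Pool.Agent.LC79
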