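import Pool.Agent.Lib.MP_60922f_co.LC.VPc_42

/-!
LC, module VP: kernels concentrated on Bohr sets; module VPN (glue).
-/

set_option autoImplicit false

open Filter Topology

namespace Pool.Agent.LC79
open Pool.Agent.FinA Pool.Agent.FinClique

namespace VP42

variable {ι : Type} [Fintype ι]

lemma m_ps (S : MeanSys) {β : ι → ℝ} (hβ : IndepI β) {M : ℕ} (hM : 0 < M) (K : ℕ) :
    S.m (Ps β M K) = 1 := by
  obtain ⟨D, hD0, hD⟩ := ps_avg hβ hM K
  have hb : Bdd (Ps β M K) := Ps_bdd β M K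
  have key : ∀ ε > (0 : ℝ), |S.m (Ps β M K) - 1| ≤ ε := by
    intro ε hε
    obtain ⟨L, hL, hS⟩ := small_avg hD0 hε
    have hL0 : (0 : ℝ) < L := by exact_mod_cast hL
    have hs : Bdd (fun y : ℤ => ∑ s ∈ Finset.range L, Ps β M K (y + s)) :=
      Bdd.sum _ (fun (s : ℕ) (y : ℤ) => Ps β M K (y + s)) fun s _ => hb.shift s
    have e1 : S.m (Ps β M K) = S.m (fun y : ℤ => (∑ s ∈ Finset.range L, Ps β M K (y + s)) / L) := by
      rw [S.pf.div_const hs, S.pf.sum (Finset.range L) (fun (s : ℕ) (y : ℤ) => Ps β M K (y + s))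
        fun s _ => hb.shift s]
      rw [Finset.sum_congr rfl fun (s : ℕ) _ => S.m_shift (s : ℤ) hb]
      rw [Finset.sum_const, Finset.card_range, nsmul_eq_mul]
      field_simp
    have e2 := S.pf.sub (hs.div_const L) (Bdd.const 1)
    rw [S.pf.const] at e2
    rw [e1, ← e2]
    refine S.pf.abs_le fun y => ?_
    have e3 : (∑ s ∈ Finset.range L, Ps β M K (y + s)) / L - 1 =
        (∑ s ∈ Finset.range L, Ps β M K (y + s) - L) / L := by field_simp
    rw [e3, abs_div, abs_of_pos hL0]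
    exact (div_le_div_of_nonneg_right (hD y L) hL0.le).trans (hS L le_rfl)
  have h0 : |S.m (Ps β M K) - 1| ≤ 0 := le_of_forall_pos_le_add fun ε hε => by
    rw [zero_add]; exact key ε hε
  exact sub_eq_zero.1 (abs_nonpos_iff.1 h0)

lemma fej_tail {K : ℕ} (hK : 0 < K) {ρ : ℝ} (h0 : 0 < ρ) (h1 : ρ ≤ 1 / 2) {y : ℝ} (hy : ρ ≤ nd y) :
    fej K y ≤ 2 * K * ((1 + Real.cos (2 * Real.pi * ρ)) / 2) ^ K := by
  have hpi := Real.pi_pos
  have hn : nd y ≤ 1 / 2 := by
    unfold nd
    exact abs_sub_round y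
  have e1 : Real.cos (2 * Real.pi * y) = Real.cos (2 * Real.pi * nd y) := by
    unfold nd
    have a1 : 2 * Real.pi * |y - round y| = |2 * Real.pi * (y - round y)| := by
      rw [abs_mul, abs_of_pos (show 0 < 2 * Real.pi by positivity)]
    rw [a1, Real.cos_abs]
    have a2 : 2 * Real.pi * (y - round y) = 2 * Real.pi * y - (round y : ℤ) * (2 * Real.pi) := by
      ring
    rw [a2, Real.cos_sub_int_mul_two_pi]
  have e2 : Real.cos (2 * Real.pi * nd y) ≤ Real.cos (2 * Real.pi * ρ) := by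
    refine Real.cos_le_cos_of_nonneg_of_le_pi (by positivity) ?_ ?_
    · nlinarith
    · exact mul_le_mul_of_nonneg_left hy (by positivity)
  have e3 : ((1 + Real.cos (2 * Real.pi * y)) / 2) ^ K ≤
      ((1 + Real.cos (2 * Real.pi * ρ)) / 2) ^ K := by
    refine pow_le_pow_left₀ (half_nonneg y) ?_ K
    rw [e1]
    linarith
  have e4 : (4 : ℝ) ^ K / K.centralBinom ≤ 2 * K := by
    rw [div_le_iff₀ (cb_pos K)]
    exact_mod_cast Nat.four_pow_le_two_mul_self_mul_centralBinom K hK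
  unfold fej
  exact mul_le_mul e4 e3 (pow_nonneg (half_nonneg y) K) (by positivity)

variable [DecidableEq ι]

lemma indep_sub {β : ι → ℝ} (hβ : IndepI β) (l : ι) :
    IndepI (fun i : {i // i ≠ l} => β i.1) := by
  intro c c₀ hc
  have h := hβ (fun i => if h : i ≠ l then c ⟨i, h⟩ else 0) c₀ (by
    rw [Fintype.sum_eq_add_sum_subtype_ne _ l, ← hc]
    simp only [ne_eq, not_true_eq_false, dite_false, Int.cast_zero, zero_mul, zero_add]
    refine Finset.sum_congr rfl fun i _ => ?_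
    rw [dif_pos i.2])
  funext i
  have := congrFun h i.1
  simp only [Pi.zero_apply] at this
  rw [dif_pos i.2] at this
  exact this

lemma ps_split (β : ι → ℝ) (M K : ℕ) (l : ι) (x : ℤ) :
    Ps β M K x = fej K (β l * x) * Ps (fun i : {i // i ≠ l} => β i.1) M K x := by
  unfold Ps FF
  rw [Fintype.prod_eq_mul_prod_subtype_ne _ l]
  ring

lemma tail (S : MeanSys) {β : ι → ℝ} (hβ : IndepI β) {M K : ℕ} (hM : 0 < M) (hK : 0 < K) {ρ : ℝ}
    (h0 : 0 < ρ) (h1 : ρ ≤ 1 / 2) (l : ι) :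
    S.m (fun x : ℤ => ind {x : ℤ | ρ ≤ nd (β l * x)} x * Ps β M K x) ≤
      2 * K * ((1 + Real.cos (2 * Real.pi * ρ)) / 2) ^ K := by
  set η : ℝ := 2 * K * ((1 + Real.cos (2 * Real.pi * ρ)) / 2) ^ K with hη
  have hη0 : 0 ≤ η := mul_nonneg (by positivity) (pow_nonneg (half_nonneg ρ) K)
  have h2 := m_ps S (indep_sub hβ l) hM K
  have hb : Bdd (Ps (fun i : {i // i ≠ l} => β i.1) M K) := Ps_bdd _ M K
  calc S.m (fun x : ℤ => ind {x : ℤ | ρ ≤ nd (β l * x)} x * Ps β M K x)
      ≤ S.m (fun x => η * Ps (fun i : {i // i ≠ l} => β i.1) M K x) := by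
        refine S.pf.mono ((ind_bdd _).mul (Ps_bdd β M K)) (hb.smul η) fun x => ?_
        have h3 : 0 ≤ Ps (fun i : {i // i ≠ l} => β i.1) M K x := Ps_nonneg _ _ _ _
        by_cases hx : x ∈ {x : ℤ | ρ ≤ nd (β l * x)}
        · rw [ind_of_mem hx, one_mul, ps_split β M K l]
          exact mul_le_mul_of_nonneg_right (fej_tail hK h0 h1 hx) h3
        · rw [ind_of_notMem hx, zero_mul]
          positivity
    _ = η := by rw [S.pf.smul η hb, h2, mul_one]

end VP42

open VP42 in
/-- VP holds for every mean system -/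
theorem vp (S : MeanSys) : VP S := by
  intro d M β ρ hβ hM hM2 hρ ε hε
  have hβ' : IndepI β := hβ
  -- parameters
  set ρ' : ℝ := min ρ (1 / 2) with hρ'
  have hρ'0 : 0 < ρ' := lt_min hρ (by norm_num)
  have hρ'1 : ρ' ≤ 1 / 2 := min_le_right _ _
  set x₀ : ℝ := (1 + Real.cos (2 * Real.pi * ρ')) / 2 with hx₀
  have hx0 : 0 ≤ x₀ := half_nonneg ρ'
  have hx1 : x₀ < 1 := by
    have hpi := Real.pi_pos
    have : Real.cos (2 * Real.pi * ρ') < Real.cos 0 :=
      Real.cos_lt_cos_of_nonneg_of_le_pi le_rfl (by nlinarith) (by positivity)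
    rw [Real.cos_zero] at this
    rw [hx₀]; linarith
  have hlim := tendsto_self_mul_const_pow_of_lt_one hx0 hx1
  have hev := hlim.eventually (gt_mem_nhds (show (0 : ℝ) < ε / (2 * (d + 1)) by positivity))
  obtain ⟨K, hK, hK0⟩ := (hev.and (eventually_gt_atTop 0)).exists
  have hη : d * (2 * K * x₀ ^ K) ≤ ε := by
    rw [lt_div_iff₀ (by positivity)] at hK
    have h1 : 0 ≤ (K : ℝ) * x₀ ^ K := by positivity
    nlinarith
  refine ⟨Ps β M K, ker_of hβ' hM hM2 K, fun N hN hNs => ?_, max M K, ?_⟩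
  · have hPb : Bdd (Ps β M K) := Ps_bdd β M K
    have hNb : Bdd N := ⟨1, fun t => abs_le.2 ⟨by linarith [(hN t).1], (hN t).2⟩⟩
    have hTb : ∀ l : Fin d, Bdd (fun x : ℤ => ind {x : ℤ | ρ' ≤ nd (β l * x)} x * Ps β M K x) :=
      fun l => (ind_bdd _).mul hPb
    calc S.m (fun t => Ps β M K t * N t)
        ≤ S.m (fun t => ε * Ps β M K t +
          ∑ l : Fin d, ind {x : ℤ | ρ' ≤ nd (β l * x)} t * Ps β M K t) := by
          refine S.pf.mono (hPb.mul hNb) ((hPb.smul ε).add (Bdd.sum _ _ fun l _ => hTb l))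
            fun t => ?_
          have hP0 := Ps_nonneg β M K t
          have hsum : 0 ≤ ∑ l : Fin d, ind {x : ℤ | ρ' ≤ nd (β l * x)} t * Ps β M K t :=
            Finset.sum_nonneg fun l _ => mul_nonneg (ind_nonneg _ _) hP0
          by_cases hz : Ps β M K t = 0
          · rw [hz]; simp
          · have hMt := Ps_supp β M K t hz
            by_cases hall : ∀ l, nd (β l * t) ≤ ρ
            · have := hNs t hMt hall
              have h2 : Ps β M K t * N t ≤ Ps β M K t * ε := mul_le_mul_of_nonneg_left this hP0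
              linarith
            · push Not at hall
              obtain ⟨l, hl⟩ := hall
              have hmem : t ∈ {x : ℤ | ρ' ≤ nd (β l * x)} := (min_le_left _ _).trans hl.le
              have h2 : ind {x : ℤ | ρ' ≤ nd (β l * x)} t * Ps β M K t ≤
                  ∑ l : Fin d, ind {x : ℤ | ρ' ≤ nd (β l * x)} t * Ps β M K t :=
                Finset.single_le_sum
                  (f := fun l : Fin d => ind {x : ℤ | ρ' ≤ nd (β l * x)} t * Ps β M K t)
                  (fun l _ => mul_nonneg (ind_nonneg _ _) hP0) (Finset.mem_univ l)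
              rw [ind_of_mem hmem, one_mul] at h2
              have h3 : Ps β M K t * N t ≤ Ps β M K t * 1 :=
                mul_le_mul_of_nonneg_left (hN t).2 hP0
              have h4 : 0 ≤ ε * Ps β M K t := by positivity
              linarith
      _ = ε * S.m (Ps β M K) +
          ∑ l : Fin d, S.m (fun t => ind {x : ℤ | ρ' ≤ nd (β l * x)} t * Ps β M K t) := by
          rw [S.pf.add (hPb.smul ε) (Bdd.sum _ _ fun l _ => hTb l), S.pf.smul ε hPb,
            S.pf.sum _ _ fun l _ => hTb l]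
      _ ≤ ε * 1 + ∑ _l : Fin d, (2 * K * x₀ ^ K) := by
          rw [m_ps S hβ' hM K]
          exact add_le_add le_rfl (Finset.sum_le_sum fun l _ =>
            tail S hβ' hM hK0 hρ'0 hρ'1 l)
      _ ≤ 2 * ε := by
          rw [Finset.sum_const, Finset.card_univ, Fintype.card_fin, nsmul_eq_mul]
          linarith
  · intro u v hu hv hTu hTv huv _
    have hMu : M < u := lt_of_le_of_lt (le_max_left _ _) hTu
    have hMv : M < v := lt_of_le_of_lt (le_max_left _ _) hTv
    have hKu : K < u := lt_of_le_of_lt (le_max_right _ _) hTu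
    have hc : ∀ p : ℕ, p.Prime → M < p → p.Coprime M := fun p hp hpM =>
      (Nat.Prime.coprime_iff_not_dvd hp).2 fun h => absurd (Nat.le_of_dvd hM h) (not_le.2 hpM)
    exact keruv_of hβ' hM hM2 hu hv huv hKu (hc u hu hMu) (hc v hv hMv)

/-- VPN: kernels for a totally bounded pseudonorm -/
theorem vpn (S : MeanSys) (hb : VB) (hq : VQ) (hp : VP S) : VPN S := by
  intro N hN hN1 δ hδ
  obtain ⟨n, θ, ρ, hρ, hθ⟩ := hb N hN (δ / 2) (by positivity)
  obtain ⟨d, M, β, ρ', hρ', hM, hM2, hβ, hq'⟩ := hq n θ ρ hρ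
  obtain ⟨Ψ, hK, hm, hT⟩ := hp d M β ρ' hβ hM hM2 hρ' (δ / 2) (by positivity)
  refine ⟨Ψ, M, hK, ?_, hT⟩
  have := hm N (fun t => ⟨hN.nonneg t, hN1 t⟩) fun t hMt hnd => hθ t (hq' t hMt hnd)
  linarith

end Pool.Agent.LC79
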