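import Pool.Agent.Lib.MP_60922f_co.LC.StmtsV2_79

/-!
LC, module VQ: passage to independent frequencies and a modulus.
-/

set_option autoImplicit false

open Filter Topology

namespace Pool.Agent.LC79
open Pool.Agent.FinA Pool.Agent.FinClique

namespace VQ38

lemma nd_le (x : ℝ) (m : ℤ) : nd x ≤ |x - m| := round_le x m

lemma nd_nonneg (x : ℝ) : 0 ≤ nd x := abs_nonneg _

/-- An independent system with denominators. -/
lemma exists_basis (n : ℕ) (θ : Fin n → ℝ) : ∃ (d M : ℕ) (β : Fin d → ℝ) (a₀ : Fin n → ℤ)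
    (a : Fin n → Fin d → ℤ), 0 < M ∧ 2 ∣ M ∧ Indep β ∧
    ∀ i, θ i = a₀ i / M + ∑ l, a i l * β l := by
  induction n with
  | zero =>
    refine ⟨0, 2, Fin.elim0, Fin.elim0, fun i => i.elim0, by norm_num, dvd_rfl, ?_, fun i => i.elim0⟩
    intro c c₀ _
    funext l
    exact l.elim0
  | succ n ih =>
    obtain ⟨d, M, β, a₀, a, hM, h2, hβ, hθ⟩ := ih (fun i => θ i.castSucc)
    by_cases hind : Indep (Fin.snoc β (θ (Fin.last n)) : Fin (d + 1) → ℝ)
    · refine ⟨d + 1, M, Fin.snoc β (θ (Fin.last n)), Fin.snoc a₀ 0,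
        Fin.snoc (fun i => Fin.snoc (a i) 0) (Fin.snoc 0 1), hM, h2, hind, ?_⟩
      intro i
      refine Fin.lastCases ?_ (fun i => ?_) i
      · simp [Fin.sum_univ_castSucc]
      · simp [Fin.sum_univ_castSucc, hθ i]
    · unfold Indep at hind
      push Not at hind
      obtain ⟨c, c₀, hc, hne⟩ := hind
      set e : ℤ := c (Fin.last d) with he
      have hsum : ∑ l : Fin d, (c l.castSucc : ℝ) * β l + e * θ (Fin.last n) = c₀ := by
        rw [Fin.sum_univ_castSucc] at hc
        simpa using hc
      have he0 : e ≠ 0 := by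
        intro h
        rw [h, Int.cast_zero, zero_mul, add_zero] at hsum
        have h1 := hβ (fun l => c l.castSucc) c₀ hsum
        apply hne
        funext l
        refine Fin.lastCases ?_ (fun l => ?_) l
        · exact h
        · exact congrFun h1 l
      have heR : (e : ℝ) ≠ 0 := by exact_mod_cast he0
      have hMR : (M : ℝ) ≠ 0 := by exact_mod_cast hM.ne'
      have habs : ((e.natAbs : ℕ) : ℝ) = (e.sign : ℝ) * e := by
        have h : ((e.natAbs : ℕ) : ℤ) = e.sign * e := by
          rw [Int.sign_mul_self_eq_natAbs]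
        have h' := congrArg (Int.cast : ℤ → ℝ) h
        rw [Int.cast_mul, Int.cast_natCast] at h'
        exact h'

      have hs2 : (e.sign : ℝ) * e.sign = 1 := by
        have : e.sign * e.sign = 1 := by
          rcases lt_or_gt_of_ne he0 with h | h
          · rw [Int.sign_eq_neg_one_of_neg h]; norm_num
          · rw [Int.sign_eq_one_of_pos h]; norm_num
        exact_mod_cast this
      have hs0 : (e.sign : ℝ) ≠ 0 := by
        intro h
        rw [h] at hs2
        norm_num at hs2
      refine ⟨d, M * e.natAbs, fun l => β l / e,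
        Fin.snoc (fun i => a₀ i * (e.sign * e)) (c₀ * e.sign * M),
        Fin.snoc (fun i l => a i l * e) (fun l => -c l.castSucc), ?_, ?_, ?_, ?_⟩
      · exact Nat.mul_pos hM (Int.natAbs_pos.2 he0)
      · exact h2.mul_right _
      · intro c' c₀' h
        refine hβ c' (c₀' * e) ?_
        have h1 : ∑ l, (c' l : ℝ) * β l = (∑ l, (c' l : ℝ) * (β l / e)) * e := by
          rw [Finset.sum_mul]
          refine Finset.sum_congr rfl fun l _ => ?_
          field_simp
        rw [h1, h]
        push_cast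
        ring
      · intro i
        refine Fin.lastCases ?_ (fun i => ?_) i
        · simp only [Fin.snoc_last]
          push_cast
          rw [habs]
          have h1 : θ (Fin.last n) = (c₀ - ∑ l : Fin d, (c l.castSucc : ℝ) * β l) / e := by
            rw [← hsum]
            field_simp
            ring
          have h2 : ∑ l : Fin d, -(c l.castSucc : ℝ) * (β l / e) =
              -(∑ l : Fin d, (c l.castSucc : ℝ) * β l) / e := by
            rw [← Finset.sum_neg_distrib, Finset.sum_div]
            refine Finset.sum_congr rfl fun l _ => ?_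
            ring
          rw [h2, h1]
          field_simp
          ring
        · simp only [Fin.snoc_castSucc]
          push_cast
          rw [habs, hθ i]
          have h2 : ∑ l : Fin d, (a i l * e : ℝ) * (β l / e) = ∑ l : Fin d, (a i l : ℝ) * β l := by
            refine Finset.sum_congr rfl fun l _ => ?_
            field_simp
          rw [h2]
          congr 1
          field_simp

end VQ38

theorem vq : VQ := by
  intro n θ ρ hρ
  obtain ⟨d, M, β, a₀, a, hM, h2, hβ, hθ⟩ := VQ38.exists_basis n θ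
  set C : ℝ := 1 + ∑ i, ∑ l, |(a i l : ℝ)| with hC
  have hC0 : 0 < C := by
    have : 0 ≤ ∑ i, ∑ l, |(a i l : ℝ)| :=
      Finset.sum_nonneg fun _ _ => Finset.sum_nonneg fun _ _ => abs_nonneg _
    linarith
  refine ⟨d, M, β, ρ / C, by positivity, hM, h2, hβ, fun t ht hl i => ?_⟩
  obtain ⟨k, rfl⟩ := ht
  have hMR : (M : ℝ) ≠ 0 := by exact_mod_cast hM.ne'
  refine (VQ38.nd_le _ (a₀ i * k + ∑ l, a i l * round (β l * ((M : ℤ) * k : ℤ)))).trans ?_
  have h1 : θ i * ((M : ℤ) * k : ℤ) - ((a₀ i * k + ∑ l, a i l * round (β l * ((M : ℤ) * k : ℤ)) : ℤ) : ℝ) =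
      ∑ l, (a i l : ℝ) * (β l * ((M : ℤ) * k : ℤ) - round (β l * ((M : ℤ) * k : ℤ))) := by
    rw [hθ i]
    push_cast
    simp_rw [mul_sub]
    rw [Finset.sum_sub_distrib, add_mul, Finset.sum_mul]
    have h3 : (a₀ i : ℝ) / M * (M * k) = a₀ i * k := by field_simp
    rw [h3]
    have h4 : ∑ l, (a i l : ℝ) * β l * (M * k) = ∑ l, (a i l : ℝ) * (β l * (M * k)) :=
      Finset.sum_congr rfl fun l _ => by ring
    rw [h4]
    ring
  rw [h1]
  have h5 : ∑ l, |(a i l : ℝ)| ≤ C := by
    have h6 : ∑ l, |(a i l : ℝ)| ≤ ∑ i, ∑ l, |(a i l : ℝ)| :=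
      Finset.single_le_sum (f := fun i => ∑ l, |(a i l : ℝ)|)
        (fun _ _ => Finset.sum_nonneg fun _ _ => abs_nonneg _) (Finset.mem_univ i)
    linarith
  calc |∑ l, (a i l : ℝ) * (β l * ((M : ℤ) * k : ℤ) - round (β l * ((M : ℤ) * k : ℤ)))|
      ≤ ∑ l, |(a i l : ℝ) * (β l * ((M : ℤ) * k : ℤ) - round (β l * ((M : ℤ) * k : ℤ)))| :=
        Finset.abs_sum_le_sum_abs _ _
    _ ≤ ∑ l, |(a i l : ℝ)| * (ρ / C) := by
        refine Finset.sum_le_sum fun l _ => ?_
        rw [abs_mul]
        exact mul_le_mul_of_nonneg_left (hl l) (abs_nonneg _)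
    _ = (∑ l, |(a i l : ℝ)|) * (ρ / C) := by rw [Finset.sum_mul]
    _ ≤ C * (ρ / C) := by gcongr
    _ = ρ := by field_simp

end Pool.Agent.LC79
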