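import Pool.Agent.Lib.MP_60922f_co.LC.V1_79
import Pool.Agent.Lib.MP_60922f_co.LC.VB_14
import Pool.Agent.Lib.MP_60922f_co.LC.VK_14
import Pool.Agent.Lib.MP_60922f_co.LC.VN_14
import Pool.Agent.Lib.MP_60922f_co.LC.VQ_38
import Pool.Agent.Lib.MP_60922f_co.LC.VF_38
import Pool.Agent.Lib.MP_60922f_co.LC.VE_77
import Pool.Agent.Lib.MP_60922f_co.LC.VM_77
import Pool.Agent.Lib.MP_60922f_co.LC.VKey_29
import Pool.Agent.Lib.MP_60922f_co.LC.VP_42

/-! LC: V2, assembled: a colouring without infinite sum-product sequences is profinite in mean on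
the even numbers. -/

set_option autoImplicit false

namespace Pool.Agent.LC79
open Pool.Agent.FinA

theorem v2_holds (S : MeanSys) : V2 S :=
  V2_of S (v1_holds S) (vn S) vb vq vk
    (vkey S (vm S (m3 S (m2b S)) (P67.m7 S) (lc1 S) (ve S) (vpn S vb vq (vp S)))) (vf S)

end Pool.Agent.LC79
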