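import Pool.Agent.Lib.MP_60922f_co.LC.StmtsV2_79

/-!
LC, module VP, first part: exponential sums with periodic weights, the kernel and its expansion,
finite rank.
-/

set_option autoImplicit false

open Filter Topology

namespace Pool.Agent.LC79
open Pool.Agent.FinA Pool.Agent.FinClique

namespace VP42

/-! ### exponentials -/

/-- `exp (2 π i x)` -/
noncomputable def e (x : ℝ) : ℂ := Complex.exp (2 * Real.pi * x * Complex.I)

lemma e_add (x y : ℝ) : e (x + y) = e x * e y := by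
  unfold e
  rw [← Complex.exp_add]
  congr 1
  push_cast
  ring

lemma e_zero : e 0 = 1 := by simp [e]

lemma norm_e (x : ℝ) : ‖e x‖ = 1 := by
  unfold e
  have h : (2 * Real.pi * x * Complex.I : ℂ) = ((2 * Real.pi * x : ℝ) : ℂ) * Complex.I := by
    push_cast; ring
  rw [h, Complex.norm_exp_ofReal_mul_I]

lemma e_eq_one {x : ℝ} : e x = 1 ↔ ∃ n : ℤ, x = n := by
  unfold e
  rw [Complex.exp_eq_one_iff]
  constructor
  · rintro ⟨n, hn⟩
    refine ⟨n, ?_⟩
    have h1 : (2 * Real.pi * x * Complex.I : ℂ) = (x : ℂ) * (2 * Real.pi * Complex.I) := by ring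
    rw [h1] at hn
    have h2 : (x : ℂ) = n := mul_right_cancel₀ Complex.two_pi_I_ne_zero hn
    exact_mod_cast h2
  · rintro ⟨n, rfl⟩
    exact ⟨n, by push_cast; ring⟩

lemma e_pow (x : ℝ) (n : ℕ) : e x ^ n = e (n * x) := by
  induction n with
  | zero => simp [e_zero]
  | succ n ih =>
    rw [pow_succ, ih, ← e_add]
    congr 1
    push_cast
    ring

lemma e_sum {κ : Type*} (s : Finset κ) (f : κ → ℝ) : e (∑ i ∈ s, f i) = ∏ i ∈ s, e (f i) := by
  classical
  induction s using Finset.induction_on with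
  | empty => simp [e_zero]
  | insert a s ha ih => rw [Finset.sum_insert ha, Finset.prod_insert ha, e_add, ih]

lemma cos_e (y : ℝ) : ((Real.cos (2 * Real.pi * y) : ℝ) : ℂ) = (e y + e (-y)) / 2 := by
  rw [Complex.ofReal_cos, Complex.cos]
  unfold e
  push_cast
  ring_nf

/-! ### exponential sums with periodic weights -/

lemma per_sum {q : ℕ} {α : ℝ} (hα : ∀ n : ℤ, α * q ≠ n) (C : ℝ) : ∃ D : ℝ, 0 ≤ D ∧
    ∀ g : ℤ → ℂ, (∀ s, ‖g s‖ ≤ C) → (∀ s, g (s + q) = g s) → ∀ L : ℕ,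
    ‖∑ s ∈ Finset.range L, g s * e (α * s)‖ ≤ D := by
  have hz : (1 : ℂ) - e (α * q) ≠ 0 := by
    intro h
    obtain ⟨n, hn⟩ := e_eq_one.1 (sub_eq_zero.1 h).symm
    exact hα n hn
  have hz' : 0 < ‖(1 : ℂ) - e (α * q)‖ := norm_pos_iff.2 hz
  refine ⟨2 * q * |C| / ‖(1 : ℂ) - e (α * q)‖, by positivity, fun g hg hp L => ?_⟩
  set h : ℕ → ℂ := fun s => g s * e (α * s) with hh
  have hb : ∀ s, ‖h s‖ ≤ |C| := fun s => by
    simp only [hh, norm_mul, norm_e, mul_one]
    exact (hg s).trans (le_abs_self C)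
  have h1 : ∑ s ∈ Finset.range (q + L), h s =
      ∑ s ∈ Finset.range q, h s + e (α * q) * ∑ s ∈ Finset.range L, h s := by
    rw [Finset.sum_range_add, Finset.mul_sum]
    congr 1
    refine Finset.sum_congr rfl fun s _ => ?_
    simp only [hh]
    have e0 : g ((q + s : ℕ) : ℤ) = g s := by
      have := hp (s : ℤ)
      rw [← this]
      congr 1
      push_cast
      ring
    have e1 : e (α * ((q + s : ℕ) : ℝ)) = e (α * q) * e (α * s) := by
      rw [← e_add]
      congr 1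
      push_cast
      ring
    rw [e0, e1]
    ring
  have h2 : ∑ s ∈ Finset.range (L + q), h s =
      ∑ s ∈ Finset.range L, h s + ∑ s ∈ Finset.range q, h (L + s) := Finset.sum_range_add _ _ _
  rw [add_comm q L] at h1
  have h3 : (1 - e (α * q)) * ∑ s ∈ Finset.range L, h s =
      ∑ s ∈ Finset.range q, h s - ∑ s ∈ Finset.range q, h (L + s) := by
    have := h1.symm.trans h2
    linear_combination -this
  rw [le_div_iff₀ hz', mul_comm, ← norm_mul, h3]
  refine (norm_sub_le _ _).trans ?_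
  have h4 : ∀ f : ℕ → ℂ, (∀ s, ‖f s‖ ≤ |C|) → ‖∑ s ∈ Finset.range q, f s‖ ≤ q * |C| := by
    intro f hf
    refine (norm_sum_le _ _).trans ?_
    refine (Finset.sum_le_sum fun s _ => hf s).trans ?_
    simp
  have := h4 h hb
  have := h4 (fun s => h (L + s)) (fun s => hb _)
  linarith

lemma per_sum2 {q M : ℕ} {α α' : ℝ} (hα : (∀ n : ℤ, α * q ≠ n) ∨ (∀ n : ℤ, α' * M ≠ n)) (C : ℝ) :
    ∃ D : ℝ, 0 ≤ D ∧ ∀ G : ℤ → ℤ → ℂ, (∀ s r, ‖G s r‖ ≤ C) → (∀ s r, G (s + q) r = G s r) →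
      (∀ s r, G s (r + M) = G s r) → ∀ L : ℕ,
      ‖∑ s ∈ Finset.range L, ∑ r ∈ Finset.range L, G s r * (e (α * s) * e (α' * r))‖ ≤ L * D := by
  rcases hα with h | h
  · obtain ⟨D, hD, hG⟩ := per_sum h C
    refine ⟨D, hD, fun G hb h1 _ L => ?_⟩
    rw [Finset.sum_comm]
    refine (norm_sum_le _ _).trans ?_
    calc ∑ r ∈ Finset.range L, ‖∑ s ∈ Finset.range L, G s r * (e (α * s) * e (α' * r))‖
        ≤ ∑ _r ∈ Finset.range L, D := by
          refine Finset.sum_le_sum fun r _ => ?_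
          have e1 : ∑ s ∈ Finset.range L, G s r * (e (α * s) * e (α' * r)) =
              e (α' * r) * ∑ s ∈ Finset.range L, G s r * e (α * s) := by
            rw [Finset.mul_sum]
            exact Finset.sum_congr rfl fun s _ => by ring
          rw [e1, norm_mul, norm_e, one_mul]
          exact hG (fun s => G s r) (fun s => hb s r) (fun s => h1 s r) L
      _ = L * D := by simp
  · obtain ⟨D, hD, hG⟩ := per_sum h C
    refine ⟨D, hD, fun G hb _ h2 L => ?_⟩
    refine (norm_sum_le _ _).trans ?_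
    calc ∑ s ∈ Finset.range L, ‖∑ r ∈ Finset.range L, G s r * (e (α * s) * e (α' * r))‖
        ≤ ∑ _s ∈ Finset.range L, D := by
          refine Finset.sum_le_sum fun s _ => ?_
          have e1 : ∑ r ∈ Finset.range L, G s r * (e (α * s) * e (α' * r)) =
              e (α * s) * ∑ r ∈ Finset.range L, G s r * e (α' * r) := by
            rw [Finset.mul_sum]
            exact Finset.sum_congr rfl fun s _ => by ring
          rw [e1, norm_mul, norm_e, one_mul]
          exact hG (fun r => G s r) (fun r => hb s r) (fun r => h2 s r) L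
      _ = L * D := by simp

/-! ### counting in classes -/

lemma count_nat {q : ℕ} (a L : ℕ) :
    ∑ s ∈ Finset.range L, (if q ∣ a + s + 1 then (1 : ℕ) else 0) + a / q = (a + L) / q := by
  induction L with
  | zero => simp
  | succ L ih =>
    rw [Finset.sum_range_succ, ← add_assoc, Nat.succ_div, ← ih]
    ring

lemma count_cls {q : ℕ} (hq : 0 < q) (c : ℤ) (L : ℕ) :
    |(∑ s ∈ Finset.range L, (if (q : ℤ) ∣ c + s then (1 : ℝ) else 0)) - L / q| ≤ 1 := by
  have hq' : (0 : ℤ) < q := by exact_mod_cast hq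
  set a : ℕ := ((c - 1) % q).toNat with ha
  have ha' : (a : ℤ) = (c - 1) % q := Int.toNat_of_nonneg (Int.emod_nonneg _ hq'.ne')
  have hdvd : (q : ℤ) ∣ (c - 1) - a := by
    rw [ha']; exact Int.dvd_self_sub_emod
  have h1 : ∑ s ∈ Finset.range L, (if (q : ℤ) ∣ c + s then (1 : ℝ) else 0) =
      ((∑ s ∈ Finset.range L, (if q ∣ a + s + 1 then (1 : ℕ) else 0) : ℕ) : ℝ) := by
    push_cast
    refine Finset.sum_congr rfl fun s _ => ?_
    have h2 : (q : ℤ) ∣ c + s ↔ q ∣ a + s + 1 := by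
      rw [← Int.natCast_dvd_natCast]
      push_cast
      rw [show c + (s : ℤ) = ((c - 1) - a) + (a + s + 1) by ring]
      exact (Int.dvd_add_right hdvd)
    by_cases h3 : q ∣ a + s + 1
    · rw [if_pos h3, if_pos (h2.2 h3)]
    · rw [if_neg h3, if_neg fun h => h3 (h2.1 h)]
  have h2 := count_nat (q := q) a L
  have h3 : ((∑ s ∈ Finset.range L, (if q ∣ a + s + 1 then (1 : ℕ) else 0) : ℕ) : ℝ) =
      ((a + L) / q : ℕ) - (a / q : ℕ) := by
    rw [← h2]; push_cast; ring
  rw [h1, h3]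
  have hqr : (0 : ℝ) < q := by exact_mod_cast hq
  have b1 : (((a + L) / q : ℕ) : ℝ) ≤ ((a + L : ℕ) : ℝ) / q := Nat.cast_div_le
  have b2 : ((a / q : ℕ) : ℝ) ≤ (a : ℝ) / q := Nat.cast_div_le
  have b3 : ((a + L : ℕ) : ℝ) / q < (((a + L) / q : ℕ) : ℝ) + 1 := by
    rw [div_lt_iff₀ hqr]
    have h5 : a + L < ((a + L) / q + 1) * q := by
      have := Nat.lt_mul_div_succ (a + L) hq
      rw [mul_comm]
      exact this
    exact_mod_cast h5
  have b4 : (a : ℝ) / q < ((a / q : ℕ) : ℝ) + 1 := by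
    rw [div_lt_iff₀ hqr]
    have h5 : a < (a / q + 1) * q := by
      have := Nat.lt_mul_div_succ a hq
      rw [mul_comm]
      exact this
    exact_mod_cast h5
  push_cast at b1 b3
  rw [add_div] at b1 b3
  rw [abs_le]
  constructor <;> linarith

/-- Chinese remainder theorem -/
lemma crt {a b : ℕ} (h : Nat.Coprime a b) (x y : ℤ) : ∃ z : ℤ, ∀ s : ℤ,
    ((a : ℤ) ∣ x + s ∧ (b : ℤ) ∣ y + s) ↔ ((a * b : ℕ) : ℤ) ∣ z + s := by
  have hc : IsCoprime (a : ℤ) (b : ℤ) := Nat.isCoprime_iff_coprime.2 h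
  obtain ⟨p, r, hpr⟩ := id hc
  refine ⟨x * (r * b) + y * (p * a), fun s => ?_⟩
  have h1 : x * (r * b) + y * (p * a) + s = (x + s) + a * (p * (y - x)) := by
    linear_combination x * hpr
  have h2 : x * (r * b) + y * (p * a) + s = (y + s) + b * (r * (x - y)) := by
    linear_combination y * hpr
  push_cast
  constructor
  · rintro ⟨ha, hb⟩
    refine hc.mul_dvd ?_ ?_
    · rw [h1]; exact dvd_add ha (dvd_mul_right _ _)
    · rw [h2]; exact dvd_add hb (dvd_mul_right _ _)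
  · intro h
    constructor
    · have := (dvd_mul_right (a : ℤ) b).trans h
      rw [h1] at this
      exact (Int.dvd_add_left (dvd_mul_right _ _)).1 this
    · have := (dvd_mul_left (b : ℤ) a).trans h
      rw [h2] at this
      exact (Int.dvd_add_left (dvd_mul_right _ _)).1 this

/-! ### the kernel -/

/-- the one dimensional kernel -/
noncomputable def fej (K : ℕ) (y : ℝ) : ℝ :=
  (4 : ℝ) ^ K / K.centralBinom * ((1 + Real.cos (2 * Real.pi * y)) / 2) ^ K

lemma cb_pos (K : ℕ) : (0 : ℝ) < K.centralBinom := by exact_mod_cast Nat.centralBinom_pos K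

lemma half_nonneg (y : ℝ) : 0 ≤ (1 + Real.cos (2 * Real.pi * y)) / 2 := by
  have := Real.neg_one_le_cos (2 * Real.pi * y)
  linarith

lemma half_le_one (y : ℝ) : (1 + Real.cos (2 * Real.pi * y)) / 2 ≤ 1 := by
  have := Real.cos_le_one (2 * Real.pi * y)
  linarith

lemma fej_nonneg (K : ℕ) (y : ℝ) : 0 ≤ fej K y :=
  mul_nonneg (div_nonneg (by positivity) (cb_pos K).le) (pow_nonneg (half_nonneg y) K)

lemma fej_le (K : ℕ) (y : ℝ) : fej K y ≤ 4 ^ K := by
  unfold fej
  have h1 : (4 : ℝ) ^ K / K.centralBinom ≤ 4 ^ K :=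
    div_le_self (by positivity) (by exact_mod_cast Nat.centralBinom_pos K)
  have h2 : ((1 + Real.cos (2 * Real.pi * y)) / 2) ^ K ≤ 1 :=
    pow_le_one₀ (half_nonneg y) (half_le_one y)
  calc _ ≤ (4 : ℝ) ^ K * 1 := mul_le_mul h1 h2 (pow_nonneg (half_nonneg y) K) (by positivity)
    _ = 4 ^ K := mul_one _

lemma fej_exp (K : ℕ) : ∃ c : ℤ → ℝ, c 0 = 1 ∧ ∀ y : ℝ, ((fej K y : ℝ) : ℂ) =
    ∑ k ∈ Finset.Icc (-(K : ℤ)) K, (c k : ℂ) * e (k * y) := by
  refine ⟨fun k => ((2 * K).choose (K + k).toNat : ℝ) / K.centralBinom, ?_, fun y => ?_⟩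
  · simp only [add_zero, Int.toNat_natCast]
    rw [← Nat.centralBinom_eq_two_mul_choose]
    exact div_self (cb_pos K).ne'
  · have hcb : (K.centralBinom : ℂ) ≠ 0 := by exact_mod_cast (Nat.centralBinom_pos K).ne'
    have h1 : (4 : ℂ) ^ K * ((1 + ((Real.cos (2 * Real.pi * y) : ℝ) : ℂ)) / 2) ^ K =
        (e (y / 2) + e (-(y / 2))) ^ (2 * K) := by
      rw [← mul_pow, pow_mul, cos_e]
      congr 1
      have a1 : e y = e (y / 2) * e (y / 2) := by rw [← e_add]; congr 1; ring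
      have a2 : e (-y) = e (-(y / 2)) * e (-(y / 2)) := by rw [← e_add]; congr 1; ring
      have a3 : e (y / 2) * e (-(y / 2)) = 1 := by
        rw [← e_add, add_neg_cancel, e_zero]
      rw [a1, a2]
      linear_combination (-2) * a3
    have h2 : ((fej K y : ℝ) : ℂ) = (e (y / 2) + e (-(y / 2))) ^ (2 * K) / K.centralBinom := by
      rw [← h1]
      unfold fej
      push_cast
      ring
    rw [h2, add_pow, Finset.sum_div]
    refine Finset.sum_nbij' (fun m : ℕ => (m : ℤ) - K) (fun k : ℤ => (K + k).toNat) ?_ ?_ ?_ ?_ ?_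
    · intro m hm
      rw [Finset.mem_range] at hm
      rw [Finset.mem_Icc]
      constructor <;> omega
    · intro k hk
      rw [Finset.mem_Icc] at hk
      rw [Finset.mem_range]
      omega
    · intro m hm
      simp
    · intro k hk
      rw [Finset.mem_Icc] at hk
      omega
    · intro m hm
      rw [Finset.mem_range] at hm
      have a1 : ((K : ℤ) + (m - K)).toNat = m := by omega
      have a2 : e (y / 2) ^ m * e (-(y / 2)) ^ (2 * K - m) = e (((m : ℤ) - K : ℤ) * y) := by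
        rw [e_pow, e_pow, ← e_add]
        congr 1
        have a3 : ((2 * K - m : ℕ) : ℝ) = 2 * K - m := by
          rw [Nat.cast_sub (by omega)]; push_cast; ring
        rw [a3]
        push_cast
        ring
      simp only [a1]
      rw [a2]
      push_cast
      ring

variable {ι : Type} [Fintype ι]

/-- rational independence of `1` and the `β l` -/
def IndepI (β : ι → ℝ) : Prop := ∀ (c : ι → ℤ) (c₀ : ℤ), ∑ l, c l * β l = c₀ → c = 0

/-- frequency -/
noncomputable def th (β : ι → ℝ) (k : ι → ℤ) : ℝ := ∑ l, k l * β l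

lemma th_zero (β : ι → ℝ) : th β 0 = 0 := by simp [th]

/-- the irrational part of the kernel -/
noncomputable def FF (β : ι → ℝ) (K : ℕ) (x : ℝ) : ℝ := ∏ l, fej K (β l * x)

/-- the frequencies -/
noncomputable def box (ι : Type) [Fintype ι] (K : ℕ) : Finset (ι → ℤ) :=
  letI := Classical.decEq ι
  Fintype.piFinset fun _ => Finset.Icc (-(K : ℤ)) K

lemma mem_box {K : ℕ} {k : ι → ℤ} : k ∈ box ι K ↔ ∀ l, |k l| ≤ K := by
  classical
  unfold box
  rw [@Fintype.mem_piFinset]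
  simp only [Finset.mem_Icc, abs_le]

lemma zero_mem_box (K : ℕ) : (0 : ι → ℤ) ∈ box ι K := mem_box.2 fun l => by simp

lemma FF_exp (β : ι → ℝ) (K : ℕ) : ∃ W : (ι → ℤ) → ℝ, W 0 = 1 ∧ ∀ x : ℝ,
    ((FF β K x : ℝ) : ℂ) = ∑ k ∈ box ι K, (W k : ℂ) * e (th β k * x) := by
  classical
  obtain ⟨c, hc0, hc⟩ := fej_exp K
  refine ⟨fun k => ∏ l, c (k l), by simp [hc0], fun x => ?_⟩
  unfold FF
  push_cast
  rw [Finset.prod_congr rfl fun l _ => hc (β l * x)]
  rw [Finset.prod_univ_sum]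
  unfold box
  refine Finset.sum_congr ?_ fun k _ => ?_
  · congr!
  · rw [Finset.prod_mul_distrib]
    congr 1
    rw [← e_sum]
    congr 1
    unfold th
    rw [Finset.sum_mul]
    exact Finset.sum_congr rfl fun l _ => by ring

lemma FF_nonneg (β : ι → ℝ) (K : ℕ) (x : ℝ) : 0 ≤ FF β K x :=
  Finset.prod_nonneg fun _ _ => fej_nonneg _ _

/-- the periodic part -/
noncomputable def PM (M : ℕ) (x : ℤ) : ℝ := if (M : ℤ) ∣ x then (M : ℝ) else 0

lemma PM_nonneg (M : ℕ) (x : ℤ) : 0 ≤ PM M x := by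
  unfold PM; split_ifs <;> simp

lemma PM_le (M : ℕ) (x : ℤ) : PM M x ≤ M := by
  unfold PM; split_ifs <;> simp

lemma PM_per {M : ℕ} {x y : ℤ} (h : (M : ℤ) ∣ y - x) : PM M x = PM M y := by
  unfold PM
  have : (M : ℤ) ∣ x ↔ (M : ℤ) ∣ y := by
    rw [show y = (y - x) + x by ring]
    exact (Int.dvd_add_right h).symm
  by_cases hx : (M : ℤ) ∣ x
  · rw [if_pos hx, if_pos (this.1 hx)]
  · rw [if_neg hx, if_neg fun h => hx (this.2 h)]

/-- the kernel -/
noncomputable def Ps (β : ι → ℝ) (M K : ℕ) (x : ℤ) : ℝ := PM M x * FF β K x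

lemma Ps_nonneg (β : ι → ℝ) (M K : ℕ) (x : ℤ) : 0 ≤ Ps β M K x :=
  mul_nonneg (PM_nonneg _ _) (FF_nonneg _ _ _)

lemma FF_le (β : ι → ℝ) (K : ℕ) (x : ℝ) : FF β K x ≤ (4 ^ K) ^ Fintype.card ι := by
  unfold FF
  calc ∏ l, fej K (β l * x) ≤ ∏ _l : ι, (4 : ℝ) ^ K :=
        Finset.prod_le_prod (fun _ _ => fej_nonneg _ _) fun _ _ => fej_le _ _
    _ = (4 ^ K) ^ Fintype.card ι := by simp

lemma Ps_bdd (β : ι → ℝ) (M K : ℕ) : Bdd (Ps β M K) := by
  refine ⟨M * (4 ^ K) ^ Fintype.card ι, fun x => ?_⟩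
  rw [abs_of_nonneg (Ps_nonneg _ _ _ _)]
  exact mul_le_mul (PM_le _ _) (FF_le _ _ _) (FF_nonneg _ _ _) (Nat.cast_nonneg _)

lemma Ps_supp (β : ι → ℝ) (M K : ℕ) (x : ℤ) (h : Ps β M K x ≠ 0) : (M : ℤ) ∣ x := by
  by_contra hx
  apply h
  unfold Ps PM
  rw [if_neg hx, zero_mul]

/-! ### finite rank -/

lemma fr_of {κ : Type} [Fintype κ] {Ψ : ℤ → ℝ} (p q : κ → ℤ → ℝ) (hp : ∀ i, Bdd (p i))
    (hq : ∀ i, Bdd (q i)) (h : ∀ x s, Ψ (x + s) = ∑ i, p i x * q i s) : FRank Ψ := by
  classical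
  refine ⟨Fintype.card κ, fun i => p ((Fintype.equivFin κ).symm i),
    fun i => q ((Fintype.equivFin κ).symm i), fun i => hp _, fun i => hq _, fun x s => ?_⟩
  rw [h x s]
  exact ((Fintype.equivFin κ).symm.sum_comp fun i => p i x * q i s).symm

lemma fr_const (c : ℝ) : FRank (fun _ => c) :=
  fr_of (κ := Unit) (fun _ _ => c) (fun _ _ => 1) (fun _ => Bdd.const c)
    (fun _ => Bdd.const 1) fun x s => by simp

lemma fr_add {Ψ Φ : ℤ → ℝ} (h : FRank Ψ) (h' : FRank Φ) : FRank (fun x => Ψ x + Φ x) := by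
  obtain ⟨I, p, q, hp, hq, hh⟩ := h
  obtain ⟨J, p', q', hp', hq', hh'⟩ := h'
  refine fr_of (κ := Fin I ⊕ Fin J) (Sum.elim p p') (Sum.elim q q') ?_ ?_ fun x s => ?_
  · rintro (i | j)
    · exact hp i
    · exact hp' j
  · rintro (i | j)
    · exact hq i
    · exact hq' j
  · rw [hh, hh', Fintype.sum_sum_type]
    rfl

lemma fr_mul {Ψ Φ : ℤ → ℝ} (h : FRank Ψ) (h' : FRank Φ) : FRank (fun x => Ψ x * Φ x) := by
  obtain ⟨I, p, q, hp, hq, hh⟩ := h
  obtain ⟨J, p', q', hp', hq', hh'⟩ := h'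
  refine fr_of (κ := Fin I × Fin J) (fun i x => p i.1 x * p' i.2 x)
    (fun i x => q i.1 x * q' i.2 x) (fun i => (hp _).mul (hp' _)) (fun i => (hq _).mul (hq' _))
    fun x s => ?_
  rw [hh, hh', Finset.sum_mul_sum, Fintype.sum_prod_type]
  exact Finset.sum_congr rfl fun i _ => Finset.sum_congr rfl fun j _ => by ring

lemma fr_pow {Ψ : ℤ → ℝ} (h : FRank Ψ) (n : ℕ) : FRank (fun x => Ψ x ^ n) := by
  induction n with
  | zero => simpa using fr_const 1
  | succ n ih => simpa [pow_succ] using fr_mul ih h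

lemma fr_prod {κ : Type} (s : Finset κ) {Ψ : κ → ℤ → ℝ} (h : ∀ i ∈ s, FRank (Ψ i)) :
    FRank (fun x => ∏ i ∈ s, Ψ i x) := by
  classical
  induction s using Finset.induction_on with
  | empty => simpa using fr_const 1
  | insert a s ha ih =>
    simp only [Finset.prod_insert ha]
    exact fr_mul (h a (Finset.mem_insert_self a s)) (ih fun i hi => h i (Finset.mem_insert_of_mem hi))

lemma fr_cos (β : ℝ) : FRank (fun x : ℤ => Real.cos (2 * Real.pi * (β * x))) := by
  refine fr_of (κ := Bool)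
    (fun b x => if b then Real.cos (2 * Real.pi * (β * x)) else -Real.sin (2 * Real.pi * (β * x)))
    (fun b x => if b then Real.cos (2 * Real.pi * (β * x)) else Real.sin (2 * Real.pi * (β * x)))
    (fun b => ⟨1, fun x => ?_⟩) (fun b => ⟨1, fun x => ?_⟩) fun x s => ?_
  · cases b
    · simpa using Real.abs_sin_le_one _
    · simpa using Real.abs_cos_le_one _
  · cases b
    · simpa using Real.abs_sin_le_one _
    · simpa using Real.abs_cos_le_one _
  · rw [Fintype.sum_bool]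
    have : 2 * Real.pi * (β * ((x + s : ℤ) : ℝ)) =
        2 * Real.pi * (β * x) + 2 * Real.pi * (β * s) := by push_cast; ring
    rw [this, Real.cos_add]
    simp
    ring

lemma fr_PM {M : ℕ} (hM : 0 < M) : FRank (PM M) := by
  have hM' : (0 : ℤ) < M := by exact_mod_cast hM
  refine fr_of (κ := Fin M) (fun a x => if (M : ℤ) ∣ x - a then (M : ℝ) else 0)
    (fun a s => if (M : ℤ) ∣ s + a then (1 : ℝ) else 0) (fun a => ⟨M, fun x => ?_⟩)
    (fun a => ⟨1, fun x => ?_⟩) fun x s => ?_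
  · dsimp only; split_ifs <;> simp
  · dsimp only; split_ifs <;> simp
  · have h0 := Int.emod_nonneg x hM'.ne'
    have h1 := Int.emod_lt_of_pos x hM'
    set a : Fin M := ⟨(x % M).toNat, by omega⟩ with ha
    have hax : ((a : ℕ) : ℤ) = x % M := Int.toNat_of_nonneg h0
    have hd : (M : ℤ) ∣ x - (a : ℕ) := by rw [hax]; exact Int.dvd_self_sub_emod
    rw [Finset.sum_eq_single_of_mem a (Finset.mem_univ _)]
    · rw [if_pos hd]
      unfold PM
      have : (M : ℤ) ∣ x + s ↔ (M : ℤ) ∣ s + (a : ℕ) := by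
        rw [show x + s = (x - (a : ℕ)) + (s + (a : ℕ)) by ring]
        exact Int.dvd_add_right hd
      by_cases h : (M : ℤ) ∣ s + (a : ℕ)
      · rw [if_pos h, if_pos (this.2 h), mul_one]
      · rw [if_neg h, if_neg fun h' => h (this.1 h'), mul_zero]
    · intro b _ hb
      rw [if_neg, zero_mul]
      intro h
      apply hb
      have h3 : (M : ℤ) ∣ ((b : ℕ) : ℤ) - (a : ℕ) := by
        have := dvd_sub hd h
        rwa [show x - (a : ℕ) - (x - (b : ℕ)) = ((b : ℕ) : ℤ) - (a : ℕ) by ring] at this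
      have h4 : (((b : ℕ) : ℤ) - (a : ℕ)) = 0 := by
        refine Int.eq_zero_of_abs_lt_dvd h3 ?_
        have := b.2
        have := a.2
        rw [abs_lt]
        constructor <;> omega
      apply Fin.ext
      omega

lemma Ps_rank (β : ι → ℝ) {M : ℕ} (hM : 0 < M) (K : ℕ) : FRank (Ps β M K) := by
  unfold Ps FF fej
  refine fr_mul (fr_PM hM) (fr_prod _ fun l _ => ?_)
  refine fr_mul (fr_const _) (fr_pow ?_ K)
  have h1 := fr_mul (fr_add (fr_const 1) (fr_cos (β l))) (fr_const (1 / 2))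
  have e1 : (fun x : ℤ => (1 + Real.cos (2 * Real.pi * (β l * x))) / 2) =
      fun x : ℤ => (1 + Real.cos (2 * Real.pi * (β l * x))) * (1 / 2) := by
    funext x; ring
  rw [e1]
  exact h1

end VP42

end Pool.Agent.LC79
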