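import Pool.Agent.Lib.MP_60922f_co.LC.VPa_42

/-!
LC, module VP, second part: uniform averages of the kernel.
-/

set_option autoImplicit false

open Filter Topology

namespace Pool.Agent.LC79
open Pool.Agent.FinA Pool.Agent.FinClique

namespace VP42

variable {ι : Type} [Fintype ι]

lemma avgF (β : ι → ℝ) (K : ℕ) {lam q : ℕ}
    (h : ∀ k ∈ box ι K, k ≠ 0 → ∀ n : ℤ, (lam * th β k) * q ≠ n) (C : ℝ) :
    ∃ D : ℝ, 0 ≤ D ∧ ∀ g : ℤ → ℝ, (∀ s, |g s| ≤ C) → (∀ s, g (s + q) = g s) →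
      ∀ (y : ℤ) (L : ℕ), |∑ s ∈ Finset.range L, g s * FF β K ((y + lam * s : ℤ) : ℝ) -
        ∑ s ∈ Finset.range L, g s| ≤ D := by
  classical
  obtain ⟨W, hW0, hW⟩ := FF_exp β K
  have hex : ∀ k : ι → ℤ, ∃ D : ℝ, 0 ≤ D ∧ (k ∈ box ι K → k ≠ 0 → ∀ g : ℤ → ℂ,
      (∀ s, ‖g s‖ ≤ C) → (∀ s, g (s + q) = g s) → ∀ L : ℕ,
      ‖∑ s ∈ Finset.range L, g s * e ((lam * th β k) * s)‖ ≤ D) := by
    intro k
    by_cases hk : k ∈ box ι K ∧ k ≠ 0
    · obtain ⟨D, hD, hg⟩ := per_sum (h k hk.1 hk.2) C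
      exact ⟨D, hD, fun _ _ => hg⟩
    · exact ⟨0, le_rfl, fun h1 h2 => absurd ⟨h1, h2⟩ hk⟩
  choose D hD0 hD using hex
  refine ⟨∑ k ∈ (box ι K).erase 0, |W k| * D k, Finset.sum_nonneg fun k _ =>
    mul_nonneg (abs_nonneg _) (hD0 k), fun g hg hp y L => ?_⟩
  have e1 : ((∑ s ∈ Finset.range L, g s * FF β K ((y + lam * s : ℤ) : ℝ) -
      ∑ s ∈ Finset.range L, g s : ℝ) : ℂ) =
      ∑ k ∈ (box ι K).erase 0, (W k : ℂ) * e (th β k * y) *
        ∑ s ∈ Finset.range L, (g s : ℂ) * e ((lam * th β k) * s) := by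
    have e2 : ∀ s : ℕ, ((g s * FF β K ((y + lam * s : ℤ) : ℝ) : ℝ) : ℂ) =
        ∑ k ∈ box ι K, (W k : ℂ) * e (th β k * y) * ((g s : ℂ) * e ((lam * th β k) * s)) := by
      intro s
      rw [Complex.ofReal_mul, hW, Finset.mul_sum]
      refine Finset.sum_congr rfl fun k _ => ?_
      have e3 : e (th β k * ((y + lam * s : ℤ) : ℝ)) = e (th β k * y) * e ((lam * th β k) * s) := by
        rw [← e_add]
        congr 1
        push_cast
        ring
      rw [e3]
      ring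
    rw [Complex.ofReal_sub, Complex.ofReal_sum, Complex.ofReal_sum,
      Finset.sum_congr rfl fun s _ => e2 s, Finset.sum_comm,
      ← Finset.add_sum_erase _ _ (zero_mem_box K)]
    have e4 : ∑ s ∈ Finset.range L, ((W 0 : ℝ) : ℂ) * e (th β 0 * y) *
        ((g s : ℂ) * e ((lam * th β 0) * s)) = ∑ s ∈ Finset.range L, ((g s : ℝ) : ℂ) := by
      refine Finset.sum_congr rfl fun s _ => ?_
      rw [hW0, th_zero]
      simp [e_zero]
    rw [e4, add_sub_cancel_left]
    exact Finset.sum_congr rfl fun k _ => (Finset.mul_sum _ _ _).symm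
  have e5 := congrArg norm e1
  rw [Complex.norm_real, Real.norm_eq_abs] at e5
  rw [e5]
  refine (norm_sum_le _ _).trans (Finset.sum_le_sum fun k hk => ?_)
  rw [Finset.mem_erase] at hk
  rw [norm_mul, norm_mul, norm_e, mul_one, Complex.norm_real, Real.norm_eq_abs]
  refine mul_le_mul_of_nonneg_left ?_ (abs_nonneg _)
  refine hD k hk.2 hk.1 (fun s => (g s : ℂ)) (fun s => ?_) (fun s => ?_) L
  · rw [Complex.norm_real]; exact hg s
  · rw [hp s]

lemma indep_ne {β : ι → ℝ} (hβ : IndepI β) {c : ℤ} (hc : c ≠ 0) {k : ι → ℤ} (hk : k ≠ 0) (n : ℤ) :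
    (c : ℝ) * th β k ≠ n := by
  intro h
  apply hk
  have h1 := hβ (fun l => c * k l) n (by
    rw [← h]
    unfold th
    rw [Finset.mul_sum]
    exact Finset.sum_congr rfl fun l _ => by push_cast; ring)
  funext l
  have := congrFun h1 l
  simp only [Pi.zero_apply, mul_eq_zero] at this
  exact this.resolve_left hc

lemma key3 {β : ι → ℝ} (hβ : IndepI β) {K u v M : ℕ} (hu : u.Prime) (hv : v.Prime) (huv : u ≠ v)
    (hKu : K < u) (hM : 0 < M) {k0 k1 k2 : ι → ℤ} (h1 : k1 ∈ box ι K)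
    (hne : ¬ (k0 = 0 ∧ k1 = 0 ∧ k2 = 0)) :
    (∀ n : ℤ, (2 * th β k0 - th β k1 * u / v + th β k2 * v / u) * (u * v * M : ℕ) ≠ n) ∨
      (∀ n : ℤ, (th β k1 + th β k2) * M ≠ n) := by
  by_contra hcon
  push Not at hcon
  obtain ⟨⟨n, hn⟩, n', hn'⟩ := hcon
  have hM' : (M : ℤ) ≠ 0 := by exact_mod_cast hM.ne'
  have hu0 : (u : ℝ) ≠ 0 := by exact_mod_cast hu.ne_zero
  have hv0 : (v : ℝ) ≠ 0 := by exact_mod_cast hv.ne_zero
  have a1 := hβ (fun l => M * (k1 l + k2 l)) n' (by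
    rw [← hn']
    unfold th
    rw [← Finset.sum_add_distrib, Finset.sum_mul]
    exact Finset.sum_congr rfl fun l _ => by push_cast; ring)
  have a2 := hβ (fun l => M * (2 * u * v * k0 l - u * u * k1 l + v * v * k2 l)) n (by
    rw [← hn]
    have e1 : (2 * th β k0 - th β k1 * u / v + th β k2 * v / u) * ((u * v * M : ℕ) : ℝ) =
        M * (2 * u * v * th β k0 - u * u * th β k1 + v * v * th β k2) := by
      push_cast
      field_simp
    rw [e1]
    unfold th
    rw [Finset.mul_sum, Finset.mul_sum, Finset.mul_sum, ← Finset.sum_sub_distrib,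
      ← Finset.sum_add_distrib, Finset.mul_sum]
    exact Finset.sum_congr rfl fun l _ => by push_cast; ring)
  have hup : Prime (u : ℤ) := Nat.prime_iff_prime_int.1 hu
  have key : ∀ l, k1 l = 0 := by
    intro l
    have b1 : k1 l + k2 l = 0 := by
      have := congrFun a1 l
      simp only [Pi.zero_apply, mul_eq_zero] at this
      exact this.resolve_left hM'
    have b2 : 2 * u * v * k0 l - u * u * k1 l + v * v * k2 l = 0 := by
      have := congrFun a2 l
      simp only [Pi.zero_apply, mul_eq_zero] at this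
      exact this.resolve_left hM'
    have b3 : (u : ℤ) ∣ (v : ℤ) * v * k1 l := by
      refine ⟨2 * v * k0 l - u * k1 l, ?_⟩
      have : k2 l = -k1 l := by linarith
      rw [this] at b2
      linarith
    have b4 : ¬ (u : ℤ) ∣ (v : ℤ) := by
      intro h
      exact huv ((Nat.prime_dvd_prime_iff_eq hu hv).1 (Int.natCast_dvd_natCast.1 h))
    have b5 : (u : ℤ) ∣ k1 l := by
      rcases hup.dvd_or_dvd b3 with h | h
      · rcases hup.dvd_or_dvd h with h | h <;> exact absurd h b4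
      · exact h
    refine Int.eq_zero_of_abs_lt_dvd b5 ?_
    have := mem_box.1 h1 l
    have : (K : ℤ) < u := by exact_mod_cast hKu
    linarith [mem_box.1 h1 l]
  apply hne
  have hk1 : k1 = 0 := funext key
  have hk2 : k2 = 0 := by
    funext l
    have := congrFun a1 l
    simp only [Pi.zero_apply, mul_eq_zero] at this
    have := this.resolve_left hM'
    rw [key l, zero_add] at this
    exact this
  refine ⟨?_, hk1, hk2⟩
  funext l
  have b2 : 2 * u * v * k0 l - u * u * k1 l + v * v * k2 l = 0 := by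
    have := congrFun a2 l
    simp only [Pi.zero_apply, mul_eq_zero] at this
    exact this.resolve_left hM'
  rw [key l, hk2] at b2
  have hu0' : (u : ℤ) ≠ 0 := by exact_mod_cast hu.ne_zero
  have hv0' : (v : ℤ) ≠ 0 := by exact_mod_cast hv.ne_zero
  have b6 : 2 * (u : ℤ) * v * k0 l = 0 := by
    simpa using b2
  rcases mul_eq_zero.1 b6 with h | h
  · exfalso
    rcases mul_eq_zero.1 h with h | h
    · rcases mul_eq_zero.1 h with h | h
      · norm_num at h
      · exact hu0' h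
    · exact hv0' h
  · exact h

lemma sum3 {κ : Type} (s : Finset κ) (f g h : κ → ℂ) :
    (∑ a ∈ s, f a) * (∑ b ∈ s, g b) * (∑ c ∈ s, h c) =
      ∑ k ∈ s ×ˢ s ×ˢ s, f k.1 * g k.2.1 * h k.2.2 := by
  rw [mul_assoc, Finset.sum_mul_sum, Finset.sum_mul, Finset.sum_product]
  refine Finset.sum_congr rfl fun a _ => ?_
  rw [Finset.mul_sum, Finset.sum_product]
  refine Finset.sum_congr rfl fun b _ => ?_
  rw [Finset.mul_sum]
  exact Finset.sum_congr rfl fun c _ => by ring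

lemma avgFFF {β : ι → ℝ} (hβ : IndepI β) {K u v M : ℕ} (hu : u.Prime) (hv : v.Prime) (huv : u ≠ v)
    (hKu : K < u) (hM : 0 < M) (C : ℝ) :
    ∃ D : ℝ, 0 ≤ D ∧ ∀ G : ℤ → ℤ → ℝ, (∀ s r, |G s r| ≤ C) →
      (∀ s r, G (s + (u * v * M : ℕ)) r = G s r) → (∀ s r, G s (r + M) = G s r) →
      ∀ (t y : ℤ) (L : ℕ), |∑ s ∈ Finset.range L, ∑ r ∈ Finset.range L, G s r *
        (FF β K (y + 2 * s) * FF β K (u * ((t - s) / v) + r) * FF β K (v * ((y + s) / u) + r)) -
        ∑ s ∈ Finset.range L, ∑ r ∈ Finset.range L, G s r| ≤ L * D := by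
  classical
  obtain ⟨W, hW0, hW⟩ := FF_exp β K
  let al : (ι → ℤ) × (ι → ℤ) × (ι → ℤ) → ℝ := fun k =>
    2 * th β k.1 - th β k.2.1 * u / v + th β k.2.2 * v / u
  let al' : (ι → ℤ) × (ι → ℤ) × (ι → ℤ) → ℝ := fun k => th β k.2.1 + th β k.2.2
  let w : (ι → ℤ) × (ι → ℤ) × (ι → ℤ) → ℝ := fun k => W k.1 * W k.2.1 * W k.2.2
  have hex : ∀ k : (ι → ℤ) × (ι → ℤ) × (ι → ℤ), ∃ D : ℝ, 0 ≤ D ∧ (k.2.1 ∈ box ι K → k ≠ 0 →
      ∀ G : ℤ → ℤ → ℂ, (∀ s r, ‖G s r‖ ≤ C) → (∀ s r, G (s + (u * v * M : ℕ)) r = G s r) →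
      (∀ s r, G s (r + M) = G s r) → ∀ L : ℕ,
      ‖∑ s ∈ Finset.range L, ∑ r ∈ Finset.range L, G s r * (e (al k * s) * e (al' k * r))‖
        ≤ L * D) := by
    intro k
    by_cases hk : k.2.1 ∈ box ι K ∧ k ≠ 0
    · have hne : ¬ (k.1 = 0 ∧ k.2.1 = 0 ∧ k.2.2 = 0) := by
        rintro ⟨h1, h2, h3⟩
        exact hk.2 (Prod.ext h1 (Prod.ext h2 h3))
      obtain ⟨D, hD, hg⟩ := per_sum2 (key3 hβ hu hv huv hKu hM hk.1 hne) C
      exact ⟨D, hD, fun _ _ => hg⟩
    · exact ⟨0, le_rfl, fun h1 h2 => absurd ⟨h1, h2⟩ hk⟩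
  choose D hD0 hD using hex
  set B : Finset ((ι → ℤ) × (ι → ℤ) × (ι → ℤ)) := box ι K ×ˢ box ι K ×ˢ box ι K with hB
  have h0B : (0 : (ι → ℤ) × (ι → ℤ) × (ι → ℤ)) ∈ B := by
    rw [hB, Finset.mem_product, Finset.mem_product]
    exact ⟨zero_mem_box K, zero_mem_box K, zero_mem_box K⟩
  refine ⟨∑ k ∈ B.erase 0, |w k| * D k, Finset.sum_nonneg fun k _ =>
    mul_nonneg (abs_nonneg _) (hD0 k), fun G hG h1 h2 t y L => ?_⟩
  have e1 : ((∑ s ∈ Finset.range L, ∑ r ∈ Finset.range L, G s r *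
        (FF β K (y + 2 * s) * FF β K (u * ((t - s) / v) + r) * FF β K (v * ((y + s) / u) + r)) -
        ∑ s ∈ Finset.range L, ∑ r ∈ Finset.range L, G s r : ℝ) : ℂ) =
      ∑ k ∈ B.erase 0, (w k : ℂ) *
        e (th β k.1 * y + th β k.2.1 * u * t / v + th β k.2.2 * v * y / u) *
        ∑ s ∈ Finset.range L, ∑ r ∈ Finset.range L, (G s r : ℂ) * (e (al k * s) * e (al' k * r)) := by
    have e2 : ∀ s r : ℕ, ((G s r * (FF β K (y + 2 * s) * FF β K (u * ((t - s) / v) + r) *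
        FF β K (v * ((y + s) / u) + r)) : ℝ) : ℂ) =
        ∑ k ∈ B, (w k : ℂ) *
        e (th β k.1 * y + th β k.2.1 * u * t / v + th β k.2.2 * v * y / u) *
        ((G s r : ℂ) * (e (al k * s) * e (al' k * r))) := by
      intro s r
      rw [Complex.ofReal_mul, Complex.ofReal_mul, Complex.ofReal_mul, hW, hW, hW, hB, sum3,
        Finset.mul_sum]
      refine Finset.sum_congr rfl fun k _ => ?_
      obtain ⟨k0, k1, k2⟩ := k
      have e3 : e (th β k0 * (y + 2 * s)) * e (th β k1 * (u * ((t - s) / v) + r)) *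
          e (th β k2 * (v * ((y + s) / u) + r)) =
          e (th β k0 * y + th β k1 * u * t / v + th β k2 * v * y / u) *
            (e (al (k0, k1, k2) * s) * e (al' (k0, k1, k2) * r)) := by
        rw [← e_add, ← e_add, ← e_add, ← e_add]
        congr 1
        simp only [al, al']
        ring
      have e4 : (w (k0, k1, k2) : ℂ) = W k0 * W k1 * W k2 := by
        simp only [w]; push_cast; ring
      rw [e4]
      simp only
      linear_combination (G s r : ℂ) * (W k0 * W k1 * W k2) * e3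
    rw [Complex.ofReal_sub, Complex.ofReal_sum, Complex.ofReal_sum]
    have e5 : ∀ s ∈ Finset.range L, ((∑ r ∈ Finset.range L, G s r * (FF β K (y + 2 * s) *
        FF β K (u * ((t - s) / v) + r) * FF β K (v * ((y + s) / u) + r)) : ℝ) : ℂ) =
        ∑ k ∈ B, ∑ r ∈ Finset.range L, (w k : ℂ) *
        e (th β k.1 * y + th β k.2.1 * u * t / v + th β k.2.2 * v * y / u) *
        ((G s r : ℂ) * (e (al k * s) * e (al' k * r))) := by
      intro s _
      rw [Complex.ofReal_sum, Finset.sum_congr rfl fun r _ => e2 s r, Finset.sum_comm]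
    rw [Finset.sum_congr rfl e5, Finset.sum_comm, ← Finset.add_sum_erase _ _ h0B]
    have e6 : ∑ s ∈ Finset.range L, ∑ r ∈ Finset.range L, (w 0 : ℂ) *
        e (th β (0 : (ι → ℤ) × (ι → ℤ) × (ι → ℤ)).1 * y +
          th β (0 : (ι → ℤ) × (ι → ℤ) × (ι → ℤ)).2.1 * u * t / v +
          th β (0 : (ι → ℤ) × (ι → ℤ) × (ι → ℤ)).2.2 * v * y / u) *
        ((G s r : ℂ) * (e (al 0 * s) * e (al' 0 * r))) =
        ∑ s ∈ Finset.range L, ((∑ r ∈ Finset.range L, G s r : ℝ) : ℂ) := by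
      refine Finset.sum_congr rfl fun s _ => ?_
      rw [Complex.ofReal_sum]
      refine Finset.sum_congr rfl fun r _ => ?_
      simp only [al, al', w, Prod.fst_zero, Prod.snd_zero, hW0, th_zero]
      simp [e_zero]
    rw [e6, add_sub_cancel_left]
    refine Finset.sum_congr rfl fun k _ => ?_
    rw [Finset.mul_sum]
    exact Finset.sum_congr rfl fun s _ => (Finset.mul_sum _ _ _).symm
  have e7 := congrArg norm e1
  rw [Complex.norm_real, Real.norm_eq_abs] at e7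
  rw [e7, Finset.mul_sum]
  refine (norm_sum_le _ _).trans (Finset.sum_le_sum fun k hk => ?_)
  rw [Finset.mem_erase, hB, Finset.mem_product, Finset.mem_product] at hk
  rw [norm_mul, norm_mul, norm_e, mul_one, Complex.norm_real, Real.norm_eq_abs]
  have e8 := hD k hk.2.2.1 hk.1 (fun s r => (G s r : ℂ)) (fun s r => by
    rw [Complex.norm_real]; exact hG s r) (fun s r => by rw [h1]) (fun s r => by rw [h2]) L
  calc |w k| * _ ≤ |w k| * (L * D k) := mul_le_mul_of_nonneg_left e8 (abs_nonneg _)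
    _ = L * (|w k| * D k) := by ring

end VP42

end Pool.Agent.LC79
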