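import Pool.Agent.Lib.MP_60922f_co.LC.VPb_42

/-!
LC, module VP, third part: periodic counting and the fields of `Ker` and `KerUV`.
-/

set_option autoImplicit false

open Filter Topology

namespace Pool.Agent.LC79
open Pool.Agent.FinA Pool.Agent.FinClique

namespace VP42

variable {ι : Type} [Fintype ι]

lemma small_avg {D i : ℝ} (hD : 0 ≤ D) (hi : 0 < i) : ∃ S₀ : ℕ, 0 < S₀ ∧ ∀ L : ℕ, S₀ ≤ L →
    D / L ≤ i := by
  obtain ⟨S₀, hS⟩ := exists_nat_gt (D / i)
  refine ⟨S₀ + 1, Nat.succ_pos _, fun L hL => ?_⟩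
  have h1 : (S₀ : ℝ) < L := by exact_mod_cast hL
  have h2 : (0 : ℝ) ≤ S₀ := Nat.cast_nonneg _
  have h3 : (0 : ℝ) < L := lt_of_le_of_lt h2 h1
  rw [div_le_iff₀ h3]
  rw [div_lt_iff₀ hi] at hS
  nlinarith

lemma PM_eq (M : ℕ) (x : ℤ) : PM M x = M * (if (M : ℤ) ∣ x then (1 : ℝ) else 0) := by
  unfold PM; split_ifs <;> simp

lemma sum_PM {M : ℕ} (hM : 0 < M) (c : ℤ) (L : ℕ) :
    |∑ s ∈ Finset.range L, PM M (c + s) - L| ≤ M := by
  have hM' : (0 : ℝ) < M := by exact_mod_cast hM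
  have h1 := count_cls hM c L
  have h2 : ∑ s ∈ Finset.range L, PM M (c + s) - L =
      M * ((∑ s ∈ Finset.range L, (if (M : ℤ) ∣ c + s then (1 : ℝ) else 0)) - L / M) := by
    simp only [PM_eq]
    rw [← Finset.mul_sum]
    field_simp
  rw [h2, abs_mul, abs_of_pos hM']
  exact mul_le_of_le_one_right hM'.le h1

lemma ps_avg {β : ι → ℝ} (hβ : IndepI β) {M : ℕ} (hM : 0 < M) (K : ℕ) : ∃ D : ℝ, 0 ≤ D ∧
    ∀ (y : ℤ) (L : ℕ), |∑ s ∈ Finset.range L, Ps β M K (y + s) - L| ≤ D := by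
  obtain ⟨D, hD0, hD⟩ := avgF β K (lam := 1) (q := M) (fun k _ hk n => by
    have := indep_ne hβ (c := (M : ℤ)) (by exact_mod_cast hM.ne') hk n
    intro h
    apply this
    rw [← h]; push_cast; ring) (M : ℝ)
  refine ⟨D + M, by positivity, fun y L => ?_⟩
  have h1 := hD (fun s => PM M (y + s)) (fun s => by
    rw [abs_of_nonneg (PM_nonneg _ _)]; exact PM_le _ _) (fun s => PM_per ⟨-1, by ring⟩) y L
  have h2 := sum_PM hM y L
  have h3 : ∑ s ∈ Finset.range L, Ps β M K (y + s) =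
      ∑ s ∈ Finset.range L, PM M (y + s) * FF β K ((y + (1 : ℕ) * s : ℤ) : ℝ) := by
    refine Finset.sum_congr rfl fun s _ => ?_
    unfold Ps
    simp
  rw [h3]
  calc _ = |(∑ s ∈ Finset.range L, PM M (y + s) * FF β K ((y + (1 : ℕ) * s : ℤ) : ℝ) -
        ∑ s ∈ Finset.range L, PM M (y + s)) + (∑ s ∈ Finset.range L, PM M (y + s) - L)| := by
        congr 1; ring
    _ ≤ _ := (abs_add_le _ _).trans (add_le_add h1 h2)

/-- even argument -/
lemma dvd_half {M' : ℕ} {y' s : ℤ} : ((2 * M' : ℕ) : ℤ) ∣ (y' + y') + 2 * s ↔ (M' : ℤ) ∣ y' + s := by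
  rw [show (y' + y') + 2 * s = 2 * (y' + s) by ring]
  push_cast
  exact mul_dvd_mul_iff_left (by norm_num)

lemma PM_odd {M : ℕ} (hM : 2 ∣ M) {y : ℤ} (hy : ¬ Even y) (s : ℤ) : PM M (y + 2 * s) = 0 := by
  unfold PM
  rw [if_neg]
  intro h
  have h2 : (2 : ℤ) ∣ y + 2 * s := (by exact_mod_cast hM : (2 : ℤ) ∣ M).trans h
  apply hy
  have h3 : (2 : ℤ) ∣ y := by
    have := dvd_sub h2 (dvd_mul_right (2 : ℤ) s)
    simpa using this
  exact even_iff_two_dvd.2 h3

lemma ps_avg2 {β : ι → ℝ} (hβ : IndepI β) {M v : ℕ} (hM : 0 < M) (hM2 : 2 ∣ M) (hv : 0 < v)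
    (hc : v.Coprime M) (K : ℕ) : ∃ D : ℝ, 0 ≤ D ∧ ∀ (y a : ℤ) (L : ℕ),
    |v * ∑ s ∈ Finset.range L, (if (v : ℤ) ∣ a + s then Ps β M K (y + 2 * s) else 0) -
      (if Even y then 2 else 0) * L| ≤ D := by
  have hv' : (0 : ℝ) < v := by exact_mod_cast hv
  have hM' : (0 : ℝ) < M := by exact_mod_cast hM
  obtain ⟨D, hD0, hD⟩ := avgF β K (lam := 2) (q := v * M) (fun k _ hk n => by
    have := indep_ne hβ (c := (2 * (v * M) : ℤ)) (by
      have : (v : ℤ) ≠ 0 := by exact_mod_cast hv.ne'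
      have : (M : ℤ) ≠ 0 := by exact_mod_cast hM.ne'
      positivity) hk n
    intro h
    apply this
    rw [← h]; push_cast; ring) (v * M : ℝ)
  refine ⟨D + v * M, by positivity, fun y a L => ?_⟩
  set g : ℤ → ℝ := fun s => if (v : ℤ) ∣ a + s then v * PM M (y + 2 * s) else 0 with hg
  have h1 := hD g (fun s => by
    simp only [hg]
    split_ifs
    · rw [abs_of_nonneg (mul_nonneg hv'.le (PM_nonneg _ _))]
      exact mul_le_mul_of_nonneg_left (PM_le _ _) hv'.le
    · rw [abs_zero]; positivity) (fun s => by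
    simp only [hg]
    have e1 : PM M (y + 2 * (s + ((v * M : ℕ) : ℤ))) = PM M (y + 2 * s) :=
      PM_per ⟨-(2 * v), by push_cast; ring⟩
    have e2 : (v : ℤ) ∣ a + (s + ((v * M : ℕ) : ℤ)) ↔ (v : ℤ) ∣ a + s := by
      rw [← add_assoc]
      exact Int.dvd_add_left ⟨M, by push_cast; ring⟩
    by_cases h : (v : ℤ) ∣ a + s
    · rw [if_pos h, if_pos (e2.2 h), e1]
    · rw [if_neg h, if_neg fun h' => h (e2.1 h')]) y L
  have h3 : v * ∑ s ∈ Finset.range L, (if (v : ℤ) ∣ a + s then Ps β M K (y + 2 * s) else 0) =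
      ∑ s ∈ Finset.range L, g s * FF β K ((y + (2 : ℕ) * s : ℤ) : ℝ) := by
    rw [Finset.mul_sum]
    refine Finset.sum_congr rfl fun s _ => ?_
    simp only [hg]
    split_ifs
    · unfold Ps; push_cast; ring
    · simp
  have h2 : |∑ s ∈ Finset.range L, g s - (if Even y then 2 else 0) * L| ≤ v * M := by
    by_cases hy : Even y
    · rw [if_pos hy]
      obtain ⟨y', rfl⟩ := hy
      obtain ⟨M', rfl⟩ := hM2
      have hM'0 : 0 < M' := by omega
      have hc' : v.Coprime M' := hc.coprime_dvd_right (dvd_mul_left _ _)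
      obtain ⟨z, hz⟩ := crt hc' a y'
      have h4 : ∑ s ∈ Finset.range L, g s = (v * (2 * M' : ℕ) : ℝ) *
          ∑ s ∈ Finset.range L, (if ((v * M' : ℕ) : ℤ) ∣ z + s then (1 : ℝ) else 0) := by
        rw [Finset.mul_sum]
        refine Finset.sum_congr rfl fun s _ => ?_
        simp only [hg]
        by_cases h5 : ((v * M' : ℕ) : ℤ) ∣ z + s
        · obtain ⟨h6, h7⟩ := (hz s).2 h5
          rw [if_pos h5, if_pos h6, PM_eq, if_pos (dvd_half.2 h7)]
          ring
        · rw [if_neg h5, mul_zero]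
          by_cases h6 : (v : ℤ) ∣ a + s
          · rw [if_pos h6, PM_eq, if_neg fun h7 => h5 ((hz s).1 ⟨h6, dvd_half.1 h7⟩)]
            ring
          · rw [if_neg h6]
      have h5 := count_cls (Nat.mul_pos hv hM'0) z L
      have hM'' : (0 : ℝ) < M' := by exact_mod_cast hM'0
      rw [h4]
      have h6 : (v * (2 * M' : ℕ) : ℝ) *
          ∑ s ∈ Finset.range L, (if ((v * M' : ℕ) : ℤ) ∣ z + s then (1 : ℝ) else 0) - 2 * L =
          (v * (2 * M' : ℕ) : ℝ) *
          (∑ s ∈ Finset.range L, (if ((v * M' : ℕ) : ℤ) ∣ z + s then (1 : ℝ) else 0) -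
            L / ((v * M' : ℕ) : ℝ)) := by
        push_cast
        field_simp
      rw [h6, abs_mul, abs_of_nonneg (by positivity)]
      exact mul_le_of_le_one_right (by positivity) h5
    · rw [if_neg hy, zero_mul, sub_zero]
      have h4 : ∑ s ∈ Finset.range L, g s = 0 := by
        refine Finset.sum_eq_zero fun s _ => ?_
        simp only [hg]
        rw [PM_odd hM2 hy]
        simp
      rw [h4, abs_zero]
      positivity
  rw [h3]
  calc _ = |(∑ s ∈ Finset.range L, g s * FF β K ((y + (2 : ℕ) * s : ℤ) : ℝ) -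
        ∑ s ∈ Finset.range L, g s) + (∑ s ∈ Finset.range L, g s -
          (if Even y then 2 else 0) * L)| := by
        congr 1; ring
    _ ≤ _ := (abs_add_le _ _).trans (add_le_add h1 h2)

/-- the periodic weight of the third average -/
noncomputable def G3 (M u v : ℕ) (t y s r : ℤ) : ℝ :=
  if (v : ℤ) ∣ t - s ∧ (u : ℤ) ∣ y + s then (u * v : ℝ) * PM M (y + 2 * s) *
    (PM M (u * ((t - s) / v) + r) * PM M (v * ((y + s) / u) + r)) else 0

lemma G3_nonneg (M u v : ℕ) (t y s r : ℤ) : 0 ≤ G3 M u v t y s r := by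
  unfold G3
  split_ifs
  · have := PM_nonneg M (y + 2 * s)
    have := PM_nonneg M (u * ((t - s) / v) + r)
    have := PM_nonneg M (v * ((y + s) / u) + r)
    positivity
  · exact le_rfl

lemma G3_le (M u v : ℕ) (t y s r : ℤ) : G3 M u v t y s r ≤ (u * v : ℝ) * M * (M * M) := by
  unfold G3
  split_ifs
  · have h1 := PM_le M (y + 2 * s)
    have h2 := PM_le M (u * ((t - s) / v) + r)
    have h3 := PM_le M (v * ((y + s) / u) + r)
    have h4 := PM_nonneg M (y + 2 * s)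
    have h5 := PM_nonneg M (u * ((t - s) / v) + r)
    have h6 := PM_nonneg M (v * ((y + s) / u) + r)
    have h7 := mul_le_mul h2 h3 h6 (h5.trans h2)
    have h8 : (u * v : ℝ) * PM M (y + 2 * s) ≤ (u * v : ℝ) * M :=
      mul_le_mul_of_nonneg_left h1 (by positivity)
    exact mul_le_mul h8 h7 (mul_nonneg h5 h6) (by positivity)
  · positivity

lemma G3_per1 {M u v : ℕ} (hu : 0 < u) (hv : 0 < v) (t y s r : ℤ) :
    G3 M u v t y (s + (u * v * M : ℕ)) r = G3 M u v t y s r := by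
  have hu' : (u : ℤ) ≠ 0 := by exact_mod_cast hu.ne'
  have hv' : (v : ℤ) ≠ 0 := by exact_mod_cast hv.ne'
  unfold G3
  have e1 : (v : ℤ) ∣ t - (s + (u * v * M : ℕ)) ↔ (v : ℤ) ∣ t - s := by
    rw [show t - (s + (u * v * M : ℕ)) = (t - s) + -((u * v * M : ℕ) : ℤ) by ring]
    exact Int.dvd_add_left (dvd_neg.2 ⟨u * M, by push_cast; ring⟩)
  have e2 : (u : ℤ) ∣ y + (s + (u * v * M : ℕ)) ↔ (u : ℤ) ∣ y + s := by
    rw [← add_assoc]
    exact Int.dvd_add_left ⟨v * M, by push_cast; ring⟩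
  by_cases h : (v : ℤ) ∣ t - s ∧ (u : ℤ) ∣ y + s
  · rw [if_pos h, if_pos ⟨e1.2 h.1, e2.2 h.2⟩]
    obtain ⟨⟨n, hn⟩, ⟨w, hw⟩⟩ := h
    have f1 : (t - s) / v = n := by rw [hn]; exact Int.mul_ediv_cancel_left _ hv'
    have f2 : (y + s) / u = w := by rw [hw]; exact Int.mul_ediv_cancel_left _ hu'
    have f3 : (t - (s + (u * v * M : ℕ))) / v = n - u * M := by
      rw [show t - (s + (u * v * M : ℕ)) = v * (n - u * M) by push_cast; linear_combination hn]
      exact Int.mul_ediv_cancel_left _ hv'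
    have f4 : (y + (s + (u * v * M : ℕ))) / u = w + v * M := by
      rw [show y + (s + (u * v * M : ℕ)) = u * (w + v * M) by push_cast; linear_combination hw]
      exact Int.mul_ediv_cancel_left _ hu'
    rw [f1, f2, f3, f4]
    have g1 : PM M (y + 2 * (s + (u * v * M : ℕ))) = PM M (y + 2 * s) :=
      PM_per ⟨-(2 * u * v), by push_cast; ring⟩
    have g2 : PM M (u * (n - u * M) + r) = PM M (u * n + r) := PM_per ⟨u * u, by ring⟩
    have g3 : PM M (v * (w + v * M) + r) = PM M (v * w + r) := PM_per ⟨-(v * v), by ring⟩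
    rw [g1, g2, g3]
  · rw [if_neg h, if_neg fun h' => h ⟨e1.1 h'.1, e2.1 h'.2⟩]

lemma G3_per2 (M u v : ℕ) (t y s r : ℤ) : G3 M u v t y s (r + M) = G3 M u v t y s r := by
  unfold G3
  have g2 : PM M (u * ((t - s) / v) + (r + M)) = PM M (u * ((t - s) / v) + r) :=
    PM_per ⟨-1, by ring⟩
  have g3 : PM M (v * ((y + s) / u) + (r + M)) = PM M (v * ((y + s) / u) + r) :=
    PM_per ⟨-1, by ring⟩
  rw [g2, g3]

lemma G3_sum {M u v : ℕ} (hM : 0 < M) (hM2 : 2 ∣ M) (hu : 0 < u) (hv : 0 < v)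
    (huv : u.Coprime v) (huM : u.Coprime M) (hvM : v.Coprime M) (t y : ℤ) (L : ℕ) :
    ∑ s ∈ Finset.range L, ∑ r ∈ Finset.range L, G3 M u v t y s r ≤
      (if Even y then (2 * L + u * v * M) * (M * (L + M)) else 0 : ℝ) := by
  have hu' : (0 : ℝ) < u := by exact_mod_cast hu
  have hv' : (0 : ℝ) < v := by exact_mod_cast hv
  have hM' : (0 : ℝ) < M := by exact_mod_cast hM
  by_cases hy : Even y
  · rw [if_pos hy]
    -- the inner sum
    have h1 : ∀ s : ℤ, ∑ r ∈ Finset.range L, G3 M u v t y s r ≤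
        (if (v : ℤ) ∣ t - s ∧ (u : ℤ) ∣ y + s then (u * v : ℝ) * PM M (y + 2 * s) else 0) *
          (M * (L + M)) := by
      intro s
      unfold G3
      split_ifs with h
      · rw [← Finset.mul_sum]
        refine mul_le_mul_of_nonneg_left ?_ (mul_nonneg (by positivity) (PM_nonneg _ _))
        calc ∑ r ∈ Finset.range L, PM M (u * ((t - s) / v) + r) * PM M (v * ((y + s) / u) + r)
            ≤ ∑ r ∈ Finset.range L, PM M (u * ((t - s) / v) + r) * M :=
              Finset.sum_le_sum fun r _ => mul_le_mul_of_nonneg_left (PM_le _ _) (PM_nonneg _ _)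
          _ = M * ∑ r ∈ Finset.range L, PM M (u * ((t - s) / v) + r) := by
              rw [← Finset.sum_mul, mul_comm]
          _ ≤ M * (L + M) := by
              refine mul_le_mul_of_nonneg_left ?_ hM'.le
              have := (abs_le.1 (sum_PM hM (u * ((t - s) / v)) L)).2
              linarith
      · simp
    obtain ⟨y', rfl⟩ := hy
    obtain ⟨M', rfl⟩ := hM2
    have hM'0 : 0 < M' := by omega
    have hM'' : (0 : ℝ) < M' := by exact_mod_cast hM'0
    have huM' : u.Coprime M' := huM.coprime_dvd_right (dvd_mul_left _ _)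
    have hvM' : v.Coprime M' := hvM.coprime_dvd_right (dvd_mul_left _ _)
    obtain ⟨z, hz⟩ := crt huv.symm (-t) (y' + y')
    obtain ⟨z', hz'⟩ := crt (Nat.Coprime.mul_left hvM' huM') z y'
    have h2 : ∀ s : ℤ, (if (v : ℤ) ∣ t - s ∧ (u : ℤ) ∣ (y' + y') + s then
        (u * v : ℝ) * PM (2 * M') ((y' + y') + 2 * s) else 0) =
        (u * v * (2 * M' : ℕ) : ℝ) * (if ((v * u * M' : ℕ) : ℤ) ∣ z' + s then (1 : ℝ) else 0) := by
      intro s
      have e0 : (v : ℤ) ∣ t - s ↔ (v : ℤ) ∣ -t + s := by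
        rw [← dvd_neg, show -(t - s) = -t + s by ring]
      by_cases h5 : ((v * u * M' : ℕ) : ℤ) ∣ z' + s
      · obtain ⟨h6, h7⟩ := (hz' s).2 h5
        obtain ⟨h8, h9⟩ := (hz s).2 h6
        rw [if_pos h5, if_pos ⟨e0.2 h8, h9⟩, PM_eq, if_pos (dvd_half.2 h7)]
        ring
      · rw [if_neg h5, mul_zero]
        split_ifs with h6
        · rw [PM_eq, if_neg, mul_zero, mul_zero]
          intro h7
          exact h5 ((hz' s).1 ⟨(hz s).1 ⟨e0.1 h6.1, h6.2⟩, dvd_half.1 h7⟩)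
        · rfl
    have h3 := count_cls (Nat.mul_pos (Nat.mul_pos hv hu) hM'0) z' L
    calc ∑ s ∈ Finset.range L, ∑ r ∈ Finset.range L, G3 (2 * M') u v t (y' + y') s r
        ≤ ∑ s ∈ Finset.range L, (u * v * (2 * M' : ℕ) : ℝ) *
          (if ((v * u * M' : ℕ) : ℤ) ∣ z' + s then (1 : ℝ) else 0) *
            ((2 * M' : ℕ) * (L + (2 * M' : ℕ))) := by
          refine Finset.sum_le_sum fun s _ => ?_
          rw [← h2]
          exact h1 s
      _ = (u * v * (2 * M' : ℕ) : ℝ) * (∑ s ∈ Finset.range L,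
          (if ((v * u * M' : ℕ) : ℤ) ∣ z' + s then (1 : ℝ) else 0)) *
            ((2 * M' : ℕ) * (L + (2 * M' : ℕ))) := by
          rw [← Finset.sum_mul, ← Finset.mul_sum]
      _ ≤ (2 * L + u * v * (2 * M' : ℕ)) * ((2 * M' : ℕ) * (L + (2 * M' : ℕ))) := by
          refine mul_le_mul_of_nonneg_right ?_ (by positivity)
          have h4 := (abs_le.1 h3).2
          have h5 : (∑ s ∈ Finset.range L, (if ((v * u * M' : ℕ) : ℤ) ∣ z' + s then (1 : ℝ) else 0))
              ≤ L / ((v * u * M' : ℕ) : ℝ) + 1 := by linarith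
          calc _ ≤ (u * v * (2 * M' : ℕ) : ℝ) * (L / ((v * u * M' : ℕ) : ℝ) + 1) :=
                mul_le_mul_of_nonneg_left h5 (by positivity)
            _ = 2 * L + u * v * (2 * M' : ℕ) := by
                push_cast
                field_simp
  · rw [if_neg hy]
    refine le_of_eq (Finset.sum_eq_zero fun s _ => Finset.sum_eq_zero fun r _ => ?_)
    unfold G3
    rw [PM_odd hM2 hy]
    simp

/-- the third average -/
lemma ps_avg3 {β : ι → ℝ} (hβ : IndepI β) {M u v K : ℕ} (hM : 0 < M) (hM2 : 2 ∣ M)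
    (hu : u.Prime) (hv : v.Prime) (huv : u ≠ v) (hKu : K < u) (huM : u.Coprime M)
    (hvM : v.Coprime M) : ∃ D : ℝ, 0 ≤ D ∧ ∀ (t y : ℤ) (L : ℕ), 0 < L →
    ∑ s ∈ Finset.range L, (if (v : ℤ) ∣ t - s ∧ (u : ℤ) ∣ y + s then
      (u * v : ℝ) * Ps β M K (y + 2 * s) * ∑ r ∈ Finset.range L,
        Ps β M K (u * ((t - s) / v) + r) * Ps β M K (v * ((y + s) / u) + r) else 0)
      ≤ (if Even y then 2 * (M : ℝ) else 0) * (L * L) + D * L := by
  have hu' : (0 : ℝ) < u := by exact_mod_cast hu.pos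
  have hv' : (0 : ℝ) < v := by exact_mod_cast hv.pos
  have hM' : (0 : ℝ) < M := by exact_mod_cast hM
  obtain ⟨D, hD0, hD⟩ := avgFFF hβ hu hv huv hKu hM ((u * v : ℝ) * M * (M * M))
  refine ⟨D + (2 * M * M + u * v * M * M + u * v * M * M * M), by positivity,
    fun t y L hL => ?_⟩
  have hL1 : (1 : ℝ) ≤ L := by exact_mod_cast hL
  have h1 := hD (G3 M u v t y) (fun s r => by
    rw [abs_of_nonneg (G3_nonneg _ _ _ _ _ _ _)]; exact G3_le _ _ _ _ _ _ _)
    (G3_per1 hu.pos hv.pos t y) (G3_per2 M u v t y) t y L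
  have h2 : ∑ s ∈ Finset.range L, (if (v : ℤ) ∣ t - s ∧ (u : ℤ) ∣ y + s then
      (u * v : ℝ) * Ps β M K (y + 2 * s) * ∑ r ∈ Finset.range L,
        Ps β M K (u * ((t - s) / v) + r) * Ps β M K (v * ((y + s) / u) + r) else 0) =
      ∑ s ∈ Finset.range L, ∑ r ∈ Finset.range L, G3 M u v t y s r *
        (FF β K (y + 2 * s) * FF β K (u * ((t - s) / v) + r) * FF β K (v * ((y + s) / u) + r)) := by
    refine Finset.sum_congr rfl fun s _ => ?_
    unfold G3
    split_ifs with h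
    · rw [Finset.mul_sum]
      refine Finset.sum_congr rfl fun r _ => ?_
      obtain ⟨⟨n, hn⟩, ⟨w, hw⟩⟩ := h
      have hu0 : (u : ℤ) ≠ 0 := by exact_mod_cast hu.ne_zero
      have hv0 : (v : ℤ) ≠ 0 := by exact_mod_cast hv.ne_zero
      have f1 : (t - s) / v = n := by rw [hn]; exact Int.mul_ediv_cancel_left _ hv0
      have f2 : (y + s) / u = w := by rw [hw]; exact Int.mul_ediv_cancel_left _ hu0
      have f3 : ((t : ℝ) - s) / v = n := by
        rw [div_eq_iff hv'.ne']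
        have : ((t - s : ℤ) : ℝ) = ((v * n : ℤ) : ℝ) := by rw [hn]
        push_cast at this
        linarith
      have f4 : ((y : ℝ) + s) / u = w := by
        rw [div_eq_iff hu'.ne']
        have : ((y + s : ℤ) : ℝ) = ((u * w : ℤ) : ℝ) := by rw [hw]
        push_cast at this
        linarith
      rw [f1, f2, f3, f4]
      unfold Ps
      push_cast
      ring
    · simp
  have h3 := G3_sum hM hM2 hu.pos hv.pos ((Nat.coprime_primes hu hv).2 huv) huM hvM t y L
  rw [h2]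
  have h4 := (abs_le.1 h1).2
  have h5 : (if Even y then (2 * L + u * v * M) * (M * (L + M)) else 0 : ℝ) ≤
      (if Even y then 2 * (M : ℝ) else 0) * (L * L) +
        (2 * M * M + u * v * M * M + u * v * M * M * M) * L := by
    split_ifs
    · have h6 : (u * v * M * M * M : ℝ) ≤ u * v * M * M * M * L :=
        le_mul_of_one_le_right (by positivity) hL1
      nlinarith
    · have : (0 : ℝ) ≤ (2 * M * M + u * v * M * M + u * v * M * M * M) * L := by positivity
      linarith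
  linarith

lemma ker_of {β : ι → ℝ} (hβ : IndepI β) {M : ℕ} (hM : 0 < M) (hM2 : 2 ∣ M) (K : ℕ) :
    Ker (Ps β M K) M where
  pos := hM
  even := hM2
  nonneg := Ps_nonneg β M K
  bdd := Ps_bdd β M K
  supp := Ps_supp β M K
  rank := Ps_rank β hM K
  avg := fun i hi => by
    obtain ⟨D, hD0, hD⟩ := ps_avg hβ hM K
    obtain ⟨S₀, hS₀, hS⟩ := small_avg hD0 hi
    refine ⟨S₀, fun L hL y => ?_⟩
    have hL0 : (0 : ℝ) < L := by exact_mod_cast lt_of_lt_of_le hS₀ hL
    have e1 : (1 / (L : ℝ)) * ∑ s ∈ Finset.range L, Ps β M K (y + s) - 1 =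
        (∑ s ∈ Finset.range L, Ps β M K (y + s) - L) / L := by field_simp
    rw [e1, abs_div, abs_of_pos hL0]
    exact (div_le_div_of_nonneg_right (hD y L) hL0.le).trans (hS L hL)

lemma keruv_of {β : ι → ℝ} (hβ : IndepI β) {M u v K : ℕ} (hM : 0 < M) (hM2 : 2 ∣ M)
    (hu : u.Prime) (hv : v.Prime) (huv : u ≠ v) (hKu : K < u) (huM : u.Coprime M)
    (hvM : v.Coprime M) : KerUV (Ps β M K) M u v where
  avg2 := fun i hi => by
    obtain ⟨D, hD0, hD⟩ := ps_avg2 hβ hM hM2 hv.pos hvM K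
    obtain ⟨S₀, hS₀, hS⟩ := small_avg hD0 hi
    refine ⟨S₀, fun L hL y a => ?_⟩
    have hL0 : (0 : ℝ) < L := by exact_mod_cast lt_of_lt_of_le hS₀ hL
    have e1 : (v / (L : ℝ)) * ∑ s ∈ Finset.range L,
        (if (v : ℤ) ∣ a + s then Ps β M K (y + 2 * s) else 0) - (if Even y then 2 else 0) =
        (v * ∑ s ∈ Finset.range L, (if (v : ℤ) ∣ a + s then Ps β M K (y + 2 * s) else 0) -
          (if Even y then 2 else 0) * L) / L := by field_simp
    rw [e1, abs_div, abs_of_pos hL0]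
    exact (div_le_div_of_nonneg_right (hD y a L) hL0.le).trans (hS L hL)
  avg3 := fun i hi => by
    obtain ⟨D, hD0, hD⟩ := ps_avg3 hβ hM hM2 hu hv huv hKu huM hvM
    obtain ⟨S₀, hS₀, hS⟩ := small_avg hD0 hi
    refine ⟨S₀, fun L hL t y _ => ?_⟩
    have hL0 : (0 : ℝ) < L := by exact_mod_cast lt_of_lt_of_le hS₀ hL
    have h1 := hD t y L (lt_of_lt_of_le hS₀ hL)
    have e1 : (1 / (L : ℝ)) * ∑ s ∈ Finset.range L, (if (v : ℤ) ∣ t - s ∧ (u : ℤ) ∣ y + s then
      (u * v : ℝ) * Ps β M K (y + 2 * s) * ((1 / (L : ℝ)) * ∑ r ∈ Finset.range L,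
        Ps β M K (u * ((t - s) / v) + r) * Ps β M K (v * ((y + s) / u) + r)) else 0) =
        (∑ s ∈ Finset.range L, (if (v : ℤ) ∣ t - s ∧ (u : ℤ) ∣ y + s then
      (u * v : ℝ) * Ps β M K (y + 2 * s) * ∑ r ∈ Finset.range L,
        Ps β M K (u * ((t - s) / v) + r) * Ps β M K (v * ((y + s) / u) + r) else 0)) / (L * L) := by
      rw [Finset.mul_sum, Finset.sum_div]
      refine Finset.sum_congr rfl fun s _ => ?_
      split_ifs
      · field_simp
      · simp
    rw [e1, div_le_iff₀ (by positivity)]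
    have h2 := hS L hL
    rw [div_le_iff₀ hL0] at h2
    have h3 : D * L ≤ i * L * L := mul_le_mul_of_nonneg_right h2 hL0.le
    linarith

end VP42

end Pool.Agent.LC79
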